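import Pool.Agent.W_7d29a1_SQ.DefsSQ

/-!
The top of THEOREM SQ: from the leaves to the theorem.
-/

namespace Pool.Agent.W_7d29a1_SQ

open MeasureTheory ProbabilityTheory Filter Topology Pool.Agent.W_MP_7d29a1_pr
  Pool.Agent.W_7d29a1_h46 Pool.Agent.W_7d29a1_h46u Pool.Agent.W_7d29a1_D2.B35
  Pool.Agent.W_7d29a1_Q29 Pool.Agent.W_7d29a1_R34 Pool.Agent.W_7d29a1_SP Pool.Agent.W_7d29a1_SD

variable {d : ℕ} {ρ : Measure ℝ} {β : ℝ}

lemma En_zero32 (h : Vec d) [IsProbabilityMeasure ρ] : En ρ β h 0 = 0 := by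
  unfold En A
  have h1 : ∀ η : Env d, X β h η 0 = 0 := by
    intro η
    unfold X
    rw [Z_zero, Real.log_one]
  simp [h1]

lemma Fn_nonneg32 (h : Vec d) (n : ℕ) : 0 ≤ Fn ρ β h n := integral_nonneg fun _ => abs_nonneg _

lemma supE_nonneg32 (h : Vec d) [IsProbabilityMeasure ρ] (n : ℕ) :
    0 ≤ (Finset.range (n + 1)).sup' ⟨0, by simp⟩ (En ρ β h) := by
  rw [← En_zero32 (ρ := ρ) (β := β) h]
  exact Finset.le_sup' (En ρ β h) (by simp)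

lemma supF_nonneg32 (h : Vec d) (n : ℕ) :
    0 ≤ (Finset.range (n + 1)).sup' ⟨0, by simp⟩ (Fn ρ β h) :=
  (Fn_nonneg32 h 0).trans (Finset.le_sup' (Fn ρ β h) (by simp))

lemma one_le_Ps32 (h : Vec d) [IsProbabilityMeasure ρ] (n : ℕ) : 1 ≤ Ps ρ β h n := by
  unfold Ps
  have h1 := supE_nonneg32 (ρ := ρ) (β := β) h n
  have h2 := supF_nonneg32 (ρ := ρ) (β := β) h n
  linarith

lemma mono_Ps32 (h : Vec d) : Monotone (Ps ρ β h) := by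
  intro m n hmn
  unfold Ps
  have hs : Finset.range (m + 1) ⊆ Finset.range (n + 1) :=
    Finset.range_subset_range.2 (Nat.add_le_add_right hmn 1)
  have h1 := Finset.sup'_mono (En ρ β h) hs ⟨0, by simp⟩
  have h2 := Finset.sup'_mono (Fn ρ β h) hs ⟨0, by simp⟩
  linarith

/-- Every term is at most the maximum. -/
lemma En_le_Ps32 (h : Vec d) [IsProbabilityMeasure ρ] {k n : ℕ} (hk : k ≤ n) :
    En ρ β h k ≤ Ps ρ β h n - 1 := by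
  unfold Ps
  have h1 : En ρ β h k ≤ (Finset.range (n + 1)).sup' ⟨0, by simp⟩ (En ρ β h) :=
    Finset.le_sup' (En ρ β h) (by simp; omega)
  have h2 := supF_nonneg32 (ρ := ρ) (β := β) h n
  linarith

lemma Fn_le_Ps32 (h : Vec d) [IsProbabilityMeasure ρ] {k n : ℕ} (hk : k ≤ n) :
    Fn ρ β h k ≤ Ps ρ β h n - 1 := by
  unfold Ps
  have h1 : Fn ρ β h k ≤ (Finset.range (n + 1)).sup' ⟨0, by simp⟩ (Fn ρ β h) :=
    Finset.le_sup' (Fn ρ β h) (by simp; omega)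
  have h2 := supE_nonneg32 (ρ := ρ) (β := β) h n
  linarith

lemma Ps_le32 (h : Vec d) {C₀ : ℝ} (hC₀ : 0 ≤ C₀) (hP : ∀ n : ℕ,
    En ρ β h n ≤ C₀ * (n : ℝ) ^ (51 / 100 : ℝ) ∧ Fn ρ β h n ≤ C₀ * (n : ℝ) ^ (51 / 100 : ℝ))
    (n : ℕ) : Ps ρ β h n ≤ 1 + (2 * C₀) * (n : ℝ) ^ (51 / 100 : ℝ) := by
  unfold Ps
  have hmon : ∀ k ∈ Finset.range (n + 1),
      C₀ * (k : ℝ) ^ (51 / 100 : ℝ) ≤ C₀ * (n : ℝ) ^ (51 / 100 : ℝ) := by
    intro k hk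
    have hk' : (k : ℝ) ≤ n := by exact_mod_cast Nat.lt_succ_iff.1 (Finset.mem_range.1 hk)
    exact mul_le_mul_of_nonneg_left (Real.rpow_le_rpow (by positivity) hk' (by norm_num)) hC₀
  have h1 : (Finset.range (n + 1)).sup' ⟨0, by simp⟩ (En ρ β h) ≤
      C₀ * (n : ℝ) ^ (51 / 100 : ℝ) :=
    Finset.sup'_le _ _ fun k hk => (hP k).1.trans (hmon k hk)
  have h2 : (Finset.range (n + 1)).sup' ⟨0, by simp⟩ (Fn ρ β h) ≤
      C₀ * (n : ℝ) ^ (51 / 100 : ℝ) :=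
    Finset.sup'_le _ _ fun k hk => (hP k).2.trans (hmon k hk)
  linarith

lemma kap_mono32 {Q c : ℝ} (hQ : 0 ≤ Q) (hc : 0 ≤ c) : Monotone (kap Q c) := by
  intro a b hab
  unfold kap
  refine mul_le_mul_of_nonneg_left (Real.exp_le_exp.2 (mul_le_mul_of_nonneg_left
    (Real.sqrt_le_sqrt ?_) hc)) hQ
  rcases Nat.eq_zero_or_pos a with rfl | ha
  · simp only [Nat.cast_zero, Real.log_zero]
    exact Real.log_natCast_nonneg b
  · exact Real.log_le_log (by exact_mod_cast ha) (by exact_mod_cast hab)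

lemma one_le_kap32 {Q c : ℝ} (hQ : 1 ≤ Q) (hc : 0 ≤ c) (n : ℕ) : 1 ≤ kap Q c n := by
  unfold kap
  have h1 : 1 ≤ Real.exp (c * Real.sqrt (Real.log n)) :=
    Real.one_le_exp (mul_nonneg hc (Real.sqrt_nonneg _))
  nlinarith

/-- TOP. -/
theorem top32 [IsProbabilityMeasure ρ] (hSel : SelQ ρ β) (hLm : LmP ρ β) (hGro : GroQ ρ β)
    (hRec : RecQ ρ β) (hFin : FinQ) (hPri : PriP 2 ρ β) (hUnb : UnbP 2 ρ β)
    (hLoc : LocE 2 ρ β) : MainSQ ρ β := by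
  filter_upwards [hSel] with v hv h hV
  by_contra hneg
  have hN : ∀ c : ℝ, 0 < c → ∀ᶠ n : ℕ in atTop, ∀ R : ℝ, 1 ≤ R →
      R * Tb ρ β h v R n ≤ Real.exp (c * Real.sqrt (Real.log n)) := by
    intro c hc
    by_contra h1
    refine hneg ⟨c, hc, ?_⟩
    rw [Filter.not_eventually] at h1
    refine h1.mono fun n hn => ?_
    push Not at hn
    exact hn
  have hD := hv h hV hN
  -- the constants
  set g : ℝ := Real.log (Phi h) + Real.log (∫ t, Real.exp (β * t) ∂ρ) - lam ρ β h with hg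
  have hg0 : 0 < g := by
    have := hV
    unfold VSD at this
    linarith
  obtain ⟨c₀, hc₀, hL⟩ := hLoc g hg0
  have hL1 : Loc1 ρ β h c₀ := hL h (by rw [hg]; linarith)
  set κ : ℝ := min (c₀ / 4) (1 / 4000) with hκ
  have hκ0 : 0 < κ := lt_min (by positivity) (by norm_num)
  have hκ1 : κ ≤ c₀ / 4 := min_le_left _ _
  have hκ2 : κ ≤ 1 / 4000 := min_le_right _ _
  obtain ⟨c₁, K, Q₀, hc₁, hc₁', hK, hQ₀, hLC⟩ := hLm c₀ κ hc₀ hκ0 hκ2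
  obtain ⟨C₁, K₁, k₁, hC₁, hK₁, hG⟩ := hGro c₀ κ c₁ K Q₀ hc₀ hc₁ hc₁' hK hQ₀ hLC
  obtain ⟨C₂, Q₁, K₂, k₂, hC₂, hQ₁, hK₂, hR⟩ :=
    hRec c₀ κ c₁ K Q₀ hc₀ hκ0 hκ1 hc₁ hc₁' hK hQ₀ hLC
  obtain ⟨c, hc, hc1, hF⟩ := hFin (max C₁ C₂) (max K₁ K₂) (max k₁ k₂)
    (hC₁.trans (le_max_left _ _)) (hK₁.trans (le_max_left _ _))
  obtain ⟨Q₂, hQ₂⟩ := hD κ hκ0 (hκ2.trans (by norm_num))
  set Q : ℝ := max Q₂ Q₁ with hQ
  have hQQ1 : Q₁ ≤ Q := le_max_right _ _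
  have hQQ0 : Q₀ ≤ Q := hQ₁.trans hQQ1
  have hQ1 : 1 ≤ Q := hQ₀.trans hQQ0
  have hDat : Dat ρ β h v κ Q c := hQ₂ Q (le_max_left _ _) c hc
  obtain ⟨Cs₁, hG1⟩ := hG h v Q c hQQ0 hc hc1 hL1 hDat
  obtain ⟨Cs₂, hR1⟩ := hR h v Q c hQQ1 hc hc1 hL1 hDat
  obtain ⟨C₀, hC₀, hP⟩ := hPri h
  have hkm := kap_mono32 (Q := Q) (c := c) (by linarith) hc.le
  have hk1 := one_le_kap32 (Q := Q) (c := c) hQ1 hc.le
  have hkk : ∀ (n a b k k' : ℕ), a ≤ b → k ≤ k' →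
      kap Q c (a * n) ^ k ≤ kap Q c (b * n) ^ k' := by
    intro n a b k k' hab hkk'
    calc kap Q c (a * n) ^ k ≤ kap Q c (b * n) ^ k :=
          pow_le_pow_left₀ (zero_le_one.trans (hk1 _)) (hkm (Nat.mul_le_mul_right n hab)) k
      _ ≤ kap Q c (b * n) ^ k' := pow_le_pow_right₀ (hk1 _) hkk'
  refine hF Q (2 * C₀) (max Cs₁ Cs₂) (Ps ρ β h) hQ1 (by positivity) (mono_Ps32 h)
    (one_le_Ps32 h) (Ps_le32 h hC₀ hP) (hUnb h hV) ?_ ?_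
  · intro n hn hCs T hT
    refine hG1 n hn ((le_max_left _ _).trans hCs) T (le_trans ?_ hT)
    have h1 := hkk n K₁ (max K₁ K₂) k₁ (max k₁ k₂) (le_max_left _ _) (le_max_left _ _)
    have h2 : C₁ * (n : ℝ) ≤ max C₁ C₂ * n :=
      mul_le_mul_of_nonneg_right (le_max_left _ _) (Nat.cast_nonneg n)
    have h3 : 0 ≤ kap Q c (K₁ * n) ^ k₁ := by
      have := hk1 (K₁ * n)
      positivity
    have h4 : 0 ≤ max C₁ C₂ * (n : ℝ) := by
      have : 0 ≤ max C₁ C₂ := zero_le_one.trans (hC₁.trans (le_max_left _ _))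
      positivity
    exact mul_le_mul h2 h1 h3 h4
  · intro n hn hCs
    have h0 := hR1 n hn ((le_max_right _ _).trans hCs)
    refine h0.trans ?_
    have h1 := hkk n K₂ (max K₁ K₂) k₂ (max k₁ k₂) (le_max_right _ _) (le_max_right _ _)
    have h3 : 0 ≤ kap Q c (K₂ * n) ^ k₂ := by
      have := hk1 (K₂ * n)
      positivity
    exact mul_le_mul (le_max_right _ _) h1 h3 (zero_le_one.trans (hC₁.trans (le_max_left _ _)))

end Pool.Agent.W_7d29a1_SQ
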