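import Pool.Agent.W_7d29a1_SQ.DefsSQ
import Pool.Agent.W_7d29a1_SP.Step15

/-!
Leaf GRO: growth at a right record.
-/

set_option autoImplicit false

namespace Pool.Agent.W_7d29a1_SQ

open MeasureTheory ProbabilityTheory Filter Topology Pool.Agent.W_MP_7d29a1_pr
  Pool.Agent.W_7d29a1_h46 Pool.Agent.W_7d29a1_h46u Pool.Agent.W_7d29a1_D2.B35
  Pool.Agent.W_7d29a1_Q29 Pool.Agent.W_7d29a1_R34 Pool.Agent.W_7d29a1_SP Pool.Agent.W_7d29a1_SD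

lemma supE78 {d : ℕ} {ρ : Measure ℝ} [IsProbabilityMeasure ρ] (β : ℝ) (h : Vec d) (n : ℕ) :
    0 ≤ (Finset.range (n + 1)).sup' ⟨0, by simp⟩ (En ρ β h) := by
  have h1 := Finset.le_sup' (En ρ β h) (s := Finset.range (n + 1)) (b := 0) (by simp)
  rwa [En_zero15] at h1

lemma supF78 {d : ℕ} {ρ : Measure ℝ} [IsProbabilityMeasure ρ] (β : ℝ) (h : Vec d) (n : ℕ) :
    0 ≤ (Finset.range (n + 1)).sup' ⟨0, by simp⟩ (Fn ρ β h) := by
  have h1 := Finset.le_sup' (Fn ρ β h) (s := Finset.range (n + 1)) (b := 0) (by simp)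
  rwa [Fn_zero15] at h1

lemma one_le_Ps78 {d : ℕ} {ρ : Measure ℝ} [IsProbabilityMeasure ρ] (β : ℝ) (h : Vec d) (n : ℕ) :
    1 ≤ Ps ρ β h n := by
  have h1 := supE78 (ρ := ρ) β h n
  have h2 := supF78 (ρ := ρ) β h n
  unfold Ps
  linarith

lemma En_le_Ps78 {d : ℕ} {ρ : Measure ℝ} [IsProbabilityMeasure ρ] (β : ℝ) (h : Vec d) {n k : ℕ}
    (hk : k ≤ n) : En ρ β h k + 1 ≤ Ps ρ β h n := by
  have h1 := Finset.le_sup' (En ρ β h) (s := Finset.range (n + 1)) (b := k)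
    (by simp; omega)
  have h2 := supF78 (ρ := ρ) β h n
  unfold Ps
  linarith

lemma Fn_le_Ps78 {d : ℕ} {ρ : Measure ℝ} [IsProbabilityMeasure ρ] (β : ℝ) (h : Vec d) {n k : ℕ}
    (hk : k ≤ n) : Fn ρ β h k + 1 ≤ Ps ρ β h n := by
  have h1 := Finset.le_sup' (Fn ρ β h) (s := Finset.range (n + 1)) (b := k)
    (by simp; omega)
  have h2 := supE78 (ρ := ρ) β h n
  unfold Ps
  linarith

/-- Leaf GRO. -/
theorem gro78 {ρ : Measure ℝ} [IsProbabilityMeasure ρ] {β : ℝ} (hB : BalP 2 ρ β)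
    (hG : GrowP 2 ρ β) : GroQ ρ β := by
  intro c₀ κ c K Q₀ hc₀ hc hc1 hK hQ₀ hL
  obtain ⟨cb, hcb, hB'⟩ := hB c₀ (c / 2) hc₀ (by linarith) K
  obtain ⟨CG, hCG, hG'⟩ := hG c₀ (12 / c) hc₀ (by
    rw [le_div_iff₀ hc]
    linarith)
  obtain ⟨c₁, hc₁d⟩ : ∃ c₁, c₁ = min cb c := ⟨_, rfl⟩
  have hc₁ : 0 < c₁ := by
    rw [hc₁d]
    exact lt_min hcb hc
  have hc₁b : c₁ ≤ cb := by
    rw [hc₁d]
    exact min_le_left _ _
  have hc₁c : c₁ ≤ c := by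
    rw [hc₁d]
    exact min_le_right _ _
  have hc₁1 : c₁ ≤ 1 := hc₁c.trans hc1
  have hCG0 : 0 < CG := by linarith
  have hK1 : (1 : ℝ) ≤ K := by exact_mod_cast hK
  have hinv : 1 ≤ (1 / c₁) ^ CG := by
    refine Real.one_le_rpow ?_ hCG0.le
    rw [le_div_iff₀ hc₁]
    linarith
  refine ⟨CG * K * (1 / c₁) ^ CG, 2000 * K, ⌈12 * CG⌉₊, ?_, by omega,
    fun h v Q c' hQ hc' hc'1 hloc hD => ?_⟩
  · have h1 : 1 ≤ CG * K := by nlinarith
    nlinarith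
  have hQ1 : 1 ≤ Q := hQ₀.trans hQ
  obtain ⟨Cs, hCs⟩ := hL h v Q c' hQ hc' hc'1 hloc hD
  refine ⟨Cs, fun n hR hn T hT => ?_⟩
  obtain ⟨m, hm1, hmK, hlm⟩ := hCs n hR hn
  have hbal := hB' h hloc n hR m hm1 hmK
  obtain ⟨κ', hκ'⟩ : ∃ x, x = kap Q c' (2000 * K * n) := ⟨_, rfl⟩
  have hκ1 : 1 ≤ κ' := by
    rw [hκ']
    exact one_le_kap15 hQ1 hc' _
  have hκ0 : 0 < κ' := by linarith
  have hkm : kap Q c' (2000 * m) ≤ κ' := by
    rw [hκ']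
    refine kap_mono15 hQ1 hc' ?_
    rw [mul_assoc]
    exact Nat.mul_le_mul_left _ hmK
  have hkm1 : 1 ≤ kap Q c' (2000 * m) := one_le_kap15 hQ1 hc' _
  have hκ12 : 1 ≤ κ' ^ 12 := one_le_pow₀ hκ1
  have hP1 := one_le_Ps78 (ρ := ρ) β h n
  by_contra hcon
  rw [not_le] at hcon
  have hq0 : 0 < c₁ / κ' ^ 12 := by positivity
  have hq1 : c₁ / κ' ^ 12 ≤ 1 := by
    rw [div_le_one (by positivity)]
    linarith
  have hq2 : c₁ / κ' ^ 12 ≤ cb := by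
    refine le_trans ?_ hc₁b
    rw [div_le_iff₀ (by positivity)]
    nlinarith
  have hq3 : c₁ / κ' ^ 12 ≤ c / kap Q c' (2000 * m) ^ 12 := by
    refine div_le_div₀ hc.le hc₁c (by positivity) ?_
    exact pow_le_pow_left₀ (by linarith) hkm 12
  have hTT : CG * m * (1 / (c₁ / κ' ^ 12)) ^ CG ≤ T := by
    refine le_trans ?_ hT
    rw [← hκ']
    have e1 : (1 / (c₁ / κ' ^ 12)) ^ CG = (1 / c₁) ^ CG * (κ' ^ 12) ^ CG := by
      rw [← Real.mul_rpow (by positivity) (by positivity)]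
      congr 1
      field_simp
    have e2 : (κ' ^ 12) ^ CG ≤ κ' ^ ⌈12 * CG⌉₊ := by
      have e3 : (κ' ^ 12) ^ CG = κ' ^ (12 * CG) := by
        rw [Real.rpow_mul hκ0.le]
        congr 1
        exact_mod_cast (Real.rpow_natCast κ' 12).symm
      rw [e3, ← Real.rpow_natCast κ' ⌈12 * CG⌉₊]
      exact Real.rpow_le_rpow_of_exponent_le hκ1 (Nat.le_ceil _)
    have hmK' : (m : ℝ) ≤ K * n := by exact_mod_cast hmK
    rw [e1]
    have e4 : CG * (m : ℝ) ≤ CG * (K * n) := mul_le_mul_of_nonneg_left hmK' hCG0.le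
    have e5 : (1 / c₁) ^ CG * (κ' ^ 12) ^ CG ≤ (1 / c₁) ^ CG * κ' ^ ⌈12 * CG⌉₊ :=
      mul_le_mul_of_nonneg_left e2 (by positivity)
    have e6 := mul_le_mul e4 e5 (by positivity) (by positivity)
    refine e6.trans (le_of_eq ?_)
    ring
  have hfin := hG' h hloc m T (A ρ β h m + c / 2 * Ps ρ β h n) (A ρ β h m + c * Ps ρ β h n)
    (c₁ / κ' ^ 12) (Ps ρ β h T) hm1 hq0 hq1 (by nlinarith) (by nlinarith) (hq2.trans hbal)
    (hq3.trans hlm) hTT (fun k hk => ⟨by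
      have := En_le_Ps78 (ρ := ρ) β h hk
      linarith, by
      have := Fn_le_Ps78 (ρ := ρ) β h hk
      linarith⟩)
  have e7 : 12 / c * (A ρ β h m + c * Ps ρ β h n - (A ρ β h m + c / 2 * Ps ρ β h n)) =
      6 * Ps ρ β h n := by
    field_simp
    ring
  rw [e7] at hfin
  linarith

end Pool.Agent.W_7d29a1_SQ
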