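import Pool.Agent.W_7d29a1_SQ.DefsSQ
import Pool.Agent.W_7d29a1_SQ.Gro78

/-!
Leaf FLU (second text): a large random fluctuation is seen with a fixed probability.
-/

set_option autoImplicit false

namespace Pool.Agent.W_7d29a1_SQ.F78

open MeasureTheory ProbabilityTheory Filter Topology Pool.Agent.W_MP_7d29a1_pr
  Pool.Agent.W_7d29a1_h46 Pool.Agent.W_7d29a1_h46u Pool.Agent.W_7d29a1_D2.B35
  Pool.Agent.W_7d29a1_Q29 Pool.Agent.W_7d29a1_R34 Pool.Agent.W_7d29a1_SP Pool.Agent.W_7d29a1_SD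

/-- A tail of order `3 / 2` controls the excess. -/
lemma exc78 {Ω : Type*} [MeasurableSpace Ω] {μ : Measure Ω} [IsProbabilityMeasure μ] {Y : Ω → ℝ}
    (hY : Integrable Y μ) {D B : ℝ} (hD : 0 ≤ D) (hB : 0 < B)
    (hT : ∀ u : ℝ, B ≤ u → μ.real {w | u ≤ Y w} ≤ (D / u) ^ (3 / 2 : ℝ)) :
    ∫ w, max (Y w - B) 0 ∂μ ≤ 2 * (D ^ (3 / 2 : ℝ) * B ^ (-(1 / 2) : ℝ)) := by
  have hi : Integrable (fun w => max (Y w - B) 0) μ := (hY.sub (integrable_const _)).pos_part
  rw [hi.integral_eq_integral_meas_lt (Eventually.of_forall fun w => le_max_right _ _)]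
  have hDp : 0 ≤ D ^ (3 / 2 : ℝ) := Real.rpow_nonneg hD _
  have hder : ∀ t ∈ Set.Ici (0 : ℝ), HasDerivAt
      (fun t : ℝ => -(2 * (D ^ (3 / 2 : ℝ) * (B + t) ^ (-(1 / 2) : ℝ))))
      (D ^ (3 / 2 : ℝ) * (B + t) ^ (-(3 / 2) : ℝ)) t := by
    intro t ht
    have h0 : (0 : ℝ) < B + t := by
      have : (0 : ℝ) ≤ t := ht
      linarith
    have h1 : HasDerivAt (fun t : ℝ => B + t) 1 t := (hasDerivAt_id t).const_add B
    have h2 := (((h1.rpow_const (p := (-(1 / 2) : ℝ)) (Or.inl h0.ne')).const_mul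
      (D ^ (3 / 2 : ℝ))).const_mul 2).neg
    have e : -(2 * (D ^ (3 / 2 : ℝ) * (1 * (-(1 / 2) : ℝ) * (B + t) ^ ((-(1 / 2) : ℝ) - 1)))) =
        D ^ (3 / 2 : ℝ) * (B + t) ^ (-(3 / 2) : ℝ) := by
      have e1 : ((-(1 / 2) : ℝ) - 1) = (-(3 / 2) : ℝ) := by norm_num
      rw [e1]
      ring
    rwa [e] at h2
  have hpos : ∀ t ∈ Set.Ioi (0 : ℝ), 0 ≤ D ^ (3 / 2 : ℝ) * (B + t) ^ (-(3 / 2) : ℝ) :=
    fun t ht => mul_nonneg hDp (Real.rpow_nonneg (by
      have : (0 : ℝ) < t := ht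
      linarith) _)
  have hlim : Tendsto (fun t : ℝ => -(2 * (D ^ (3 / 2 : ℝ) * (B + t) ^ (-(1 / 2) : ℝ)))) atTop
      (𝓝 0) := by
    have h1 : Tendsto (fun t : ℝ => B + t) atTop atTop :=
      tendsto_atTop_add_const_left _ _ tendsto_id
    have h2 := ((((tendsto_rpow_neg_atTop (y := (1 / 2 : ℝ)) (by norm_num)).comp h1).const_mul
      (D ^ (3 / 2 : ℝ))).const_mul 2).neg
    simpa using h2
  have h3 := integrableOn_Ioi_deriv_of_nonneg' (a := 0) hder hpos hlim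
  have h4 := integral_Ioi_of_hasDerivAt_of_tendsto' (a := 0) hder h3 hlim
  have h5 : ∫ t in Set.Ioi (0 : ℝ), μ.real {w | t < max (Y w - B) 0} ≤
      ∫ t in Set.Ioi (0 : ℝ), D ^ (3 / 2 : ℝ) * (B + t) ^ (-(3 / 2) : ℝ) := by
    refine integral_mono_of_nonneg (Eventually.of_forall fun t => measureReal_nonneg) h3 ?_
    filter_upwards [ae_restrict_mem measurableSet_Ioi] with t ht
    have ht0 : (0 : ℝ) < t := ht
    have hBt : (0 : ℝ) < B + t := by linarith
    have e : (D / (B + t)) ^ (3 / 2 : ℝ) = D ^ (3 / 2 : ℝ) * (B + t) ^ (-(3 / 2) : ℝ) := by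
      rw [Real.div_rpow hD hBt.le, Real.rpow_neg hBt.le, div_eq_mul_inv]
    rw [← e]
    refine (measureReal_mono ?_).trans (hT (B + t) (by linarith))
    intro w hw
    have hw1 : t < max (Y w - B) 0 := hw
    show B + t ≤ Y w
    rcases lt_max_iff.1 hw1 with h6 | h6
    · linarith
    · linarith
  refine h5.trans (le_of_eq ?_)
  rw [h4]
  simp

end Pool.Agent.W_7d29a1_SQ.F78

namespace Pool.Agent.W_7d29a1_SQ

open MeasureTheory ProbabilityTheory Filter Topology Pool.Agent.W_MP_7d29a1_pr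
  Pool.Agent.W_7d29a1_h46 Pool.Agent.W_7d29a1_h46u Pool.Agent.W_7d29a1_D2.B35
  Pool.Agent.W_7d29a1_Q29 Pool.Agent.W_7d29a1_R34 Pool.Agent.W_7d29a1_SP Pool.Agent.W_7d29a1_SD

/-- Leaf FLU. -/
theorem flu78 {d : ℕ} {ρ : Measure ℝ} [IsProbabilityMeasure ρ] (hd : 0 < d) (hρ : EM ρ) {β : ℝ}
    (hT : TaiP d ρ β) : FluP d ρ β := by
  intro c₀ δ hc hδ K
  obtain ⟨C, hC, hT⟩ := hT c₀ hc K
  have hC0 : (0 : ℝ) < C := by linarith
  set a : ℝ := 16 * C ^ (3 / 2 : ℝ) / δ with ha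
  have hCp : 0 < C ^ (3 / 2 : ℝ) := Real.rpow_pos_of_pos hC0 _
  have ha0 : 0 < a := by positivity
  refine ⟨δ / (4 * a ^ 2), by positivity, fun h hL n hn m hm hmK hF => ?_⟩
  have hP1 : 1 ≤ Ps ρ β h n := one_le_Ps78 β h n
  set P := Ps ρ β h n with hP
  have hP0 : 0 < P := by linarith
  set F := Fn ρ β h m with hFd
  have hF0 : 0 < F := lt_of_lt_of_le (by positivity) hF
  set Y : Env d → ℝ := fun η => X β h η m - A ρ β h m with hYd
  have hYm : Measurable Y := (measurable_X β h m).sub_const _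
  have hYi : Integrable Y (law d ρ) := intX15 hd hρ β h m
  have hY0 : ∫ η, Y η ∂(law d ρ) = 0 := mean15 hd hρ β h m
  have hS : MeasurableSet {η | F / 8 < Y η} := measurableSet_lt measurable_const hYm
  have h1 := half15 (μ := law d ρ) hYm hYi hY0 hF0 rfl
  have hB0 : 0 < a ^ 2 * P := by positivity
  have h2 := F78.exc78 (μ := law d ρ) hYi (D := C * P) (B := a ^ 2 * P) (by positivity) hB0
    (fun u hu => by
      have hu0 : 0 < u := lt_of_lt_of_le hB0 hu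
      refine (measureReal_mono ?_).trans (hT h hL n hn m hm hmK u hu0)
      intro η hη
      have hη1 : u ≤ X β h η m - A ρ β h m := hη
      show A ρ β h m + u ≤ X β h η m
      linarith)
  have h3 : 2 * ((C * P) ^ (3 / 2 : ℝ) * (a ^ 2 * P) ^ (-(1 / 2) : ℝ)) = δ * P / 8 := by
    rw [Real.mul_rpow hC0.le hP0.le, Real.mul_rpow (by positivity) hP0.le]
    have e1 : (a ^ 2) ^ (-(1 / 2) : ℝ) = a⁻¹ := by
      rw [← Real.rpow_natCast, ← Real.rpow_mul ha0.le, ← Real.rpow_neg_one]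
      congr 1
      norm_num
    have e2 : P ^ (3 / 2 : ℝ) * P ^ (-(1 / 2) : ℝ) = P := by
      rw [← Real.rpow_add hP0]
      norm_num
    have e3 : 2 * (C ^ (3 / 2 : ℝ) * P ^ (3 / 2 : ℝ) * ((a ^ 2) ^ (-(1 / 2) : ℝ) *
        P ^ (-(1 / 2) : ℝ))) = 2 * C ^ (3 / 2 : ℝ) * (a ^ 2) ^ (-(1 / 2) : ℝ) *
        (P ^ (3 / 2 : ℝ) * P ^ (-(1 / 2) : ℝ)) := by ring
    rw [e3, e1, e2, ha]
    field_simp
    ring
  rw [h3] at h2
  -- the decomposition
  have h4 : ∫ η in {η | F / 8 < Y η}, Y η ∂(law d ρ) ≤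
      a ^ 2 * P * (law d ρ).real {η | F / 8 < Y η} + ∫ η, max (Y η - a ^ 2 * P) 0 ∂(law d ρ) := by
    rw [← integral_indicator hS]
    have i1 : Integrable (fun η => Set.indicator {η | F / 8 < Y η} (fun _ => a ^ 2 * P) η)
        (law d ρ) := (integrable_const _).indicator hS
    have i2 : Integrable (fun η => max (Y η - a ^ 2 * P) 0) (law d ρ) :=
      (hYi.sub (integrable_const _)).pos_part
    have e1 : a ^ 2 * P * (law d ρ).real {η | F / 8 < Y η} =
        ∫ η, Set.indicator {η | F / 8 < Y η} (fun _ => a ^ 2 * P) η ∂(law d ρ) := by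
      rw [integral_indicator_const _ hS, smul_eq_mul, mul_comm]
    rw [e1, ← integral_add i1 i2]
    refine integral_mono (hYi.indicator hS) (i1.add i2) fun η => ?_
    show Set.indicator {η | F / 8 < Y η} (fun η => Y η) η ≤
      Set.indicator {η | F / 8 < Y η} (fun _ => a ^ 2 * P) η + max (Y η - a ^ 2 * P) 0
    by_cases hη : η ∈ {η | F / 8 < Y η}
    · rw [Set.indicator_of_mem hη, Set.indicator_of_mem hη]
      have := le_max_left (Y η - a ^ 2 * P) 0
      linarith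
    · rw [Set.indicator_of_notMem hη, Set.indicator_of_notMem hη, zero_add]
      exact le_max_right _ _
  have h5 : {η | A ρ β h m + F / 8 < X β h η m} = {η | F / 8 < Y η} := by
    ext η
    show A ρ β h m + F / 8 < X β h η m ↔ F / 8 < X β h η m - A ρ β h m
    constructor <;> intro h <;> linarith
  rw [h5]
  set p := (law d ρ).real {η | F / 8 < Y η} with hp
  have h6 : δ * P / 4 ≤ a ^ 2 * P * p := by linarith
  rw [div_le_iff₀ (by positivity)]
  have h7 : δ * P ≤ (p * (4 * a ^ 2)) * P := by linarith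
  exact le_of_mul_le_mul_right h7 hP0

end Pool.Agent.W_7d29a1_SQ
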