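import Pool.Agent.W_7d29a1_SQ.DefsSQ

/-!
Theorem SQ, leaf FIN (helper83): growth at right records contradicts a subpolynomial bound at right
records.
-/

namespace Pool.Agent.W_7d29a1_SQ

open MeasureTheory ProbabilityTheory Filter Topology Pool.Agent.W_7d29a1_SP

/-- From every time there is a right record later. -/
lemma rrec83 {f : ℕ → ℝ} {C₀ : ℝ} (hC₀ : 0 ≤ C₀) (hf1 : ∀ n, 1 ≤ f n)
    (hpol : ∀ n : ℕ, f n ≤ 1 + C₀ * (n : ℝ) ^ (51 / 100 : ℝ)) {n : ℕ} (hn : 1 ≤ n) :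
    ∃ n' : ℕ, n ≤ n' ∧ RRec f n' ∧
      f n * (n : ℝ) ^ (-(2 / 3) : ℝ) ≤ f n' * (n' : ℝ) ^ (-(2 / 3) : ℝ) := by
  obtain ⟨g, hg⟩ : ∃ g : ℕ → ℝ, g = fun T => f T * (T : ℝ) ^ (-(2 / 3) : ℝ) := ⟨_, rfl⟩
  have hcast : Tendsto (fun T : ℕ => (T : ℝ)) atTop atTop := tendsto_natCast_atTop_atTop
  have h1 : Tendsto (fun T : ℕ => (T : ℝ) ^ (-(2 / 3) : ℝ)) atTop (𝓝 0) :=
    (tendsto_rpow_neg_atTop (by norm_num)).comp hcast
  have h2 : Tendsto (fun T : ℕ => (T : ℝ) ^ (-(47 / 300) : ℝ)) atTop (𝓝 0) :=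
    (tendsto_rpow_neg_atTop (by norm_num)).comp hcast
  have hlim : Tendsto g atTop (𝓝 0) := by
    have h3 : Tendsto (fun T : ℕ => (T : ℝ) ^ (-(2 / 3) : ℝ) + C₀ * (T : ℝ) ^ (-(47 / 300) : ℝ))
        atTop (𝓝 (0 + C₀ * 0)) := h1.add (h2.const_mul C₀)
    rw [mul_zero, add_zero] at h3
    refine squeeze_zero' (Eventually.of_forall fun T => ?_) ?_ h3
    · rw [hg]
      have := hf1 T
      have h4 : (0 : ℝ) ≤ (T : ℝ) ^ (-(2 / 3) : ℝ) := by positivity
      exact mul_nonneg (by linarith) h4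
    · filter_upwards [eventually_ge_atTop 1] with T hT
      have hT0 : (0 : ℝ) < T := by exact_mod_cast hT
      have h4 : (0 : ℝ) ≤ (T : ℝ) ^ (-(2 / 3) : ℝ) := by positivity
      have h5 := mul_le_mul_of_nonneg_right (hpol T) h4
      have h6 : (T : ℝ) ^ (51 / 100 : ℝ) * (T : ℝ) ^ (-(2 / 3) : ℝ) =
          (T : ℝ) ^ (-(47 / 300) : ℝ) := by
        rw [← Real.rpow_add hT0]
        norm_num
      have h7 : (1 + C₀ * (T : ℝ) ^ (51 / 100 : ℝ)) * (T : ℝ) ^ (-(2 / 3) : ℝ) =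
          (T : ℝ) ^ (-(2 / 3) : ℝ) + C₀ * ((T : ℝ) ^ (51 / 100 : ℝ) * (T : ℝ) ^ (-(2 / 3) : ℝ)) := by
        ring
      rw [h7, h6] at h5
      rw [hg]
      exact h5
  have hn0 : (0 : ℝ) < n := by exact_mod_cast hn
  have hgn : 0 < g n := by
    rw [hg]
    have := hf1 n
    have h4 : (0 : ℝ) < (n : ℝ) ^ (-(2 / 3) : ℝ) := by positivity
    exact mul_pos (by linarith) h4
  obtain ⟨N, hN⟩ := eventually_atTop.1 (hlim.eventually (gt_mem_nhds hgn))
  obtain ⟨n', hn', hmax⟩ := Finset.exists_max_image (Finset.Icc n (max N n)) g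
    ⟨n, Finset.mem_Icc.2 ⟨le_rfl, le_max_right _ _⟩⟩
  have hnn : n ≤ n' := (Finset.mem_Icc.1 hn').1
  have hall : ∀ T : ℕ, n ≤ T → g T ≤ g n' := by
    intro T hT
    rcases le_or_gt T (max N n) with h | h
    · exact hmax T (Finset.mem_Icc.2 ⟨hT, h⟩)
    · have h3 := hN T ((le_max_left _ _).trans h.le)
      have h4 := hmax n (Finset.mem_Icc.2 ⟨le_rfl, le_max_right _ _⟩)
      linarith
  refine ⟨n', hnn, ⟨hn.trans hnn, fun T hT => ?_⟩, ?_⟩
  · have h3 := hall T (hnn.trans hT)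
    have hn'0 : (0 : ℝ) < n' := by exact_mod_cast (hn.trans hnn)
    have hT0 : (0 : ℝ) < T := by exact_mod_cast (hn.trans (hnn.trans hT))
    rw [hg] at h3
    have h4 : (0 : ℝ) < (T : ℝ) ^ (2 / 3 : ℝ) := by positivity
    have h5 := mul_le_mul_of_nonneg_right h3 h4.le
    have h6 : (T : ℝ) ^ (-(2 / 3) : ℝ) * (T : ℝ) ^ (2 / 3 : ℝ) = 1 := by
      rw [← Real.rpow_add hT0]
      norm_num
    have h7 : f T * (T : ℝ) ^ (-(2 / 3) : ℝ) * (T : ℝ) ^ (2 / 3 : ℝ) = f T := by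
      rw [mul_assoc, h6, mul_one]
    have h8 : f n' * (n' : ℝ) ^ (-(2 / 3) : ℝ) * (T : ℝ) ^ (2 / 3 : ℝ) =
        f n' * ((T : ℝ) / n') ^ (2 / 3 : ℝ) := by
      rw [Real.div_rpow hT0.le hn'0.le, Real.rpow_neg hn'0.le]
      ring
    simp only at h5
    rw [h7, h8] at h5
    exact h5
  · have h3 := hall n le_rfl
    rw [hg] at h3
    exact h3

/-- Leaf FIN. -/
theorem finQ83 : FinQ := by
  intro C K k hC hK
  obtain ⟨a, ha⟩ : ∃ a : ℝ, a = (k : ℝ) + 1 := ⟨_, rfl⟩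
  have hk0 : (0 : ℝ) ≤ k := Nat.cast_nonneg k
  have ha1 : 1 ≤ a := by linarith
  obtain ⟨c, hc⟩ : ∃ c : ℝ, c = 1 / (4 * a) := ⟨_, rfl⟩
  have hc0 : 0 < c := by rw [hc]; positivity
  have hac : a * c = 1 / 4 := by rw [hc]; field_simp
  have hc1 : c ≤ 1 := by nlinarith
  refine ⟨c, hc0, hc1, ?_⟩
  intro Q C₀ Cs f hQ hC₀ hmono hf1 hpol hlim hgro hrec
  have hQ0 : 0 < Q := by linarith
  have hC0 : 0 < C := by linarith
  have hK1 : (1 : ℝ) ≤ K := by exact_mod_cast hK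
  obtain ⟨D, hD⟩ : ∃ D : ℝ, D = Real.log 2 + Real.log C + k * Real.log Q +
    k * Real.sqrt (Real.log K) := ⟨_, rfl⟩
  have hl2 : 0 < Real.log 2 := Real.log_pos (by norm_num)
  have hlC : 0 ≤ Real.log C := Real.log_nonneg hC
  have hlQ : 0 ≤ Real.log Q := Real.log_nonneg hQ
  have hlK : 0 ≤ Real.log K := Real.log_nonneg hK1
  have hsK : 0 ≤ Real.sqrt (Real.log K) := Real.sqrt_nonneg _
  have hkQ : 0 ≤ k * Real.log Q := by positivity
  have hkK : 0 ≤ k * Real.sqrt (Real.log K) := by positivity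
  have hyl : Tendsto (fun n : ℕ => Real.sqrt (Real.log n)) atTop atTop :=
    Real.tendsto_sqrt_atTop.comp (Real.tendsto_log_atTop.comp tendsto_natCast_atTop_atTop)
  obtain ⟨n₀, hn₀⟩ := ((hyl.eventually_ge_atTop (D / c)).and
    ((hlim.eventually_ge_atTop Cs).and (eventually_ge_atTop 1))).exists
  obtain ⟨hn₀D, hn₀C, hn₀1⟩ := hn₀
  rw [div_le_iff₀ hc0] at hn₀D
  -- monotonicity of the square root of the logarithm
  have hym : ∀ {s t : ℕ}, 1 ≤ s → s ≤ t →
      Real.sqrt (Real.log s) ≤ Real.sqrt (Real.log t) := by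
    intro s t hs hst
    refine Real.sqrt_le_sqrt (Real.log_le_log ?_ ?_)
    · exact_mod_cast hs
    · exact_mod_cast hst
  -- the record after `n`
  have hrcd : ∀ n : ℕ, n₀ ≤ n → ∃ n' : ℕ, n ≤ n' ∧ RRec f n' ∧ f n ≤ f n' ∧
      Real.sqrt (Real.log n') ≤ Real.sqrt (Real.log n) + 3 / 8 ∧
      Real.log C + k * Real.log (kap Q c (K * n')) + Real.log 2 ≤
        1 / 4 * Real.sqrt (Real.log n') ∧
      Real.log (f n') ≤ 1 / 4 * Real.sqrt (Real.log n') := by
    intro n hn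
    have hn1 : 1 ≤ n := hn₀1.trans hn
    obtain ⟨n', hnn, hr, hgg⟩ := rrec83 hC₀ hf1 hpol hn1
    have hn'1 : 1 ≤ n' := hn1.trans hnn
    have hnR : (1 : ℝ) ≤ n := by exact_mod_cast hn1
    have hn'R : (1 : ℝ) ≤ n' := by exact_mod_cast hn'1
    have hln : 0 ≤ Real.log n := Real.log_nonneg hnR
    have hln' : 0 ≤ Real.log n' := Real.log_nonneg hn'R
    obtain ⟨y, hy⟩ : ∃ y, y = Real.sqrt (Real.log n) := ⟨_, rfl⟩
    obtain ⟨z, hz⟩ : ∃ z, z = Real.sqrt (Real.log n') := ⟨_, rfl⟩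
    have hy0 : 0 ≤ y := by rw [hy]; exact Real.sqrt_nonneg _
    have hz0 : 0 ≤ z := by rw [hz]; exact Real.sqrt_nonneg _
    have hyy : y ^ 2 = Real.log n := by rw [hy]; exact Real.sq_sqrt hln
    have hzz : z ^ 2 = Real.log n' := by rw [hz]; exact Real.sq_sqrt hln'
    have hDz : D ≤ z * c := by
      have := hym hn₀1 (hn.trans hnn)
      rw [← hz] at this
      nlinarith
    -- the scale function
    have hcast : ((K * n' : ℕ) : ℝ) = K * n' := by push_cast; ring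
    have hsq : Real.sqrt (Real.log ((K * n' : ℕ) : ℝ)) ≤ Real.sqrt (Real.log K) + z := by
      rw [hcast, Real.log_mul (by positivity) (by positivity), hz,
        Real.sqrt_le_left (by positivity)]
      have e1 := Real.sq_sqrt hlK
      have e2 := Real.sq_sqrt hln'
      have e3 := mul_nonneg hsK (Real.sqrt_nonneg (Real.log n'))
      nlinarith
    have hkl : Real.log (kap Q c (K * n')) =
        Real.log Q + c * Real.sqrt (Real.log ((K * n' : ℕ) : ℝ)) := by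
      unfold kap
      rw [Real.log_mul hQ0.ne' (Real.exp_pos _).ne', Real.log_exp]
    have hkp : 0 < kap Q c (K * n') := by
      unfold kap
      positivity
    have hkk : Real.log C + k * Real.log (kap Q c (K * n')) + Real.log 2 ≤ 1 / 4 * z := by
      rw [hkl]
      have e1 : c * Real.sqrt (Real.log ((K * n' : ℕ) : ℝ)) ≤
          Real.sqrt (Real.log K) + c * z := by
        have e2 := mul_le_mul_of_nonneg_left hsq hc0.le
        have e3 : c * Real.sqrt (Real.log K) ≤ Real.sqrt (Real.log K) :=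
          mul_le_of_le_one_left hsK hc1
        linarith
      have e2 := mul_le_mul_of_nonneg_left e1 hk0
      have e3 : 1 / 4 * z = z * c + k * (c * z) := by
        have : a * c * z = 1 / 4 * z := by rw [hac]
        rw [← this, ha]
        ring
      rw [e3]
      rw [hD] at hDz
      linarith
    have hf'1 := hf1 n'
    have hf'0 : 0 < f n' := by linarith
    have hfn : f n ≤ f n' := hmono hnn
    have hlf : Real.log (f n') ≤ 1 / 4 * z := by
      have e1 := hrec n' hr (hn₀C.trans ((hmono hn).trans hfn))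
      have e2 := Real.log_le_log hf'0 e1
      rw [Real.log_mul hC0.ne' (by positivity), Real.log_pow] at e2
      linarith
    refine ⟨n', hnn, hr, hfn, ?_, hz ▸ hkk, hz ▸ hlf⟩
    -- the time of the record
    have hn0 : (0 : ℝ) < n := by linarith
    have hn'0 : (0 : ℝ) < n' := by linarith
    have hfn0 : 0 < f n := by linarith [hf1 n]
    have e1 := Real.log_le_log (by positivity) hgg
    rw [Real.log_mul hfn0.ne' (by positivity), Real.log_mul hf'0.ne' (by positivity),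
      Real.log_rpow hn0, Real.log_rpow hn'0] at e1
    have e2 : 0 ≤ Real.log (f n) := Real.log_nonneg (hf1 n)
    rw [← hyy, ← hzz] at e1
    rw [← hy, ← hz]
    by_contra hcon
    push Not at hcon
    have e3 : 0 < z + y := by linarith
    have e4 : 0 < (z - y - 3 / 8) * (z + y) := mul_pos (by linarith) e3
    have e5 : (z - y - 3 / 8) * (z + y) = z ^ 2 - y ^ 2 - 3 / 8 * (z + y) := by ring
    rw [e5] at e4
    linarith
  -- one doubling
  have key : ∀ n : ℕ, n₀ ≤ n → ∃ T : ℕ, n ≤ T ∧ 2 * f n ≤ f T ∧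
      Real.sqrt (Real.log T) ≤ Real.sqrt (Real.log n) + 5 / 8 := by
    intro n hn
    obtain ⟨n', hnn, hr, hfn, h1, h2, -⟩ := hrcd n hn
    have hn'1 : 1 ≤ n' := hr.1
    have hn'R : (1 : ℝ) ≤ n' := by exact_mod_cast hn'1
    have hn'0 : (0 : ℝ) < n' := by linarith
    have hln' : 0 ≤ Real.log n' := Real.log_nonneg hn'R
    have hkp : 1 ≤ kap Q c (K * n') := by
      unfold kap
      have := Real.one_le_exp (show 0 ≤ c * Real.sqrt (Real.log ((K * n' : ℕ) : ℝ)) by positivity)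
      nlinarith
    have hkp0 : 0 < kap Q c (K * n') := by linarith
    have hkk1 : 1 ≤ kap Q c (K * n') ^ k := one_le_pow₀ hkp
    obtain ⟨x, hx⟩ : ∃ x, x = C * n' * kap Q c (K * n') ^ k := ⟨_, rfl⟩
    have hx1 : (n' : ℝ) ≤ x := by
      rw [hx]
      have e1 : (n' : ℝ) ≤ C * n' := le_mul_of_one_le_left hn'0.le hC
      exact e1.trans (le_mul_of_one_le_right (by positivity) hkk1)
    have hx0 : 0 < x := by linarith
    obtain ⟨T, hT⟩ : ∃ T, T = ⌈x⌉₊ := ⟨_, rfl⟩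
    have hTx : x ≤ T := by rw [hT]; exact Nat.le_ceil _
    have hTx2 : (T : ℝ) ≤ 2 * x := by
      rw [hT]
      have := (Nat.ceil_lt_add_one hx0.le).le
      linarith
    have hn'T : n' ≤ T := by exact_mod_cast hx1.trans hTx
    have hT0 : (0 : ℝ) < T := by linarith
    refine ⟨T, hnn.trans hn'T, ?_, ?_⟩
    · have := hgro n' hr (hn₀C.trans ((hmono hn).trans hfn)) T (by rw [← hx]; exact hTx)
      linarith
    · have e1 := Real.log_le_log hT0 hTx2
      rw [Real.log_mul (by norm_num) hx0.ne', hx, Real.log_mul (by positivity) (by positivity),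
        Real.log_mul hC0.ne' hn'0.ne', Real.log_pow] at e1
      obtain ⟨z, hz⟩ : ∃ z, z = Real.sqrt (Real.log n') := ⟨_, rfl⟩
      have hz0 : 0 ≤ z := by rw [hz]; exact Real.sqrt_nonneg _
      have hzz : z ^ 2 = Real.log n' := by rw [hz]; exact Real.sq_sqrt hln'
      rw [← hz] at h1 h2
      have e2 : Real.log T ≤ (z + 1 / 4) ^ 2 := by
        have e3 : (z + 1 / 4) ^ 2 = z ^ 2 + z / 2 + 1 / 16 := by ring
        rw [e3, hzz]
        linarith
      have e3 : Real.sqrt (Real.log T) ≤ z + 1 / 4 := by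
        rw [Real.sqrt_le_left (by positivity)]
        exact e2
      linarith
  have iter : ∀ j : ℕ, ∃ n : ℕ, n₀ ≤ n ∧ (2 : ℝ) ^ j ≤ f n ∧
      Real.sqrt (Real.log n) ≤ Real.sqrt (Real.log n₀) + 5 / 8 * j := by
    intro j
    induction j with
    | zero => exact ⟨n₀, le_rfl, by simpa using hf1 n₀, by simp⟩
    | succ j ih =>
      obtain ⟨n, hn, h2, hs⟩ := ih
      obtain ⟨T, hT1, hT2, hT3⟩ := key n hn
      refine ⟨T, hn.trans hT1, ?_, ?_⟩
      · rw [pow_succ]; linarith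
      · push_cast; linarith
  have hlog2 : 0.6931471803 < Real.log 2 := Real.log_two_gt_d9
  obtain ⟨j, hj⟩ := exists_nat_gt (4 * (Real.sqrt (Real.log n₀) + 1))
  obtain ⟨n, hn, h2, hs⟩ := iter j
  obtain ⟨n', hnn, hr, hfn, h3, -, h5⟩ := hrcd n hn
  have h6 : (j : ℝ) * Real.log 2 ≤ Real.log (f n') := by
    have h7 := Real.log_le_log (by positivity) (h2.trans hfn)
    rwa [Real.log_pow] at h7
  have hj0 : (0 : ℝ) ≤ j := Nat.cast_nonneg j
  have hy0 : 0 ≤ Real.sqrt (Real.log n₀) := Real.sqrt_nonneg _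
  nlinarith

end Pool.Agent.W_7d29a1_SQ
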