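import Pool.Agent.W_7d29a1_S90.DlT63

/-!
Large values are not used: for every `κ > 0` there is a level `H` such that the mean mass of the
sites of the row `t` with values above `H` is at most `κ`.
-/

set_option autoImplicit false

namespace Pool.Agent.W_7d29a1_SQ

open MeasureTheory ProbabilityTheory Filter Topology Pool.Agent.W_MP_7d29a1_pr
  Pool.Agent.W_7d29a1_h46 Pool.Agent.W_7d29a1_h46u Pool.Agent.W_7d29a1_D2.B35
  Pool.Agent.W_7d29a1_Q29 Pool.Agent.W_7d29a1_S90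

variable {d : ℕ} {ρ : Measure ℝ}

open Classical in
/-- For every `κ > 0` some level `H` is exceeded with mean mass at most `κ` (box of radius `r`,
`t ≤ r`). -/
theorem hvk89 [IsProbabilityMeasure ρ] (hd : 0 < d) (hρ : EM ρ) {β : ℝ} (hβ : 0 < β) {κ : ℝ}
    (hκ : 0 < κ) : ∃ H : ℝ, 0 < H ∧ ∀ (h : Vec d) (n t r : ℕ), 1 ≤ t → t ≤ n → t ≤ r →
      ∫ η, ∑ y ∈ boxF d r, Qt β h n t y η * (if |η (t, y)| ≤ H then 0 else 1) ∂(law d ρ) ≤ κ := by
  obtain ⟨C, hC0, hC⟩ := dlT63 (d := d) (ρ := ρ) hd hρ hβ 1 zero_le_one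
  refine ⟨1 + |Real.log ((C + 1) / κ)|, by positivity, fun h n t r ht1 htn htr => ?_⟩
  obtain ⟨H, hH⟩ : ∃ H : ℝ, H = 1 + |Real.log ((C + 1) / κ)| := ⟨_, rfl⟩
  rw [← hH]
  have hH0 : 0 < H := by
    rw [hH]
    positivity
  have h1 := hC h n t H ht1 htn hH0.le
  rw [one_mul] at h1
  have h2 : C * Real.exp (-H) ≤ κ := by
    have h3 : Real.exp (-H) ≤ κ / (C + 1) := by
      have h4 : Real.log ((C + 1) / κ) ≤ H := by
        rw [hH]
        linarith [le_abs_self (Real.log ((C + 1) / κ))]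
      have h5 := Real.exp_le_exp.2 (neg_le_neg h4)
      refine h5.trans (le_of_eq ?_)
      rw [Real.exp_neg, Real.exp_log (by positivity), inv_div]
    have h4 : C * (κ / (C + 1)) ≤ κ := by
      rw [mul_div_assoc', div_le_iff₀ (by positivity)]
      nlinarith
    exact (mul_le_mul_of_nonneg_left h3 hC0).trans h4
  refine le_trans (le_of_eq ?_) (h1.trans h2)
  unfold Dl
  refine integral_congr_ae (Eventually.of_forall fun η => ?_)
  have h3 := pe_pos86 β h η htn fun y => if H < |η (t, y)| then (1 : ℝ) else 0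
  refine Eq.trans ?_ h3.symm
  have h4 : ∀ s : ℕ, t ≤ s → ∑ y ∈ boxF d s, Qt β h n t y η *
      (if |η (t, y)| ≤ H then (0 : ℝ) else 1) =
      ∑ y ∈ boxF d t, Qt β h n t y η * (if |η (t, y)| ≤ H then (0 : ℝ) else 1) := by
    intro s hs
    symm
    refine Finset.sum_subset ?_ fun y _ hy => ?_
    · intro y hy
      rw [mem_boxF] at hy ⊢
      intro i
      exact (hy i).trans (by exact_mod_cast hs)
    · rw [Qt_off39 β h htn hy, zero_mul]
  beta_reduce
  rw [h4 r htr, ← h4 n htn]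
  refine Finset.sum_congr rfl fun y _ => ?_
  congr 1
  by_cases h5 : |η (t, y)| ≤ H
  · rw [if_pos h5, if_neg (not_lt.2 h5)]
  · rw [if_neg h5, if_pos (not_le.1 h5)]

open Classical in
/-- The level `H` with mean mass at most `1 / 20` (box of radius `t`). -/
theorem hv89 [IsProbabilityMeasure ρ] (hd : 0 < d) (hρ : EM ρ) {β : ℝ} (hβ : 0 < β) :
    ∃ H : ℝ, 0 < H ∧ ∀ (h : Vec d) (n t : ℕ), 1 ≤ t → t ≤ n →
      ∫ η, ∑ y ∈ boxF d t, Qt β h n t y η * (if |η (t, y)| ≤ H then 0 else 1) ∂(law d ρ) ≤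
        1 / 20 := by
  obtain ⟨H, hH, h1⟩ := hvk89 (d := d) (ρ := ρ) hd hρ hβ (κ := 1 / 20) (by norm_num)
  exact ⟨H, hH, fun h n t ht htn => h1 h n t t ht htn le_rfl⟩

end Pool.Agent.W_7d29a1_SQ
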