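import Pool.Agent.W_7d29a1_SQ.DefsSQ
import Pool.Agent.W_7d29a1_SP.Luck93
import Pool.Agent.W_7d29a1_Q29.Brid72
import Pool.Agent.W_7d29a1_SQ.Hv89

/-!
LKT (helper93): large gaps at many times are paid by lucky futures.
-/

namespace Pool.Agent.W_7d29a1_SQ

open MeasureTheory ProbabilityTheory Filter Topology Pool.Agent.W_MP_7d29a1_pr
  Pool.Agent.W_7d29a1_h46 Pool.Agent.W_7d29a1_h46u Pool.Agent.W_7d29a1_D2.B35
  Pool.Agent.W_7d29a1_Q29 Pool.Agent.W_7d29a1_R34 Pool.Agent.W_7d29a1_SP Pool.Agent.W_7d29a1_SD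

namespace K93

variable {d : ℕ} {ρ : Measure ℝ}

variable [IsProbabilityMeasure ρ]

/-- The Cauchy-Schwarz inequality for the positions with a future in `T`. -/
theorem massG93 {G : Site d → Env d → ℝ} (hGm : ∀ y, Measurable (G y))
    (hG0 : ∀ y η, 0 ≤ G y η) (hG1 : ∀ y η, G y η ≤ 1) {β : ℝ} {h : Vec d} {m n t : ℕ}
    {R : Finset (Site d)} (hR : R ⊆ boxF d n) {N : ℝ} (hN : (R.card : ℝ) ≤ N) {T : Set ℝ}
    (hT : MeasurableSet T) {s : ℝ} (hs : 0 < s) :
    2 * ∫ η, ∑ y ∈ R, G y η * T.indicator 1 (X β h (sh t y η) m) ∂(law d ρ) ≤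
      s * ∫ η, ∑ y ∈ boxF d n, (cE ρ (Pa d t)ᶜ (G y) η) ^ 2 ∂(law d ρ) +
        (law d ρ).real {η | X β h η m ∈ T} * N / s := by
  set P : Measure (Env d) := law d ρ with hP
  set g : Site d → Env d → ℝ := fun y => cE ρ (Pa d t)ᶜ (G y) with hg
  set V : Site d → Env d → ℝ := fun y η => T.indicator 1 (X β h (sh t y η) m) with hV
  have hgm : ∀ y, Measurable (g y) := fun y => measurable_cE (hGm y) _
  have hg0 : ∀ y η, 0 ≤ g y η := fun y η => cE_nonneg (fun η => hG0 y η) _ η
  have hg1 : ∀ y η, g y η ≤ 1 := fun y η => cE_le (hGm y) (hG0 y) (hG1 y) _ η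
  have hi1 : Measurable (T.indicator (1 : ℝ → ℝ)) := measurable_one.indicator hT
  have hVm : ∀ y, Measurable (V y) := fun y =>
    hi1.comp ((measurable_X β h m).comp (measurable_sh t y))
  have hV0 : ∀ y η, 0 ≤ V y η := fun y η => Set.indicator_nonneg (fun _ _ => zero_le_one) _
  have hV1 : ∀ y η, V y η ≤ 1 := fun y η => Set.indicator_le_self' (fun _ _ => zero_le_one) _
  have hV2 : ∀ y η, V y η ^ 2 = V y η := by
    intro y η
    simp only [hV]
    by_cases hx : X β h (sh t y η) m ∈ T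
    · rw [Set.indicator_of_mem hx]
      simp
    · rw [Set.indicator_of_notMem hx]
      simp
  have bdd : ∀ {F : Env d → ℝ}, Measurable F → (∀ η, 0 ≤ F η) → (∀ η, F η ≤ 1) →
      Integrable F P := by
    intro F hF h0 h1
    refine Integrable.mono' (integrable_const (1 : ℝ)) hF.aestronglyMeasurable
      (Eventually.of_forall fun η => ?_)
    rw [Real.norm_eq_abs, abs_of_nonneg (h0 η)]
    exact h1 η
  have hVi : ∀ y, Integrable (V y) P := fun y => bdd (hVm y) (hV0 y) (hV1 y)
  have hVd : ∀ y, DependsOn (V y) (Pa d t)ᶜ := by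
    intro y η η' hη
    have h1 := S98.Zsh_dep β h t m y hη
    simp only [hV]
    unfold X
    simp only at h1
    rw [h1]
  have hGVi : ∀ y, Integrable (fun η => G y η * V y η) P := fun y =>
    bdd ((hGm y).mul (hVm y)) (fun η => mul_nonneg (hG0 y η) (hV0 y η))
      (fun η => mul_le_one₀ (hG1 y η) (hV0 y η) (hV1 y η))
  have hgVi : ∀ y, Integrable (fun η => g y η * V y η) P := fun y =>
    bdd ((hgm y).mul (hVm y)) (fun η => mul_nonneg (hg0 y η) (hV0 y η))
      (fun η => mul_le_one₀ (hg1 y η) (hV0 y η) (hV1 y η))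
  have hg2i : ∀ y, Integrable (fun η => g y η ^ 2) P := fun y =>
    bdd ((hgm y).pow_const 2) (fun η => sq_nonneg _)
      (fun η => pow_le_one₀ (hg0 y η) (hg1 y η))
  have hN0 : 0 ≤ N := (Nat.cast_nonneg _).trans hN
  have hsum : ∑ y ∈ R, ∫ η, g y η ^ 2 ∂P ≤ ∫ η, ∑ y ∈ boxF d n, g y η ^ 2 ∂P := by
    rw [integral_finsetSum _ fun y _ => hg2i y]
    exact Finset.sum_le_sum_of_subset_of_nonneg hR
      fun _ _ _ => integral_nonneg fun _ => sq_nonneg _
  have e0 : ∫ η, ∑ y ∈ R, G y η * T.indicator 1 (X β h (sh t y η) m) ∂P =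
      ∑ y ∈ R, ∫ η, g y η * V y η ∂P := by
    have e1 : ∫ η, ∑ y ∈ R, G y η * T.indicator 1 (X β h (sh t y η) m) ∂P =
        ∑ y ∈ R, ∫ η, G y η * V y η ∂P := integral_finsetSum _ fun y _ => hGVi y
    rw [e1]
    exact Finset.sum_congr rfl fun y _ => int_mul_cE _ (hGVi y) (hVd y)
  have hp : ∀ y, ∫ η, V y η ∂P = P.real {η | X β h η m ∈ T} := by
    intro y
    have h1 : ∫ η, V y η ∂P = ∫ η, T.indicator 1 (X β h η m) ∂P :=
      integral_sh t y (F := fun η => T.indicator (1 : ℝ → ℝ) (X β h η m))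
        (hi1.comp (measurable_X β h m))
    rw [h1]
    have h2 : (fun η : Env d => T.indicator (1 : ℝ → ℝ) (X β h η m)) =
        Set.indicator {η | X β h η m ∈ T} 1 := by
      funext η
      by_cases hx : X β h η m ∈ T
      · rw [Set.indicator_of_mem hx, Set.indicator_of_mem (show η ∈ {η | X β h η m ∈ T} from hx)]
        simp
      · rw [Set.indicator_of_notMem hx,
          Set.indicator_of_notMem (show η ∉ {η | X β h η m ∈ T} from hx)]
    rw [h2]
    exact integral_indicator_one ((measurable_X β h m) hT)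
  have hp0 : 0 ≤ P.real {η | X β h η m ∈ T} := measureReal_nonneg
  rw [e0]
  have h1 : ∀ y ∈ R, 2 * ∫ η, g y η * V y η ∂P ≤ s * ∫ η, g y η ^ 2 ∂P +
      P.real {η | X β h η m ∈ T} / s := by
    intro y _
    have h2 : ∫ η, 2 * (g y η * V y η) ∂P ≤ ∫ η, (s * g y η ^ 2 + 1 / s * V y η) ∂P := by
      refine integral_mono ((hgVi y).const_mul 2) (((hg2i y).const_mul s).add
        ((hVi y).const_mul (1 / s))) fun η => ?_
      simp only
      have h3 := hV2 y η
      set x := V y η
      set z := g y η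
      have h5 : 0 ≤ (s * z - x) ^ 2 / s := div_nonneg (sq_nonneg _) hs.le
      have h6 : (s * z - x) ^ 2 / s = s * z ^ 2 + 1 / s * x ^ 2 - 2 * (z * x) := by
        field_simp
        ring
      rw [h3] at h6
      linarith
    rw [integral_const_mul, integral_add ((hg2i y).const_mul s) ((hVi y).const_mul (1 / s)),
      integral_const_mul, integral_const_mul, hp y] at h2
    rw [one_div, inv_mul_eq_div] at h2
    exact h2
  rw [Finset.mul_sum]
  refine (Finset.sum_le_sum h1).trans ?_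
  rw [Finset.sum_add_distrib, ← Finset.mul_sum, Finset.sum_const, nsmul_eq_mul]
  have h9 : (R.card : ℝ) * (P.real {η | X β h η m ∈ T} / s) ≤
      P.real {η | X β h η m ∈ T} * N / s := by
    rw [mul_div_assoc']
    refine div_le_div_of_nonneg_right ?_ hs.le
    nlinarith
  have h11 := mul_le_mul_of_nonneg_left hsum hs.le
  linarith

open Classical in
/-- The positions at the time `t` in the tube. -/
noncomputable def Rt {d : ℕ} (v : Vec d) (w : ℝ) (t : ℕ) : Finset (Site d) :=
  (boxF d t).filter fun y => ‖emb y - (t : ℝ) • v‖ ≤ w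

lemma Rt_sub (v : Vec d) (w : ℝ) (t : ℕ) : Rt v w t ⊆ boxF d t := by
  classical
  unfold Rt
  exact Finset.filter_subset _ _

lemma Rt_card (v : Vec d) {w : ℝ} (hw : 0 ≤ w) (t : ℕ) :
    ((Rt v w t).card : ℝ) ≤ (2 * w + 1) ^ d := by
  classical
  refine le_trans ?_ (card_ballW ((t : ℝ) • v) hw)
  have h1 : Rt v w t ⊆ ballW ((t : ℝ) • v) w := by
    intro y hy
    unfold Rt at hy
    exact mem_ballW (Finset.mem_filter.1 hy).2
  exact_mod_cast Finset.card_le_card h1

/-- The mass in the tube at the time `t`. -/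
lemma tub93 (v : Vec d) (w : ℝ) (β : ℝ) (h : Vec d) {n t : ℕ} (ht : t ≤ n) (η : Env d) :
    PolT β h η (tube d n v w) ≤ ∑ y ∈ Rt v w t, Qt β h n t y η := by
  classical
  rw [sum_Qt ht]
  refine PolT_mono β h η fun s hs => ?_
  rw [Set.mem_ofPred_eq]
  unfold Rt
  rw [Finset.mem_filter]
  refine ⟨?_, hs t ht⟩
  exact pos_mem_boxF39 s le_rfl

/-- The integrand of the time `t`. -/
noncomputable def Fk {d : ℕ} (ρ : Measure ℝ) (β : ℝ) (h v : Vec d) (n p t : ℕ) (w M H g : ℝ)
    (u : Env d × Env d) (η : Env d) : ℝ :=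
  ∑ y ∈ Rt v w t, Qtr β h n p t y (X β h (spl (Pa d p) u.1 u.2) n) M H u.1 η *
    (Set.Ioi (A ρ β h (n - t) + g / 4)).indicator 1 (X β h (sh t y η) (n - t))

omit [IsProbabilityMeasure ρ] in
lemma Qtr_nonneg (hd : 0 < d) (β : ℝ) (h : Vec d) (n p t : ℕ) (y : Site d) (b M H : ℝ)
    (α η : Env d) : 0 ≤ Qtr β h n p t y b M H α η := by
  classical
  unfold Qtr
  split_ifs
  · exact S98.Qt_nonneg hd β h n t y _
  · exact le_rfl

omit [IsProbabilityMeasure ρ] in
lemma Qtr_le (hd : 0 < d) (β : ℝ) (h : Vec d) (n p t : ℕ) (y : Site d) (b M H : ℝ)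
    (α η : Env d) : Qtr β h n p t y b M H α η ≤ Qt β h n t y (spl (Pa d p) α η) := by
  classical
  unfold Qtr
  split_ifs
  · exact le_rfl
  · exact S98.Qt_nonneg hd β h n t y _

omit [IsProbabilityMeasure ρ] in
lemma measurable_Qtr (β : ℝ) (h : Vec d) (n p t : ℕ) (y : Site d) (M H : ℝ) :
    Measurable fun w : (Env d × Env d) × Env d =>
      Qtr β h n p t y (X β h (spl (Pa d p) w.1.1 w.1.2) n) M H w.1.1 w.2 := by
  classical
  have h1 : Measurable fun w : (Env d × Env d) × Env d => spl (Pa d p) w.1.1 w.2 :=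
    (measurable_spl (Pa d p)).comp ((measurable_fst.comp measurable_fst).prodMk measurable_snd)
  have h2 : Measurable fun w : (Env d × Env d) × Env d => spl (Pa d p) w.1.1 w.1.2 :=
    (measurable_spl (Pa d p)).comp measurable_fst
  have h3 := (measurable_X β h n).comp h1
  have h4 := (measurable_X β h n).comp h2
  have h5 : Measurable fun w : (Env d × Env d) × Env d => spl (Pa d p) w.1.1 w.2 (t, y) :=
    (measurable_pi_apply (t, y)).comp h1
  unfold Qtr
  refine Measurable.ite ?_ ((S98.measurable_Qt β h n t y).comp h1) measurable_const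
  refine MeasurableSet.inter ?_ ?_
  · exact measurableSet_le (h3.sub h4).abs measurable_const
  · exact measurableSet_le h5.abs measurable_const

omit [IsProbabilityMeasure ρ] in
lemma measurable_Qtr1 (β : ℝ) (h : Vec d) (n p t : ℕ) (y : Site d) (b M H : ℝ) (α : Env d) :
    Measurable fun η : Env d => Qtr β h n p t y b M H α η := by
  classical
  have h1 : Measurable fun η : Env d => spl (Pa d p) α η := measurable_spl_right (Pa d p) α
  have h3 := (measurable_X β h n).comp h1
  have h5 : Measurable fun η : Env d => spl (Pa d p) α η (t, y) :=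
    (measurable_pi_apply (t, y)).comp h1
  unfold Qtr
  refine Measurable.ite ?_ ((S98.measurable_Qt β h n t y).comp h1) measurable_const
  refine MeasurableSet.inter ?_ ?_
  · exact measurableSet_le (h3.sub measurable_const).abs measurable_const
  · exact measurableSet_le h5.abs measurable_const

omit [IsProbabilityMeasure ρ] in
lemma measurable_Fk (β : ℝ) (h v : Vec d) (n p t : ℕ) (w M H g : ℝ) :
    Measurable fun x : (Env d × Env d) × Env d => Fk ρ β h v n p t w M H g x.1 x.2 := by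
  have hi1 : Measurable ((Set.Ioi (A ρ β h (n - t) + g / 4)).indicator (1 : ℝ → ℝ)) :=
    measurable_one.indicator measurableSet_Ioi
  unfold Fk
  refine Finset.measurable_sum _ fun y _ => (measurable_Qtr β h n p t y M H).mul ?_
  exact hi1.comp ((measurable_X β h (n - t)).comp ((measurable_sh t y).comp measurable_snd))

omit [IsProbabilityMeasure ρ] in
lemma Fk_nonneg (hd : 0 < d) (β : ℝ) (h v : Vec d) (n p t : ℕ) (w M H g : ℝ)
    (u : Env d × Env d) (η : Env d) : 0 ≤ Fk ρ β h v n p t w M H g u η :=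
  Finset.sum_nonneg fun y _ => mul_nonneg (Qtr_nonneg hd β h n p t y _ M H _ _)
    (Set.indicator_nonneg (fun _ _ => zero_le_one) _)

omit [IsProbabilityMeasure ρ] in
lemma Fk_le_one (hd : 0 < d) (β : ℝ) (h v : Vec d) (n p : ℕ) {t : ℕ} (ht : t ≤ n) (w M H g : ℝ)
    (u : Env d × Env d) (η : Env d) : Fk ρ β h v n p t w M H g u η ≤ 1 := by
  refine le_trans (Finset.sum_le_sum fun y _ => ?_)
    (sumQt_le94 hd β h ht (Rt v w t) (spl (Pa d p) u.1 η))
  refine le_trans (mul_le_of_le_one_right (Qtr_nonneg hd β h n p t y _ M H _ _) ?_)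
    (Qtr_le hd β h n p t y _ M H _ _)
  exact Set.indicator_le_self' (fun _ _ => zero_le_one) _

lemma int_Fk (hd : 0 < d) (β : ℝ) (h v : Vec d) (n p : ℕ) {t : ℕ} (ht : t ≤ n) (w M H g : ℝ) :
    Integrable (fun x : (Env d × Env d) × Env d => Fk ρ β h v n p t w M H g x.1 x.2)
      (((law d ρ).prod (law d ρ)).prod (law d ρ)) := by
  refine Integrable.mono' (integrable_const (1 : ℝ))
    (measurable_Fk β h v n p t w M H g).aestronglyMeasurable (Eventually.of_forall fun x => ?_)
  rw [Real.norm_eq_abs, abs_of_nonneg (Fk_nonneg hd β h v n p t w M H g x.1 x.2)]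
  exact Fk_le_one hd β h v n p ht w M H g x.1 x.2

/-- The used environment. -/
lemma mpA (p : ℕ) : MeasurePreserving
    (fun x : (Env d × Env d) × Env d => spl (Pa d p) x.1.1 x.2)
    (((law d ρ).prod (law d ρ)).prod (law d ρ)) (law d ρ) :=
  (mp_spl (ρ := ρ) (Pa d p)).comp
    ((measurePreserving_fst (μ := law d ρ) (ν := law d ρ)).prod (MeasurePreserving.id (law d ρ)))

/-- The used environment and the second one. -/
lemma mpB (p : ℕ) : MeasurePreserving
    (fun x : (Env d × Env d) × Env d => (spl (Pa d p) x.1.1 x.2, x.1.2))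
    (((law d ρ).prod (law d ρ)).prod (law d ρ)) ((law d ρ).prod (law d ρ)) := by
  have h1 : MeasurePreserving (fun x : (Env d × Env d) × Env d => ((x.1.1, x.2), x.1.2))
      (((law d ρ).prod (law d ρ)).prod (law d ρ))
      (((law d ρ).prod (law d ρ)).prod (law d ρ)) := by
    have e1 := measurePreserving_prodAssoc (law d ρ) (law d ρ) (law d ρ)
    have e2 := (MeasurePreserving.id (law d ρ)).prod
      (Measure.measurePreserving_swap (μ := law d ρ) (ν := law d ρ))
    have e3 := (measurePreserving_prodAssoc (law d ρ) (law d ρ) (law d ρ)).symm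
    exact e3.comp (e2.comp e1)
  exact ((mp_spl (ρ := ρ) (Pa d p)).prod (MeasurePreserving.id (law d ρ))).comp h1

open Classical in
/-- The lower bound at one time. -/
theorem one93 (hd : 0 < d) (hρ : EM ρ) {β H : ℝ} {h v : Vec d} {n p t : ℕ} {R M g : ℝ}
    (hH : ∫ η, ∑ y ∈ boxF d t, Qt β h n t y η * (if |η (t, y)| ≤ H then 0 else 1) ∂(law d ρ) ≤
      1 / 20)
    (hRS : RS ρ β h n p M (1 / 20)) (hTb : Tb ρ β h v R n ≤ 1 / 20) (hg : 12 ≤ g) (hpt : p < t)
    (htn : t ≤ n) (hgap : g ≤ Gp ρ β h t (n - t)) (hF : Fn ρ β h n + Fn ρ β h t ≤ g / 32) :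
    1 / 2 ≤ ∫ u, ∫ η, Fk ρ β h v n p t (R * Real.sqrt n) M H g u η ∂(law d ρ)
      ∂((law d ρ).prod (law d ρ)) := by
  have hg0 : 0 < g := by linarith
  obtain ⟨w, hw⟩ : ∃ w : ℝ, w = R * Real.sqrt n := ⟨_, rfl⟩
  unfold Tb at hTb
  rw [← hw] at hTb ⊢
  rw [← integral_prod _ (int_Fk hd β h v n p htn w M H g)]
  -- the functions of the used environment
  have hgap' : g ≤ A ρ β h n - A ρ β h t - A ρ β h (n - t) := by
    unfold Gp at hgap
    rwa [Nat.add_sub_cancel' htn] at hgap
  set B : Env d → ℝ := fun η => ∑ y ∈ Rt v w t, Qt β h n t y η -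
    (1 / 20 + (2 / g * |X β h η n - A ρ β h n| + 2 / g * |X β h η t - A ρ β h t|)) -
    ∑ y ∈ boxF d t, Qt β h n t y η * (if |η (t, y)| ≤ H then 0 else 1) with hB
  have hQi : ∀ y, Integrable (fun η => Qt β h n t y η) (law d ρ) := fun y =>
    Integrable.mono' (integrable_const (1 : ℝ)) (S98.measurable_Qt β h n t y).aestronglyMeasurable
      (Eventually.of_forall fun η => by
        rw [Real.norm_eq_abs]
        exact S98.Qt_abs hd β h htn y η)
  have hB1 : Integrable (fun η => ∑ y ∈ Rt v w t, Qt β h n t y η) (law d ρ) :=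
    integrable_finsetSum _ fun y _ => hQi y
  have hA1 := (intX15 (ρ := ρ) hd hρ β h n).abs.const_mul (2 / g)
  have hA2 := (intX15 (ρ := ρ) hd hρ β h t).abs.const_mul (2 / g)
  have hA3 : Integrable (fun η : Env d => 2 / g * |X β h η n - A ρ β h n| +
      2 / g * |X β h η t - A ρ β h t|) (law d ρ) := hA1.add hA2
  have hA4 : Integrable (fun η : Env d => 1 / 20 + (2 / g * |X β h η n - A ρ β h n| +
      2 / g * |X β h η t - A ρ β h t|)) (law d ρ) := (integrable_const (1 / 20 : ℝ)).add hA3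
  have hsm : ∀ y : Site d, Measurable fun η : Env d => if |η (t, y)| ≤ H then (0 : ℝ) else 1 := by
    intro y
    refine Measurable.ite ?_ measurable_const measurable_const
    exact measurableSet_le (measurable_pi_apply (t, y)).abs measurable_const
  have hs01 : ∀ (y : Site d) (η : Env d), 0 ≤ (if |η (t, y)| ≤ H then (0 : ℝ) else 1) ∧
      (if |η (t, y)| ≤ H then (0 : ℝ) else 1) ≤ 1 := by
    intro y η
    split_ifs <;> norm_num
  have hB3 : Integrable (fun η => ∑ y ∈ boxF d t, Qt β h n t y η *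
      (if |η (t, y)| ≤ H then (0 : ℝ) else 1)) (law d ρ) := by
    refine integrable_finsetSum _ fun y _ => ?_
    refine Integrable.mono' (integrable_const (1 : ℝ))
      ((S98.measurable_Qt β h n t y).mul (hsm y)).aestronglyMeasurable
      (Eventually.of_forall fun η => ?_)
    have h1 := hs01 y η
    rw [Real.norm_eq_abs, abs_of_nonneg (mul_nonneg (S98.Qt_nonneg hd β h n t y η) h1.1)]
    exact mul_le_one₀ (S98.Qt_le_one hd β h htn y η) h1.1 h1.2
  have hB2 : Integrable (fun η => ∑ y ∈ Rt v w t, Qt β h n t y η -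
      (1 / 20 + (2 / g * |X β h η n - A ρ β h n| + 2 / g * |X β h η t - A ρ β h t|)))
      (law d ρ) := hB1.sub hA4
  have hBi : Integrable B (law d ρ) := hB2.sub hB3
  have hBl : 1 / 20 + 1 / 2 ≤ ∫ η, B η ∂(law d ρ) := by
    have h1 : ∫ η, B η ∂(law d ρ) = ∫ η, ∑ y ∈ Rt v w t, Qt β h n t y η ∂(law d ρ) -
        (1 / 20 + (2 / g * Fn ρ β h n + 2 / g * Fn ρ β h t)) -
        ∫ η, ∑ y ∈ boxF d t, Qt β h n t y η *
          (if |η (t, y)| ≤ H then (0 : ℝ) else 1) ∂(law d ρ) := by
      simp only [hB]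
      rw [integral_sub hB2 hB3, integral_sub hB1 hA4,
        integral_add (integrable_const _) hA3, integral_add hA1 hA2,
        integral_const_mul, integral_const_mul]
      simp [Fn]
    have h2 : 1 - 1 / 20 ≤ ∫ η, ∑ y ∈ Rt v w t, Qt β h n t y η ∂(law d ρ) := by
      have h3 : ∫ η, PolT β h η (tube d n v w) ∂(law d ρ) ≤
          ∫ η, ∑ y ∈ Rt v w t, Qt β h n t y η ∂(law d ρ) :=
        integral_mono (integrable_PolT72 β h _) hB1 fun η => tub93 v w β h htn η
      rw [integral_sub (integrable_const _) (integrable_PolT72 β h _)] at hTb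
      simp only [integral_const, probReal_univ, smul_eq_mul, one_mul] at hTb
      linarith
    have h9 : 2 / g * Fn ρ β h n + 2 / g * Fn ρ β h t ≤ 1 / 16 := by
      rw [← mul_add, div_mul_eq_mul_div, div_le_iff₀ hg0]
      linarith
    rw [h1]
    linarith
  -- the event
  set E : Set (Env d × Env d) :=
    {x | M < |X β h x.1 n - X β h (spl (Pa d p) x.1 x.2) n|} with hE
  have hEm : MeasurableSet E := by
    have h1 : Measurable fun x : Env d × Env d => X β h x.1 n :=
      (measurable_X β h n).comp measurable_fst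
    have h2 : Measurable fun x : Env d × Env d => X β h (spl (Pa d p) x.1 x.2) n :=
      (measurable_X β h n).comp (measurable_spl (Pa d p))
    exact measurableSet_lt measurable_const (h1.sub h2).abs
  set E' : Set ((Env d × Env d) × Env d) :=
    (fun x : (Env d × Env d) × Env d => (spl (Pa d p) x.1.1 x.2, x.1.2)) ⁻¹' E with hE'
  have hE'm : MeasurableSet E' := (mpB (ρ := ρ) p).measurable hEm
  have hE'p : (((law d ρ).prod (law d ρ)).prod (law d ρ)).real E' ≤ 1 / 20 := by
    have h1 := (mpB (d := d) (ρ := ρ) p).measure_preimage hEm.nullMeasurableSet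
    unfold Measure.real
    rw [hE', h1]
    exact hRS
  have hkey : ∀ x : (Env d × Env d) × Env d, B (spl (Pa d p) x.1.1 x.2) ≤
      Fk ρ β h v n p t w M H g x.1 x.2 + E'.indicator 1 x := by
    rintro ⟨⟨α, ξ⟩, η⟩
    simp only
    obtain ⟨ζ, hζ⟩ : ∃ ζ : Env d, ζ = spl (Pa d p) α η := ⟨_, rfl⟩
    have hfut : ∀ y, X β h (sh t y η) (n - t) = X β h (sh t y ζ) (n - t) := by
      intro y
      have h1 : Z β h (sh t y η) (n - t) = Z β h (sh t y ζ) (n - t) := by
        refine S98.Zsh_dep β h t (n - t) y fun q hq => ?_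
        rw [hζ, spl_not_mem]
        intro h2
        refine hq ?_
        have h3 : q.1 ≤ p := h2
        show q.1 ≤ t
        omega
      unfold X
      rw [h1]
    have hspl : spl (Pa d p) ζ ξ = spl (Pa d p) α ξ := by
      funext q
      by_cases hq : q ∈ Pa d p
      · rw [spl_mem _ _ hq, spl_mem _ _ hq, hζ, spl_mem _ _ hq]
      · rw [spl_not_mem _ _ hq, spl_not_mem _ _ hq]
    have h1 := L93.point93 (ρ := ρ) hd β h htn (Rt_sub v w t) hg hgap' ζ
    have h2 : ∑ y ∈ Rt v w t, Qt β h n t y ζ *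
        (Set.Ioi (A ρ β h (n - t) + g / 4)).indicator 1 (X β h (sh t y ζ) (n - t)) ≤
        Fk ρ β h v n p t w M H g (α, ξ) η + E'.indicator 1 ((α, ξ), η) +
        ∑ y ∈ boxF d t, Qt β h n t y ζ * (if |ζ (t, y)| ≤ H then 0 else 1) := by
      have h3 : ∑ y ∈ Rt v w t, Qt β h n t y ζ * (if |ζ (t, y)| ≤ H then (0 : ℝ) else 1) ≤
          ∑ y ∈ boxF d t, Qt β h n t y ζ * (if |ζ (t, y)| ≤ H then (0 : ℝ) else 1) :=
        Finset.sum_le_sum_of_subset_of_nonneg (Rt_sub v w t) fun y _ _ =>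
          mul_nonneg (S98.Qt_nonneg hd β h n t y ζ) (hs01 y ζ).1
      by_cases hx : M < |X β h ζ n - X β h (spl (Pa d p) ζ ξ) n|
      · have h4 : ((α, ξ), η) ∈ E' := by
          show (spl (Pa d p) α η, ξ) ∈ E
          rw [← hζ]
          exact hx
        rw [Set.indicator_of_mem h4, Pi.one_apply]
        have h5 : ∑ y ∈ Rt v w t, Qt β h n t y ζ *
            (Set.Ioi (A ρ β h (n - t) + g / 4)).indicator 1 (X β h (sh t y ζ) (n - t)) ≤ 1 := by
          refine le_trans (Finset.sum_le_sum fun y _ => ?_) (sumQt_le94 hd β h htn (Rt v w t) ζ)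
          refine mul_le_of_le_one_right (S98.Qt_nonneg hd β h n t y ζ) ?_
          exact Set.indicator_le_self' (fun _ _ => zero_le_one) _
        have h6 := Fk_nonneg (ρ := ρ) hd β h v n p t w M H g (α, ξ) η
        have h7 : 0 ≤ ∑ y ∈ boxF d t, Qt β h n t y ζ *
            (if |ζ (t, y)| ≤ H then (0 : ℝ) else 1) :=
          Finset.sum_nonneg fun y _ => mul_nonneg (S98.Qt_nonneg hd β h n t y ζ) (hs01 y ζ).1
        linarith
      · have h4 : 0 ≤ E'.indicator (1 : (Env d × Env d) × Env d → ℝ) ((α, ξ), η) :=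
          Set.indicator_nonneg (fun _ _ => zero_le_one) _
        have h5 : ∑ y ∈ Rt v w t, Qt β h n t y ζ *
            (Set.Ioi (A ρ β h (n - t) + g / 4)).indicator 1 (X β h (sh t y ζ) (n - t)) ≤
            Fk ρ β h v n p t w M H g (α, ξ) η +
            ∑ y ∈ Rt v w t, Qt β h n t y ζ * (if |ζ (t, y)| ≤ H then (0 : ℝ) else 1) := by
          unfold Fk
          rw [← Finset.sum_add_distrib]
          refine Finset.sum_le_sum fun y _ => ?_
          simp only
          rw [hfut y]
          have h6 : 0 ≤ (Set.Ioi (A ρ β h (n - t) + g / 4)).indicator (1 : ℝ → ℝ)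
              (X β h (sh t y ζ) (n - t)) := Set.indicator_nonneg (fun _ _ => zero_le_one) _
          have h7 : (Set.Ioi (A ρ β h (n - t) + g / 4)).indicator (1 : ℝ → ℝ)
              (X β h (sh t y ζ) (n - t)) ≤ 1 :=
            Set.indicator_le_self' (fun _ _ => zero_le_one) _
          have hq := S98.Qt_nonneg hd β h n t y ζ
          by_cases h8 : |ζ (t, y)| ≤ H
          · have h9 : Qtr β h n p t y (X β h (spl (Pa d p) α ξ) n) M H α η =
                Qt β h n t y ζ := by
              unfold Qtr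
              rw [← hζ, ← hspl, if_pos ⟨not_lt.1 hx, h8⟩]
            rw [h9, if_pos h8]
            linarith
          · rw [if_neg h8]
            have h9 := Qtr_nonneg hd β h n p t y (X β h (spl (Pa d p) α ξ) n) M H α η
            have h10 := mul_nonneg h9 h6
            have h11 := mul_le_of_le_one_right hq h7
            linarith
        linarith
    rw [← hζ]
    simp only [hB]
    linarith
  have hmp := mpA (d := d) (ρ := ρ) p
  have h1 : ∫ x, B (spl (Pa d p) x.1.1 x.2) ∂(((law d ρ).prod (law d ρ)).prod (law d ρ)) =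
      ∫ η, B η ∂(law d ρ) := LawU_integral hmp hBi.aestronglyMeasurable
  have hi1 : Integrable (fun x : (Env d × Env d) × Env d => B (spl (Pa d p) x.1.1 x.2))
      (((law d ρ).prod (law d ρ)).prod (law d ρ)) := hmp.integrable_comp_of_integrable hBi
  have hi2 : Integrable (E'.indicator (1 : (Env d × Env d) × Env d → ℝ))
      (((law d ρ).prod (law d ρ)).prod (law d ρ)) :=
    (integrable_const (1 : ℝ)).indicator hE'm
  have h2 := integral_mono hi1 ((int_Fk hd β h v n p htn w M H g).add hi2) hkey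
  have h3 : ∫ x, (Fk ρ β h v n p t w M H g x.1 x.2 + E'.indicator 1 x)
      ∂(((law d ρ).prod (law d ρ)).prod (law d ρ)) =
      ∫ x, Fk ρ β h v n p t w M H g x.1 x.2 ∂(((law d ρ).prod (law d ρ)).prod (law d ρ)) +
      (((law d ρ).prod (law d ρ)).prod (law d ρ)).real E' := by
    rw [integral_add (int_Fk hd β h v n p htn w M H g) hi2]
    congr 1
    exact integral_indicator_one hE'm
  have h4 := h2.trans (le_of_eq h3)
  rw [h1] at h4
  linarith

end K93

/-- **LKT.** Large gaps at many times are paid by lucky futures. -/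
theorem lkt93 {ρ : Measure ℝ} [IsProbabilityMeasure ρ] (hρ : EM ρ) {β : ℝ} (hβ : 0 < β)
    (hN : NptP 2 ρ β) : LktP ρ β := by
  classical
  obtain ⟨H, -, hH⟩ := hv89 (d := 2) (ρ := ρ) (by norm_num) hρ hβ
  obtain ⟨C₁, M₁, hC₁, hM₁, hNP⟩ := hN H
  refine ⟨36 * C₁, 1 / 20, M₁, by linarith, by norm_num, hM₁, ?_⟩
  intro h v n p R M g P S hR hM hg hP hRS hTb hS
  rcases S.eq_empty_or_nonempty with hSe | hSne
  · subst hSe
    simp only [Finset.card_empty, Nat.cast_zero]
    positivity
  obtain ⟨t₀, ht₀⟩ := hSne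
  have hn1 : 1 ≤ n := by
    have := hS t₀ ht₀
    omega
  obtain ⟨w, hw⟩ : ∃ w : ℝ, w = R * Real.sqrt n := ⟨_, rfl⟩
  have hs1 : 1 ≤ Real.sqrt n := by
    rw [Real.one_le_sqrt]
    exact_mod_cast hn1
  have hw1 : 1 ≤ w := by
    rw [hw]
    nlinarith
  have hw2 : w ^ 2 = R ^ 2 * n := by
    rw [hw, mul_pow, Real.sq_sqrt (Nat.cast_nonneg n)]
  obtain ⟨N, hNdef⟩ : ∃ N : ℝ, N = 9 * w ^ 2 := ⟨_, rfl⟩
  have hcard : ∀ t : ℕ, ((K93.Rt v w t).card : ℝ) ≤ N := by
    intro t
    refine (K93.Rt_card v (by linarith) t).trans ?_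
    rw [hNdef]
    nlinarith
  have hN0 : 0 ≤ N := by
    rw [hNdef]
    positivity
  -- the times one by one
  have hJ : ∀ t ∈ S, 1 / 2 ≤ ∫ u, ∫ η, K93.Fk ρ β h v n p t w M H g u η ∂(law 2 ρ)
      ∂((law 2 ρ).prod (law 2 ρ)) := by
    intro t ht
    obtain ⟨h1, h2, h3, h4, -⟩ := hS t ht
    have h5 := K93.one93 (ρ := ρ) (d := 2) (by norm_num) hρ (β := β) (H := H) (h := h) (v := v)
      (n := n) (p := p) (t := t) (R := R) (M := M) (g := g) (hH h n t (by omega) h2) hRS hTb hg
      h1 h2 h3 h4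
    rw [hw]
    exact h5
  have hJi : ∀ t ∈ S, Integrable (fun u => ∫ η, K93.Fk ρ β h v n p t w M H g u η ∂(law 2 ρ))
      ((law 2 ρ).prod (law 2 ρ)) := fun t ht =>
    (K93.int_Fk (ρ := ρ) (d := 2) (by norm_num) β h v n p (hS t ht).2.1 w M H g).integral_prod_left
  have hup : ∀ s : ℝ, 0 < s → (S.card : ℝ) ≤ s * (C₁ * M ^ 2) + S.card * (P * N) / s := by
    intro s hs
    have h1 : ∀ u : Env 2 × Env 2, ∑ t ∈ S, 2 * ∫ η, K93.Fk ρ β h v n p t w M H g u η ∂(law 2 ρ) ≤
        s * (C₁ * M ^ 2) + S.card * (P * N) / s := by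
      intro u
      have h2 : ∀ t ∈ S, 2 * ∫ η, K93.Fk ρ β h v n p t w M H g u η ∂(law 2 ρ) ≤
          s * ∫ η, ∑ y ∈ boxF 2 n, (cE ρ (Pa 2 t)ᶜ
            (Qtr β h n p t y (X β h (spl (Pa 2 p) u.1 u.2) n) M H u.1) η) ^ 2 ∂(law 2 ρ) +
          P * N / s := by
        intro t ht
        obtain ⟨h3, h4, h5, h6, h7⟩ := hS t ht
        have h8 := K93.massG93 (ρ := ρ) (d := 2)
          (G := fun y => Qtr β h n p t y (X β h (spl (Pa 2 p) u.1 u.2) n) M H u.1)
          (fun y => K93.measurable_Qtr1 β h n p t y _ M H u.1)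
          (fun y η => K93.Qtr_nonneg (by norm_num) β h n p t y _ M H u.1 η)
          (fun y η => (K93.Qtr_le (by norm_num) β h n p t y _ M H u.1 η).trans
            (S98.Qt_le_one (by norm_num) β h h4 y _))
          (β := β) (h := h) (m := n - t) (n := n) (t := t) (R := K93.Rt v w t)
          ((K93.Rt_sub v w t).trans (S98.boxF_mono h4)) (hcard t)
          (T := Set.Ioi (A ρ β h (n - t) + g / 4)) measurableSet_Ioi hs
        refine h8.trans ?_
        have h9 : (law 2 ρ).real {η | X β h η (n - t) ∈ Set.Ioi (A ρ β h (n - t) + g / 4)} * N / s ≤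
            P * N / s := by
          refine div_le_div_of_nonneg_right ?_ hs.le
          exact mul_le_mul_of_nonneg_right h7 hN0
        linarith
      refine (Finset.sum_le_sum h2).trans ?_
      rw [Finset.sum_add_distrib, Finset.sum_const, nsmul_eq_mul, ← Finset.mul_sum]
      have h3 := hNP h n p u.1 (X β h (spl (Pa 2 p) u.1 u.2) n) M hM
      have h4 : ∑ t ∈ S, ∫ η, ∑ y ∈ boxF 2 n, (cE ρ (Pa 2 t)ᶜ
            (Qtr β h n p t y (X β h (spl (Pa 2 p) u.1 u.2) n) M H u.1) η) ^ 2 ∂(law 2 ρ) ≤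
          ∑ t ∈ Finset.Ioc p n, ∫ η, ∑ y ∈ boxF 2 n, (cE ρ (Pa 2 t)ᶜ
            (Qtr β h n p t y (X β h (spl (Pa 2 p) u.1 u.2) n) M H u.1) η) ^ 2 ∂(law 2 ρ) := by
        refine Finset.sum_le_sum_of_subset_of_nonneg (fun t ht => ?_) fun t _ _ =>
          integral_nonneg fun η => Finset.sum_nonneg fun y _ => sq_nonneg _
        have h5 := hS t ht
        exact Finset.mem_Ioc.2 ⟨h5.1, h5.2.1⟩
      have h5 := mul_le_mul_of_nonneg_left (h4.trans h3) hs.le
      have h6 : (S.card : ℝ) * (P * N / s) = S.card * (P * N) / s := by ring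
      rw [h6]
      linarith
    have h2 : Integrable (fun u : Env 2 × Env 2 =>
        ∑ t ∈ S, 2 * ∫ η, K93.Fk ρ β h v n p t w M H g u η ∂(law 2 ρ))
        ((law 2 ρ).prod (law 2 ρ)) :=
      integrable_finsetSum _ fun t ht => (hJi t ht).const_mul 2
    have h3 := integral_mono h2 (integrable_const _) h1
    rw [integral_finsetSum _ fun t ht => (hJi t ht).const_mul 2] at h3
    simp only [integral_const_mul, integral_const, probReal_univ, smul_eq_mul, one_mul] at h3
    have h4 : (S.card : ℝ) ≤ ∑ t ∈ S, 2 * ∫ u, ∫ η, K93.Fk ρ β h v n p t w M H g u η ∂(law 2 ρ)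
        ∂((law 2 ρ).prod (law 2 ρ)) := by
      have h5 : (S.card : ℝ) = ∑ _t ∈ S, (1 : ℝ) := by simp
      rw [h5]
      exact Finset.sum_le_sum fun t ht => by linarith [hJ t ht]
    exact h4.trans h3
  have hCM : 0 < C₁ * M ^ 2 := by
    have : 0 < M := by linarith
    positivity
  have hfin : (S.card : ℝ) ≤ 4 * (C₁ * M ^ 2) * (P * N) := by
    have hcard0 : (0 : ℝ) ≤ S.card := Nat.cast_nonneg _
    have hPN := mul_nonneg hP hN0
    generalize C₁ * M ^ 2 = a at hup hCM ⊢
    generalize P * N = b at hup hPN ⊢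
    generalize (S.card : ℝ) = x at hup hcard0 ⊢
    rcases hPN.eq_or_lt with h0 | h0
    · rw [← h0, mul_zero]
      by_contra hcon
      have hc : 0 < x := not_le.1 hcon
      have h1 := hup (x / (2 * a)) (by positivity)
      rw [← h0, mul_zero, zero_div, add_zero] at h1
      have h2 : x / (2 * a) * a = x / 2 := by
        field_simp
      rw [h2] at h1
      linarith
    · have h1 := hup (2 * b) (by positivity)
      have h2 : x * b / (2 * b) = x / 2 := by
        field_simp
      rw [h2] at h1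
      nlinarith
  refine hfin.trans (le_of_eq ?_)
  rw [hNdef, hw2]
  ring

end Pool.Agent.W_7d29a1_SQ
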