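import Pool.Agent.W_7d29a1_SQ.DefsSQ
import Pool.Agent.W_7d29a1_SP.Bas15

/-!
Leaf BAL: the other side at a right record, from the upper tail and the lower tail.
-/

namespace Pool.Agent.W_7d29a1_SQ.B62

open MeasureTheory ProbabilityTheory Filter Topology Pool.Agent.W_MP_7d29a1_pr
  Pool.Agent.W_7d29a1_h46 Pool.Agent.W_7d29a1_h46u Pool.Agent.W_7d29a1_D2.B35
  Pool.Agent.W_7d29a1_Q29 Pool.Agent.W_7d29a1_R34 Pool.Agent.W_7d29a1_SP Pool.Agent.W_7d29a1_SD

/-- A quadratic tail controls the excess. -/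
lemma exc62 {Ω : Type*} [MeasurableSpace Ω] {μ : Measure Ω} [IsProbabilityMeasure μ] {Y : Ω → ℝ}
    (hY : Integrable Y μ) {D B : ℝ} (hD : 0 ≤ D) (hB : 0 < B)
    (hT : ∀ u : ℝ, B ≤ u → μ.real {w | u ≤ Y w} ≤ D / u ^ 2) :
    ∫ w, max (Y w - B) 0 ∂μ ≤ D / B := by
  have hi : Integrable (fun w => max (Y w - B) 0) μ := (hY.sub (integrable_const _)).pos_part
  rw [hi.integral_eq_integral_meas_lt (Eventually.of_forall fun w => le_max_right _ _)]
  have hder : ∀ t ∈ Set.Ici (0 : ℝ), HasDerivAt (fun t : ℝ => -(D * (B + t)⁻¹))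
      (D / (B + t) ^ 2) t := by
    intro t ht
    have h0 : (0 : ℝ) < B + t := by
      have : (0 : ℝ) ≤ t := ht
      linarith
    have h1 : HasDerivAt (fun t : ℝ => B + t) 1 t := (hasDerivAt_id t).const_add B
    have h2 : HasDerivAt (fun t : ℝ => -(D * (B + t)⁻¹)) (-(D * (-1 / (B + t) ^ 2))) t :=
      ((h1.inv h0.ne').const_mul D).neg
    have e : -(D * (-1 / (B + t) ^ 2)) = D / (B + t) ^ 2 := by ring
    rwa [e] at h2
  have hpos : ∀ t ∈ Set.Ioi (0 : ℝ), 0 ≤ D / (B + t) ^ 2 := fun t _ => by positivity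
  have hlim : Tendsto (fun t : ℝ => -(D * (B + t)⁻¹)) atTop (𝓝 0) := by
    have h1 : Tendsto (fun t : ℝ => B + t) atTop atTop := tendsto_atTop_add_const_left _ _ tendsto_id
    have h2 := ((tendsto_inv_atTop_zero.comp h1).const_mul D).neg
    simpa using h2
  have h3 := integrableOn_Ioi_deriv_of_nonneg' (a := 0) hder hpos hlim
  have h4 := integral_Ioi_of_hasDerivAt_of_tendsto' (a := 0) hder h3 hlim
  have h5 : ∫ t in Set.Ioi (0 : ℝ), μ.real {w | t < max (Y w - B) 0} ≤
      ∫ t in Set.Ioi (0 : ℝ), D / (B + t) ^ 2 := by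
    refine integral_mono_of_nonneg (Eventually.of_forall fun t => measureReal_nonneg) h3 ?_
    filter_upwards [ae_restrict_mem measurableSet_Ioi] with t ht
    have ht0 : (0 : ℝ) < t := ht
    refine (measureReal_mono ?_).trans (hT (B + t) (by linarith))
    intro w hw
    have hw1 : t < max (Y w - B) 0 := hw
    show B + t ≤ Y w
    rcases lt_max_iff.1 hw1 with h6 | h6
    · linarith
    · linarith
  refine h5.trans (le_of_eq ?_)
  rw [h4, div_eq_mul_inv]
  simp

/-- A centered variable with an upper bound of the probability of the lower side. -/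
lemma side62 {Ω : Type*} [MeasurableSpace Ω] {μ : Measure Ω} [IsProbabilityMeasure μ] {Y : Ω → ℝ}
    (hY : Measurable Y) (hi : Integrable Y μ) (h0 : ∫ w, Y w ∂μ = 0) {a B e : ℝ}
    (he : ∫ w, max (-Y w - B) 0 ∂μ ≤ e) :
    a * (1 - μ.real {w | Y w ≤ a}) ≤ B * μ.real {w | Y w ≤ a} + e := by
  have hS : MeasurableSet {w | Y w ≤ a} := measurableSet_le hY measurable_const
  have i1 : Integrable (fun w => a - (a + B) * Set.indicator {w | Y w ≤ a} (fun _ => (1 : ℝ)) w -
      max (-Y w - B) 0) μ :=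
    ((integrable_const _).sub (((integrable_const _).indicator hS).const_mul _)).sub
      ((hi.neg.sub (integrable_const _)).pos_part)
  have h1 : ∫ w, (a - (a + B) * Set.indicator {w | Y w ≤ a} (fun _ => (1 : ℝ)) w -
      max (-Y w - B) 0) ∂μ ≤ ∫ w, Y w ∂μ := by
    refine integral_mono i1 hi fun w => ?_
    show a - (a + B) * Set.indicator {w | Y w ≤ a} (fun _ => (1 : ℝ)) w -
      max (-Y w - B) 0 ≤ Y w
    by_cases hw : Y w ≤ a
    · rw [Set.indicator_of_mem (show w ∈ {w | Y w ≤ a} from hw)]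
      have := le_max_left (-Y w - B) 0
      linarith
    · rw [Set.indicator_of_notMem (show w ∉ {w | Y w ≤ a} from hw)]
      have := le_max_right (-Y w - B) 0
      have h2 := not_le.1 hw
      linarith
  have h2 : ∫ w, (a - (a + B) * Set.indicator {w | Y w ≤ a} (fun _ => (1 : ℝ)) w -
      max (-Y w - B) 0) ∂μ = a - (a + B) * μ.real {w | Y w ≤ a} -
        ∫ w, max (-Y w - B) 0 ∂μ := by
    have j1 : Integrable (fun w => (a + B) * Set.indicator {w | Y w ≤ a} (fun _ => (1 : ℝ)) w) μ :=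
      ((integrable_const _).indicator hS).const_mul _
    have j2 : Integrable (fun w => a - (a + B) *
        Set.indicator {w | Y w ≤ a} (fun _ => (1 : ℝ)) w) μ := (integrable_const _).sub j1
    have j3 : Integrable (fun w => max (-Y w - B) 0) μ :=
      (hi.neg.sub (integrable_const _)).pos_part
    have j4 : Integrable (fun _ : Ω => a) μ := integrable_const _
    rw [integral_sub j2 j3, integral_sub j4 j1, integral_const_mul, integral_indicator hS]
    simp
  rw [h2, h0] at h1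
  nlinarith

end Pool.Agent.W_7d29a1_SQ.B62

namespace Pool.Agent.W_7d29a1_SQ

open MeasureTheory ProbabilityTheory Filter Topology Pool.Agent.W_MP_7d29a1_pr
  Pool.Agent.W_7d29a1_h46 Pool.Agent.W_7d29a1_h46u Pool.Agent.W_7d29a1_D2.B35
  Pool.Agent.W_7d29a1_Q29 Pool.Agent.W_7d29a1_R34 Pool.Agent.W_7d29a1_SP Pool.Agent.W_7d29a1_SD

lemma one_le_Ps62 {d : ℕ} {ρ : Measure ℝ} [IsProbabilityMeasure ρ] (β : ℝ) (h : Vec d) (n : ℕ) :
    1 ≤ Ps ρ β h n := by
  unfold Ps
  have h1 : En ρ β h 0 ≤ (Finset.range (n + 1)).sup' ⟨0, by simp⟩ (En ρ β h) :=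
    Finset.le_sup' (En ρ β h) (by simp)
  have h2 : Fn ρ β h 0 ≤ (Finset.range (n + 1)).sup' ⟨0, by simp⟩ (Fn ρ β h) :=
    Finset.le_sup' (Fn ρ β h) (by simp)
  rw [En_zero15] at h1
  rw [Fn_zero15] at h2
  linarith

theorem balP62 {d : ℕ} {ρ : Measure ℝ} [IsProbabilityMeasure ρ] (hd : 0 < d) (hρ : EM ρ) {β : ℝ}
    (hT : TaiP d ρ β) (hE : EhlP d ρ β) : BalP d ρ β := by
  intro c₀ x hc hx K
  obtain ⟨C, hC, hT⟩ := hT c₀ hc K
  have hC0 : (0 : ℝ) < C := by linarith
  refine ⟨min (1 / 2) (x ^ 2 / (576 * C ^ 2)), by positivity, ?_⟩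
  intro h hL n hn m hm hmK
  have hP1 : 1 ≤ Ps ρ β h n := one_le_Ps62 β h n
  set P := Ps ρ β h n with hP
  have hP0 : 0 < P := by linarith
  set a := A ρ β h m with ha
  by_contra hcon
  have hq := not_le.1 hcon
  have hq1 := hq.trans_le (min_le_left _ _)
  have hq2 := hq.trans_le (min_le_right _ _)
  set q := (law d ρ).real {η | X β h η m ≤ a + x * P} with hqd
  -- the upper tail
  have hup : (law d ρ).real {η | a + (3 * C + x) * P < X β h η m} ≤ 1 / 5 := by
    have h1 := hT h hL n hn m hm hmK (3 * C * P) (by positivity)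
    have h2 : (C * P / (3 * C * P)) ^ (3 / 2 : ℝ) ≤ 1 / 5 := by
      have e1 : C * P / (3 * C * P) = 1 / 3 := by field_simp
      rw [e1]
      have e2 : ((1 / 3 : ℝ) ^ (3 / 2 : ℝ)) ^ 2 = 1 / 27 := by
        rw [← Real.rpow_natCast, ← Real.rpow_mul (by norm_num)]
        norm_num
      have e3 : (0 : ℝ) ≤ (1 / 3 : ℝ) ^ (3 / 2 : ℝ) := by positivity
      nlinarith
    refine (measureReal_mono ?_).trans (h1.trans h2)
    intro η hη
    have hη1 : a + (3 * C + x) * P < X β h η m := hη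
    show a + 3 * C * P ≤ X β h η m
    nlinarith [mul_pos hx hP0]
  -- the lower tail
  have hlow : ∀ u : ℝ, 0 < u →
      (law d ρ).real {η | u ≤ -(X β h η m - a)} ≤ 36 * C ^ 2 * P ^ 2 / u ^ 2 := by
    intro u hu
    have h1 := hE h m (a + x * P) (a + (3 * C + x) * P) ((u + x * P) / (3 * C * P))
      (by positivity) (by nlinarith) (by linarith) hup
    have e1 : a + x * P - (u + x * P) / (3 * C * P) * (a + (3 * C + x) * P - (a + x * P)) =
        a - u := by
      field_simp
      ring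
    rw [e1] at h1
    have e2 : {η : Env d | u ≤ -(X β h η m - a)} = {η | X β h η m ≤ a - u} := by
      ext η
      simp only [Set.mem_ofPred_eq]
      constructor <;> intro h3 <;> linarith
    rw [e2]
    refine h1.trans ?_
    set t := (u + x * P) / (3 * C * P) with ht
    have ht1 : u / (3 * C * P) ≤ t := by
      rw [ht]
      gcongr
      nlinarith [mul_pos hx hP0]
    have ht0 : 0 < u / (3 * C * P) := by positivity
    have h4 : Real.exp (-(t ^ 2 / 4)) ≤ 4 / t ^ 2 := by
      have h5 : t ^ 2 / 4 ≤ Real.exp (t ^ 2 / 4) := by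
        have := Real.add_one_le_exp (t ^ 2 / 4)
        linarith
      have htp : 0 < t := ht0.trans_le ht1
      rw [Real.exp_neg, inv_eq_one_div, div_le_div_iff₀ (Real.exp_pos _) (by positivity)]
      linarith
    refine h4.trans ?_
    have h6 : 4 / t ^ 2 ≤ 4 / (u / (3 * C * P)) ^ 2 := by gcongr
    refine h6.trans (le_of_eq ?_)
    field_simp
    ring
  have hB0 : 0 < 144 * C ^ 2 / x * P := by positivity
  have hexc := B62.exc62 (μ := law d ρ) (intX15 hd hρ β h m).neg (D := 36 * C ^ 2 * P ^ 2)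
    (B := 144 * C ^ 2 / x * P) (by positivity) hB0 (fun u hu => hlow u (hB0.trans_le hu))
  have hside := B62.side62 (μ := law d ρ) ((measurable_X β h m).sub_const _)
    (intX15 hd hρ β h m) (mean15 hd hρ β h m) (a := x * P) (B := 144 * C ^ 2 / x * P)
    (e := 36 * C ^ 2 * P ^ 2 / (144 * C ^ 2 / x * P)) hexc
  have e3 : {η : Env d | X β h η m - A ρ β h m ≤ x * P} = {η | X β h η m ≤ a + x * P} := by
    ext η
    simp only [Set.mem_ofPred_eq, ← ha]
    constructor <;> intro h3 <;> linarith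
  rw [e3, ← hqd] at hside
  have e4 : 36 * C ^ 2 * P ^ 2 / (144 * C ^ 2 / x * P) = x * P / 4 := by
    field_simp
    ring
  rw [e4] at hside
  have h7 : x * P / 2 ≤ x * P * (1 - q) := by nlinarith [mul_pos hx hP0]
  have h8 : 144 * C ^ 2 / x * P * q < x * P / 4 := by
    have h9 : 144 * C ^ 2 / x * P * q < 144 * C ^ 2 / x * P * (x ^ 2 / (576 * C ^ 2)) :=
      mul_lt_mul_of_pos_left hq2 hB0
    have e5 : 144 * C ^ 2 / x * P * (x ^ 2 / (576 * C ^ 2)) = x * P / 4 := by
      field_simp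
      ring
    rw [e5] at h9
    exact h9
  linarith

end Pool.Agent.W_7d29a1_SQ
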