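import Pool.Agent.W_7d29a1_SQ.Ssc35

/-!
Theorem SQ: counting at the same scale, with the random fluctuation as a hypothesis (every law; no
Ehrhard) (helper35).
-/

set_option autoImplicit false

namespace Pool.Agent.W_7d29a1_SQ

open MeasureTheory ProbabilityTheory Filter Topology Pool.Agent.W_MP_7d29a1_pr
  Pool.Agent.W_7d29a1_h46 Pool.Agent.W_7d29a1_h46u Pool.Agent.W_7d29a1_D2.B35
  Pool.Agent.W_7d29a1_Q29 Pool.Agent.W_7d29a1_R34 Pool.Agent.W_7d29a1_SP Pool.Agent.W_7d29a1_SD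

/-- Leaf SSC with both fluctuations as hypotheses. -/
def SscF (d : ℕ) (ρ : Measure ℝ) (β : ℝ) : Prop := ∀ c₀ : ℝ, 0 < c₀ → ∃ C δ₀ : ℝ, 1 ≤ C ∧
  0 < δ₀ ∧ ∀ h : Vec d, Loc1 ρ β h c₀ →
  ∀ (κ : ℝ) (m : ℕ) (x M δ Φ : ℝ), 0 < κ → κ ≤ c₀ / 4 → 1 ≤ m → 0 < M → 0 < δ → δ ≤ δ₀ →
    (∀ L : ℕ, m ≤ L → L ≤ 2 * m → RS ρ β h L ⌊κ * L⌋₊ M δ) →
    (∀ k : ℕ, k ≤ m → En ρ β h k ≤ Φ ∧ Fn ρ β h k ≤ Φ) →
    C * δ ≤ (law d ρ).real {η | A ρ β h m + x ≤ X β h η m} → x ≤ C * (Φ + M + 1)

namespace SscF35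

open Pool.Agent.W_7d29a1_SP.C79 Pool.Agent.W_7d29a1_P89 Pool.Agent.W_7d29a1_SW.SaW35

variable {d : ℕ} {ρ : Measure ℝ}

/-- The mean of the positive part of the increment. -/
lemma upF [IsProbabilityMeasure ρ] (hd : 0 < d) (hρ : EM ρ) (β : ℝ) (h : Vec d) (t m : ℕ)
    {Φ : ℝ} (hΦ : A ρ β h (t + m) - A ρ β h t - A ρ β h m ≤ 2 * Φ) (hF : Fn ρ β h m ≤ Φ) :
    Integrable (fun η => max 0 (X β h η (t + m) - X β h η t - A ρ β h m)) (law d ρ) ∧
      ∫ η, max 0 (X β h η (t + m) - X β h η t - A ρ β h m) ∂(law d ρ) ≤ 3 * Φ := by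
  have hX : ∀ k, Integrable (fun η => X β h η k) (law d ρ) := fun k => (concU hd hρ β h k).1
  have hXm : ∀ k, Measurable fun η : Env d => X β h η k := fun k => measurable_X β h k
  obtain ⟨U, hU⟩ : ∃ U : Env d → ℝ, U = fun η => X β h η (t + m) - X β h η t - A ρ β h m :=
    ⟨_, rfl⟩
  have hUi : Integrable U (law d ρ) := by
    rw [hU]
    exact ((hX _).sub (hX _)).sub (integrable_const _)
  have hUI : ∫ η, U η ∂(law d ρ) ≤ 2 * Φ := by
    rw [hU]
    simp only
    have i1 : Integrable (fun η => X β h η (t + m) - X β h η t) (law d ρ) :=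
      (hX (t + m)).sub (hX t)
    rw [integral_sub i1 (integrable_const _), integral_sub (hX (t + m)) (hX t)]
    simp only [integral_const, probReal_univ, smul_eq_mul, one_mul]
    exact hΦ
  -- the lower part
  obtain ⟨g, hg⟩ : ∃ g : Env d → ℝ, g = fun η => max 0 (A ρ β h m - X β h η m) := ⟨_, rfl⟩
  have hg0 : ∀ η, 0 ≤ g η := fun η => by
    rw [hg]
    exact le_max_left _ _
  have hgm : Measurable g := by
    rw [hg]
    exact measurable_const.max (measurable_const.sub (hXm m))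
  have hgle : ∀ η, g η ≤ |X β h η m - A ρ β h m| := fun η => by
    rw [hg]
    refine max_le (abs_nonneg _) ?_
    rw [abs_sub_comm]
    exact le_abs_self _
  have hai : Integrable (fun η => |X β h η m - A ρ β h m|) (law d ρ) :=
    ((hX m).sub (integrable_const _)).abs
  have hgi : Integrable g (law d ρ) := by
    refine hai.mono' hgm.aestronglyMeasurable (Eventually.of_forall fun η => ?_)
    rw [Real.norm_of_nonneg (hg0 η)]
    exact hgle η
  have hgI : ∫ η, g η ∂(law d ρ) ≤ Φ := by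
    refine (integral_mono hgi hai hgle).trans ?_
    unfold Fn at hF
    exact hF
  have hgs : ∀ y : Site d, Integrable (fun η => g (sh t y η)) (law d ρ) := fun y =>
    (mp_sh t y).integrable_comp_of_integrable hgi
  have i2 : ∀ s : Fin t → Step d, Integrable (fun η => FreeU_p β h t s η *
      g (sh t (pos s t) η)) (law d ρ) := fun s =>
    (hgs (pos s t)).bdd_mul (c := 1) (FreeU_meas β h t s).aestronglyMeasurable
      (Eventually.of_forall fun η => by
        rw [Real.norm_eq_abs, abs_of_nonneg (FreeU_nonneg hd β h t s η)]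
        exact FreeU_le_one hd β h t s η)
  have i1 : ∀ s : Fin t → Step d, Integrable (FreeU_p β h t s) (law d ρ) := fun s =>
    (integrable_const (1 : ℝ)).mono' (FreeU_meas β h t s).aestronglyMeasurable
      (Eventually.of_forall fun η => by
        rw [Real.norm_eq_abs, abs_of_nonneg (FreeU_nonneg hd β h t s η)]
        exact FreeU_le_one hd β h t s η)
  have e1 : ∀ s : Fin t → Step d, ∫ η, FreeU_p β h t s η * g (sh t (pos s t) η) ∂(law d ρ) =
      (∫ η, FreeU_p β h t s η ∂(law d ρ)) * ∫ η, g η ∂(law d ρ) := by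
    intro s
    have h1 := integral_indep (ρ := ρ) (Pa d t) (F := FreeU_p β h t s)
      (G := fun η => g (sh t (pos s t) η)) (FreeU_meas β h t s)
      (hgm.comp (measurable_sh t (pos s t))) (FreeU_dep β h t s) (fun η η' hη => by
        have h2 := FreeU_dep2 β h t m (pos s t) hη
        rw [hg]
        simp only at h2 ⊢
        rw [h2])
    rw [h1, integral_sh t (pos s t) hgm]
  have hpt : ∀ η, max 0 (U η) ≤ U η + ∑ s : Fin t → Step d, FreeU_p β h t s η *
      g (sh t (pos s t) η) := by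
    intro η
    have h1 := FreeU_pt hd β h t m η
    have h2 : ∑ s : Fin t → Step d, FreeU_p β h t s η *
        (A ρ β h m - X β h (sh t (pos s t) η) m) ≤ ∑ s : Fin t → Step d, FreeU_p β h t s η *
        g (sh t (pos s t) η) := by
      refine Finset.sum_le_sum fun s _ => mul_le_mul_of_nonneg_left ?_
        (FreeU_nonneg hd β h t s η)
      rw [hg]
      exact le_max_right _ _
    have h3 : ∑ s : Fin t → Step d, FreeU_p β h t s η *
        (A ρ β h m - X β h (sh t (pos s t) η) m) =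
        A ρ β h m - ∑ s : Fin t → Step d, FreeU_p β h t s η * X β h (sh t (pos s t) η) m := by
      simp only [mul_sub]
      rw [Finset.sum_sub_distrib, ← Finset.sum_mul, FreeU_sum hd, one_mul]
    have h4 : 0 ≤ ∑ s : Fin t → Step d, FreeU_p β h t s η * g (sh t (pos s t) η) :=
      Finset.sum_nonneg fun s _ => mul_nonneg (FreeU_nonneg hd β h t s η) (hg0 _)
    have hUη : U η = X β h η (t + m) - X β h η t - A ρ β h m := by rw [hU]
    refine max_le ?_ ?_
    · rw [hUη]
      linarith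
    · linarith
  have hmi : Integrable (fun η => max 0 (U η)) (law d ρ) := by
    refine (hUi.abs).mono' (measurable_const.max ?_).aestronglyMeasurable
      (Eventually.of_forall fun η => ?_)
    · rw [hU]
      exact ((hXm _).sub (hXm _)).sub_const _
    · rw [Real.norm_eq_abs, abs_of_nonneg (le_max_left _ _)]
      exact max_le (abs_nonneg _) (le_abs_self _)
  have i4 : Integrable (fun η => ∑ s : Fin t → Step d, FreeU_p β h t s η *
      g (sh t (pos s t) η)) (law d ρ) := integrable_finsetSum _ fun s _ => i2 s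
  have hfin := integral_mono hmi (hUi.add i4) hpt
  simp only [Pi.add_apply] at hfin
  rw [integral_add hUi i4, integral_finsetSum _ fun s _ => i2 s,
    Finset.sum_congr rfl fun s _ => e1 s, ← Finset.sum_mul,
    ← integral_finsetSum _ fun s _ => i1 s] at hfin
  have e2 : ∫ η, ∑ s : Fin t → Step d, FreeU_p β h t s η ∂(law d ρ) = 1 := by
    simp only [FreeU_sum hd]
    simp
  rw [e2, one_mul] at hfin
  rw [hU] at hmi hfin hUI
  simp only at hmi hfin hUI
  exact ⟨hmi, by linarith⟩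

end SscF35

open SscF35 Pool.Agent.W_7d29a1_SP.C79 Pool.Agent.W_7d29a1_P89 Pool.Agent.W_7d29a1_SW.SaW35 in
/-- Leaf SSC, every law. -/
theorem sscF35 {d : ℕ} {ρ : Measure ℝ} [IsProbabilityMeasure ρ] (hd : 0 < d) (hρ : EM ρ)
    (β : ℝ) : SscF d ρ β := by
  classical
  intro c₀ hc
  have hc1 : 0 ≤ |Real.log c₀| := abs_nonneg _
  have hc2 : 0 < 8 / c₀ ^ 2 := by positivity
  refine ⟨9 + |Real.log c₀| + 8 / c₀ ^ 2, c₀ ^ 2 / 96, by linarith, by positivity,
    fun h hloc κ m x M δ Φ hκ0 hκ hm hM hδ0 hδ hRS hΦ hqx => ?_⟩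
  have hX : ∀ k, Integrable (fun η => X β h η k) (law d ρ) := fun k => (concU hd hρ β h k).1
  have hXm : ∀ k, Measurable fun η : Env d => X β h η k := fun k => measurable_X β h k
  have hΦ0 : 0 ≤ Φ := by
    refine le_trans ?_ (hΦ 0 (Nat.zero_le _)).1
    unfold Pool.Agent.W_7d29a1_SP.En
    have := A_le_lam hd hρ β h 0
    linarith
  have hm1 : (1 : ℝ) ≤ m := by exact_mod_cast hm
  have hm0 : (0 : ℝ) < m := by linarith
  -- a localised time
  obtain ⟨t, htm, htp, hta⟩ : ∃ t : ℕ, t < m ∧ ⌊κ * ((t + m : ℕ) : ℝ)⌋₊ ≤ t ∧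
      c₀ ≤ (law d ρ).real (AS β h c₀ t) := by
    obtain ⟨F, hF⟩ : ∃ F : Finset ℕ, F = (Finset.range m).filter fun t =>
      c₀ ≤ (law d ρ).real {η | ∃ y ∈ boxF d t, c₀ * Z β h η t ≤ PP β h η t y} := ⟨_, rfl⟩
    have h1 : c₀ * m ≤ F.card := by
      rw [hF]
      exact hloc m
    have h2 : F.Nonempty := by
      rw [← Finset.card_pos]
      have : (0 : ℝ) < F.card := lt_of_lt_of_le (by positivity) h1
      exact_mod_cast this
    obtain ⟨t, ht⟩ : ∃ t, t = F.max' h2 := ⟨_, rfl⟩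
    have htF : t ∈ F := ht ▸ Finset.max'_mem F h2
    have h3 : F ⊆ Finset.range (t + 1) := by
      intro s hs
      have := Finset.le_max' F s hs
      rw [← ht] at this
      exact Finset.mem_range.2 (by omega)
    have h4 : (F.card : ℝ) ≤ t + 1 := by
      have := Finset.card_le_card h3
      rw [Finset.card_range] at this
      exact_mod_cast this
    rw [hF] at htF
    obtain ⟨h5, h6⟩ := Finset.mem_filter.1 htF
    have h7 : t < m := Finset.mem_range.1 h5
    refine ⟨t, h7, ?_, h6⟩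
    have h8 : κ * ((t + m : ℕ) : ℝ) < t + 1 := by
      push_cast
      have h9 : (t : ℝ) < m := by exact_mod_cast h7
      have h10 : κ * ((t : ℝ) + m) ≤ c₀ / 4 * (2 * m) :=
        mul_le_mul hκ (by linarith) (by positivity) (by positivity)
      have h11 : (0 : ℝ) ≤ t := Nat.cast_nonneg t
      nlinarith
    have h9 : ⌊κ * ((t + m : ℕ) : ℝ)⌋₊ < t + 1 := by
      rw [Nat.floor_lt (by positivity)]
      push_cast at h8 ⊢
      exact h8
    omega
  -- the resampling of the rows `> t`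
  have hRt : RS ρ β h (t + m) t (2 * M) (2 * δ) := by
    have h1 := coupS6 (d := d) (ρ := ρ) β (Env d × Env d) ((law d ρ).prod (law d ρ))
      (fun w => w.1) (fun w => spl (Pa d t) w.1 w.2) measurePreserving_fst (mp_spl (Pa d t))
      ⌊κ * ((t + m : ℕ) : ℝ)⌋₊ (fun w q hq => (spl_mem w.1 w.2
        (show q ∈ Pa d t from hq.trans htp)).symm) h (t + m) M δ
      (hRS (t + m) (by omega) (by omega))
    exact h1
  have hE1 : A ρ β h (t + m) - A ρ β h t - A ρ β h m ≤ 2 * Φ := by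
    have e1 := (hΦ t (by omega)).1
    have e2 := (hΦ m le_rfl).1
    have e3 := A_le_lam hd hρ β h (t + m)
    unfold Pool.Agent.W_7d29a1_SP.En at e1 e2
    push_cast at e3
    linarith
  obtain ⟨hUi, hUI⟩ := upF hd hρ β h t m hE1 (hΦ m le_rfl).2
  obtain ⟨q, hq⟩ : ∃ q : ℝ, q = (law d ρ).real {η | A ρ β h m + x ≤ X β h η m} := ⟨_, rfl⟩
  rw [← hq] at hqx
  have hCpos : 0 < 9 + |Real.log c₀| + 8 / c₀ ^ 2 := by linarith
  have hq0 : 0 < q := lt_of_lt_of_le (by positivity) hqx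
  have hcount := count (ρ := ρ) hd β h hc t m (A ρ β h m + x) (2 * M) hta
  rw [← hq] at hcount
  have hD : ((law d ρ).prod (law d ρ)).real {w | 2 * M < |X β h w.1 (t + m) -
        X β h (spl (Pa d t) w.1 w.2) (t + m)|} ≤ 2 * δ := hRt
  obtain ⟨P, hP⟩ : ∃ P : ℝ, P = (law d ρ).real {η | A ρ β h m + x + Real.log c₀ - 2 * M ≤
    X β h η (t + m) - X β h η t} := ⟨_, rfl⟩
  rw [← hP] at hcount
  have hP1 : c₀ ^ 2 / 2 ≤ P := by
    have h1 : 2 * δ / c₀ ≤ c₀ * q / 2 := by
      have h2 : 8 / c₀ ^ 2 * δ ≤ q := by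
        refine le_trans ?_ hqx
        exact mul_le_mul_of_nonneg_right (by linarith) hδ0.le
      have h3 : 8 * δ ≤ q * c₀ ^ 2 := by
        have h4 : 8 / c₀ ^ 2 * δ = 8 * δ / c₀ ^ 2 := by ring
        rw [h4, div_le_iff₀ (by positivity)] at h2
        exact h2
      rw [div_le_iff₀ hc]
      nlinarith
    have h5 := (div_le_div_iff_of_pos_right hc).2 hD
    have h3 : q * c₀ ≤ q * (P / c₀) + c₀ * q / 2 := by linarith
    have h4 : q * (c₀ / 2) ≤ q * (P / c₀) := by linarith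
    have h5 := le_of_mul_le_mul_left h4 hq0
    rw [le_div_iff₀ hc] at h5
    linarith
  -- Markov
  obtain ⟨z, hz⟩ : ∃ z : ℝ, z = x + Real.log c₀ - 2 * M := ⟨_, rfl⟩
  have hzb : z ≤ 8 / c₀ ^ 2 * Φ := by
    have hR : 0 ≤ 8 / c₀ ^ 2 * Φ := by positivity
    rcases le_or_gt z 0 with hz0 | hz0
    · linarith
    · have h1 := mul_meas_ge_le_integral_of_nonneg (μ := law d ρ)
        (f := fun η => max 0 (X β h η (t + m) - X β h η t - A ρ β h m))
        (Eventually.of_forall fun η => le_max_left _ _) hUi z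
      have h2 : {η | A ρ β h m + x + Real.log c₀ - 2 * M ≤ X β h η (t + m) - X β h η t} ⊆
          {η | z ≤ max 0 (X β h η (t + m) - X β h η t - A ρ β h m)} := by
        intro η hη
        have h3 : A ρ β h m + x + Real.log c₀ - 2 * M ≤ X β h η (t + m) - X β h η t := hη
        show z ≤ max 0 (X β h η (t + m) - X β h η t - A ρ β h m)
        refine le_trans ?_ (le_max_right _ _)
        rw [hz]
        linarith
      have h3 := measureReal_mono (μ := law d ρ) h2
      rw [← hP] at h3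
      have h5 : z * (c₀ ^ 2 / 2) ≤ 3 * Φ :=
        (mul_le_mul_of_nonneg_left (hP1.trans h3) hz0.le).trans (h1.trans hUI)
      have h6 : 2 / c₀ ^ 2 * (z * (c₀ ^ 2 / 2)) = z := by
        field_simp
      have h7 : 2 / c₀ ^ 2 * (3 * Φ) ≤ 8 / c₀ ^ 2 * Φ := by
        have h8 : 0 ≤ 2 / c₀ ^ 2 * Φ := by positivity
        have h9 : 2 / c₀ ^ 2 * (3 * Φ) = 3 * (2 / c₀ ^ 2 * Φ) := by ring
        have h10 : 8 / c₀ ^ 2 * Φ = 4 * (2 / c₀ ^ 2 * Φ) := by ring
        rw [h9, h10]
        linarith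
      rw [← h6]
      exact (mul_le_mul_of_nonneg_left h5 (by positivity)).trans h7
  have h5 : -|Real.log c₀| ≤ Real.log c₀ := neg_abs_le _
  have h6 : x ≤ z - Real.log c₀ + 8 * M := by
    rw [hz]
    linarith
  have n1 : 0 ≤ |Real.log c₀| * Φ := mul_nonneg hc1 hΦ0
  have n2 : 0 ≤ |Real.log c₀| * M := mul_nonneg hc1 hM.le
  have n3 : 0 ≤ 8 / c₀ ^ 2 * M := mul_nonneg hc2.le hM.le
  have e9 : (9 + |Real.log c₀| + 8 / c₀ ^ 2) * (Φ + M + 1) =
      (8 / c₀ ^ 2 * Φ + |Real.log c₀| + 8 * M) +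
      (9 * Φ + M + 9 + |Real.log c₀| * Φ + |Real.log c₀| * M + 8 / c₀ ^ 2 * M +
        8 / c₀ ^ 2) := by ring
  rw [e9]
  linarith

end Pool.Agent.W_7d29a1_SQ
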