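import Pool.Agent.W_7d29a1_SQ.Top32

/-!
Theorem SQ, leaf TAI: the upper tail at a right record (from the counting in time).
-/

set_option autoImplicit false

namespace Pool.Agent.W_7d29a1_SQ

open MeasureTheory ProbabilityTheory Filter Topology Pool.Agent.W_MP_7d29a1_pr
  Pool.Agent.W_7d29a1_h46 Pool.Agent.W_7d29a1_h46u Pool.Agent.W_7d29a1_D2.B35
  Pool.Agent.W_7d29a1_Q29 Pool.Agent.W_7d29a1_R34 Pool.Agent.W_7d29a1_SP Pool.Agent.W_7d29a1_SD

variable {d : ℕ} {ρ : Measure ℝ} {β : ℝ}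

/-- **Leaf TAI.** -/
theorem tai94 [IsProbabilityMeasure ρ] (hC : CntP d ρ β) : TaiP d ρ β := by
  intro c₀ hc₀ K
  obtain ⟨C₀, hC₀, hcnt⟩ := hC c₀ hc₀
  have hC₀0 : 0 < C₀ := by linarith
  have hK0 : (0 : ℝ) ≤ K := Nat.cast_nonneg K
  set B : ℝ := 2 + C₀ * K with hB
  have hCK : 0 ≤ C₀ * K := mul_nonneg hC₀0.le hK0
  have hB2 : 2 ≤ B := by linarith
  have hB0 : 0 < B := by linarith
  refine ⟨2 * C₀ * B, by nlinarith, fun h hloc n hn m hm1 hmK x hx => ?_⟩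
  obtain ⟨hn1, hrec⟩ := hn
  set q : ℝ := (law d ρ).real {η | A ρ β h m + x ≤ X β h η m} with hq
  have hP1 := one_le_Ps32 (ρ := ρ) (β := β) h n
  have hP0 : 0 < Ps ρ β h n := by linarith
  have hr0 : 0 ≤ 2 * C₀ * B * Ps ρ β h n / x := by positivity
  have hq0' : 0 ≤ q := measureReal_nonneg
  have hq1 : q ≤ 1 := measureReal_le_one
  rcases hq0'.eq_or_lt with hq0 | hq0
  · rw [← hq0]
    exact Real.rpow_nonneg hr0 _
  have hn0 : (1 : ℝ) ≤ n := by exact_mod_cast hn1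
  have hnn : (0 : ℝ) < n := by linarith
  have hmn : (m : ℝ) ≤ K * n := by exact_mod_cast hmK
  -- the time
  set T : ℕ := max n ⌈C₀ * m / q⌉₊ with hT
  have hT1 : C₀ * m / q ≤ T := (Nat.le_ceil _).trans (by exact_mod_cast le_max_right _ _)
  have hT2 : n ≤ T := le_max_left _ _
  have h1 := hcnt h hloc m T x q (Ps ρ β h T) hm1 hq0 le_rfl hT1
    fun k hk => ⟨(En_le_Ps32 h hk).trans (by linarith), (Fn_le_Ps32 h hk).trans (by linarith)⟩
  have hPT := one_le_Ps32 (ρ := ρ) (β := β) h T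
  have h2 : x ≤ 2 * C₀ * Ps ρ β h T := by nlinarith
  have h3 := hrec T hT2
  -- `T ≤ B n / q`
  have hnq : (n : ℝ) ≤ n / q := by
    rw [le_div_iff₀ hq0]
    nlinarith
  have h4 : (T : ℝ) ≤ B * (n / q) := by
    have h5 : (⌈C₀ * m / q⌉₊ : ℝ) ≤ C₀ * m / q + 1 := (Nat.ceil_lt_add_one (by positivity)).le
    have h6 : C₀ * m / q ≤ C₀ * K * (n / q) := by
      rw [mul_div_assoc', div_le_div_iff_of_pos_right hq0]
      nlinarith
    have h7 : (T : ℝ) = max (n : ℝ) (⌈C₀ * m / q⌉₊ : ℝ) := by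
      rw [hT]
      push_cast
      rfl
    rw [h7]
    refine max_le ?_ ?_
    · nlinarith
    · rw [hB]
      nlinarith
  have h8 : (T : ℝ) / n ≤ B / q := by
    rw [div_le_iff₀ hnn]
    calc (T : ℝ) ≤ B * (n / q) := h4
      _ = B / q * n := by ring
  have h9 : ((T : ℝ) / n) ^ (2 / 3 : ℝ) ≤ (B / q) ^ (2 / 3 : ℝ) :=
    Real.rpow_le_rpow (by positivity) h8 (by norm_num)
  set y : ℝ := 2 * C₀ * Ps ρ β h n / x with hy
  have hy0 : 0 < y := by positivity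
  have h10 : 1 ≤ y * (B / q) ^ (2 / 3 : ℝ) := by
    rw [hy, div_mul_eq_mul_div, le_div_iff₀ hx, one_mul]
    calc x ≤ 2 * C₀ * Ps ρ β h T := h2
      _ ≤ 2 * C₀ * (Ps ρ β h n * (B / q) ^ (2 / 3 : ℝ)) := by
          refine mul_le_mul_of_nonneg_left ?_ (by positivity)
          exact h3.trans (mul_le_mul_of_nonneg_left h9 hP0.le)
      _ = _ := by ring
  have h11 : 1 ≤ y ^ (3 / 2 : ℝ) * (B / q) := by
    have h12 : (1 : ℝ) ≤ (y * (B / q) ^ (2 / 3 : ℝ)) ^ (3 / 2 : ℝ) :=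
      Real.one_le_rpow h10 (by norm_num)
    rw [Real.mul_rpow hy0.le (by positivity), ← Real.rpow_mul (by positivity)] at h12
    norm_num at h12
    exact h12
  have h13 : q ≤ y ^ (3 / 2 : ℝ) * B := by
    rw [← mul_div_assoc, le_div_iff₀ hq0, one_mul] at h11
    exact h11
  refine h13.trans ?_
  have h14 : B ≤ B ^ (3 / 2 : ℝ) := by
    conv_lhs => rw [← Real.rpow_one B]
    exact Real.rpow_le_rpow_of_exponent_le (by linarith) (by norm_num)
  have h15 : 2 * C₀ * B * Ps ρ β h n / x = y * B := by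
    rw [hy]
    ring
  rw [h15, Real.mul_rpow hy0.le hB0.le]
  exact mul_le_mul_of_nonneg_left h14 (by positivity)

end Pool.Agent.W_7d29a1_SQ
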