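import Pool.Agent.W_7d29a1_SQ.DefsSQ
import Pool.Agent.W_7d29a1_SP.Amp84

/-!
EHL (helper84): the Gaussian lower tail of the free energy by Ehrhard's inequality, for the laws of convex
functions of a Gaussian variable.
-/

namespace Pool.Agent.W_7d29a1_SQ

open MeasureTheory ProbabilityTheory Filter Topology Set Pool.Agent.W_MP_7d29a1_pr
  Pool.Agent.W_7d29a1_h46 Pool.Agent.W_7d29a1_h46u Pool.Agent.W_7d29a1_SP Pool.Agent.W_7d29a1_SP.A84

namespace E84

lemma Phi_zero : Ehr.Phi 0 = 1 / 2 := by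
  have := Phi_add 0
  rw [neg_zero] at this
  linarith

lemma phi_le (x : ℝ) : Ehr.phi x ≤ 2 / 5 := by
  rw [Ehr.phi_eq]
  have hpi := Real.pi_gt_d2
  have h1 : (5 / 2 : ℝ) ≤ √(2 * Real.pi) := by
    rw [show (5 / 2 : ℝ) = √((5 / 2) ^ 2) by rw [Real.sqrt_sq (by norm_num)]]
    exact Real.sqrt_le_sqrt (by nlinarith)
  have h2 : (√(2 * Real.pi))⁻¹ ≤ 2 / 5 := by
    calc (√(2 * Real.pi))⁻¹ ≤ (5 / 2 : ℝ)⁻¹ := inv_anti₀ (by norm_num) h1
      _ = 2 / 5 := by norm_num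
  have h3 : Real.exp (-x ^ 2 / 2) ≤ 1 := Real.exp_le_one_iff.2 (by nlinarith [sq_nonneg x])
  calc (√(2 * Real.pi))⁻¹ * Real.exp (-x ^ 2 / 2) ≤ 2 / 5 * 1 :=
        mul_le_mul h2 h3 (Real.exp_pos _).le (by norm_num)
    _ = 2 / 5 := mul_one _

lemma Phi_b : Ehr.Phi (3 / 4) ≤ 4 / 5 := by
  have hd : ∀ y, HasDerivAt (fun z => 2 / 5 * z - Ehr.Phi z) (2 / 5 - Ehr.phi y) y := fun y => by
    have h1 : HasDerivAt (fun z : ℝ => 2 / 5 * z) (2 / 5) y := by
      simpa using (hasDerivAt_id y).const_mul (2 / 5 : ℝ)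
    exact h1.sub (Ehr.hasDerivAt_Phi y)
  have hm : Monotone fun z => 2 / 5 * z - Ehr.Phi z :=
    monotone_of_deriv_nonneg (fun y => (hd y).differentiableAt) fun y => by
      rw [(hd y).deriv]
      linarith [phi_le y]
  have h := hm (show (0 : ℝ) ≤ 3 / 4 by norm_num)
  simp only [mul_zero, zero_sub, Phi_zero] at h
  linarith

end E84

open E84 in
/-- **EHL**: the lower tail. -/
theorem ehl84 {d : ℕ} (hd : 0 < d) {ρ : Measure ℝ} [IsProbabilityMeasure ρ] (hG : GC ρ) {β : ℝ} (hβ : 0 ≤ β) :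
    EhlP d ρ β := by
  obtain ⟨φ, hφ, hρ⟩ := hG
  have hc : Continuous φ := by
    rw [← continuousOn_univ]
    exact hφ.continuousOn isOpen_univ
  intro h m s₀ s₁ t ht hs h0 h1
  have : Nonempty (Fin m → Step d) := ⟨fun _ => (⟨⟨0, hd⟩, true⟩ : Step d)⟩
  have e0 := X_law hc hρ β h m (T := Iic s₀) measurableSet_Iic
  have e1 := X_law hc hρ β h m (T := Iic s₁) measurableSet_Iic
  have e2 := X_law hc hρ β h m (T := Iic (s₀ - t * (s₁ - s₀))) measurableSet_Iic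
  simp only [mem_Iic] at e0 e1 e2
  have mX := measurable_X (d := d) β h m
  have c1 : (law d ρ).real {η | X β h η m ≤ s₁} = 1 - (law d ρ).real {η | s₁ < X β h η m} := by
    rw [← probReal_compl_eq_one_sub (measurableSet_lt measurable_const mX)]
    congr 1
    ext η
    simp
  have h7 := Ehr.unluck (Y_conv hφ hβ h m) ((Y_cont β h m).comp (by fun_prop)) (a := 0) (b := 3 / 4)
    (s0 := s₀) (s1 := s₁) (t := t) ht (by rw [Phi_zero, ← e0]; exact h0) (by
      rw [← e1, c1]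
      linarith [Phi_b])
  rw [← e2] at h7
  refine h7.trans ?_
  rw [show (0 : ℝ) - t * (3 / 4 - 0) = -(3 / 4 * t) by ring]
  refine (Phi_upper (by positivity)).trans (Real.exp_le_exp.2 ?_)
  nlinarith [sq_nonneg t]

end Pool.Agent.W_7d29a1_SQ
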