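import Pool.Agent.W_7d29a1_SQ.DefsSQ

/-!
Theorem SQ, leaf FIN (real analysis).
-/

namespace Pool.Agent.W_7d29a1_SQ

open MeasureTheory ProbabilityTheory Filter Topology Pool.Agent.W_MP_7d29a1_pr
  Pool.Agent.W_7d29a1_h46 Pool.Agent.W_7d29a1_h46u Pool.Agent.W_7d29a1_D2.B35
  Pool.Agent.W_7d29a1_Q29 Pool.Agent.W_7d29a1_R34 Pool.Agent.W_7d29a1_SP Pool.Agent.W_7d29a1_SD

/-- Right records exist. -/
lemma rrec24 (f : ℕ → ℝ) (C₀ : ℝ) (_hC₀ : 0 ≤ C₀) (h1 : ∀ n, 1 ≤ f n)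
    (hf : ∀ n : ℕ, f n ≤ 1 + C₀ * (n : ℝ) ^ (51 / 100 : ℝ)) (T₀ : ℕ) (hT₀ : 1 ≤ T₀) :
    ∃ n, T₀ ≤ n ∧ RRec f n ∧ f T₀ * ((n : ℝ) / T₀) ^ (2 / 3 : ℝ) ≤ f n := by
  have hT0 : (1 : ℝ) ≤ T₀ := by exact_mod_cast hT₀
  have hφ0 : 0 < f T₀ / (T₀ : ℝ) ^ (2 / 3 : ℝ) := by
    have := h1 T₀
    positivity
  have hlim : Tendsto (fun T : ℕ => (1 + C₀) * (T : ℝ) ^ (-(47 / 300 : ℝ))) atTop (𝓝 0) := by
    have h2 := ((tendsto_rpow_neg_atTop (show (0 : ℝ) < 47 / 300 by norm_num)).comp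
      tendsto_natCast_atTop_atTop).const_mul (1 + C₀)
    simpa using h2
  obtain ⟨N, hN⟩ := eventually_atTop.1 (hlim.eventually_lt_const hφ0)
  have hbd : ∀ T : ℕ, 1 ≤ T → f T / (T : ℝ) ^ (2 / 3 : ℝ) ≤
      (1 + C₀) * (T : ℝ) ^ (-(47 / 300 : ℝ)) := by
    intro T hT
    have hT1 : (1 : ℝ) ≤ T := by exact_mod_cast hT
    have hTp : (0 : ℝ) < T := by linarith
    have h2 : (1 : ℝ) ≤ (T : ℝ) ^ (51 / 100 : ℝ) := Real.one_le_rpow hT1 (by norm_num)
    have h3 : f T ≤ (1 + C₀) * (T : ℝ) ^ (51 / 100 : ℝ) := by nlinarith [hf T]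
    rw [div_le_iff₀ (Real.rpow_pos_of_pos hTp _), mul_assoc, ← Real.rpow_add hTp]
    have h4 : (-(47 / 300 : ℝ)) + 2 / 3 = 51 / 100 := by norm_num
    rw [h4]
    exact h3
  obtain ⟨n, hn, hmax⟩ := Finset.exists_max_image (Finset.Icc T₀ (max N T₀))
    (fun T : ℕ => f T / (T : ℝ) ^ (2 / 3 : ℝ)) ⟨T₀, Finset.mem_Icc.2 ⟨le_rfl, le_max_right _ _⟩⟩
  have hnT := (Finset.mem_Icc.1 hn).1
  have hall : ∀ T : ℕ, T₀ ≤ T → f T / (T : ℝ) ^ (2 / 3 : ℝ) ≤ f n / (n : ℝ) ^ (2 / 3 : ℝ) := by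
    intro T hT
    by_cases hTN : T ≤ max N T₀
    · exact hmax T (Finset.mem_Icc.2 ⟨hT, hTN⟩)
    · have h2 : N ≤ T := (le_max_left N T₀).trans (not_le.1 hTN).le
      refine ((hbd T (hT₀.trans hT)).trans (hN T h2).le).trans ?_
      exact hmax T₀ (Finset.mem_Icc.2 ⟨le_rfl, le_max_right _ _⟩)
  have hn1 : (1 : ℝ) ≤ n := hT0.trans (by exact_mod_cast hnT)
  have hnp : (0 : ℝ) < n := by linarith
  have hconv : ∀ T : ℕ, T₀ ≤ T → f T ≤ f n * ((T : ℝ) / n) ^ (2 / 3 : ℝ) := by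
    intro T hT
    have hTp : (0 : ℝ) < T := by
      have : (1 : ℝ) ≤ T := hT0.trans (by exact_mod_cast hT)
      linarith
    have h2 := hall T hT
    rw [div_le_div_iff₀ (Real.rpow_pos_of_pos hTp _) (Real.rpow_pos_of_pos hnp _)] at h2
    rw [Real.div_rpow hTp.le hnp.le, ← mul_div_assoc, le_div_iff₀ (Real.rpow_pos_of_pos hnp _)]
    exact h2
  refine ⟨n, hnT, ⟨hT₀.trans hnT, fun T hT => hconv T (hnT.trans hT)⟩, ?_⟩
  have h2 := hall T₀ le_rfl
  have hTp : (0 : ℝ) < T₀ := by linarith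
  rw [div_le_div_iff₀ (Real.rpow_pos_of_pos hTp _) (Real.rpow_pos_of_pos hnp _)] at h2
  rw [Real.div_rpow hnp.le hTp.le, ← mul_div_assoc, div_le_iff₀ (Real.rpow_pos_of_pos hTp _)]
  exact h2

/-- **Leaf FIN.** -/
theorem fin24 : FinQ := by
  intro C K k hC hK
  refine ⟨1 / (2 * ((k : ℝ) + 1)), by positivity, ?_, ?_⟩
  · rw [div_le_one (by positivity)]
    have : (0 : ℝ) ≤ k := Nat.cast_nonneg k
    linarith
  intro Q C₀ Cs f hQ hC₀ _ h1 hf hlim hgr hup
  set c : ℝ := 1 / (2 * ((k : ℝ) + 1)) with hc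
  have hk0 : (0 : ℝ) ≤ k := Nat.cast_nonneg k
  have hc0 : 0 < c := by rw [hc]; positivity
  set a : ℝ := k * c with ha
  have ha0 : 0 ≤ a := mul_nonneg hk0 hc0.le
  have ha1 : a ≤ 1 / 2 := by
    rw [ha, hc, mul_one_div, div_le_div_iff₀ (by positivity) (by norm_num)]
    linarith
  have hlC : 0 ≤ Real.log C := Real.log_nonneg hC
  have hlQ : 0 ≤ Real.log Q := Real.log_nonneg hQ
  set L : ℝ := Real.log C + k * Real.log Q with hL
  have hL0 : 0 ≤ L := add_nonneg hlC (mul_nonneg hk0 hlQ)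
  set M : ℝ := Real.log 2 + L with hM
  have hl2 : 0 < Real.log 2 := Real.log_pos (by norm_num)
  have hl2' : (69 / 100 : ℝ) ≤ Real.log 2 := by
    have := Real.log_two_gt_d9
    linarith
  have hM0 : 0 ≤ M := by rw [hM]; linarith
  set S : ℕ → ℝ := fun n => Real.sqrt (Real.log ((K * n : ℕ) : ℝ)) with hS
  have hkap : ∀ n : ℕ, Real.log (C * kap Q c (K * n) ^ k) = L + a * S n := by
    intro n
    have hQ0 : 0 < Q := by linarith
    unfold kap
    rw [Real.log_mul (by positivity) (by positivity), Real.log_pow,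
      Real.log_mul (by positivity) (by positivity), Real.log_exp]
    simp only [hL, ha, hS]
    ring
  have hkap1 : ∀ n : ℕ, 1 ≤ kap Q c (K * n) := by
    intro n
    unfold kap
    have : 1 ≤ Real.exp (c * Real.sqrt (Real.log ((K * n : ℕ) : ℝ))) :=
      Real.one_le_exp (mul_nonneg hc0.le (Real.sqrt_nonneg _))
    nlinarith
  -- thresholds
  obtain ⟨N₁, hN₁⟩ := eventually_atTop.1 (hlim.eventually_ge_atTop Cs)
  set n₀ : ℕ := max N₁ (max 1 ⌈Real.exp ((1 + 4 * M) ^ 2)⌉₊) with hn₀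
  have hCs : ∀ n, n₀ ≤ n → Cs ≤ f n := fun n hn => hN₁ n ((le_max_left _ _).trans hn)
  have hn1 : ∀ n, n₀ ≤ n → 1 ≤ n := fun n hn =>
    ((le_max_left _ _).trans (le_max_right _ _)).trans hn
  have hSn : ∀ n, n₀ ≤ n → 1 + 4 * M ≤ S n := by
    intro n hn
    have h2 : Real.exp ((1 + 4 * M) ^ 2) ≤ n := (Nat.le_ceil _).trans (by
      exact_mod_cast ((le_max_right _ _).trans (le_max_right _ _)).trans hn)
    have h3 : Real.exp ((1 + 4 * M) ^ 2) ≤ ((K * n : ℕ) : ℝ) := h2.trans (by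
      exact_mod_cast Nat.le_mul_of_pos_left n (by omega))
    have h4 : (1 + 4 * M) ^ 2 ≤ Real.log ((K * n : ℕ) : ℝ) := by
      rw [← Real.log_exp ((1 + 4 * M) ^ 2)]
      exact Real.log_le_log (Real.exp_pos _) h3
    exact Real.le_sqrt_of_sq_le h4
  set g : ℕ → ℝ := fun n => Real.log (f n) - a * S n with hg
  -- one step
  have hstep : ∀ n, n₀ ≤ n → RRec f n → ∃ n', n₀ ≤ n' ∧ RRec f n' ∧ g n + 1 / 10 ≤ g n' := by
    intro n hn hr
    have hnp1 : (1 : ℝ) ≤ n := by exact_mod_cast hn1 n hn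
    have hnp : (0 : ℝ) < n := by linarith
    set D : ℝ := C * n * kap Q c (K * n) ^ k with hD
    have hkk : 1 ≤ kap Q c (K * n) ^ k := one_le_pow₀ (hkap1 n)
    have hDn : (n : ℝ) ≤ D := by
      rw [hD]
      have h2 : (n : ℝ) ≤ C * n := by nlinarith
      nlinarith
    have hD1 : 1 ≤ D := hnp1.trans hDn
    set T : ℕ := ⌈D⌉₊ with hT
    have hDT : D ≤ T := Nat.le_ceil D
    have hTD : (T : ℝ) ≤ 2 * D := by
      have := (Nat.ceil_lt_add_one (by linarith : (0 : ℝ) ≤ D)).le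
      linarith
    have hnT : n ≤ T := by exact_mod_cast hDn.trans hDT
    have hT1 : 1 ≤ T := (hn1 n hn).trans hnT
    have hTp : (0 : ℝ) < T := by linarith
    have hgT := hgr n hr (hCs n hn) T (by rw [← hD]; exact hDT)
    obtain ⟨n', hn', hr', hfn'⟩ := rrec24 f C₀ hC₀ h1 hf T hT1
    have hnn' : n ≤ n' := hnT.trans hn'
    have hn'p : (0 : ℝ) < n' := by
      have : (T : ℝ) ≤ n' := by exact_mod_cast hn'
      linarith
    refine ⟨n', hn.trans hnn', hr', ?_⟩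
    have hfp : ∀ m, 0 < f m := fun m => by linarith [h1 m]
    -- logarithms
    set δ : ℝ := Real.log n' - Real.log T with hδ
    have hδ0 : 0 ≤ δ := by
      rw [hδ]
      have : Real.log (T : ℝ) ≤ Real.log n' := Real.log_le_log hTp (by exact_mod_cast hn')
      linarith
    have e1 : Real.log 2 + Real.log (f n) + 2 / 3 * δ ≤ Real.log (f n') := by
      have h2 : 2 * f n * ((n' : ℝ) / T) ^ (2 / 3 : ℝ) ≤ f n' :=
        (mul_le_mul_of_nonneg_right hgT (Real.rpow_nonneg (by positivity) _)).trans hfn'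
      have h3 : 0 < ((n' : ℝ) / T) ^ (2 / 3 : ℝ) := Real.rpow_pos_of_pos (by positivity) _
      have h4 := Real.log_le_log (by have := hfp n; positivity) h2
      rw [Real.log_mul (by have := hfp n; positivity) h3.ne',
        Real.log_mul (by norm_num) (hfp n).ne', Real.log_rpow (by positivity),
        Real.log_div hn'p.ne' hTp.ne'] at h4
      rw [hδ]
      exact h4
    have e2 : Real.log T ≤ Real.log n + M + a * S n := by
      have h2 : Real.log (T : ℝ) ≤ Real.log (2 * D) := Real.log_le_log hTp hTD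
      have h3 : 2 * D = 2 * (n * (C * kap Q c (K * n) ^ k)) := by rw [hD]; ring
      have hkp : 0 < C * kap Q c (K * n) ^ k := by
        have : 0 < kap Q c (K * n) := by linarith [hkap1 n]
        positivity
      rw [h3, Real.log_mul (by norm_num) (by positivity), Real.log_mul hnp.ne' hkp.ne',
        hkap] at h2
      rw [hM]
      linarith
    have e3 : Real.log ((K * n' : ℕ) : ℝ) - Real.log ((K * n : ℕ) : ℝ) =
        Real.log n' - Real.log n := by
      have hKp : (0 : ℝ) < K := by exact_mod_cast hK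
      push_cast
      rw [Real.log_mul hKp.ne' hn'p.ne', Real.log_mul hKp.ne' hnp.ne']
      ring
    have hK1 : ∀ m : ℕ, 1 ≤ m → (1 : ℝ) ≤ ((K * m : ℕ) : ℝ) := by
      intro m hm
      exact_mod_cast Nat.one_le_iff_ne_zero.2 (Nat.mul_ne_zero (by omega) (by omega))
    have s1 : S n ^ 2 = Real.log ((K * n : ℕ) : ℝ) :=
      Real.sq_sqrt (Real.log_nonneg (hK1 n (hn1 n hn)))
    have s2 : S n' ^ 2 = Real.log ((K * n' : ℕ) : ℝ) :=
      Real.sq_sqrt (Real.log_nonneg (hK1 n' ((hn1 n hn).trans hnn')))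
    have s3 : S n ≤ S n' := by
      refine Real.sqrt_le_sqrt (Real.log_le_log (by linarith [hK1 n (hn1 n hn)]) ?_)
      exact_mod_cast Nat.mul_le_mul_left K hnn'
    have s4 := hSn n hn
    have s5 : (S n' - S n) * (2 * S n) ≤ M + a * S n + δ := by
      have h2 : (S n' - S n) * (S n' + S n) = Real.log n' - Real.log n := by
        rw [← e3, ← s1, ← s2]; ring
      have h3 : (S n' - S n) * (2 * S n) ≤ (S n' - S n) * (S n' + S n) :=
        mul_le_mul_of_nonneg_left (by linarith) (by linarith)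
      rw [h2] at h3
      rw [hδ]
      linarith
    have s6 : a * (S n' - S n) ≤ 3 / 16 + δ / 4 := by
      have hSp : 0 < S n := by linarith
      have h2 : 2 * S n * (a * (S n' - S n)) ≤ 2 * S n * (3 / 16 + δ / 4) := by
        have h3 : a * ((S n' - S n) * (2 * S n)) ≤ a * (M + a * S n + δ) :=
          mul_le_mul_of_nonneg_left s5 ha0
        have h4 : a * M ≤ 1 / 2 * M := mul_le_mul_of_nonneg_right ha1 hM0
        have h5 : a * (a * S n) ≤ 1 / 4 * S n := by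
          have : a * a ≤ 1 / 4 := by nlinarith
          nlinarith
        have h6 : a * δ ≤ 1 / 2 * (S n * δ) := by
          have h7 : a * δ ≤ 1 / 2 * δ := mul_le_mul_of_nonneg_right ha1 hδ0
          have h8 : δ ≤ S n * δ := by nlinarith
          linarith
        nlinarith
      exact le_of_mul_le_mul_left h2 (by linarith)
    show Real.log (f n) - a * S n + 1 / 10 ≤ Real.log (f n') - a * S n'
    have : a * (S n' - S n) = a * S n' - a * S n := by ring
    linarith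
  -- iteration
  obtain ⟨n₁, hn₁, hr₁, _⟩ := rrec24 f C₀ hC₀ h1 hf n₀ (hn1 n₀ le_rfl)
  have hiter : ∀ m : ℕ, ∃ n, n₀ ≤ n ∧ RRec f n ∧ g n₁ + m / 10 ≤ g n := by
    intro m
    induction m with
    | zero => exact ⟨n₁, hn₁, hr₁, by simp⟩
    | succ m ih =>
      obtain ⟨n, hn, hr, hgn⟩ := ih
      obtain ⟨n', hn', hr', hgn'⟩ := hstep n hn hr
      refine ⟨n', hn', hr', ?_⟩
      push_cast
      linarith
  obtain ⟨m, hm⟩ := exists_nat_gt (10 * (L - g n₁))
  obtain ⟨n, hn, hr, hgn⟩ := hiter m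
  have h2 := hup n hr (hCs n hn)
  have h3 := Real.log_le_log (by linarith [h1 n]) h2
  rw [hkap] at h3
  have h4 : g n ≤ L := by
    show Real.log (f n) - a * S n ≤ L
    linarith
  linarith

end Pool.Agent.W_7d29a1_SQ
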