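import Pool.Agent.W_7d29a1_SQ.DefsSQ
import Pool.Agent.W_7d29a1_SP.Bas15

/-!
Luck at a right record (helper96): leaf LM.
-/

namespace Pool.Agent.W_7d29a1_SQ

open MeasureTheory ProbabilityTheory Filter Topology Pool.Agent.W_MP_7d29a1_pr
  Pool.Agent.W_7d29a1_h46 Pool.Agent.W_7d29a1_h46u Pool.Agent.W_7d29a1_D2.B35
  Pool.Agent.W_7d29a1_Q29 Pool.Agent.W_7d29a1_R34 Pool.Agent.W_7d29a1_SP Pool.Agent.W_7d29a1_SD

namespace LM96

variable {d : ℕ} {ρ : Measure ℝ}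

lemma Ps_ge {β : ℝ} {h : Vec d} {n k j : ℕ} (hk : k ≤ n) (hj : j ≤ n) :
    1 + En ρ β h k + Fn ρ β h j ≤ Ps ρ β h n := by
  unfold Ps
  have h1 := Finset.le_sup' (En ρ β h) (Finset.mem_range.2 (Nat.lt_succ_of_le hk))
  have h2 := Finset.le_sup' (Fn ρ β h) (Finset.mem_range.2 (Nat.lt_succ_of_le hj))
  linarith

lemma Ps_eq (ρ : Measure ℝ) (β : ℝ) (h : Vec d) (n : ℕ) :
    ∃ k j : ℕ, k ≤ n ∧ j ≤ n ∧ Ps ρ β h n = 1 + En ρ β h k + Fn ρ β h j := by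
  unfold Ps
  obtain ⟨k, hk, hk2⟩ := Finset.exists_mem_eq_sup' (s := Finset.range (n + 1)) ⟨0, by simp⟩
    (En ρ β h)
  obtain ⟨j, hj, hj2⟩ := Finset.exists_mem_eq_sup' (s := Finset.range (n + 1)) ⟨0, by simp⟩
    (Fn ρ β h)
  refine ⟨k, j, Nat.lt_succ_iff.1 (Finset.mem_range.1 hk), Nat.lt_succ_iff.1 (Finset.mem_range.1 hj),
    ?_⟩
  rw [hk2, hj2]

lemma kap_mono {Q c : ℝ} (hQ : 0 ≤ Q) (hc : 0 ≤ c) {a b : ℕ} (hab : a ≤ b) :
    kap Q c a ≤ kap Q c b := by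
  unfold kap
  refine mul_le_mul_of_nonneg_left ?_ hQ
  rw [Real.exp_le_exp]
  refine mul_le_mul_of_nonneg_left ?_ hc
  refine Real.sqrt_le_sqrt ?_
  rcases Nat.eq_zero_or_pos a with ha | ha
  · subst ha
    simp only [Nat.cast_zero, Real.log_zero]
    exact Real.log_natCast_nonneg b
  · exact Real.log_le_log (by exact_mod_cast ha) (by exact_mod_cast hab)

lemma le_kap {Q c : ℝ} (hQ : 0 ≤ Q) (hc : 0 ≤ c) (a : ℕ) : Q ≤ kap Q c a := by
  unfold kap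
  have h1 : 1 ≤ Real.exp (c * Real.sqrt (Real.log a)) :=
    Real.one_le_exp (mul_nonneg hc (Real.sqrt_nonneg _))
  nlinarith

/-- The length found by the sequence leaf is at most `4 ^ 12 n`. -/
lemma len_le {N n : ℕ} {Ψ e E : ℝ} (hn : 1 ≤ n) (hΨ : 0 < Ψ) (hE : Ψ / 2 ≤ E)
    (h1 : (N : ℝ) ^ (3 / 4 : ℝ) * E ≤ (n : ℝ) ^ (3 / 4 : ℝ) * (2 * e))
    (h2 : n ≤ N → e ≤ Ψ * ((N : ℝ) / n) ^ (2 / 3 : ℝ)) : N ≤ 4 ^ 12 * n := by
  rcases Nat.lt_or_ge N n with hN | hN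
  · exact le_trans hN.le (Nat.le_mul_of_pos_left n (by norm_num))
  have hn0 : (0 : ℝ) < n := by exact_mod_cast hn
  have hN0 : (0 : ℝ) < N := by
    have : 1 ≤ N := hn.trans hN
    exact_mod_cast this
  obtain ⟨x, hx⟩ : ∃ x : ℝ, x = (N : ℝ) / n := ⟨_, rfl⟩
  have hx0 : 0 < x := by
    rw [hx]
    positivity
  have h3 := h2 hN
  rw [← hx] at h3
  have hNx : (N : ℝ) = x * n := by
    rw [hx]
    field_simp
  have h4 : (N : ℝ) ^ (3 / 4 : ℝ) = x ^ (3 / 4 : ℝ) * (n : ℝ) ^ (3 / 4 : ℝ) := by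
    rw [hNx, Real.mul_rpow hx0.le hn0.le]
  rw [h4] at h1
  have hn3 : 0 < (n : ℝ) ^ (3 / 4 : ℝ) := by positivity
  have h5 : x ^ (3 / 4 : ℝ) * E ≤ 2 * e := by
    have h6 : (n : ℝ) ^ (3 / 4 : ℝ) * (x ^ (3 / 4 : ℝ) * E) ≤ (n : ℝ) ^ (3 / 4 : ℝ) * (2 * e) := by
      calc (n : ℝ) ^ (3 / 4 : ℝ) * (x ^ (3 / 4 : ℝ) * E) =
          x ^ (3 / 4 : ℝ) * (n : ℝ) ^ (3 / 4 : ℝ) * E := by ring
        _ ≤ _ := h1
    exact le_of_mul_le_mul_left h6 hn3
  have h6 : x ^ (3 / 4 : ℝ) * (Ψ / 2) ≤ 2 * (Ψ * x ^ (2 / 3 : ℝ)) := by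
    have h7 : x ^ (3 / 4 : ℝ) * (Ψ / 2) ≤ x ^ (3 / 4 : ℝ) * E :=
      mul_le_mul_of_nonneg_left hE (by positivity)
    linarith
  have h7 : x ^ (3 / 4 : ℝ) = x ^ (2 / 3 : ℝ) * x ^ (1 / 12 : ℝ) := by
    rw [← Real.rpow_add hx0]
    norm_num
  have h8 : x ^ (1 / 12 : ℝ) ≤ 4 := by
    rw [h7] at h6
    have h9 : 0 < x ^ (2 / 3 : ℝ) := by positivity
    have h10 : (Ψ / 2 * x ^ (2 / 3 : ℝ)) * x ^ (1 / 12 : ℝ) ≤ (Ψ / 2 * x ^ (2 / 3 : ℝ)) * 4 := by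
      calc (Ψ / 2 * x ^ (2 / 3 : ℝ)) * x ^ (1 / 12 : ℝ) =
          x ^ (2 / 3 : ℝ) * x ^ (1 / 12 : ℝ) * (Ψ / 2) := by ring
        _ ≤ 2 * (Ψ * x ^ (2 / 3 : ℝ)) := h6
        _ = (Ψ / 2 * x ^ (2 / 3 : ℝ)) * 4 := by ring
    exact le_of_mul_le_mul_left h10 (by positivity)
  have h9 : x ≤ 4 ^ 12 := by
    have h10 : (x ^ (1 / 12 : ℝ)) ^ 12 = x := by
      rw [← Real.rpow_natCast, ← Real.rpow_mul hx0.le]
      norm_num
    calc x = (x ^ (1 / 12 : ℝ)) ^ 12 := h10.symm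
      _ ≤ 4 ^ 12 := pow_le_pow_left₀ (by positivity) h8 12
  have h10 : (N : ℝ) ≤ ((4 ^ 12 * n : ℕ) : ℝ) := by
    rw [hNx]
    push_cast
    exact mul_le_mul_of_nonneg_right (h9.trans (by norm_num)) hn0.le
  exact_mod_cast h10

end LM96

open LM96

/-- **LM.** Luck at a right record. -/
theorem lmP96 {ρ : Measure ℝ} [IsProbabilityMeasure ρ] (hρ : EM ρ) {β : ℝ} (hF : FluP 2 ρ β)
    (hS : SeqQ) (hL : LktP ρ β) (hP : PriP 2 ρ β) : LmP ρ β := by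
  intro c₀ κ hc₀ hκ hκ1
  obtain ⟨N₁, hS⟩ := hS
  obtain ⟨C, θ, M₀, hC, hθ, hM₀, hL⟩ := hL
  obtain ⟨K, hK⟩ : ∃ K : ℕ, K = 2 * 4 ^ 12 := ⟨_, rfl⟩
  obtain ⟨cF, hcF, hF⟩ := hF c₀ (1 / 10240) hc₀ (by norm_num) K
  obtain ⟨c, hcdef⟩ : ∃ c : ℝ, c = min (min cF (1 / 81920)) (1 / (400 * C)) := ⟨_, rfl⟩
  have hc0 : 0 < c := by
    rw [hcdef]
    exact lt_min (lt_min hcF (by norm_num)) (by positivity)
  have hc1 : c ≤ cF := by
    rw [hcdef]
    exact (min_le_left _ _).trans (min_le_left _ _)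
  have hc2 : c ≤ 1 / 81920 := by
    rw [hcdef]
    exact (min_le_left _ _).trans (min_le_right _ _)
  have hc3 : c ≤ 1 / (400 * C) := by
    rw [hcdef]
    exact min_le_right _ _
  refine ⟨c, K, max (max M₀ (10 / θ)) (1 / θ), hc0, by linarith, by rw [hK]; norm_num,
    le_trans hM₀ ((le_max_left _ _).trans (le_max_left _ _)), ?_⟩
  intro h v Q c' hQ hc' hc'1 hLoc hDat
  have hQ1 : M₀ ≤ Q := ((le_max_left _ _).trans (le_max_left _ _)).trans hQ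
  have hQ2 : 10 / θ ≤ Q := ((le_max_right _ _).trans (le_max_left _ _)).trans hQ
  have hQ3 : 1 / θ ≤ Q := (le_max_right _ _).trans hQ
  have hQone : 1 ≤ Q := hM₀.trans hQ1
  have hQ0 : 0 < Q := by linarith
  obtain ⟨C₀, hC₀, hP⟩ := hP h
  obtain ⟨L₁, hL₁⟩ := eventually_atTop.1 hDat.tub
  obtain ⟨L₂, hL₂⟩ := eventually_atTop.1 (hDat.rs 1)
  -- the threshold for `N`
  obtain ⟨N₂, hN₂⟩ : ∃ N₂ : ℕ, N₂ = N₁ + 1000 * (L₁ + L₂) + 1000 := ⟨_, rfl⟩
  refine ⟨4 * C₀ * (N₂ : ℝ) ^ (51 / 100 : ℝ) + 2000, ?_⟩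
  intro n hn hΨ
  obtain ⟨Ψ, hΨdef⟩ : ∃ Ψ, Ψ = Ps ρ β h n := ⟨_, rfl⟩
  rw [← hΨdef] at hΨ ⊢
  have hN20 : 0 ≤ 4 * C₀ * (N₂ : ℝ) ^ (51 / 100 : ℝ) := by positivity
  have hΨ2 : 2000 ≤ Ψ := by linarith
  have hΨ0 : 0 < Ψ := by linarith
  have hkap1 : ∀ a : ℕ, 1 ≤ kap Q c' a := fun a => hQone.trans (le_kap hQ0.le hc'.le a)
  by_cases hcase : ∃ m : ℕ, 1 ≤ m ∧ m ≤ K * n ∧ 1 / 10240 * Ψ ≤ Fn ρ β h m
  · -- a large random fluctuation
    obtain ⟨m, hm1, hm2, hm3⟩ := hcase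
    refine ⟨m, hm1, hm2, ?_⟩
    have h1 := hF h hLoc n hn m hm1 hm2 (by rw [← hΨdef]; exact hm3)
    have h2 : (law 2 ρ).real {η | A ρ β h m + Fn ρ β h m / 8 < X β h η m} ≤
        (law 2 ρ).real {η | A ρ β h m + c * Ψ < X β h η m} := by
      refine measureReal_mono (fun η hη => ?_) (measure_ne_top _ _)
      have h3 : A ρ β h m + Fn ρ β h m / 8 < X β h η m := hη
      have h4 : c * Ψ ≤ 1 / 81920 * Ψ := mul_le_mul_of_nonneg_right hc2 hΨ0.le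
      change A ρ β h m + c * Ψ < X β h η m
      linarith
    have h3 : c / kap Q c' (2000 * m) ^ 12 ≤ c := by
      rw [div_le_iff₀ (pow_pos (by linarith [hkap1 (2000 * m)]) 12)]
      exact le_mul_of_one_le_right hc0.le (one_le_pow₀ (hkap1 _))
    linarith
  -- all the random fluctuations are small
  push Not at hcase
  by_contra hcon
  push Not at hcon
  have hFs : ∀ m : ℕ, m ≤ K * n → Fn ρ β h m < 1 / 10240 * Ψ := by
    intro m hm
    rcases Nat.eq_zero_or_pos m with h0 | h0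
    · subst h0
      rw [Fn_zero15]
      positivity
    · exact hcase m h0 hm
  have hKn : n ≤ K * n := Nat.le_mul_of_pos_left n (by rw [hK]; norm_num)
  obtain ⟨k, j, hkn, hjn, hPs⟩ := Ps_eq ρ β h n
  rw [← hΨdef] at hPs
  have hEk : Ψ / 2 ≤ En ρ β h k := by
    have h1 := hFs j (hjn.trans hKn)
    linarith
  have hE0 : ∀ m : ℕ, 0 ≤ En ρ β h m := fun m => En_nonneg15 (by norm_num) hρ β h m
  obtain ⟨N, e, hN1, he0, hEN, ⟨t₀, ht₀, het₀⟩, hke, hlen, hseq⟩ := hS (En ρ β h) C₀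
    (En_zero15 β h) hE0 (fun a b => En_add15 (by norm_num) hρ β h a b) (fun m => by
      rcases Nat.eq_zero_or_pos m with h0 | h0
      · subst h0
        rw [En_zero15]
        positivity
      · have h1 : (1 : ℝ) ≤ m := by exact_mod_cast h0
        exact (hP m).1.trans (mul_le_mul_of_nonneg_left
          (Real.rpow_le_rpow_of_exponent_le h1 (by norm_num)) hC₀)) n k hkn (by linarith)
  have he1 : Ψ / 4 ≤ e := by linarith
  have hNn : N ≤ 4 ^ 12 * n := by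
    refine len_le hn.1 hΨ0 hEk hlen fun hnN => ?_
    have h1 : 1 + En ρ β h t₀ + Fn ρ β h 0 ≤ Ps ρ β h N := Ps_ge ht₀ (Nat.zero_le _)
    rw [Fn_zero15] at h1
    have h2 := hn.2 N hnN
    rw [← hΨdef] at h2
    linarith
  have h2N : 2 * N ≤ K * n := by
    rw [hK]
    calc 2 * N ≤ 2 * (4 ^ 12 * n) := Nat.mul_le_mul_left 2 hNn
      _ = 2 * 4 ^ 12 * n := by ring
  have hNN2 : N₂ < N := by
    by_contra hcon2
    push Not at hcon2
    have h1 : e ≤ C₀ * (N₂ : ℝ) ^ (51 / 100 : ℝ) := by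
      refine het₀.trans ((hP t₀).1.trans (mul_le_mul_of_nonneg_left ?_ hC₀))
      exact Real.rpow_le_rpow (by positivity) (by exact_mod_cast ht₀.trans hcon2) (by norm_num)
    linarith
  obtain ⟨L, S, hL2, hcard, hSt⟩ := hseq (by omega)
  have hN0 : (0 : ℝ) < N := by exact_mod_cast hN1
  have hNbig : ((N₁ + 1000 * (L₁ + L₂) + 1000 : ℕ) : ℝ) < N := by
    rw [← hN₂]
    exact_mod_cast hNN2
  have hSne : S.Nonempty := by
    rw [Finset.nonempty_iff_ne_empty]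
    intro h0
    rw [h0] at hcard
    simp at hcard
    linarith
  have hLN : (N : ℝ) / 1000 ≤ L := by
    obtain ⟨t, ht⟩ := hSne
    obtain ⟨h1, h2, -⟩ := hSt t ht
    have h3 : (t : ℝ) ≤ L := by exact_mod_cast h1
    linarith
  have hLbig : L₁ + L₂ ≤ L := by
    have h1 : ((L₁ + L₂ : ℕ) : ℝ) ≤ L := by
      push_cast at hNbig ⊢
      linarith
    exact_mod_cast h1
  have hL2' : (L : ℝ) ≤ 2 * N := by exact_mod_cast hL2
  have hL0 : (0 : ℝ) < L := by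
    have : (0 : ℝ) < (N : ℝ) / 1000 := by positivity
    linarith
  obtain ⟨R, hR⟩ : ∃ R, R = kap Q c' L := ⟨_, rfl⟩
  have hRQ : Q ≤ R := by
    rw [hR]
    exact le_kap hQ0.le hc'.le L
  have hR1 : 1 ≤ R := hQone.trans hRQ
  have hR0 : 0 < R := by linarith
  have htub : Tb ρ β h v R L ≤ θ := by
    rw [hR]
    refine (hL₁ L (by omega)).trans ?_
    rw [div_le_iff₀ hQ0]
    rw [div_le_iff₀ hθ] at hQ3
    linarith
  have hrs : RS ρ β h L ⌊κ * L⌋₊ (R ^ 5) θ := by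
    have h1 := hL₂ L (by omega)
    rw [← hR] at h1
    unfold RS at h1 ⊢
    have h2 : 2 * 1 + 3 = 5 := rfl
    rw [h2, pow_one] at h1
    refine h1.trans ?_
    rw [div_le_iff₀ hR0]
    rw [div_le_iff₀ hθ] at hQ2
    nlinarith
  have hM5 : M₀ ≤ R ^ 5 := by
    have h1 : R ≤ R ^ 5 := le_self_pow₀ hR1 (by norm_num)
    linarith
  obtain ⟨P, hPdef⟩ : ∃ P, P = c / R ^ 12 := ⟨_, rfl⟩
  have hP0 : 0 ≤ P := by
    rw [hPdef]
    positivity
  have hmain := hL h v L ⌊κ * L⌋₊ R (R ^ 5) (e / 40) P S hR1 hM5 (by linarith) hP0 hrs htub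
    (fun t ht => by
      obtain ⟨h1, h2, h3, h4, h5, h6⟩ := hSt t ht
      have h3' : t ≤ N := by exact_mod_cast h3
      have h5' : L - t ≤ N := by exact_mod_cast h5
      have hm1 : 1 ≤ L - t := by
        have h7 : (0 : ℝ) < (L - t : ℕ) := by
          have : (0 : ℝ) < (N : ℝ) / 1000 := by positivity
          linarith
        exact_mod_cast h7
      refine ⟨?_, h1, ?_, ?_, ?_⟩
      · have h7 : (⌊κ * L⌋₊ : ℝ) ≤ κ * L := Nat.floor_le (by positivity)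
        have h8 : κ * L ≤ 1 / 4000 * (2 * N) := mul_le_mul hκ1 hL2' hL0.le (by norm_num)
        have h9 : (⌊κ * L⌋₊ : ℝ) < t := by linarith
        exact_mod_cast h9
      · refine h6.trans (le_of_eq ?_)
        unfold Gp En
        rw [Nat.add_sub_cancel' h1, Nat.cast_sub h1]
        ring
      · have h7 := hFs L (hL2.trans h2N)
        have h8 := hFs t (by omega)
        linarith
      · have h7 := hcon (L - t) hm1 (by omega)
        have h8 : (law 2 ρ).real {η | A ρ β h (L - t) + e / 40 / 4 < X β h η (L - t)} ≤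
            (law 2 ρ).real {η | A ρ β h (L - t) + c * Ψ < X β h η (L - t)} := by
          refine measureReal_mono (fun η hη => ?_) (measure_ne_top _ _)
          have h9 : A ρ β h (L - t) + e / 40 / 4 < X β h η (L - t) := hη
          have h10 : c * Ψ ≤ 1 / 81920 * Ψ := mul_le_mul_of_nonneg_right hc2 hΨ0.le
          change A ρ β h (L - t) + c * Ψ < X β h η (L - t)
          linarith
        have h9 : L ≤ 2000 * (L - t) := by
          have h10 : (L : ℝ) ≤ ((2000 * (L - t) : ℕ) : ℝ) := by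
            rw [Nat.cast_mul]
            push_cast
            linarith
          exact_mod_cast h10
        have h10 : R ≤ kap Q c' (2000 * (L - t)) := by
          rw [hR]
          exact kap_mono hQ0.le hc'.le h9
        have h11 : c / kap Q c' (2000 * (L - t)) ^ 12 ≤ P := by
          rw [hPdef]
          exact div_le_div_of_nonneg_left hc0.le (by positivity)
            (pow_le_pow_left₀ hR0.le h10 12)
        linarith)
  have h1 : C * (R ^ 5) ^ 2 * R ^ 2 * L * P = C * c * L := by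
    rw [hPdef]
    field_simp
  rw [h1] at hmain
  have h2 : C * c ≤ 1 / 400 := by
    have h3 : C * c ≤ C * (1 / (400 * C)) := mul_le_mul_of_nonneg_left hc3 (by linarith)
    have h4 : C * (1 / (400 * C)) = 1 / 400 := by
      field_simp
    linarith
  have h3 : C * c * L ≤ 1 / 400 * (2 * N) := by
    calc C * c * L ≤ 1 / 400 * L := mul_le_mul_of_nonneg_right h2 hL0.le
      _ ≤ 1 / 400 * (2 * N) := by linarith
  linarith

end Pool.Agent.W_7d29a1_SQ
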