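import Pool.Agent.W_7d29a1_SQ.DefsSQ
import Pool.Agent.W_7d29a1_VT.Non74

/-!
The a priori bounds of the two fluctuations, at every tilt.
-/

namespace Pool.Agent.W_7d29a1_SQ

open MeasureTheory ProbabilityTheory Filter Topology Pool.Agent.W_MP_7d29a1_pr
  Pool.Agent.W_7d29a1_h46 Pool.Agent.W_7d29a1_h46u Pool.Agent.W_7d29a1_D2.B35
  Pool.Agent.W_7d29a1_Q29 Pool.Agent.W_7d29a1_R34 Pool.Agent.W_7d29a1_SP Pool.Agent.W_7d29a1_SD
  Pool.Agent.W_7d29a1_D2

/-- **LEAF PRI.** -/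
theorem pri74 {d : ℕ} {ρ : Measure ℝ} [IsProbabilityMeasure ρ] (hd : 0 < d) (hρ : EM ρ)
    (β : ℝ) : PriP d ρ β := by
  intro h
  obtain ⟨δ, hδ, C, -, H⟩ := rateU hd hρ (by norm_num) (Fl_half hd hρ β h)
    (show (0 : ℝ) < 1 / 100 by norm_num) (by norm_num)
  obtain ⟨C₁, hC₁, H₁⟩ := momU (d := d) hd hρ β 1
  have h0 : ∀ η : Env d, X β h η 0 = 0 := by
    intro η
    rw [X, Z_zero, Real.log_one]
  have hA : A ρ β h 0 = 0 := by
    unfold A
    simp only [h0]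
    exact integral_zero _ _
  refine ⟨|C| + C₁, by positivity, fun n => ?_⟩
  rcases Nat.eq_zero_or_pos n with hn | hn
  · subst hn
    have e1 : En ρ β h 0 = 0 := by simp [En, hA]
    have e2 : Fn ρ β h 0 = 0 := by
      unfold Fn
      simp only [h0, hA, sub_zero, abs_zero, integral_zero]
    have e3 : (0 : ℝ) ≤ ((0 : ℕ) : ℝ) ^ (51 / 100 : ℝ) := Real.rpow_nonneg (Nat.cast_nonneg _) _
    rw [e1, e2]
    constructor <;> positivity
  · have hn1 : (1 : ℝ) ≤ n := by exact_mod_cast hn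
    have hn0 : (0 : ℝ) < n := by linarith
    have hr0 : 0 < (n : ℝ) ^ (51 / 100 : ℝ) := Real.rpow_pos_of_pos hn0 _
    constructor
    · have h1 := H h (by simpa using hδ) n hn
      have h3 : (1 / 2 + 1 / 100 : ℝ) = 51 / 100 := by norm_num
      rw [h3] at h1
      refine h1.trans (mul_le_mul_of_nonneg_right ?_ hr0.le)
      linarith [le_abs_self C]
    · have h1 := (H₁ h n hn).2
      simp only [pow_one] at h1
      have h2 : (n : ℝ) ^ ((1 / 2 : ℝ) * ((1 : ℕ) : ℝ)) ≤ (n : ℝ) ^ (51 / 100 : ℝ) :=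
        Real.rpow_le_rpow_of_exponent_le hn1 (by norm_num)
      have h3 : Fn ρ β h n ≤ C₁ * (n : ℝ) ^ (51 / 100 : ℝ) :=
        h1.trans (mul_le_mul_of_nonneg_left h2 hC₁)
      refine h3.trans (mul_le_mul_of_nonneg_right ?_ hr0.le)
      linarith [abs_nonneg C]

end Pool.Agent.W_7d29a1_SQ
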