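import Pool.Agent.W_7d29a1_SP.DefsSP2
import Pool.Agent.W_7d29a1_SD.DefsSD

/-!
Quantified superdiffusivity in two transversal dimensions: definitions and frozen statements of the
leaves. Paper proof: `/team-store/h32_SQ.md` with the same scale counting of helper83.
-/

namespace Pool.Agent.W_7d29a1_SQ

open MeasureTheory ProbabilityTheory Filter Topology Pool.Agent.W_MP_7d29a1_pr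
  Pool.Agent.W_7d29a1_h46 Pool.Agent.W_7d29a1_h46u Pool.Agent.W_7d29a1_D2.B35
  Pool.Agent.W_7d29a1_Q29 Pool.Agent.W_7d29a1_R34 Pool.Agent.W_7d29a1_SP Pool.Agent.W_7d29a1_SD

/-- The gap of the mean free energy at the time `a` for the length `a + b`. -/
noncomputable def Gp {d : ℕ} (ρ : Measure ℝ) (β : ℝ) (h : Vec d) (a b : ℕ) : ℝ :=
  A ρ β h (a + b) - A ρ β h a - A ρ β h b

/-- One plus the running maxima of the two fluctuations. -/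
noncomputable def Ps {d : ℕ} (ρ : Measure ℝ) (β : ℝ) (h : Vec d) (n : ℕ) : ℝ :=
  1 + (Finset.range (n + 1)).sup' ⟨0, by simp⟩ (En ρ β h) +
    (Finset.range (n + 1)).sup' ⟨0, by simp⟩ (Fn ρ β h)

/-- A right record. -/
def RRec (f : ℕ → ℝ) (n : ℕ) : Prop :=
  1 ≤ n ∧ ∀ T : ℕ, n ≤ T → f T ≤ f n * ((T : ℝ) / n) ^ (2 / 3 : ℝ)

open Classical in
/-- The law of `S_t`, truncated: the rows `≤ p` are those of `α`, the others those of `η`; the free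
energy is within `M` of `b` and the site has a value in `[-H, H]`. -/
noncomputable def Qtr {d : ℕ} (β : ℝ) (h : Vec d) (n p t : ℕ) (y : Site d) (b M H : ℝ)
    (α η : Env d) : ℝ :=
  if |X β h (spl (Pa d p) α η) n - b| ≤ M ∧ |spl (Pa d p) α η (t, y)| ≤ H then
    Qt β h n t y (spl (Pa d p) α η) else 0

/-- The data of a point (the negation of the theorem, after the selection of the partners). -/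
structure Dat (ρ : Measure ℝ) (β : ℝ) (h v : Vec 2) (κ Q c : ℝ) : Prop where
  tub : ∀ᶠ L : ℕ in atTop, Tb ρ β h v (kap Q c L) L ≤ 1 / Q
  rs : ∀ j : ℕ, ∀ᶠ L : ℕ in atTop,
    RS ρ β h L ⌊κ * L⌋₊ (kap Q c L ^ (2 * j + 3)) (10 / kap Q c L ^ j)

section Leaves

variable (d : ℕ) (ρ : Measure ℝ) (β : ℝ)

/-- Leaf NPT: truncated Newman-Piza bound. -/
def NptP : Prop := ∀ H : ℝ, ∃ C M₀ : ℝ, 1 ≤ C ∧ 1 ≤ M₀ ∧ ∀ (h : Vec d) (n p : ℕ) (α : Env d)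
  (b M : ℝ), M₀ ≤ M →
  ∑ t ∈ Finset.Ioc p n, ∫ η, ∑ y ∈ boxF d n,
    (cE ρ (Pa d t)ᶜ (Qtr β h n p t y b M H α) η) ^ 2 ∂(law d ρ) ≤ C * M ^ 2

/-- Leaf LKT (`d = 2`): large gaps at many times are paid by lucky futures. -/
def LktP : Prop := ∃ C θ M₀ : ℝ, 1 ≤ C ∧ 0 < θ ∧ 1 ≤ M₀ ∧ ∀ (h v : Vec 2) (n p : ℕ)
  (R M g P : ℝ) (S : Finset ℕ), 1 ≤ R → M₀ ≤ M → 12 ≤ g → 0 ≤ P →
  RS ρ β h n p M θ → Tb ρ β h v R n ≤ θ →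
  (∀ t ∈ S, p < t ∧ t ≤ n ∧ g ≤ Gp ρ β h t (n - t) ∧ Fn ρ β h n + Fn ρ β h t ≤ g / 32 ∧
    (law 2 ρ).real {η | A ρ β h (n - t) + g / 4 < X β h η (n - t)} ≤ P) →
  (S.card : ℝ) ≤ C * M ^ 2 * R ^ 2 * n * P

/-- Leaf EHL (law in `GC`): the lower tail. -/
def EhlP : Prop := ∀ (h : Vec d) (m : ℕ) (s₀ s₁ t : ℝ), 0 ≤ t → s₀ ≤ s₁ →
  (law d ρ).real {η | X β h η m ≤ s₀} ≤ 1 / 2 → (law d ρ).real {η | s₁ < X β h η m} ≤ 1 / 5 →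
  (law d ρ).real {η | X β h η m ≤ s₀ - t * (s₁ - s₀)} ≤ Real.exp (-(t ^ 2 / 4))

/-- Leaf ELC (law in `GC`): the conditional mean given the rows `≤ p` sees the upper deviations. -/
def ElcP : Prop := ∀ (h : Vec d) (n p : ℕ) (M θ s : ℝ), 0 < M → RS ρ β h n p M θ →
  (law d ρ).real {η | s + 3 * M < X β h η n} ≤
    (law d ρ).real {η | s ≤ cE ρ (Pa d p) (fun ζ => X β h ζ n) η} + 12 * θ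

/-- Leaf SSC (from `Coup` and `ElcP`): counting at the same scale. -/
def SscP : Prop := ∀ c₀ : ℝ, 0 < c₀ → ∃ C δ₀ : ℝ, 1 ≤ C ∧ 0 < δ₀ ∧ ∀ h : Vec d, Loc1 ρ β h c₀ →
  ∀ (κ : ℝ) (m : ℕ) (x M δ Φ : ℝ), 0 < κ → κ ≤ c₀ / 4 → 1 ≤ m → 0 < M → 0 < δ → δ ≤ δ₀ →
    (∀ L : ℕ, m ≤ L → L ≤ 2 * m → RS ρ β h L ⌊κ * L⌋₊ M δ) → (∀ k : ℕ, k ≤ m → En ρ β h k ≤ Φ) →
    C * δ ≤ (law d ρ).real {η | A ρ β h m + x ≤ X β h η m} → x ≤ C * (Φ + M + 1)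

/-- Leaf PRI: the a priori bounds, every tilt. -/
def PriP : Prop := ∀ h : Vec d, ∃ C₀ : ℝ, 0 ≤ C₀ ∧ ∀ n : ℕ,
  En ρ β h n ≤ C₀ * (n : ℝ) ^ (51 / 100 : ℝ) ∧ Fn ρ β h n ≤ C₀ * (n : ℝ) ^ (51 / 100 : ℝ)

/-- Leaf TAI: the upper tail at a right record (from `CntP`). -/
def TaiP : Prop := ∀ c₀ : ℝ, 0 < c₀ → ∀ K : ℕ, ∃ C : ℝ, 1 ≤ C ∧ ∀ h : Vec d, Loc1 ρ β h c₀ →
  ∀ n : ℕ, RRec (Ps ρ β h) n → ∀ m : ℕ, 1 ≤ m → m ≤ K * n → ∀ x : ℝ, 0 < x →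
    (law d ρ).real {η | A ρ β h m + x ≤ X β h η m} ≤ (C * Ps ρ β h n / x) ^ (3 / 2 : ℝ)

/-- Leaf FLU: a large random fluctuation is seen with a fixed probability (from `TaiP`). -/
def FluP : Prop := ∀ c₀ δ : ℝ, 0 < c₀ → 0 < δ → ∀ K : ℕ, ∃ c : ℝ, 0 < c ∧ ∀ h : Vec d,
  Loc1 ρ β h c₀ → ∀ n : ℕ, RRec (Ps ρ β h) n → ∀ m : ℕ, 1 ≤ m → m ≤ K * n →
    δ * Ps ρ β h n ≤ Fn ρ β h m → c ≤ (law d ρ).real {η | A ρ β h m + Fn ρ β h m / 8 < X β h η m}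

/-- Leaf BAL: the other side (from `TaiP` and `EhlP`). -/
def BalP : Prop := ∀ c₀ x : ℝ, 0 < c₀ → 0 < x → ∀ K : ℕ, ∃ c : ℝ, 0 < c ∧ ∀ h : Vec d,
  Loc1 ρ β h c₀ → ∀ n : ℕ, RRec (Ps ρ β h) n → ∀ m : ℕ, 1 ≤ m → m ≤ K * n →
    c ≤ (law d ρ).real {η | X β h η m ≤ A ρ β h m + x * Ps ρ β h n}

/-- Leaf SEQ: subadditive sequences. -/
def SeqQ : Prop := ∃ N₁ : ℕ, ∀ (E : ℕ → ℝ) (C : ℝ), E 0 = 0 → (∀ n : ℕ, 0 ≤ E n) →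
  (∀ a b : ℕ, E (a + b) ≤ E a + E b) → (∀ n : ℕ, E n ≤ C * (n : ℝ) ^ (7 / 10 : ℝ)) →
  ∀ n k : ℕ, k ≤ n → 0 < E k → ∃ (N : ℕ) (e : ℝ), 1 ≤ N ∧ 0 < e ∧ (∀ t : ℕ, t ≤ N → E t ≤ 2 * e) ∧
    (∃ t : ℕ, t ≤ N ∧ e ≤ E t) ∧ E k ≤ 2 * e ∧
    (N : ℝ) ^ (3 / 4 : ℝ) * E k ≤ (n : ℝ) ^ (3 / 4 : ℝ) * (2 * e) ∧
    (N₁ ≤ N → ∃ (L : ℕ) (S : Finset ℕ), L ≤ 2 * N ∧ (N : ℝ) / 100 ≤ S.card ∧ ∀ t ∈ S,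
      t ≤ L ∧ (N : ℝ) / 1000 ≤ t ∧ t ≤ N ∧ (N : ℝ) / 1000 ≤ (L - t : ℕ) ∧ L - t ≤ N ∧
      e / 40 ≤ E t + E (L - t) - E L)

/-- LM with its constants: luck at a right record. -/
def LmC (c₀ κ c : ℝ) (K : ℕ) (Q₀ : ℝ) : Prop := ∀ (h v : Vec 2) (Q c' : ℝ), Q₀ ≤ Q →
  0 < c' → c' ≤ 1 → Loc1 ρ β h c₀ → Dat ρ β h v κ Q c' → ∃ Cs : ℝ, ∀ n : ℕ,
    RRec (Ps ρ β h) n → Cs ≤ Ps ρ β h n → ∃ m : ℕ, 1 ≤ m ∧ m ≤ K * n ∧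
      c / kap Q c' (2000 * m) ^ 12 ≤ (law 2 ρ).real {η | A ρ β h m + c * Ps ρ β h n < X β h η m}

/-- Leaf LM (from `FluP`, `SeqQ`, `LktP`, `PriP`). -/
def LmP : Prop := ∀ c₀ κ : ℝ, 0 < c₀ → 0 < κ → κ ≤ 1 / 4000 → ∃ (c : ℝ) (K : ℕ) (Q₀ : ℝ),
  0 < c ∧ c ≤ 1 ∧ 1 ≤ K ∧ 1 ≤ Q₀ ∧ LmC ρ β c₀ κ c K Q₀

/-- Leaf GRO (from `BalP`, `GrowP`): growth at a right record. -/
def GroQ : Prop := ∀ (c₀ κ c : ℝ) (K : ℕ) (Q₀ : ℝ), 0 < c₀ → 0 < c → c ≤ 1 → 1 ≤ K → 1 ≤ Q₀ →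
  LmC ρ β c₀ κ c K Q₀ → ∃ (C : ℝ) (K₁ k : ℕ), 1 ≤ C ∧ 1 ≤ K₁ ∧ ∀ (h v : Vec 2) (Q c' : ℝ),
    Q₀ ≤ Q → 0 < c' → c' ≤ 1 → Loc1 ρ β h c₀ → Dat ρ β h v κ Q c' → ∃ Cs : ℝ, ∀ n : ℕ,
      RRec (Ps ρ β h) n → Cs ≤ Ps ρ β h n → ∀ T : ℕ, C * n * kap Q c' (K₁ * n) ^ k ≤ T →
        2 * Ps ρ β h n ≤ Ps ρ β h T

/-- Leaf REC (from `BalP`, `AmpP`, `SscP`, `PriP`): the upper bound at a right record. -/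
def RecQ : Prop := ∀ (c₀ κ c : ℝ) (K : ℕ) (Q₀ : ℝ), 0 < c₀ → 0 < κ → κ ≤ c₀ / 4 → 0 < c →
  c ≤ 1 → 1 ≤ K → 1 ≤ Q₀ → LmC ρ β c₀ κ c K Q₀ → ∃ (C Q₁ : ℝ) (K₁ k : ℕ), 1 ≤ C ∧ Q₀ ≤ Q₁ ∧
    1 ≤ K₁ ∧ ∀ (h v : Vec 2) (Q c' : ℝ), Q₁ ≤ Q → 0 < c' → c' ≤ 1 → Loc1 ρ β h c₀ →
      Dat ρ β h v κ Q c' → ∃ Cs : ℝ, ∀ n : ℕ, RRec (Ps ρ β h) n → Cs ≤ Ps ρ β h n →
        Ps ρ β h n ≤ C * kap Q c' (K₁ * n) ^ k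

/-- Leaf FIN (real analysis). -/
def FinQ : Prop := ∀ (C : ℝ) (K k : ℕ), 1 ≤ C → 1 ≤ K → ∃ c : ℝ, 0 < c ∧ c ≤ 1 ∧
  ∀ (Q C₀ Cs : ℝ) (f : ℕ → ℝ), 1 ≤ Q → 0 ≤ C₀ → Monotone f → (∀ n, 1 ≤ f n) →
    (∀ n : ℕ, f n ≤ 1 + C₀ * (n : ℝ) ^ (51 / 100 : ℝ)) → Tendsto f atTop atTop →
    (∀ n : ℕ, RRec f n → Cs ≤ f n → ∀ T : ℕ, C * n * kap Q c (K * n) ^ k ≤ T → 2 * f n ≤ f T) →
    (∀ n : ℕ, RRec f n → Cs ≤ f n → f n ≤ C * kap Q c (K * n) ^ k) → False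

/-- Leaf SEL (`d = 2`): the partners. -/
def SelQ : Prop := ∀ᵐ v : Vec 2, ∀ h : Vec 2, VSD ρ β h →
  (∀ c : ℝ, 0 < c → ∀ᶠ n : ℕ in atTop, ∀ R : ℝ, 1 ≤ R →
    R * Tb ρ β h v R n ≤ Real.exp (c * Real.sqrt (Real.log n))) →
  ∀ κ : ℝ, 0 < κ → κ ≤ 1 → ∃ Q₂ : ℝ, ∀ Q : ℝ, Q₂ ≤ Q → ∀ c : ℝ, 0 < c → Dat ρ β h v κ Q c

/-- Leaf UNB: the fluctuations are unbounded. -/
def UnbP : Prop := ∀ h : Vec d, VSD ρ β h → Tendsto (Ps ρ β h) atTop atTop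

/-- THEOREM SQ (`d = 2`). -/
def MainSQ : Prop := ∀ᵐ v : Vec 2, ∀ h : Vec 2, VSD ρ β h → ∃ c : ℝ, 0 < c ∧ ∃ᶠ n : ℕ in atTop,
  ∃ R : ℝ, 1 ≤ R ∧ Real.exp (c * Real.sqrt (Real.log n)) < R * Tb ρ β h v R n

end Leaves

end Pool.Agent.W_7d29a1_SQ
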