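import Pool.Agent.W_7d29a1_SP.Step15
import Pool.Agent.W_7d29a1_SQ.DefsSQ

/-!
REC: the upper bound of the fluctuations at a right record.
-/

namespace Pool.Agent.W_7d29a1_SQ

open MeasureTheory ProbabilityTheory Filter Topology Pool.Agent.W_MP_7d29a1_pr
  Pool.Agent.W_7d29a1_h46 Pool.Agent.W_7d29a1_h46u Pool.Agent.W_7d29a1_D2.B35
  Pool.Agent.W_7d29a1_Q29 Pool.Agent.W_7d29a1_R34 Pool.Agent.W_7d29a1_SP Pool.Agent.W_7d29a1_SD

namespace R75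

variable {d : ℕ} {ρ : Measure ℝ} [IsProbabilityMeasure ρ]

lemma sup_F_nonneg (β : ℝ) (h : Vec d) (n : ℕ) :
    0 ≤ (Finset.range (n + 1)).sup' ⟨0, by simp⟩ (Fn ρ β h) :=
  (Fn_nonneg15 β h 0).trans (Finset.le_sup' (Fn ρ β h) (by simp))

lemma sup_E_nonneg (hd : 0 < d) (hρ : EM ρ) (β : ℝ) (h : Vec d) (n : ℕ) :
    0 ≤ (Finset.range (n + 1)).sup' ⟨0, by simp⟩ (En ρ β h) :=
  (En_nonneg15 hd hρ β h 0).trans (Finset.le_sup' (En ρ β h) (by simp))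

lemma En_le_Ps (β : ℝ) (h : Vec d) {k n : ℕ} (hk : k ≤ n) : En ρ β h k ≤ Ps ρ β h n := by
  have h1 := Finset.le_sup' (En ρ β h) (Finset.mem_range.2 (Nat.lt_succ_of_le hk))
  have h2 := sup_F_nonneg (ρ := ρ) β h n
  unfold Ps
  linarith

lemma Fn_le_Ps (hd : 0 < d) (hρ : EM ρ) (β : ℝ) (h : Vec d) {k n : ℕ} (hk : k ≤ n) :
    Fn ρ β h k ≤ Ps ρ β h n := by
  have h1 := Finset.le_sup' (Fn ρ β h) (Finset.mem_range.2 (Nat.lt_succ_of_le hk))
  have h2 := sup_E_nonneg (ρ := ρ) hd hρ β h n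
  unfold Ps
  linarith

lemma one_le_Ps (hd : 0 < d) (hρ : EM ρ) (β : ℝ) (h : Vec d) (n : ℕ) : 1 ≤ Ps ρ β h n := by
  have h1 := sup_E_nonneg (ρ := ρ) hd hρ β h n
  have h2 := sup_F_nonneg (ρ := ρ) β h n
  unfold Ps
  linarith

/-- `kap (2000 m) ≤ 16 kap m`. -/
lemma kap_2000 {Q c : ℝ} (hQ : 0 ≤ Q) (hc : 0 < c) (hc1 : c ≤ 1) {m : ℕ} (hm : 1 ≤ m) :
    kap Q c (2000 * m) ≤ 16 * kap Q c m := by
  have hm0 : (0 : ℝ) < m := by exact_mod_cast hm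
  have hl2 := Real.log_two_gt_d9
  have hl2' := Real.log_two_lt_d9
  have hl : Real.log 2000 ≤ 11 * Real.log 2 := by
    have h1 : Real.log 2000 ≤ Real.log (2 ^ 11) := Real.log_le_log (by norm_num) (by norm_num)
    rw [Real.log_pow] at h1
    exact_mod_cast h1
  have hs : Real.sqrt (Real.log 2000) ≤ 4 * Real.log 2 := by
    rw [Real.sqrt_le_left (by linarith)]
    nlinarith
  have hm1 : (1 : ℝ) ≤ m := by exact_mod_cast hm
  have h2 : Real.sqrt (Real.log ((2000 * m : ℕ) : ℝ)) ≤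
      4 * Real.log 2 + Real.sqrt (Real.log m) := by
    have e : Real.log ((2000 * m : ℕ) : ℝ) = Real.log 2000 + Real.log m := by
      push_cast
      rw [Real.log_mul (by norm_num) hm0.ne']
    have ha : 0 ≤ Real.log 2000 := Real.log_nonneg (by norm_num)
    have hb : 0 ≤ Real.log m := Real.log_nonneg hm1
    have h3 : Real.sqrt (Real.log 2000 + Real.log m) ≤
        Real.sqrt (Real.log 2000) + Real.sqrt (Real.log m) := by
      rw [Real.sqrt_le_left (by positivity)]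
      nlinarith [Real.sq_sqrt ha, Real.sq_sqrt hb,
        mul_nonneg (Real.sqrt_nonneg (Real.log 2000)) (Real.sqrt_nonneg (Real.log m))]
    rw [e]
    linarith
  have h3 : c * Real.sqrt (Real.log ((2000 * m : ℕ) : ℝ)) ≤
      4 * Real.log 2 + c * Real.sqrt (Real.log m) := by
    have h4 := mul_le_mul_of_nonneg_left h2 hc.le
    nlinarith
  have h4 : Real.exp (c * Real.sqrt (Real.log ((2000 * m : ℕ) : ℝ))) ≤
      16 * Real.exp (c * Real.sqrt (Real.log m)) := by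
    refine (Real.exp_le_exp.2 h3).trans (le_of_eq ?_)
    rw [Real.exp_add]
    congr 1
    rw [show (4 : ℝ) * Real.log 2 = ((4 : ℕ) : ℝ) * Real.log 2 by norm_num, Real.exp_nat_mul,
      Real.exp_log (by norm_num)]
    norm_num
  unfold kap
  calc Q * Real.exp (c * Real.sqrt (Real.log ((2000 * m : ℕ) : ℝ)))
      ≤ Q * (16 * Real.exp (c * Real.sqrt (Real.log m))) := mul_le_mul_of_nonneg_left h4 hQ
    _ = 16 * (Q * Real.exp (c * Real.sqrt (Real.log m))) := by ring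

/-- `RS` is monotone. -/
lemma rs_mono {β : ℝ} {h : Vec d} {n p : ℕ} {M M' δ δ' : ℝ}
    (hM : M ≤ M') (hδ : δ ≤ δ') (H : RS ρ β h n p M δ) : RS ρ β h n p M' δ' := by
  unfold RS at H ⊢
  refine le_trans (measureReal_mono fun w hw => ?_) (H.trans hδ)
  exact lt_of_le_of_lt hM hw

/-- Markov: the upper deviation bounds the random fluctuation from below. -/
lemma markov75 (hd : 0 < d) (hρ : EM ρ) (β : ℝ) (h : Vec d) (m : ℕ) {x p : ℝ} (hx : 0 ≤ x)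
    (hp : p ≤ (law d ρ).real {η | A ρ β h m + x < X β h η m}) : x * p ≤ Fn ρ β h m := by
  have hi := (intX15 (ρ := ρ) hd hρ β h m).abs
  have h1 := mul_meas_ge_le_integral_of_nonneg (μ := law d ρ)
    (Eventually.of_forall fun η => abs_nonneg (X β h η m - A ρ β h m)) hi x
  have h2 : ∫ η, |X β h η m - A ρ β h m| ∂(law d ρ) = Fn ρ β h m := rfl
  rw [h2] at h1
  have h3 : (law d ρ).real {η | A ρ β h m + x < X β h η m} ≤
      (law d ρ).real {η | x ≤ |X β h η m - A ρ β h m|} := by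
    refine measureReal_mono fun η hη => ?_
    have h4 : A ρ β h m + x < X β h η m := hη
    show x ≤ |X β h η m - A ρ β h m|
    exact le_trans (by linarith) (le_abs_self _)
  exact (mul_le_mul_of_nonneg_left (hp.trans h3) hx).trans h1

end R75

open R75 in
/-- Leaf REC; the hypothesis `hSsc` is `SscF 2 ρ β` of `SscF35` (counting at the same scale, with
both fluctuations at most `Φ`). -/
theorem recF75 {ρ : Measure ℝ} [IsProbabilityMeasure ρ] (hρ : EM ρ) {β : ℝ}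
    (hBal : BalP 2 ρ β) (hAmp : AmpP 2 ρ β)
    (hSsc : ∀ c₀ : ℝ, 0 < c₀ → ∃ C δ₀ : ℝ, 1 ≤ C ∧ 0 < δ₀ ∧ ∀ h : Vec 2, Loc1 ρ β h c₀ →
      ∀ (κ : ℝ) (m : ℕ) (x M δ Φ : ℝ), 0 < κ → κ ≤ c₀ / 4 → 1 ≤ m → 0 < M → 0 < δ → δ ≤ δ₀ →
        (∀ L : ℕ, m ≤ L → L ≤ 2 * m → RS ρ β h L ⌊κ * L⌋₊ M δ) →
        (∀ k : ℕ, k ≤ m → En ρ β h k ≤ Φ ∧ Fn ρ β h k ≤ Φ) →
        C * δ ≤ (law 2 ρ).real {η | A ρ β h m + x ≤ X β h η m} → x ≤ C * (Φ + M + 1))
    (hPri : PriP 2 ρ β) : RecQ ρ β := by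
  intro c₀ κ c K Q₀ hc₀ hκ hκ' hc hc1 hK hQ₀ hLm
  obtain ⟨CS, δ₀, hCS, hδ₀, hS⟩ := hSsc c₀ hc₀
  obtain ⟨cB, hcB, hB⟩ := hBal c₀ (c / 2) hc₀ (by positivity) K
  have hK1 : (1 : ℝ) ≤ K := by exact_mod_cast hK
  obtain ⟨t, ht⟩ : ∃ t : ℝ, t = 2 / c * (CS * K + CS + 1) := ⟨_, rfl⟩
  have htc : t * (c / 2) = CS * K + CS + 1 := by
    rw [ht]
    field_simp
  have ht1 : 1 ≤ t := by
    have h1 : 1 ≤ CS * K := one_le_mul_of_one_le_of_one_le hCS hK1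
    by_contra hcon
    push Not at hcon
    have h2 : t * (c / 2) ≤ 1 * (c / 2) := mul_le_mul_of_nonneg_right hcon.le (by positivity)
    linarith
  obtain ⟨CA, cA, hCA, hcA, hA⟩ := hAmp t ht1
  obtain ⟨q0, hq0d⟩ : ∃ q0, q0 = min cB c := ⟨_, rfl⟩
  have hq0 : 0 < q0 := by
    rw [hq0d]
    exact lt_min hcB hc
  have hq0B : q0 ≤ cB := by
    rw [hq0d]
    exact min_le_left _ _
  have hq0c : q0 ≤ c := by
    rw [hq0d]
    exact min_le_right _ _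
  obtain ⟨j, hj⟩ := exists_nat_ge (12 * CA + 1)
  obtain ⟨G, hG⟩ : ∃ G, G = 10 * CS / cA * (16 ^ 12 / q0) ^ CA := ⟨_, rfl⟩
  have hG0 : 0 ≤ G := by
    rw [hG]
    positivity
  refine ⟨2 * CS, max Q₀ (max G (10 / δ₀)), 2 * K, 2 * j + 3, by linarith, le_max_left _ _,
    by omega, fun h v Q c' hQ hc' hc'1 hLoc hD => ?_⟩
  have hQQ₀ : Q₀ ≤ Q := (le_max_left _ _).trans hQ
  have hQG : G ≤ Q := (le_max_left _ _).trans ((le_max_right _ _).trans hQ)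
  have hQδ : 10 / δ₀ ≤ Q := (le_max_right _ _).trans ((le_max_right _ _).trans hQ)
  have hQ1 : 1 ≤ Q := hQ₀.trans hQQ₀
  obtain ⟨C₁, hLm'⟩ := hLm h v Q c' hQQ₀ hc' hc'1 hLoc hD
  obtain ⟨L₀, hL₀⟩ := eventually_atTop.1 (hD.rs j)
  obtain ⟨C₀, hC₀, hP⟩ := hPri h
  refine ⟨max C₁ (C₀ * (L₀ : ℝ) ^ (51 / 100 : ℝ) * kap Q c' (2000 * L₀) ^ 12 / c ^ 2 + 1),
    fun n hn hCs => ?_⟩
  obtain ⟨m, hm1, hmK, hm⟩ := hLm' n hn ((le_max_left _ _).trans hCs)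
  have hCs2 := (le_max_right _ _).trans hCs
  obtain ⟨Ψ, hΨ⟩ : ∃ Ψ, Ψ = Ps ρ β h n := ⟨_, rfl⟩
  have hΨ1 : 1 ≤ Ψ := by
    rw [hΨ]
    exact one_le_Ps (by norm_num) hρ β h n
  rw [← hΨ] at hm hCs2 ⊢
  have hk1 : ∀ s : ℕ, 1 ≤ kap Q c' s := fun s => one_le_kap15 hQ1 hc' s
  have hkm := hk1 m
  have hkm0 : 0 < kap Q c' m := by linarith
  have hk2 := kap_2000 (Q := Q) (by linarith) hc' hc'1 hm1
  -- `m` is large
  have hmL : L₀ ≤ m := by
    by_contra hcon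
    push Not at hcon
    have h1 := markov75 (ρ := ρ) (d := 2) (by norm_num) hρ β h m (x := c * Ψ) (by positivity) hm
    have h2 := (hP m).2
    have h3 : (m : ℝ) ^ (51 / 100 : ℝ) ≤ (L₀ : ℝ) ^ (51 / 100 : ℝ) :=
      Real.rpow_le_rpow (Nat.cast_nonneg m) (by exact_mod_cast hcon.le) (by norm_num)
    have h4 : c * Ψ * (c / kap Q c' (2000 * m) ^ 12) ≤ C₀ * (L₀ : ℝ) ^ (51 / 100 : ℝ) :=
      h1.trans (h2.trans (mul_le_mul_of_nonneg_left h3 hC₀))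
    have h5 : kap Q c' (2000 * m) ^ 12 ≤ kap Q c' (2000 * L₀) ^ 12 :=
      pow_le_pow_left₀ (by linarith [hk1 (2000 * m)]) (kap_mono15 hQ1 hc' (by omega)) 12
    have h6 : 0 < kap Q c' (2000 * m) ^ 12 := pow_pos (by linarith [hk1 (2000 * m)]) 12
    have h7 : c ^ 2 * Ψ ≤ C₀ * (L₀ : ℝ) ^ (51 / 100 : ℝ) * kap Q c' (2000 * m) ^ 12 := by
      rw [mul_div_assoc', div_le_iff₀ h6] at h4
      linarith
    have h8 : c ^ 2 * Ψ ≤ C₀ * (L₀ : ℝ) ^ (51 / 100 : ℝ) * kap Q c' (2000 * L₀) ^ 12 :=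
      h7.trans (mul_le_mul_of_nonneg_left h5 (by positivity))
    have h9 : Ψ ≤ C₀ * (L₀ : ℝ) ^ (51 / 100 : ℝ) * kap Q c' (2000 * L₀) ^ 12 / c ^ 2 := by
      rw [le_div_iff₀ (by positivity)]
      linarith
    linarith
  -- the probabilities
  obtain ⟨q, hq⟩ : ∃ q, q = q0 / (16 * kap Q c' m) ^ 12 := ⟨_, rfl⟩
  have h16 : 1 ≤ (16 * kap Q c' m) ^ 12 := one_le_pow₀ (by linarith)
  have hq_pos : 0 < q := by
    rw [hq]
    positivity
  have hqB : q ≤ (law 2 ρ).real {η | X β h η m ≤ A ρ β h m + c / 2 * Ψ} := by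
    have h1 := hB h hLoc n hn m hm1 hmK
    rw [← hΨ] at h1
    refine le_trans ?_ (hq0B.trans h1)
    rw [hq]
    exact div_le_self hq0.le h16
  have hqU : q ≤ (law 2 ρ).real {η | A ρ β h m + c * Ψ < X β h η m} := by
    refine le_trans ?_ hm
    rw [hq]
    have h1 : kap Q c' (2000 * m) ^ 12 ≤ (16 * kap Q c' m) ^ 12 :=
      pow_le_pow_left₀ (by linarith [hk1 (2000 * m)]) hk2 12
    exact div_le_div₀ hc.le hq0c (pow_pos (by linarith [hk1 (2000 * m)]) 12) h1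
  have hcΨ : 0 ≤ c * Ψ := by positivity
  have hamp := hA h m (A ρ β h m + c / 2 * Ψ) (A ρ β h m + c * Ψ) q hq_pos
    (by linarith) hqB hqU
  -- the resampling
  obtain ⟨δ, hδ⟩ : ∃ δ, δ = 10 / kap Q c' m ^ j := ⟨_, rfl⟩
  have hj1 : 1 ≤ j := by
    have h1 : (1 : ℝ) ≤ j := by linarith
    exact_mod_cast h1
  have hkj : kap Q c' m ≤ kap Q c' m ^ j := le_self_pow₀ hkm (by omega)
  have hQk : Q ≤ kap Q c' m := by
    unfold kap
    have h1 : 1 ≤ Real.exp (c' * Real.sqrt (Real.log m)) := by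
      rw [Real.one_le_exp_iff]
      exact mul_nonneg hc'.le (Real.sqrt_nonneg _)
    nlinarith
  have hδ_pos : 0 < δ := by
    rw [hδ]
    positivity
  have hδ_le : δ ≤ δ₀ := by
    rw [hδ, div_le_iff₀ (by positivity)]
    have h1 : 10 ≤ δ₀ * Q := by
      rw [div_le_iff₀ hδ₀] at hQδ
      linarith
    exact h1.trans (mul_le_mul_of_nonneg_left (hQk.trans hkj) hδ₀.le)
  have hCSδ : CS * δ ≤ cA * q ^ CA := by
    have e1 : q ^ CA = (q0 / 16 ^ 12) ^ CA / kap Q c' m ^ (12 * CA) := by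
      rw [hq, mul_pow, ← div_div, Real.div_rpow (by positivity) (by positivity)]
      congr 1
      rw [← Real.rpow_natCast, ← Real.rpow_mul hkm0.le]
      norm_num
    have e2 : (16 ^ 12 / q0) ^ CA = 1 / (q0 / 16 ^ 12) ^ CA := by
      rw [one_div, ← Real.inv_rpow (by positivity), inv_div]
    have hG' : G = 10 * CS / cA * (1 / (q0 / 16 ^ 12) ^ CA) := by rw [hG, e2]
    have h1 : kap Q c' m ^ (12 * CA) * kap Q c' m ≤ kap Q c' m ^ j := by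
      have h2 : kap Q c' m ^ (12 * CA) * kap Q c' m = kap Q c' m ^ (12 * CA + 1) := by
        rw [Real.rpow_add hkm0, Real.rpow_one]
      rw [h2, ← Real.rpow_natCast]
      exact Real.rpow_le_rpow_of_exponent_le hkm hj
    have hb : 0 < (q0 / 16 ^ 12) ^ CA := Real.rpow_pos_of_pos (by positivity) _
    have hkc : 0 < kap Q c' m ^ (12 * CA) := Real.rpow_pos_of_pos hkm0 _
    have h3 : G * kap Q c' m ^ (12 * CA) ≤ kap Q c' m ^ j := by
      refine le_trans ?_ h1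
      rw [mul_comm]
      exact mul_le_mul_of_nonneg_left (hQG.trans hQk) hkc.le
    rw [hG'] at h3
    rw [e1, hδ]
    have hkj0 : 0 < kap Q c' m ^ j := pow_pos hkm0 j
    rw [mul_div_assoc', mul_div_assoc', div_le_div_iff₀ hkj0 hkc]
    have h4 : 10 * CS / cA * (1 / (q0 / 16 ^ 12) ^ CA) * kap Q c' m ^ (12 * CA) *
        (cA * (q0 / 16 ^ 12) ^ CA) = CS * 10 * kap Q c' m ^ (12 * CA) := by
      field_simp
    rw [← h4]
    have h5 := mul_le_mul_of_nonneg_right h3 (mul_pos hcA hb).le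
    linarith
  obtain ⟨M, hM⟩ : ∃ M, M = kap Q c' (2 * m) ^ (2 * j + 3) := ⟨_, rfl⟩
  have hM1 : 1 ≤ M := by
    rw [hM]
    exact one_le_pow₀ (hk1 _)
  have hRS : ∀ L : ℕ, m ≤ L → L ≤ 2 * m → RS ρ β h L ⌊κ * L⌋₊ M δ := by
    intro L hL1 hL2
    refine rs_mono ?_ ?_ (hL₀ L (hmL.trans hL1))
    · rw [hM]
      exact pow_le_pow_left₀ (by linarith [hk1 L]) (kap_mono15 hQ1 hc' hL2) _
    · rw [hδ]
      exact div_le_div_of_nonneg_left (by norm_num) (pow_pos hkm0 j)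
        (pow_le_pow_left₀ hkm0.le (kap_mono15 hQ1 hc' hL1) _)
  have hE : ∀ k : ℕ, k ≤ m → En ρ β h k ≤ K * Ψ ∧ Fn ρ β h k ≤ K * Ψ := by
    intro k hk
    have hn1 : 1 ≤ n := hn.1
    have hn0 : (0 : ℝ) < n := by exact_mod_cast hn1
    have h1 := hn.2 (K * n) (Nat.le_mul_of_pos_left n (by omega))
    have h2 : ((K * n : ℕ) : ℝ) / n = K := by
      push_cast
      field_simp
    rw [h2, ← hΨ] at h1
    have h3 : (K : ℝ) ^ (2 / 3 : ℝ) ≤ K := by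
      have := Real.rpow_le_rpow_of_exponent_le hK1 (show (2 / 3 : ℝ) ≤ 1 by norm_num)
      rwa [Real.rpow_one] at this
    have h4 := En_le_Ps (ρ := ρ) β h (hk.trans hmK)
    have h5 := Fn_le_Ps (ρ := ρ) (d := 2) (by norm_num) hρ β h (hk.trans hmK)
    have h6 : Ps ρ β h (K * n) ≤ K * Ψ := by
      refine h1.trans ?_
      rw [mul_comm]
      exact mul_le_mul_of_nonneg_right h3 (by linarith)
    exact ⟨h4.trans h6, h5.trans h6⟩
  have hfin := hS h hLoc κ m (c * Ψ + t * (c * Ψ - c / 2 * Ψ)) M δ (K * Ψ) hκ hκ' hm1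
    (by linarith) hδ_pos hδ_le hRS hE (by
      refine (hCSδ.trans hamp).trans (measureReal_mono fun η hη => ?_)
      have h1 : A ρ β h m + c * Ψ + t * (A ρ β h m + c * Ψ - (A ρ β h m + c / 2 * Ψ)) <
        X β h η m := hη
      show A ρ β h m + (c * Ψ + t * (c * Ψ - c / 2 * Ψ)) ≤ X β h η m
      have e : A ρ β h m + c * Ψ + t * (A ρ β h m + c * Ψ - (A ρ β h m + c / 2 * Ψ)) =
        A ρ β h m + (c * Ψ + t * (c * Ψ - c / 2 * Ψ)) := by ring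
      rw [← e]
      exact h1.le)
  have h1 : t * (c * Ψ - c / 2 * Ψ) = (CS * K + CS + 1) * Ψ := by
    rw [← htc]
    ring
  rw [h1] at hfin
  have h2 : Ψ ≤ 2 * CS * M := by
    have h4 : CS * 1 ≤ CS * Ψ := mul_le_mul_of_nonneg_left hΨ1 (by linarith)
    have h5 : CS * 1 ≤ CS * M := mul_le_mul_of_nonneg_left hM1 (by linarith)
    have e1 : (CS * K + CS + 1) * Ψ = CS * K * Ψ + CS * Ψ + Ψ := by ring
    have e2 : CS * (K * Ψ + M + 1) = CS * K * Ψ + CS * M + CS := by ring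
    have e3 : 2 * CS * M = CS * M + CS * M := by ring
    rw [e1, e2] at hfin
    rw [e3]
    linarith
  refine h2.trans (mul_le_mul_of_nonneg_left ?_ (by linarith))
  rw [hM]
  refine pow_le_pow_left₀ (by linarith [hk1 (2 * m)]) (kap_mono15 hQ1 hc' ?_) _
  calc 2 * m ≤ 2 * (K * n) := by omega
    _ = 2 * K * n := by ring

/-- Leaf REC, from `SscP`. -/
theorem rec75 {ρ : Measure ℝ} [IsProbabilityMeasure ρ] (hρ : EM ρ) {β : ℝ}
    (hBal : BalP 2 ρ β) (hAmp : AmpP 2 ρ β) (hSsc : SscP 2 ρ β) (hPri : PriP 2 ρ β) :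
    RecQ ρ β := by
  refine recF75 hρ hBal hAmp (fun c₀ hc₀ => ?_) hPri
  obtain ⟨C, δ₀, hC, hδ₀, H⟩ := hSsc c₀ hc₀
  exact ⟨C, δ₀, hC, hδ₀, fun h hL κ m x M δ Φ h1 h2 h3 h4 h5 h6 h7 h8 h9 =>
    H h hL κ m x M δ Φ h1 h2 h3 h4 h5 h6 h7 (fun k hk => (h8 k hk).1) h9⟩

end Pool.Agent.W_7d29a1_SQ
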