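import Pool.Agent.W_7d29a1_SQ.DefsSQ
import Pool.Agent.W_7d29a1_SD.MainS70
import Pool.Agent.W_7d29a1_SD.SubD20
import Pool.Agent.W_7d29a1_SD.Rs6

/-!
Theorem SQ, leaf SEL (helper67): at almost every velocity the negation of the theorem gives the
data `Dat`. The velocities with a tilt which is a slope and with the bound of the constant
`1 / (k + 1)` from the time `N` form countably many sets; a density point of such a set has
partners in the set in every small annulus, and the inverse gradient is Lipschitz there.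
-/

set_option autoImplicit false

namespace Pool.Agent.W_7d29a1_SQ

open MeasureTheory ProbabilityTheory Filter Topology Pool.Agent.W_MP_7d29a1_pr
  Pool.Agent.W_7d29a1_h46 Pool.Agent.W_7d29a1_h46u Pool.Agent.W_7d29a1_D2.B35
  Pool.Agent.W_7d29a1_Q29 Pool.Agent.W_7d29a1_R34 Pool.Agent.W_7d29a1_SP Pool.Agent.W_7d29a1_SD

section Gen

variable {d : ℕ} {ρ : Measure ℝ} [IsProbabilityMeasure ρ] {β : ℝ}

/-- A velocity whose tube of radius `o (n)` keeps mass is a slope of the free energy. -/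
theorem slopeQ67 (hd : 0 < d) (hρ : EM ρ) (h v : Vec d) (R : ℕ → ℝ)
    (hR0 : Tendsto (fun n : ℕ => R n / Real.sqrt n) atTop (𝓝 0))
    (hT : ∀ᶠ n : ℕ in atTop, Tb ρ β h v (R n) n ≤ 1 / 4) (k : Vec d) :
    lam ρ β h + inner ℝ v k ≤ lam ρ β (h + k) := by
  obtain ⟨C, hC0, hC⟩ := momU (ρ := ρ) hd hρ β 1
  have key : ∀ᶠ n : ℕ in atTop, A ρ β h n / n + inner ℝ v k ≤
      A ρ β (h + k) n / n + (4 * C / Real.sqrt n + ‖k‖ * (R n / Real.sqrt n)) +
        Real.log 2 / n := by
    filter_upwards [hT, eventually_ge_atTop 1] with n h2 hn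
    have hn' : (0 : ℝ) < n := by exact_mod_cast hn
    have hs : 0 < Real.sqrt n := Real.sqrt_pos.2 hn'
    have hsq : Real.sqrt n * Real.sqrt n = n := Real.mul_self_sqrt hn'.le
    set G : Set (Env d) := {η | 1 / 2 ≤ PolT β h η (tube d n v (R n * Real.sqrt n))} with hG
    have hPG : 1 / 2 ≤ (law d ρ).real G := by
      have h1 := good20 (ρ := ρ) (β := β) h v n (R n)
      linarith
    have hG0 : law d ρ G ≠ 0 := by
      intro h1
      rw [Measure.real, h1] at hPG
      norm_num at hPG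
    obtain ⟨i1, m1⟩ := hC h n hn
    obtain ⟨i2, m2⟩ := hC (h + k) n hn
    have hpw : (n : ℝ) ^ ((1 / 2 : ℝ) * (1 : ℕ)) = Real.sqrt n := by
      rw [Real.sqrt_eq_rpow]
      norm_num
    rw [hpw] at m1 m2
    have hi : Integrable (fun η => |X β h η n - A ρ β h n| ^ 1 +
      |X β (h + k) η n - A ρ β (h + k) n| ^ 1) (law d ρ) := i1.add i2
    obtain ⟨η, hη, hle⟩ := exists_le_setAverage hG0 (measure_ne_top _ _) hi.integrableOn
    have h3 : ∫ η in G, (|X β h η n - A ρ β h n| ^ 1 +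
        |X β (h + k) η n - A ρ β (h + k) n| ^ 1) ∂(law d ρ) ≤ 2 * (C * Real.sqrt n) := by
      refine (setIntegral_le_integral hi (ae_of_all _ fun η => by positivity)).trans ?_
      rw [integral_add i1 i2]
      linarith
    have h4 : (|X β h η n - A ρ β h n| ^ 1 + |X β (h + k) η n - A ρ β (h + k) n| ^ 1) ≤
        4 * (C * Real.sqrt n) := by
      refine hle.trans ?_
      rw [setAverage_eq, smul_eq_mul]
      have h5 : ((law d ρ).real G)⁻¹ ≤ 2 := by
        rw [inv_le_comm₀ (by linarith) (by norm_num)]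
        norm_num at hPG ⊢
        exact hPG
      have h6 : 0 ≤ 2 * (C * Real.sqrt n) := by positivity
      have h7 : 0 ≤ ((law d ρ).real G)⁻¹ := by positivity
      calc ((law d ρ).real G)⁻¹ * _ ≤ ((law d ρ).real G)⁻¹ * (2 * (C * Real.sqrt n)) :=
            mul_le_mul_of_nonneg_left h3 h7
        _ ≤ 2 * (2 * (C * Real.sqrt n)) := mul_le_mul_of_nonneg_right h5 h6
        _ = _ := by ring
    rw [pow_one, pow_one] at h4
    have h5 := tube_tilt20 hd h k v (by norm_num : (0 : ℝ) < 1 / 2) hη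
    have h6 : Real.log (1 / 2) = -Real.log 2 := by
      rw [one_div, Real.log_inv]
    rw [h6] at h5
    have h7 := neg_abs_le (X β h η n - A ρ β h n)
    have h8 := le_abs_self (X β (h + k) η n - A ρ β (h + k) n)
    have h9 : A ρ β h n + n * inner ℝ v k ≤
        A ρ β (h + k) n + (4 * C + ‖k‖ * R n) * Real.sqrt n + Real.log 2 := by
      have e1 : (4 * C + ‖k‖ * R n) * Real.sqrt n =
          4 * (C * Real.sqrt n) + ‖k‖ * (R n * Real.sqrt n) := by ring
      rw [e1]
      linarith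
    have h10 := div_le_div_of_nonneg_right h9 hn'.le
    rw [add_div, add_div, add_div, mul_div_cancel_left₀ _ hn'.ne'] at h10
    have h11 : (4 * C + ‖k‖ * R n) * Real.sqrt n / n =
        4 * C / Real.sqrt n + ‖k‖ * (R n / Real.sqrt n) := by
      have e2 : (4 * C + ‖k‖ * R n) * Real.sqrt n / n = (4 * C + ‖k‖ * R n) / Real.sqrt n := by
        rw [div_eq_div_iff hn'.ne' hs.ne', mul_assoc, hsq]
      rw [e2, add_div, mul_div_assoc ‖k‖]
    rw [h11] at h10
    exact h10
  have hsq : Tendsto (fun n : ℕ => Real.sqrt n) atTop atTop :=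
    Real.tendsto_sqrt_atTop.comp tendsto_natCast_atTop_atTop
  have t1 : Tendsto (fun n : ℕ => 4 * C / Real.sqrt n + ‖k‖ * (R n / Real.sqrt n)) atTop
      (𝓝 (0 + ‖k‖ * 0)) :=
    (hsq.const_div_atTop _).add (hR0.const_mul ‖k‖)
  have t2 : Tendsto (fun n : ℕ => Real.log 2 / (n : ℝ)) atTop (𝓝 0) :=
    tendsto_natCast_atTop_atTop.const_div_atTop _
  have t3 : Tendsto (fun n : ℕ => A ρ β h n / n + inner ℝ v k) atTop
      (𝓝 (lam ρ β h + inner ℝ v k)) := (tendsto_A hd hρ β h).add_const _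
  have t4 : Tendsto (fun n : ℕ => A ρ β (h + k) n / n +
      (4 * C / Real.sqrt n + ‖k‖ * (R n / Real.sqrt n)) + Real.log 2 / n) atTop
      (𝓝 (lam ρ β (h + k) + (0 + ‖k‖ * 0) + 0)) :=
    ((tendsto_A hd hρ β (h + k)).add t1).add t2
  rw [mul_zero, add_zero, add_zero, add_zero] at t4
  exact le_of_tendsto_of_tendsto t3 t4 key

omit [IsProbabilityMeasure ρ] in
/-- The resampling bound is weaker for a larger gain. -/
lemma RS_mono_left67 [IsProbabilityMeasure ρ] {h : Vec d} {n p : ℕ} {M M' δ : ℝ} (hM : M ≤ M')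
    (H : RS ρ β h n p M δ) : RS ρ β h n p M' δ := by
  unfold RS at H ⊢
  refine le_trans (measureReal_mono fun w hw => ?_) H
  exact lt_of_le_of_lt hM hw

end Gen

/-- `exp (c √(log n))` is small compared to `√n`. -/
lemma sub67 (D c : ℝ) : Tendsto (fun n : ℕ => D * Real.exp (c * Real.sqrt (Real.log n)) /
    Real.sqrt n) atTop (𝓝 0) := by
  have hx : Tendsto (fun n : ℕ => Real.sqrt (Real.log n)) atTop atTop :=
    Real.tendsto_sqrt_atTop.comp (Real.tendsto_log_atTop.comp tendsto_natCast_atTop_atTop)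
  have h0 : Tendsto (fun x : ℝ => c + -(x / 2)) atTop atBot :=
    tendsto_atBot_add_const_left atTop c
      (tendsto_neg_atTop_atBot.comp (tendsto_id.atTop_div_const (by norm_num : (0 : ℝ) < 2)))
  have h1 : Tendsto (fun x : ℝ => x * (c + -(x / 2))) atTop atBot :=
    tendsto_id.atTop_mul_atBot₀ h0
  have h2 : Tendsto (fun n : ℕ => D * Real.exp (Real.sqrt (Real.log n) *
      (c + -(Real.sqrt (Real.log n) / 2)))) atTop (𝓝 (D * 0)) :=
    ((Real.tendsto_exp_atBot.comp h1).comp hx).const_mul D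
  rw [mul_zero] at h2
  refine h2.congr' ?_
  filter_upwards [eventually_ge_atTop 1] with n hn
  have hn1 : (1 : ℝ) ≤ n := by exact_mod_cast hn
  have hn0 : (0 : ℝ) < n := by linarith
  have e1 : Real.sqrt (Real.log n) * Real.sqrt (Real.log n) = Real.log n :=
    Real.mul_self_sqrt (Real.log_nonneg hn1)
  have e2 : Real.sqrt (Real.log n) * (c + -(Real.sqrt (Real.log n) / 2)) =
      c * Real.sqrt (Real.log n) - Real.log n / 2 := by
    calc _ = c * Real.sqrt (Real.log n) -
        Real.sqrt (Real.log n) * Real.sqrt (Real.log n) / 2 := by ring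
      _ = _ := by rw [e1]
  have e3 : Real.exp (Real.log n / 2) = Real.sqrt n := by
    rw [Real.exp_half, Real.exp_log hn0]
  rw [e2, Real.exp_sub, e3, mul_div_assoc]

lemma one_le_kap67 {Q c : ℝ} (hQ : 1 ≤ Q) (hc : 0 < c) (L : ℕ) : 1 ≤ kap Q c L := by
  unfold kap
  have h1 : 1 ≤ Real.exp (c * Real.sqrt (Real.log L)) :=
    Real.one_le_exp (mul_nonneg hc.le (Real.sqrt_nonneg _))
  nlinarith

lemma kap_atTop67 {Q c : ℝ} (hQ : 1 ≤ Q) (hc : 0 < c) :
    Tendsto (fun L : ℕ => kap Q c L) atTop atTop := by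
  have hx : Tendsto (fun n : ℕ => Real.sqrt (Real.log n)) atTop atTop :=
    Real.tendsto_sqrt_atTop.comp (Real.tendsto_log_atTop.comp tendsto_natCast_atTop_atTop)
  exact (Real.tendsto_exp_atTop.comp (hx.const_mul_atTop hc)).const_mul_atTop (by linarith)

/-- The velocities with a tilt which is a slope and with the bound of the constant `1 / (k + 1)`
from the time `N`. -/
def E67 (ρ : Measure ℝ) (β : ℝ) (k N : ℕ) : Set (Vec 2) :=
  {v | ∃ h : Vec 2, (∀ u : Vec 2, lam ρ β h + inner ℝ v u ≤ lam ρ β (h + u)) ∧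
    ∀ n : ℕ, N ≤ n → ∀ R : ℝ, 1 ≤ R →
      R * Tb ρ β h v R n ≤ Real.exp (1 / ((k : ℝ) + 1) * Real.sqrt (Real.log n))}

variable {ρ : Measure ℝ} [IsProbabilityMeasure ρ] {β : ℝ}

/-- **Leaf SEL.** -/
theorem selQ67 (hρ : EM ρ) : SelQ ρ β := by
  classical
  have hd : 0 < 2 := by norm_num
  have hann : ∀ᵐ v : Vec 2, ∀ k N : ℕ, v ∈ E67 ρ β k N → Sel70.Ann (E67 ρ β k N) v :=
    ae_all_iff.2 fun k => ae_all_iff.2 fun N => Sel70.ae_ann hd (E67 ρ β k N)
  filter_upwards [hann, Sel70.ae_lip (lam_convex hd hρ β)] with v hv1 hv2 h _ hneg κ hκ hκ1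
  have hsl : ∀ k : Vec 2, lam ρ β h + inner ℝ v k ≤ lam ρ β (h + k) := by
    refine slopeQ67 hd hρ h v (fun n => 4 * Real.exp (1 * Real.sqrt (Real.log n))) (sub67 4 1) ?_
    filter_upwards [hneg 1 one_pos] with n hn
    have h1 : 1 ≤ Real.exp (1 * Real.sqrt (Real.log n)) :=
      Real.one_le_exp (mul_nonneg one_pos.le (Real.sqrt_nonneg _))
    have h2 := hn (4 * Real.exp (1 * Real.sqrt (Real.log n))) (by linarith)
    have h3 : 0 < Real.exp (1 * Real.sqrt (Real.log n)) := Real.exp_pos _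
    have h4 : Real.exp (1 * Real.sqrt (Real.log n)) *
        Tb ρ β h v (4 * Real.exp (1 * Real.sqrt (Real.log n))) n ≤
        Real.exp (1 * Real.sqrt (Real.log n)) * (1 / 4) := by linarith
    exact le_of_mul_le_mul_left h4 h3
  obtain ⟨C, δ, hC, hδ, hLip⟩ := hv2 h hsl
  refine ⟨1, fun Q hQ c hc => ⟨?_, fun j => ?_⟩⟩
  · filter_upwards [hneg c hc] with L hL
    have h1 := hL (kap Q c L) (one_le_kap67 hQ hc L)
    have h3 : 0 < Real.exp (c * Real.sqrt (Real.log L)) := Real.exp_pos _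
    have hQ0 : 0 < Q := by linarith
    have e1 : kap Q c L * Tb ρ β h v (kap Q c L) L =
        Real.exp (c * Real.sqrt (Real.log L)) * (Q * Tb ρ β h v (kap Q c L) L) := by
      have e2 : kap Q c L = Q * Real.exp (c * Real.sqrt (Real.log L)) := rfl
      rw [show kap Q c L * Tb ρ β h v (kap Q c L) L =
        (Q * Real.exp (c * Real.sqrt (Real.log L))) * Tb ρ β h v (kap Q c L) L from rfl]
      ring
    rw [e1] at h1
    have h4 : Real.exp (c * Real.sqrt (Real.log L)) * (Q * Tb ρ β h v (kap Q c L) L) ≤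
        Real.exp (c * Real.sqrt (Real.log L)) * 1 := by rwa [mul_one]
    have h5 := le_of_mul_le_mul_left h4 h3
    rw [le_div_iff₀ hQ0, mul_comm]
    exact h5
  · obtain ⟨k, hk⟩ : ∃ k : ℕ, 1 / ((k : ℝ) + 1) ≤ c :=
      (exists_nat_one_div_lt hc).imp fun _ => le_of_lt
    obtain ⟨N, hN⟩ := eventually_atTop.1 (hneg (1 / ((k : ℝ) + 1)) (by positivity))
    have hvE : v ∈ E67 ρ β k N := ⟨h, hsl, hN⟩
    obtain ⟨r₀, hr₀, hA⟩ := hv1 k N hvE
    have hm0 : 0 < min r₀ δ := lt_min hr₀ hδ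
    have ev1 : ∀ᶠ L : ℕ in atTop, 16 / κ * kap Q c L ^ (j + 1) / Real.sqrt L ≤ min r₀ δ := by
      have t := sub67 (16 / κ * Q ^ (j + 1)) (((j + 1 : ℕ) : ℝ) * c)
      filter_upwards [t.eventually (ge_mem_nhds hm0)] with L hL
      refine le_trans (le_of_eq ?_) hL
      congr 1
      unfold kap
      rw [mul_pow, ← Real.exp_nat_mul]
      rw [← mul_assoc ((j + 1 : ℕ) : ℝ) c]
      ring
    obtain ⟨D, hD⟩ : ∃ D : ℝ, D = 256 * C / κ ^ 2 + 32 * C / κ + 6 := ⟨_, rfl⟩
    have ev2 : ∀ᶠ L : ℕ in atTop, D ≤ kap Q c L := (kap_atTop67 hQ hc).eventually_ge_atTop D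
    filter_upwards [ev1, ev2, eventually_ge_atTop N, eventually_ge_atTop ⌈2 / κ⌉₊,
      eventually_ge_atTop 1] with L h1 h2 h3 h4 h5
    have hL0 : (0 : ℝ) < L := by exact_mod_cast h5
    have hs0 : 0 < Real.sqrt L := Real.sqrt_pos.2 hL0
    have hss : Real.sqrt L * Real.sqrt L = L := Real.mul_self_sqrt hL0.le
    have hκL : 2 ≤ κ * L := by
      have h6 : 2 / κ ≤ L := (Nat.le_ceil _).trans (by exact_mod_cast h4)
      rw [div_le_iff₀ hκ] at h6
      linarith
    obtain ⟨r, hr⟩ : ∃ r : ℝ, r = kap Q c L := ⟨_, rfl⟩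
    rw [← hr] at h1 h2 ⊢
    have hr1 : 1 ≤ r := by
      rw [hr]
      exact one_le_kap67 hQ hc L
    have hr0 : 0 < r := by linarith
    obtain ⟨e, he⟩ : ∃ e : ℝ, e = Real.exp (1 / ((k : ℝ) + 1) * Real.sqrt (Real.log L)) :=
      ⟨_, rfl⟩
    have he1 : 1 ≤ e := by
      rw [he]
      exact Real.one_le_exp (mul_nonneg (by positivity) (Real.sqrt_nonneg _))
    have her : e ≤ r := by
      have h6 : e ≤ Real.exp (c * Real.sqrt (Real.log L)) := by
        rw [he]
        exact Real.exp_le_exp.2 (mul_le_mul_of_nonneg_right hk (Real.sqrt_nonneg _))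
      have h7 : 0 < Real.exp (c * Real.sqrt (Real.log L)) := Real.exp_pos _
      rw [hr]
      unfold kap
      nlinarith
    have hrj : 1 ≤ r ^ j := one_le_pow₀ hr1
    have hrj0 : 0 < r ^ j := by positivity
    obtain ⟨R, hR⟩ : ∃ R : ℝ, R = e * r ^ j := ⟨_, rfl⟩
    have hR1 : 1 ≤ R := by
      rw [hR]
      nlinarith
    have hR2 : R ≤ r ^ (j + 1) := by
      rw [hR, pow_succ, mul_comm]
      exact mul_le_mul_of_nonneg_left her hrj0.le
    have htub : ∀ h' v' : Vec 2, R * Tb ρ β h' v' R L ≤ e → Tb ρ β h' v' R L ≤ 1 / r ^ j := by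
      intro h' v' h6
      rw [le_div_iff₀ hrj0]
      have h7 : e * (Tb ρ β h' v' R L * r ^ j) ≤ e * 1 := by
        rw [mul_one]
        refine le_trans (le_of_eq ?_) h6
        rw [show R * Tb ρ β h' v' R L = (e * r ^ j) * Tb ρ β h' v' R L by rw [← hR]]
        ring
      exact le_of_mul_le_mul_left h7 (by linarith)
    have hT1 : Tb ρ β h v R L ≤ 1 / r ^ j := by
      refine htub h v ?_
      rw [he]
      exact hN L h3 R hR1
    obtain ⟨b, hb⟩ : ∃ b : ℝ, b = 8 * (R + 1) / κ := ⟨_, rfl⟩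
    have hb0 : 0 < b := by
      rw [hb]
      positivity
    have hb1 : b ≤ 16 / κ * R := by
      rw [hb, div_mul_eq_mul_div]
      exact div_le_div_of_nonneg_right (by linarith) hκ.le
    have hrad : b / Real.sqrt L ≤ min r₀ δ := by
      refine le_trans (div_le_div_of_nonneg_right (hb1.trans ?_) hs0.le) h1
      exact mul_le_mul_of_nonneg_left hR2 (by positivity)
    obtain ⟨y, hy, hy1, hy2⟩ := hA (b / Real.sqrt L) (by positivity)
      (hrad.trans (min_le_left _ _))
    obtain ⟨h', hsl', hbd'⟩ := hy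
    have hlip := hLip h' y hsl' (hy2.trans (hrad.trans (min_le_right _ _)))
    have hT2 : Tb ρ β h' y R L ≤ 1 / r ^ j := by
      refine htub h' y ?_
      rw [he]
      exact hbd' L h3 R hR1
    have hy3 : ‖y - v‖ * Real.sqrt L ≤ b := by
      rwa [le_div_iff₀ hs0] at hy2
    have hRS := pairS6 (ρ := ρ) hd β h h' v y L ⌊κ * L⌋₊ R b (C * b) (1 / r ^ j) (by linarith)
      hb0.le (by positivity) hy3 ?_ ?_ hT1 hT2
    · rw [show (10 : ℝ) / r ^ j = 10 * (1 / r ^ j) by ring]
      refine RS_mono_left67 ?_ hRS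
      have e1 : C * b * b ≤ C * (16 / κ * R) * (16 / κ * R) := by
        have q1 : b * b ≤ (16 / κ * R) * (16 / κ * R) :=
          mul_le_mul hb1 hb1 hb0.le (by positivity)
        have q2 := mul_le_mul_of_nonneg_left q1 hC.le
        linarith
      have e2 : 2 * (C * b) * R ≤ 2 * (C * (16 / κ * R)) * R := by
        have q1 := mul_le_mul_of_nonneg_left hb1 hC.le
        exact mul_le_mul_of_nonneg_right (by linarith) (by linarith)
      have e3 : (6 : ℝ) ≤ 6 * (R * R) := by nlinarith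
      have e4 : C * b * b + 2 * (C * b) * R + 6 ≤ D * (R * R) := by
        have q : D * (R * R) = C * (16 / κ * R) * (16 / κ * R) + 2 * (C * (16 / κ * R)) * R +
            6 * (R * R) := by
          rw [hD]
          field_simp
          ring
        rw [q]
        linarith
      have hD0 : 0 < D := by
        rw [hD]
        positivity
      have e5 : R * R ≤ r ^ (2 * j + 2) := by
        have q : r ^ (2 * j + 2) = r ^ (j + 1) * r ^ (j + 1) := by
          rw [← pow_add]
          congr 1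
          ring
        rw [q]
        exact mul_le_mul hR2 hR2 (by linarith) (by positivity)
      calc C * b * b + 2 * (C * b) * R + 6 ≤ D * (R * R) := e4
        _ ≤ r * r ^ (2 * j + 2) := mul_le_mul h2 e5 (by positivity) (by linarith)
        _ = r ^ (2 * j + 3) := by ring
    · calc ‖h' - h‖ * Real.sqrt L ≤ C * ‖y - v‖ * Real.sqrt L :=
            mul_le_mul_of_nonneg_right hlip hs0.le
        _ = C * (‖y - v‖ * Real.sqrt L) := by ring
        _ ≤ C * b := mul_le_mul_of_nonneg_left hy3 hC.le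
    · have q1 : κ * L / 2 ≤ (⌊κ * L⌋₊ : ℝ) := by
        have := Nat.lt_floor_add_one (κ * L)
        linarith
      have q2 : κ * L / 2 * (b / Real.sqrt L / 2) ≤ (⌊κ * L⌋₊ : ℝ) * ‖y - v‖ :=
        mul_le_mul q1 hy1 (by positivity) (Nat.cast_nonneg _)
      refine lt_of_lt_of_le ?_ q2
      have q3 : κ * L / 2 * (b / Real.sqrt L / 2) = 2 * (R + 1) * Real.sqrt L := by
        have q4 : κ * L / 2 * (b / Real.sqrt L / 2) = 2 * (R + 1) * (L / Real.sqrt L) := by
          rw [hb]
          field_simp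
          ring
        rw [q4, Real.div_sqrt]
      rw [q3]
      exact mul_lt_mul_of_pos_right (by linarith) hs0

end Pool.Agent.W_7d29a1_SQ
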