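import Pool.Agent.W_7d29a1_SQ.DefsSQ
import Pool.Agent.W_7d29a1_SP.Seq69

/-!
THEOREM SQ, leaf SEQ (helper37): subadditive sequences, exponents 7/10 and 3/4.
-/

open Finset

namespace Pool.Agent.W_7d29a1_SQ.S37

open Pool.Agent.W_7d29a1_SP.Seq69

variable {E : ℕ → ℝ}

theorem S_succ (E : ℕ → ℝ) (k : ℕ) : S E (k + 1) = S E k + E (k + 1) := by
  unfold S
  rw [Finset.sum_Icc_succ_top (by omega)]

theorem em_pow {C : ℝ} (hC : 0 ≤ C) (hE : ∀ n : ℕ, E n ≤ C * (n : ℝ) ^ (7 / 10 : ℝ))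
    (m : ℕ) (hm : 1 ≤ m) : em E m ≤ C * (m : ℝ) ^ (7 / 10 : ℝ) := by
  have hmp : (0 : ℝ) < m := by exact_mod_cast (by omega : 0 < m)
  unfold W_7d29a1_SP.Seq69.em
  rw [div_le_iff₀ hmp]
  unfold S
  calc ∑ t ∈ Icc 1 m, E t ≤ ∑ _t ∈ Icc 1 m, C * (m : ℝ) ^ (7 / 10 : ℝ) := by
        refine Finset.sum_le_sum fun t ht => (hE t).trans (mul_le_mul_of_nonneg_left ?_ hC)
        apply Real.rpow_le_rpow (Nat.cast_nonneg _) _ (by norm_num)
        exact_mod_cast (Finset.mem_Icc.mp ht).2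
    _ = C * (m : ℝ) ^ (7 / 10 : ℝ) * m := by
        rw [Finset.sum_const, Nat.card_Icc, nsmul_eq_mul]
        simp
        ring

/-- choice of the scale -/
theorem scale37 (h0 : E 0 = 0) (hn : ∀ n, 0 ≤ E n) (hs : ∀ a b, E (a + b) ≤ E a + E b) {C : ℝ}
    (hE : ∀ n : ℕ, E n ≤ C * (n : ℝ) ^ (7 / 10 : ℝ)) {n m₀ : ℕ} (hm : m₀ ≤ n) (hpos : 0 < E m₀) :
    ∃ n₀ N : ℕ, 1 ≤ n₀ ∧ n₀ ≤ n ∧ n₀ ≤ N ∧ 0 < em E n₀ ∧
      (∀ m, 1 ≤ m → m ≤ n → em E m ≤ em E n₀) ∧
      (∀ m, n₀ ≤ m → em E m * (N : ℝ) ^ (3 / 4 : ℝ) ≤ em E N * (m : ℝ) ^ (3 / 4 : ℝ)) := by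
  have hm1 : 1 ≤ m₀ := by
    rcases Nat.eq_zero_or_pos m₀ with h | h
    · rw [h, h0] at hpos
      exact absurd hpos (lt_irrefl _)
    · exact h
  have hm0p : (0 : ℝ) < m₀ := by exact_mod_cast (by omega : 0 < m₀)
  have hC : 0 < C := by
    by_contra hcon
    push Not at hcon
    have h1 := hE m₀
    have h2 : 0 < (m₀ : ℝ) ^ (7 / 10 : ℝ) := Real.rpow_pos_of_pos hm0p _
    nlinarith
  obtain ⟨n₀, hn₀, hmax⟩ := Finset.exists_max_image (Icc 1 n) (em E) ⟨m₀, by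
    rw [Finset.mem_Icc]; exact ⟨hm1, hm⟩⟩
  rw [Finset.mem_Icc] at hn₀
  have hem0 : 0 < em E n₀ := by
    have h1 := hmax m₀ (by rw [Finset.mem_Icc]; exact ⟨hm1, hm⟩)
    have h2 := le_two_em h0 hn hs m₀ hm1
    linarith
  have hn₀p : (0 : ℝ) < n₀ := by exact_mod_cast (by omega : 0 < n₀)
  set f : ℕ → ℝ := fun m => em E m / (m : ℝ) ^ (3 / 4 : ℝ) with hf
  have hf0 : 0 < f n₀ := div_pos hem0 (Real.rpow_pos_of_pos hn₀p _)
  obtain ⟨M, hM⟩ : ∃ M : ℕ, ∀ m, M ≤ m → f m < f n₀ := by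
    have ht : Filter.Tendsto (fun n : ℕ => C * ((n : ℝ) ^ (-(1 / 20) : ℝ))) Filter.atTop (nhds 0) := by
      have h1 := (tendsto_rpow_neg_atTop (by norm_num : (0 : ℝ) < 1 / 20)).comp
        (tendsto_natCast_atTop_atTop (R := ℝ))
      have h2 := h1.const_mul C
      simpa using h2
    have hev := ht.eventually (gt_mem_nhds hf0)
    rw [Filter.eventually_atTop] at hev
    obtain ⟨n₁, hn₁⟩ := hev
    refine ⟨max 1 n₁, fun m hMm => ?_⟩
    have hm1' : 1 ≤ m := (le_max_left _ _).trans hMm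
    have hmp : (0 : ℝ) < m := by exact_mod_cast (by omega : 0 < m)
    have h1 := em_pow hC.le hE m hm1'
    have h2 : f m ≤ C * ((m : ℝ) ^ (-(1 / 20) : ℝ)) := by
      simp only [hf]
      rw [div_le_iff₀ (Real.rpow_pos_of_pos hmp _), mul_assoc, ← Real.rpow_add hmp]
      refine h1.trans (le_of_eq ?_)
      norm_num
    exact h2.trans_lt (hn₁ m ((le_max_right _ _).trans hMm))
  obtain ⟨N, hN, hNmax⟩ := Finset.exists_max_image (Icc n₀ (max n₀ M)) f ⟨n₀, by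
    rw [Finset.mem_Icc]; exact ⟨le_refl _, le_max_left _ _⟩⟩
  rw [Finset.mem_Icc] at hN
  have hNp : (0 : ℝ) < N := by exact_mod_cast (by omega : 0 < N)
  refine ⟨n₀, N, hn₀.1, hn₀.2, hN.1, hem0, fun m h1 h2 => hmax m (by
    rw [Finset.mem_Icc]; exact ⟨h1, h2⟩), fun m hm' => ?_⟩
  have hmp : (0 : ℝ) < m := by exact_mod_cast (by omega : 0 < m)
  have hle : f m ≤ f N := by
    rcases le_or_gt m (max n₀ M) with h | h
    · exact hNmax m (by rw [Finset.mem_Icc]; exact ⟨hm', h⟩)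
    · have h1 : f m < f n₀ := hM m (le_of_lt (lt_of_le_of_lt (le_max_right _ _) h))
      have h2 : f n₀ ≤ f N := hNmax n₀ (by
        rw [Finset.mem_Icc]; exact ⟨le_refl _, le_max_left _ _⟩)
      linarith
  simp only [hf] at hle
  rw [div_le_div_iff₀ (Real.rpow_pos_of_pos hmp _) (Real.rpow_pos_of_pos hNp _)] at hle
  exact hle

/-- tangent of the power 3/4 -/
theorem tang {y : ℝ} (hy : 0 ≤ y) : y ^ (3 / 4 : ℝ) ≤ 1331 / 4000 + 15 / 22 * y := by
  have h1 := rpow_one_add_le_one_add_mul_self (s := y / (14641 / 10000) - 1) (p := 3 / 4)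
    (by have : 0 ≤ y / (14641 / 10000) := by positivity
        linarith) (by norm_num) (by norm_num)
  have h2 : (1 : ℝ) + (y / (14641 / 10000) - 1) = y / (14641 / 10000) := by ring
  rw [h2, Real.div_rpow hy (by norm_num)] at h1
  have h3 : (14641 / 10000 : ℝ) ^ (3 / 4 : ℝ) = 1331 / 1000 := by
    rw [show (14641 / 10000 : ℝ) = (11 / 10 : ℝ) ^ (4 : ℝ) by norm_num,
      ← Real.rpow_mul (by norm_num), show (4 : ℝ) * (3 / 4) = (3 : ℕ) by norm_num,
      Real.rpow_natCast]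
    norm_num
  rw [h3, div_le_iff₀ (by norm_num)] at h1
  refine h1.trans (le_of_eq ?_)
  ring

theorem dbl (E : ℕ → ℝ) (a N : ℕ) : ∑ b ∈ Icc 1 N, E (a + b) = S E (a + N) - S E a := by
  induction N with
  | zero => simp
  | succ k ih =>
    rw [Finset.sum_Icc_succ_top (by omega), ih, ← add_assoc, S_succ]
    ring

theorem S_low (hNe : ∀ N : ℕ, 1 ≤ N → S E N = em E N * N) {N : ℕ} (hN : 1 ≤ N)
    (h2 : ∀ t ≤ N, E t ≤ 2 * em E N) :
    ∀ j : ℕ, j ≤ N → em E N * N - 2 * em E N * j ≤ S E (N - j) := by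
  intro j
  induction j with
  | zero =>
    intro _
    rw [Nat.sub_zero, hNe N hN]
    simp
  | succ k ih =>
    intro hk
    have h3 := ih (by omega)
    have h4 : N - k = (N - (k + 1)) + 1 := by omega
    rw [h4, S_succ] at h3
    have h5 := h2 ((N - (k + 1)) + 1) (by omega)
    push_cast
    linarith

theorem sum_low (x e : ℝ) (h : ℕ) : ∑ j ∈ range (h + 1), (x - 2 * e * (j : ℝ)) =
    (h + 1) * x - e * h * (h + 1) := by
  induction h with
  | zero => simp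
  | succ k ih =>
    rw [Finset.sum_range_succ, ih]
    push_cast
    ring

theorem sum_S (hn : ∀ n, 0 ≤ E n) {N : ℕ} (hN : 1 ≤ N) (he : 0 ≤ em E N)
    (h2 : ∀ t ≤ N, E t ≤ 2 * em E N) :
    (N : ℝ) ^ 2 / 4 * em E N ≤ ∑ a ∈ Icc 1 N, S E a := by
  set h := N / 2 with hh
  have a1 : 2 * h ≤ N := by omega
  have a2 : N ≤ 2 * h + 1 := by omega
  have b1 : 2 * (h : ℝ) ≤ N := by exact_mod_cast a1
  have b2 : (N : ℝ) ≤ 2 * h + 1 := by exact_mod_cast a2
  have hS : ∑ j ∈ range (h + 1), S E (N - j) ≤ ∑ a ∈ Icc 1 N, S E a := by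
    have e1 : ∑ j ∈ range (h + 1), S E (N - j) =
        ∑ a ∈ (range (h + 1)).image (fun j => N - j), S E a := by
      rw [Finset.sum_image]
      intro i hi j hj hij
      have hi' := Finset.mem_range.1 hi
      have hj' := Finset.mem_range.1 hj
      simp only at hij
      omega
    rw [e1]
    refine Finset.sum_le_sum_of_subset_of_nonneg ?_ fun i _ _ => S_nonneg hn i
    intro a ha
    obtain ⟨j, hj, rfl⟩ := Finset.mem_image.1 ha
    have hj' := Finset.mem_range.1 hj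
    rw [Finset.mem_Icc]
    omega
  have hL : ∑ j ∈ range (h + 1), (em E N * N - 2 * em E N * (j : ℝ)) ≤
      ∑ j ∈ range (h + 1), S E (N - j) := by
    refine Finset.sum_le_sum fun j hj => ?_
    have hj' := Finset.mem_range.1 hj
    exact S_low S_eq hN h2 j (by omega)
  rw [sum_low] at hL
  have key : (N : ℝ) ^ 2 / 4 ≤ (h + 1) * N - h * (h + 1) := by nlinarith
  calc (N : ℝ) ^ 2 / 4 * em E N ≤ ((h + 1) * N - h * (h + 1)) * em E N :=
        mul_le_mul_of_nonneg_right key he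
    _ = (h + 1) * (em E N * N) - em E N * h * (h + 1) := by ring
    _ ≤ _ := hL.trans hS

/-- the arithmetic sum -/
theorem kernel {N : ℕ} (hN : 1000 ≤ N) :
    ∑ a ∈ Icc 1 N, ((a : ℝ) + N) * (1331 / 4000 + 15 / 22 * (((a : ℝ) + N) / N)) ≤
      (2095 / 1000) * (N : ℝ) ^ 2 := by
  have hNp : (0 : ℝ) < N := by exact_mod_cast (by omega : 0 < N)
  have hN' : (1000 : ℝ) ≤ N := by exact_mod_cast hN
  have h1 : ∀ a : ℕ, ((a : ℝ) + N) * (1331 / 4000 + 15 / 22 * (((a : ℝ) + N) / N)) =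
      (15 / 22) * ((a : ℝ) ^ 2 / N) + (1331 / 4000 + 2 * (15 / 22)) * a +
        (1331 / 4000 + 15 / 22) * N := by
    intro a
    field_simp
    ring
  rw [Finset.sum_congr rfl fun a _ => h1 a, Finset.sum_add_distrib, Finset.sum_add_distrib,
    ← Finset.mul_sum, ← Finset.mul_sum, ← Finset.sum_div, sum_id, sum_sq,
    Finset.sum_const, Nat.card_Icc, nsmul_eq_mul]
  have h2 : (N : ℝ) * (N + 1) * (2 * N + 1) / 6 / N = (N + 1) * (2 * N + 1) / 6 := by
    field_simp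
  rw [h2]
  have h3 : ((N + 1 - 1 : ℕ) : ℝ) = N := by simp
  rw [h3]
  nlinarith

/-- the double sum -/
theorem double37 (hn : ∀ n, 0 ≤ E n) {N : ℕ} (hN : 1000 ≤ N)
    (hb : ∀ m, N ≤ m → em E m * (N : ℝ) ^ (3 / 4 : ℝ) ≤ em E N * (m : ℝ) ^ (3 / 4 : ℝ))
    (h2 : ∀ t ≤ N, E t ≤ 2 * em E N) :
    ∑ a ∈ Icc 1 N, ∑ b ∈ Icc 1 N, E (a + b) ≤ (185 / 100) * (N : ℝ) ^ 2 * em E N := by
  have hNp : (0 : ℝ) < N := by exact_mod_cast (by omega : 0 < N)
  have he := em_nonneg hn N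
  have h3 : ∑ a ∈ Icc 1 N, S E (a + N) ≤ (2095 / 1000) * (N : ℝ) ^ 2 * em E N := by
    calc ∑ a ∈ Icc 1 N, S E (a + N)
        ≤ ∑ a ∈ Icc 1 N, ((a : ℝ) + N) * (1331 / 4000 + 15 / 22 * (((a : ℝ) + N) / N)) *
            em E N := by
          refine Finset.sum_le_sum fun a _ => ?_
          have g3 : S E (a + N) = em E (a + N) * ((a + N : ℕ) : ℝ) := S_eq _ (by omega)
          have g4 := hb (a + N) (by omega)
          set y : ℝ := ((a : ℝ) + N) / N with hy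
          have hyp : 0 ≤ y := by positivity
          have hcast : ((a + N : ℕ) : ℝ) = y * N := by
            rw [hy]
            push_cast
            field_simp
          rw [hcast, Real.mul_rpow hyp hNp.le, ← mul_assoc] at g4
          have g5 : em E (a + N) ≤ em E N * y ^ (3 / 4 : ℝ) :=
            le_of_mul_le_mul_right g4 (Real.rpow_pos_of_pos hNp _)
          have g6 : em E (a + N) ≤ em E N * (1331 / 4000 + 15 / 22 * y) :=
            g5.trans (mul_le_mul_of_nonneg_left (tang hyp) he)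
          rw [g3, hcast]
          have g7 : y * N = (a : ℝ) + N := by
            rw [hy]
            field_simp
          rw [g7]
          have g8 : (0 : ℝ) ≤ (a : ℝ) + N := by positivity
          calc em E (a + N) * ((a : ℝ) + N) ≤ em E N * (1331 / 4000 + 15 / 22 * y) * ((a : ℝ) + N) :=
                mul_le_mul_of_nonneg_right g6 g8
            _ = _ := by ring
      _ = (∑ a ∈ Icc 1 N, ((a : ℝ) + N) * (1331 / 4000 + 15 / 22 * (((a : ℝ) + N) / N))) *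
            em E N := by rw [Finset.sum_mul]
      _ ≤ _ := mul_le_mul_of_nonneg_right (kernel hN) he
  have h4 := sum_S hn (by omega : 1 ≤ N) he h2
  have h5 : ∑ a ∈ Icc 1 N, ∑ b ∈ Icc 1 N, E (a + b) =
      ∑ a ∈ Icc 1 N, S E (a + N) - ∑ a ∈ Icc 1 N, S E a := by
    rw [← Finset.sum_sub_distrib]
    exact Finset.sum_congr rfl fun a _ => dbl E a N
  rw [h5]
  have h6 : 0 ≤ (N : ℝ) ^ 2 * em E N := by positivity
  linarith

/-- the pairs -/
theorem pairs37 (hn : ∀ n, 0 ≤ E n) {N : ℕ} (hN : 1000 ≤ N) (hpos : 0 < em E N)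
    (hb : ∀ m, N ≤ m → em E m * (N : ℝ) ^ (3 / 4 : ℝ) ≤ em E N * (m : ℝ) ^ (3 / 4 : ℝ))
    (h2 : ∀ t ≤ N, E t ≤ 2 * em E N) :
    (N : ℝ) ^ 2 / 32 ≤ ((((Icc 1 N) ×ˢ (Icc 1 N)).filter
      (fun p : ℕ × ℕ => em E N / 40 ≤ E p.1 + E p.2 - E (p.1 + p.2))).card : ℝ) := by
  have hNp : (0 : ℝ) < N := by exact_mod_cast (by omega : 0 < N)
  set e := em E N with he
  set Q := (Icc 1 N) ×ˢ (Icc 1 N) with hQ
  set g : ℕ × ℕ → ℝ := fun p => E p.1 + E p.2 - E (p.1 + p.2) with hg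
  have hQc : (Q.card : ℝ) = (N : ℝ) ^ 2 := by
    rw [hQ, Finset.card_product, Nat.card_Icc, Nat.add_sub_cancel]
    push_cast
    ring
  have hlow : (15 / 100) * (N : ℝ) ^ 2 * e ≤ ∑ p ∈ Q, g p := by
    have h3 := double37 hn hN hb h2
    have h4 : ∑ p ∈ Q, g p = ∑ a ∈ Icc 1 N, ∑ b ∈ Icc 1 N, (E a + E b - E (a + b)) := by
      rw [hQ, Finset.sum_product]
    have h5 : ∑ a ∈ Icc 1 N, ∑ b ∈ Icc 1 N, (E a + E b - E (a + b)) =
        2 * N * S E N - ∑ a ∈ Icc 1 N, ∑ b ∈ Icc 1 N, E (a + b) := by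
      simp only [Finset.sum_sub_distrib, Finset.sum_add_distrib, Finset.sum_const, Nat.card_Icc,
        nsmul_eq_mul, ← Finset.mul_sum]
      unfold S
      have : ((N + 1 - 1 : ℕ) : ℝ) = N := by simp
      rw [this]
      ring
    have h6 : S E N = e * N := S_eq N (by omega)
    rw [h4, h5, h6]
    nlinarith
  have hup : ∑ p ∈ Q, g p ≤ (Q.filter (fun p => e / 40 ≤ g p)).card * (4 * e) +
      (N : ℝ) ^ 2 * (e / 40) := by
    have h3 : ∀ p ∈ Q, g p ≤ (if e / 40 ≤ g p then 4 * e else 0) + e / 40 := by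
      intro p hp
      rw [hQ, Finset.mem_product, Finset.mem_Icc, Finset.mem_Icc] at hp
      split_ifs with h
      · have h4 := h2 p.1 hp.1.2
        have h5 := h2 p.2 hp.2.2
        have h6 := hn (p.1 + p.2)
        simp only [hg]
        linarith
      · push Not at h
        linarith
    refine (Finset.sum_le_sum h3).trans ?_
    rw [Finset.sum_add_distrib, Finset.sum_const, nsmul_eq_mul, hQc, ← Finset.sum_filter,
      Finset.sum_const, nsmul_eq_mul]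
  have h8 : ((N : ℝ) ^ 2 / 32) * (4 * e) ≤
      ((Q.filter (fun p => e / 40 ≤ g p)).card : ℝ) * (4 * e) := by
    linarith
  exact le_of_mul_le_mul_right h8 (by positivity)

/-- pigeonhole -/
theorem pigeon37 (hn : ∀ n, 0 ≤ E n) {N : ℕ} (hN : 1000 ≤ N) (hpos : 0 < em E N)
    (hb : ∀ m, N ≤ m → em E m * (N : ℝ) ^ (3 / 4 : ℝ) ≤ em E N * (m : ℝ) ^ (3 / 4 : ℝ))
    (h2 : ∀ t ≤ N, E t ≤ 2 * em E N) :
    ∃ L ≤ 2 * N, (N : ℝ) / 100 ≤
      (((Icc 1 N).filter (fun t : ℕ => (N : ℝ) / 1000 ≤ t ∧ t ≤ L ∧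
        (N : ℝ) / 1000 ≤ ((L - t : ℕ) : ℝ) ∧ L - t ≤ N ∧
        em E N / 40 ≤ E t + E (L - t) - E L)).card : ℝ) := by
  classical
  have hNp : (0 : ℝ) < N := by exact_mod_cast (by omega : 0 < N)
  have hpairs := pairs37 hn hN hpos hb h2
  set e := em E N with he
  set Q := (Icc 1 N) ×ˢ (Icc 1 N) with hQ
  set P := Q.filter (fun p : ℕ × ℕ => e / 40 ≤ E p.1 + E p.2 - E (p.1 + p.2)) with hP
  set P' := P.filter (fun p : ℕ × ℕ => (N : ℝ) / 1000 ≤ (p.1 : ℝ) ∧ (N : ℝ) / 1000 ≤ (p.2 : ℝ))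
    with hP'
  set F := (Icc 1 N).filter (fun a : ℕ => (a : ℝ) < (N : ℝ) / 1000) with hF
  have hsub : P ⊆ P' ∪ (F ×ˢ (Icc 1 N) ∪ (Icc 1 N) ×ˢ F) := by
    intro p hp
    have hp2 := hp
    rw [hP, Finset.mem_filter, hQ, Finset.mem_product] at hp2
    rw [Finset.mem_union, Finset.mem_union, Finset.mem_product, Finset.mem_product]
    by_cases h3 : (N : ℝ) / 1000 ≤ (p.1 : ℝ)
    · by_cases h4 : (N : ℝ) / 1000 ≤ (p.2 : ℝ)
      · left
        rw [hP', Finset.mem_filter]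
        exact ⟨hp, h3, h4⟩
      · right; right
        push Not at h4
        exact ⟨hp2.1.1, by rw [hF, Finset.mem_filter]; exact ⟨hp2.1.2, h4⟩⟩
    · right; left
      push Not at h3
      exact ⟨by rw [hF, Finset.mem_filter]; exact ⟨hp2.1.1, h3⟩, hp2.1.2⟩
  have hcard : (P.card : ℝ) ≤ P'.card + ((F.card : ℝ) * N + N * F.card) := by
    have h3 := (Finset.card_le_card hsub).trans (Finset.card_union_le _ _)
    have h4 := Finset.card_union_le (F ×ˢ (Icc 1 N)) ((Icc 1 N) ×ˢ F)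
    rw [Finset.card_product, Finset.card_product, Nat.card_Icc, Nat.add_sub_cancel] at h4
    have h5 : P.card ≤ P'.card + (F.card * N + N * F.card) := by omega
    exact_mod_cast h5
  have hFc : (F.card : ℝ) ≤ (N : ℝ) / 1000 := few
  have hP'c : (2 / 100) * (N : ℝ) ^ 2 ≤ (P'.card : ℝ) := by
    have h3 : (F.card : ℝ) * N ≤ (N : ℝ) / 1000 * N := mul_le_mul_of_nonneg_right hFc hNp.le
    nlinarith
  have hmaps : ∀ p ∈ P', p.1 + p.2 ∈ Icc 1 (2 * N) := by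
    intro p hp
    rw [hP', Finset.mem_filter, hP, Finset.mem_filter, hQ, Finset.mem_product,
      Finset.mem_Icc, Finset.mem_Icc] at hp
    rw [Finset.mem_Icc]
    omega
  have hne : (Icc 1 (2 * N)).Nonempty := ⟨1, by rw [Finset.mem_Icc]; omega⟩
  obtain ⟨L, hL, hLc⟩ := Finset.exists_le_card_fiber_of_nsmul_le_card_of_maps_to
    (M := ℝ) (b := (N : ℝ) / 100) hmaps hne (by
      rw [Nat.card_Icc, Nat.add_sub_cancel, nsmul_eq_mul]
      push_cast
      nlinarith)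
  rw [Finset.mem_Icc] at hL
  refine ⟨L, hL.2, hLc.trans ?_⟩
  have hinj : (P'.filter (fun p : ℕ × ℕ => p.1 + p.2 = L)).card ≤
      ((Icc 1 N).filter (fun t : ℕ => (N : ℝ) / 1000 ≤ t ∧ t ≤ L ∧
        (N : ℝ) / 1000 ≤ ((L - t : ℕ) : ℝ) ∧ L - t ≤ N ∧
        e / 40 ≤ E t + E (L - t) - E L)).card := by
    refine Finset.card_le_card_of_injOn Prod.fst ?_ ?_
    · intro p hp
      rw [Finset.mem_coe, Finset.mem_filter, hP', Finset.mem_filter, hP, Finset.mem_filter, hQ,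
        Finset.mem_product, Finset.mem_Icc, Finset.mem_Icc] at hp
      obtain ⟨⟨⟨⟨h3, h4⟩, h5⟩, h6, h7⟩, h8⟩ := hp
      have h9 : L - p.1 = p.2 := by omega
      rw [Finset.mem_coe, Finset.mem_filter, Finset.mem_Icc]
      refine ⟨h3, h6, by omega, ?_, by omega, ?_⟩
      · rw [h9]; exact h7
      · rw [h9, ← h8]; exact h5
    · intro p hp q hq hpq
      rw [Finset.mem_coe, Finset.mem_filter] at hp hq
      have h3 := hp.2
      have h4 := hq.2
      ext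
      · exact hpq
      · omega
  exact_mod_cast hinj

end Pool.Agent.W_7d29a1_SQ.S37

namespace Pool.Agent.W_7d29a1_SQ

open S37 Pool.Agent.W_7d29a1_SP.Seq69

/-- **Leaf SEQ**. -/
theorem seq37 : SeqQ := by
  refine ⟨1000, fun E C h0 hn hs hC n k hk hpos => ?_⟩
  obtain ⟨n₀, N, h1, h2, h3, h4, h5, h6⟩ := scale37 h0 hn hs hC hk hpos
  have hNp : (0 : ℝ) < N := by exact_mod_cast (by omega : 0 < N)
  have hn₀p : (0 : ℝ) < n₀ := by exact_mod_cast (by omega : 0 < n₀)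
  have hN1 : 1 ≤ N := by omega
  have hNn : (n₀ : ℝ) ≤ N := by exact_mod_cast h3
  have hnn : (n₀ : ℝ) ≤ n := by exact_mod_cast h2
  have he0 := em_nonneg hn N
  have hNq : 0 < (N : ℝ) ^ (3 / 4 : ℝ) := Real.rpow_pos_of_pos hNp _
  have hpw : ∀ m : ℕ, m ≤ N → (m : ℝ) ^ (3 / 4 : ℝ) ≤ (N : ℝ) ^ (3 / 4 : ℝ) := fun m hm =>
    Real.rpow_le_rpow (Nat.cast_nonneg _) (by exact_mod_cast hm) (by norm_num)
  have h8 : ∀ m, n₀ ≤ m → m ≤ N → em E m ≤ em E N := fun m hm hmN => by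
    have h9 := (h6 m hm).trans (mul_le_mul_of_nonneg_left (hpw m hmN) he0)
    exact le_of_mul_le_mul_right h9 hNq
  have h80 := h8 n₀ le_rfl h3
  have hep : 0 < em E N := h4.trans_le h80
  have h9 : ∀ m, 1 ≤ m → m ≤ N → em E m ≤ em E N := fun m hm1 hmN => by
    rcases le_or_gt m n₀ with h | h
    · exact (h5 m hm1 (h.trans h2)).trans h80
    · exact h8 m h.le hmN
  have h10 : ∀ t ≤ N, E t ≤ 2 * em E N := fun t ht => by
    rcases Nat.eq_zero_or_pos t with h | h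
    · rw [h, h0]; positivity
    · have := le_two_em h0 hn hs t h
      have := h9 t h ht
      linarith
  have h11 : E k ≤ 2 * em E n₀ := by
    rcases Nat.eq_zero_or_pos k with h | h
    · rw [h, h0]; positivity
    · have := le_two_em h0 hn hs k h
      have := h5 k h hk
      linarith
  refine ⟨N, em E N, hN1, hep, h10, ?_, h11.trans (by linarith), ?_, fun hN => ?_⟩
  · have hsum : ∑ _t ∈ Icc 1 N, em E N ≤ ∑ t ∈ Icc 1 N, E t := by
      rw [Finset.sum_const, Nat.card_Icc, Nat.add_sub_cancel, nsmul_eq_mul]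
      apply le_of_eq
      unfold W_7d29a1_SP.Seq69.em S
      field_simp
    obtain ⟨t, ht, hle⟩ := Finset.exists_le_of_sum_le
      ⟨1, by rw [Finset.mem_Icc]; exact ⟨le_refl _, hN1⟩⟩ hsum
    exact ⟨t, (Finset.mem_Icc.mp ht).2, hle⟩
  · have h12 := h6 n₀ le_rfl
    have h13 : (n₀ : ℝ) ^ (3 / 4 : ℝ) ≤ (n : ℝ) ^ (3 / 4 : ℝ) :=
      Real.rpow_le_rpow hn₀p.le hnn (by norm_num)
    calc (N : ℝ) ^ (3 / 4 : ℝ) * E k ≤ (N : ℝ) ^ (3 / 4 : ℝ) * (2 * em E n₀) :=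
          mul_le_mul_of_nonneg_left h11 hNq.le
      _ = 2 * (em E n₀ * (N : ℝ) ^ (3 / 4 : ℝ)) := by ring
      _ ≤ 2 * (em E N * (n₀ : ℝ) ^ (3 / 4 : ℝ)) := by linarith
      _ ≤ 2 * (em E N * (n : ℝ) ^ (3 / 4 : ℝ)) := by
          have := mul_le_mul_of_nonneg_left h13 he0
          linarith
      _ = _ := by ring
  · obtain ⟨L, hL, hc⟩ := pigeon37 hn hN hep (fun m hm' => h6 m (h3.trans hm')) h10
    refine ⟨L, _, hL, hc, fun t ht => ?_⟩
    rw [Finset.mem_filter, Finset.mem_Icc] at ht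
    obtain ⟨⟨-, g9⟩, g10, g11, g12, g13, g14⟩ := ht
    exact ⟨g11, g10, g9, g12, g13, g14⟩

end Pool.Agent.W_7d29a1_SQ
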