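import Pool.Agent.W_7d29a1_SQ.DefsSQ
import Pool.Agent.W_7d29a1_UC.Inf43

/-!
Theorem SQ, leaf UNB: the fluctuations are unbounded.
-/

namespace Pool.Agent.W_7d29a1_SQ

open MeasureTheory ProbabilityTheory Filter Topology Pool.Agent.W_MP_7d29a1_pr
  Pool.Agent.W_7d29a1_h46 Pool.Agent.W_7d29a1_h46u Pool.Agent.W_7d29a1_D2.B35
  Pool.Agent.W_7d29a1_Q29 Pool.Agent.W_7d29a1_R34 Pool.Agent.W_7d29a1_SP Pool.Agent.W_7d29a1_SD

variable {d : ℕ} {ρ : Measure ℝ} {β : ℝ}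

/-- **Leaf UNB.** -/
theorem unb66 [IsProbabilityMeasure ρ] (hd : 0 < d) (hρ : EM ρ) (hnc : ∀ c : ℝ, ρ {c} ≠ 1)
    (hβ : 0 < β) : UnbP d ρ β := by
  intro h hV
  have h1 := W_7d29a1_UC.inf43 (d := d) hd hρ hnc hβ h hV
  obtain ⟨e, he⟩ : ∃ e : ℝ, e = En ρ β h 0 := ⟨_, rfl⟩
  refine tendsto_atTop_mono (fun n => ?_) (tendsto_atTop_add_const_left _ (1 + e) h1)
  have h2 : e ≤ (Finset.range (n + 1)).sup' ⟨0, by simp⟩ (En ρ β h) := by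
    rw [he]
    exact Finset.le_sup' (En ρ β h) (by simp)
  have h3 : Fn ρ β h n ≤ (Finset.range (n + 1)).sup' ⟨0, by simp⟩ (Fn ρ β h) :=
    Finset.le_sup' (Fn ρ β h) (by simp)
  unfold Ps
  linarith

end Pool.Agent.W_7d29a1_SQ
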