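import Pool.Agent.W_7d29a1_SQ.Top32
import Pool.Agent.W_7d29a1_SQ.LmP96
import Pool.Agent.W_7d29a1_SQ.Gro78
import Pool.Agent.W_7d29a1_SQ.BalP62
import Pool.Agent.W_7d29a1_SQ.Tai94
import Pool.Agent.W_7d29a1_SQ.Flu78
import Pool.Agent.W_7d29a1_SQ.SelQ67
import Pool.Agent.W_7d29a1_SQ.Seq37
import Pool.Agent.W_7d29a1_SQ.Rec75
import Pool.Agent.W_7d29a1_SQ.Ehl84
import Pool.Agent.W_7d29a1_SQ.Lkt93
import Pool.Agent.W_7d29a1_SQ.Npt64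
import Pool.Agent.W_7d29a1_SQ.Pri74
import Pool.Agent.W_7d29a1_SQ.Unb66
import Pool.Agent.W_7d29a1_SQ.Fin24
import Pool.Agent.W_7d29a1_SQ.SscF35
import Pool.Agent.W_7d29a1_SP.Cnt79
import Pool.Agent.W_7d29a1_SP.Amp84
import Pool.Agent.W_7d29a1_SP.Grow78
import Pool.Agent.W_7d29a1_Q29.Loc42

/-!
THEOREM SQ: assembly.
-/

namespace Pool.Agent.W_7d29a1_SQ

open MeasureTheory ProbabilityTheory Filter Topology Pool.Agent.W_MP_7d29a1_pr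
  Pool.Agent.W_7d29a1_h46 Pool.Agent.W_7d29a1_h46u Pool.Agent.W_7d29a1_D2.B35
  Pool.Agent.W_7d29a1_Q29 Pool.Agent.W_7d29a1_R34 Pool.Agent.W_7d29a1_SP Pool.Agent.W_7d29a1_SD

variable {ρ : Measure ℝ} {β : ℝ}

/-- THEOREM SQ from the amplification and the lower tail. -/
theorem finSQ32 [IsProbabilityMeasure ρ] (hρ : EM ρ) (hnc : ∀ c : ℝ, ρ {c} ≠ 1) (hβ : 0 < β)
    (hA : AmpP 2 ρ β) (hE : EhlP 2 ρ β) : MainSQ ρ β := by
  have hd : 0 < 2 := by norm_num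
  have hC : CntP 2 ρ β := cnt79 hd hρ β
  have hT : TaiP 2 ρ β := tai94 hC
  have hB : BalP 2 ρ β := balP62 hd hρ hT hE
  have hP : PriP 2 ρ β := pri74 hd hρ β
  exact top32 (selQ67 hρ) (lmP96 hρ (flu78 hd hρ hT) seq37 (lkt93 hρ hβ (npt64 hd hρ hnc hβ)) hP)
    (gro78 hB (grow78 hC hA)) (recF75 hρ hB hA (sscF35 hd hρ β) hP) fin24 hP
    (unb66 hd hρ hnc hβ) (Csy42.loc42 hd hρ β)

/-- **THEOREM SQ** (`d = 2`, the disorder has the law of a convex function of a Gaussian variable). -/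
theorem mainSQ32 [IsProbabilityMeasure ρ] (hG : GC ρ) (hρ : EM ρ) (hnc : ∀ c : ℝ, ρ {c} ≠ 1)
    (hβ : 0 < β) : MainSQ ρ β :=
  finSQ32 hρ hnc hβ (amp84 (by norm_num) hG hβ.le) (ehl84 (by norm_num) hG hβ.le)

end Pool.Agent.W_7d29a1_SQ
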