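import Pool.Agent.W_7d29a1_SQ.SelG67

/-!
The data of a point with powers (helper67): the analogue of leaf SEL of theorem SQ with
`Q n ^ ε` in the place of `Q exp (c √(log n))`, every dimension.
-/

set_option autoImplicit false

namespace Pool.Agent.W_7d29a1_SQ

open MeasureTheory ProbabilityTheory Filter Topology Pool.Agent.W_MP_7d29a1_pr
  Pool.Agent.W_7d29a1_h46 Pool.Agent.W_7d29a1_h46u Pool.Agent.W_7d29a1_D2.B35
  Pool.Agent.W_7d29a1_Q29 Pool.Agent.W_7d29a1_R34 Pool.Agent.W_7d29a1_SP Pool.Agent.W_7d29a1_SD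

/-- `Q n ^ ε`. -/
noncomputable def kpw (Q ε : ℝ) (n : ℕ) : ℝ := Q * (n : ℝ) ^ ε

/-- The data of a point, with powers. -/
structure DatP {d : ℕ} (ρ : Measure ℝ) (β : ℝ) (h v : Vec d) (κ Q ε : ℝ) : Prop where
  slo : ∀ u : Vec d, lam ρ β h + inner ℝ v u ≤ lam ρ β (h + u)
  tub : ∀ᶠ L : ℕ in atTop, Tb ρ β h v (kpw Q ε L) L ≤ 1 / Q
  rs : ∀ j : ℕ, ((j : ℝ) + 1) * ε < 1 / 2 → ∀ᶠ L : ℕ in atTop,
    RS ρ β h L ⌊κ * L⌋₊ (kpw Q ε L ^ (2 * j + 3)) (10 / kpw Q ε L ^ j)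

variable {d : ℕ} {ρ : Measure ℝ} [IsProbabilityMeasure ρ] {β : ℝ}

/-- The selection, with powers. -/
theorem selP67 (hd : 0 < d) (hρ : EM ρ) : ∀ᵐ v : Vec d, ∀ h : Vec d,
    (∀ c : ℝ, 0 < c → ∀ᶠ n : ℕ in atTop, ∀ R : ℝ, 1 ≤ R →
      R * Tb ρ β h v R n ≤ (n : ℝ) ^ c) →
    ∀ κ Q ε : ℝ, 0 < κ → κ ≤ 1 → 1 ≤ Q → 0 < ε → DatP ρ β h v κ Q ε := by
  filter_upwards [pairP67 (ρ := ρ) (β := β) hd hρ] with v hv h hneg κ Q ε hκ hκ1 hQ hε
  obtain ⟨h1, H⟩ := hv h hneg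
  have hQ0 : 0 < Q := by linarith
  refine ⟨h1, ?_, fun j hj => ?_⟩
  · filter_upwards [hneg ε hε, eventually_ge_atTop 1] with L hL hL1
    have hL0 : (1 : ℝ) ≤ L := by exact_mod_cast hL1
    have hp1 : 1 ≤ (L : ℝ) ^ ε := Real.one_le_rpow hL0 hε.le
    have hk1 : 1 ≤ kpw Q ε L := by
      unfold kpw
      nlinarith
    have h2 := hL (kpw Q ε L) hk1
    have h3 : (L : ℝ) ^ ε * (Q * Tb ρ β h v (kpw Q ε L) L) ≤ (L : ℝ) ^ ε * 1 := by
      rw [mul_one]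
      refine le_trans (le_of_eq ?_) h2
      change (L : ℝ) ^ ε * (Q * Tb ρ β h v (kpw Q ε L) L) =
        (Q * (L : ℝ) ^ ε) * Tb ρ β h v (kpw Q ε L) L
      ring
    have h4 := le_of_mul_le_mul_left h3 (by linarith)
    rw [le_div_iff₀ hQ0, mul_comm]
    exact h4
  · have hj0 : (0 : ℝ) ≤ j := Nat.cast_nonneg j
    have hjε : 0 ≤ (j : ℝ) * ε := by positivity
    have h2 := H (ε / 4) (j * ε + ε / 4) κ (by positivity) (by positivity) (by linarith) hκ hκ1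
    have h3 : ∀ᶠ L : ℕ in atTop, Q ^ j ≤ (L : ℝ) ^ (ε / 4) :=
      ((tendsto_rpow_atTop (by positivity)).comp
        (tendsto_natCast_atTop_atTop (R := ℝ))).eventually_ge_atTop _
    filter_upwards [h2, h3, eventually_ge_atTop 1] with L h4 h5 hL1
    have hL0 : (1 : ℝ) ≤ L := by exact_mod_cast hL1
    have hLp : (0 : ℝ) < L := by linarith
    have hp1 : 1 ≤ (L : ℝ) ^ ε := Real.one_le_rpow hL0 hε.le
    have hkp : (L : ℝ) ^ ε ≤ kpw Q ε L := by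
      unfold kpw
      nlinarith
    have hk1 : 1 ≤ kpw Q ε L := hp1.trans hkp
    have hk0 : 0 < kpw Q ε L := by linarith
    -- the probability
    have e1 : 10 * (L : ℝ) ^ (-(j * ε + ε / 4)) ≤ 10 / kpw Q ε L ^ j := by
      have q1 : kpw Q ε L ^ j = Q ^ j * (L : ℝ) ^ (j * ε) := by
        unfold kpw
        rw [mul_pow, ← Real.rpow_natCast ((L : ℝ) ^ ε) j, ← Real.rpow_mul hLp.le,
          mul_comm ε]
      have q2 : 0 < (L : ℝ) ^ (j * ε) := Real.rpow_pos_of_pos hLp _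
      have q3 : 0 < (L : ℝ) ^ (ε / 4) := Real.rpow_pos_of_pos hLp _
      have q4 : (L : ℝ) ^ (-(j * ε + ε / 4)) = 1 / ((L : ℝ) ^ (ε / 4) * (L : ℝ) ^ (j * ε)) := by
        rw [← Real.rpow_add hLp, Real.rpow_neg hLp.le, one_div]
        congr 2
        ring
      rw [q4, q1, ← mul_one_div 10 (Q ^ j * (L : ℝ) ^ (j * ε))]
      refine mul_le_mul_of_nonneg_left ?_ (by norm_num)
      exact one_div_le_one_div_of_le (by positivity) (mul_le_mul_of_nonneg_right h5 q2.le)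
    -- the gain
    have e2 : (L : ℝ) ^ (2 * (j * ε + ε / 4) + 2 * (ε / 4)) ≤ kpw Q ε L ^ (2 * j + 3) := by
      have q1 : (L : ℝ) ^ (2 * (j * ε + ε / 4) + 2 * (ε / 4)) = ((L : ℝ) ^ ε) ^ (2 * j + 1) := by
        rw [← Real.rpow_natCast ((L : ℝ) ^ ε) (2 * j + 1), ← Real.rpow_mul hLp.le]
        congr 1
        push_cast
        ring
      rw [q1]
      refine (pow_le_pow_left₀ (by positivity) hkp _).trans ?_
      exact pow_le_pow_right₀ hk1 (by omega)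
    refine RS_mono_left67 e2 ?_
    exact RS_mono e1 h4

end Pool.Agent.W_7d29a1_SQ
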