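import Pool.Agent.W_7d29a1_SQ.DefsSQ
import Pool.Agent.W_7d29a1_SP.Bas15

/-!
Leaf FLU: a large random fluctuation at a right record is seen with a fixed probability.
-/

namespace Pool.Agent.W_7d29a1_SQ.F18

open MeasureTheory ProbabilityTheory Filter Topology Pool.Agent.W_MP_7d29a1_pr
  Pool.Agent.W_7d29a1_h46 Pool.Agent.W_7d29a1_h46u Pool.Agent.W_7d29a1_D2.B35
  Pool.Agent.W_7d29a1_Q29 Pool.Agent.W_7d29a1_R34 Pool.Agent.W_7d29a1_SP Pool.Agent.W_7d29a1_SD

/-- A tail of the order `3 / 2` controls the excess. -/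
lemma exc18 {Ω : Type*} [MeasurableSpace Ω] {μ : Measure Ω} [IsProbabilityMeasure μ] {Y : Ω → ℝ}
    (hY : Integrable Y μ) {D B : ℝ} (hD : 0 ≤ D) (hB : 0 < B)
    (hT : ∀ u : ℝ, B ≤ u → μ.real {w | u ≤ Y w} ≤ (D / u) ^ (3 / 2 : ℝ)) :
    ∫ w, max (Y w - B) 0 ∂μ ≤ 2 * D ^ (3 / 2 : ℝ) * B ^ (-(1 / 2) : ℝ) := by
  have hi : Integrable (fun w => max (Y w - B) 0) μ := (hY.sub (integrable_const _)).pos_part
  rw [hi.integral_eq_integral_meas_lt (Eventually.of_forall fun w => le_max_right _ _)]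
  have hder : ∀ t ∈ Set.Ici (0 : ℝ), HasDerivAt
      (fun t : ℝ => -(2 * D ^ (3 / 2 : ℝ) * (B + t) ^ (-(1 / 2) : ℝ)))
      (D ^ (3 / 2 : ℝ) * (B + t) ^ (-(3 / 2) : ℝ)) t := by
    intro t ht
    have h0 : (0 : ℝ) < B + t := by
      have : (0 : ℝ) ≤ t := ht
      linarith
    have h1 : HasDerivAt (fun t : ℝ => B + t) 1 t := (hasDerivAt_id t).const_add B
    have h2 := ((h1.rpow_const (p := (-(1 / 2) : ℝ)) (Or.inl h0.ne')).const_mul
      (2 * D ^ (3 / 2 : ℝ))).neg
    have e : -(2 * D ^ (3 / 2 : ℝ) * (1 * (-(1 / 2) : ℝ) * (B + t) ^ ((-(1 / 2) : ℝ) - 1))) =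
        D ^ (3 / 2 : ℝ) * (B + t) ^ (-(3 / 2) : ℝ) := by
      have e1 : (-(1 / 2) : ℝ) - 1 = -(3 / 2) := by norm_num
      rw [e1]
      ring
    rwa [e] at h2
  have hpos : ∀ t ∈ Set.Ioi (0 : ℝ), 0 ≤ D ^ (3 / 2 : ℝ) * (B + t) ^ (-(3 / 2) : ℝ) := by
    intro t ht
    have h0 : (0 : ℝ) < t := ht
    positivity
  have hlim : Tendsto (fun t : ℝ => -(2 * D ^ (3 / 2 : ℝ) * (B + t) ^ (-(1 / 2) : ℝ))) atTop
      (𝓝 0) := by
    have h1 : Tendsto (fun t : ℝ => B + t) atTop atTop := tendsto_atTop_add_const_left _ _ tendsto_id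
    have h2 := (((tendsto_rpow_neg_atTop (show (0 : ℝ) < 1 / 2 by norm_num)).comp h1).const_mul
      (2 * D ^ (3 / 2 : ℝ))).neg
    simpa using h2
  have h3 := integrableOn_Ioi_deriv_of_nonneg' (a := 0) hder hpos hlim
  have h4 := integral_Ioi_of_hasDerivAt_of_tendsto' (a := 0) hder h3 hlim
  have h5 : ∫ t in Set.Ioi (0 : ℝ), μ.real {w | t < max (Y w - B) 0} ≤
      ∫ t in Set.Ioi (0 : ℝ), D ^ (3 / 2 : ℝ) * (B + t) ^ (-(3 / 2) : ℝ) := by
    refine integral_mono_of_nonneg (Eventually.of_forall fun t => measureReal_nonneg) h3 ?_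
    filter_upwards [ae_restrict_mem measurableSet_Ioi] with t ht
    have ht0 : (0 : ℝ) < t := ht
    have h7 : D ^ (3 / 2 : ℝ) * (B + t) ^ (-(3 / 2) : ℝ) = (D / (B + t)) ^ (3 / 2 : ℝ) := by
      rw [Real.div_rpow hD (by positivity), Real.rpow_neg (by positivity)]
      exact (div_eq_mul_inv _ _).symm
    rw [h7]
    refine (measureReal_mono ?_).trans (hT (B + t) (by linarith))
    intro w hw
    have hw1 : t < max (Y w - B) 0 := hw
    show B + t ≤ Y w
    rcases lt_max_iff.1 hw1 with h6 | h6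
    · linarith
    · linarith
  refine h5.trans (le_of_eq ?_)
  rw [h4]
  simp

/-- The mean of the positive part. -/
lemma pos18 {Ω : Type*} [MeasurableSpace Ω] {μ : Measure Ω} [IsProbabilityMeasure μ] {Y : Ω → ℝ}
    (hY : Measurable Y) (h1 : Integrable Y μ) (h0 : ∫ w, Y w ∂μ = 0) {F T e : ℝ}
    (hF1 : ∫ w, |Y w| ∂μ = F) (hT : 0 ≤ T) (hF : 0 ≤ F)
    (he : ∫ w, max (Y w - T) 0 ∂μ ≤ e) :
    3 * F / 8 ≤ T * μ.real {w | F / 8 < Y w} + e := by
  have hS : MeasurableSet {w | F / 8 < Y w} := measurableSet_lt measurable_const hY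
  have e1 : ∫ w, max (Y w) 0 ∂μ = F / 2 := by
    have e2 : ∀ w, max (Y w) 0 = 1 / 2 * |Y w| + 1 / 2 * Y w := by
      intro w
      rcases le_total 0 (Y w) with h3 | h3
      · rw [max_eq_left h3, abs_of_nonneg h3]
        ring
      · rw [max_eq_right h3, abs_of_nonpos h3]
        ring
    simp only [e2]
    rw [integral_add (h1.abs.const_mul _) (h1.const_mul _), integral_const_mul,
      integral_const_mul, hF1, h0]
    ring
  have j1 : Integrable (fun w => T * Set.indicator {w | F / 8 < Y w} (fun _ => (1 : ℝ)) w) μ :=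
    ((integrable_const _).indicator hS).const_mul _
  have j2 : Integrable (fun w => max (Y w - T) 0) μ := (h1.sub (integrable_const _)).pos_part
  have j3 : Integrable (fun _ : Ω => F / 8) μ := integrable_const _
  have j4 : Integrable (fun w => F / 8 + T * Set.indicator {w | F / 8 < Y w}
      (fun _ => (1 : ℝ)) w) μ := j3.add j1
  have e3 : ∫ w, max (Y w) 0 ∂μ ≤ ∫ w, (F / 8 + T * Set.indicator {w | F / 8 < Y w}
      (fun _ => (1 : ℝ)) w + max (Y w - T) 0) ∂μ := by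
    refine integral_mono h1.pos_part (j4.add j2) fun w => ?_
    show max (Y w) 0 ≤ F / 8 + T * Set.indicator {w | F / 8 < Y w} (fun _ => (1 : ℝ)) w +
      max (Y w - T) 0
    by_cases hw : F / 8 < Y w
    · rw [Set.indicator_of_mem (show w ∈ {w | F / 8 < Y w} from hw)]
      rw [max_eq_left (by linarith)]
      have := le_max_left (Y w - T) 0
      linarith
    · rw [Set.indicator_of_notMem (show w ∉ {w | F / 8 < Y w} from hw)]
      have := le_max_right (Y w - T) 0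
      have h2 := not_lt.1 hw
      refine max_le ?_ ?_ <;> linarith
  rw [integral_add j4 j2, integral_add j3 j1, integral_const_mul, integral_indicator hS, e1] at e3
  simp only [integral_const, probReal_univ, smul_eq_mul, one_mul, mul_one,
    measureReal_restrict_apply_univ] at e3
  linarith

end Pool.Agent.W_7d29a1_SQ.F18

namespace Pool.Agent.W_7d29a1_SQ

open MeasureTheory ProbabilityTheory Filter Topology Pool.Agent.W_MP_7d29a1_pr
  Pool.Agent.W_7d29a1_h46 Pool.Agent.W_7d29a1_h46u Pool.Agent.W_7d29a1_D2.B35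
  Pool.Agent.W_7d29a1_Q29 Pool.Agent.W_7d29a1_R34 Pool.Agent.W_7d29a1_SP Pool.Agent.W_7d29a1_SD

theorem flu18 {d : ℕ} {ρ : Measure ℝ} [IsProbabilityMeasure ρ] (hd : 0 < d) (hρ : EM ρ) {β : ℝ}
    (hT : TaiP d ρ β) : FluP d ρ β := by
  intro c₀ δ hc hδ K
  obtain ⟨C, hC, hT⟩ := hT c₀ hc K
  have hC0 : (0 : ℝ) < C := by linarith
  set s : ℝ := C ^ (3 / 2 : ℝ) with hs
  have hs0 : 0 < s := by positivity
  refine ⟨δ ^ 3 / (1024 * s ^ 2), by positivity, ?_⟩
  intro h hL n hn m hm hmK hF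
  have hP1 : 1 ≤ Ps ρ β h n := by
    unfold Ps
    have h1 : En ρ β h 0 ≤ (Finset.range (n + 1)).sup' ⟨0, by simp⟩ (En ρ β h) :=
      Finset.le_sup' (En ρ β h) (by simp)
    have h2 : Fn ρ β h 0 ≤ (Finset.range (n + 1)).sup' ⟨0, by simp⟩ (Fn ρ β h) :=
      Finset.le_sup' (Fn ρ β h) (by simp)
    rw [En_zero15] at h1
    rw [Fn_zero15] at h2
    linarith
  set P := Ps ρ β h n with hP
  have hP0 : 0 < P := by linarith
  set F := Fn ρ β h m with hFd
  have hF0 : 0 < F := lt_of_lt_of_le (by positivity) hF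
  set T : ℝ := (16 * s / δ) ^ 2 * P with hTd
  have hT0 : 0 < T := by positivity
  have hexc := F18.exc18 (μ := law d ρ) (intX15 hd hρ β h m) (D := C * P) (B := T)
    (by positivity) hT0 (fun u hu => by
      have h1 := hT h hL n hn m hm hmK u (hT0.trans_le hu)
      have e2 : {η : Env d | u ≤ X β h η m - A ρ β h m} =
          {η | A ρ β h m + u ≤ X β h η m} := by
        ext η
        simp only [Set.mem_ofPred_eq]
        constructor <;> intro h3 <;> linarith
      rw [e2]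
      exact h1)
  have e4 : 2 * (C * P) ^ (3 / 2 : ℝ) * T ^ (-(1 / 2) : ℝ) = δ * P / 8 := by
    have e5 : T ^ (-(1 / 2) : ℝ) = (16 * s / δ)⁻¹ * P ^ (-(1 / 2) : ℝ) := by
      rw [hTd, Real.mul_rpow (by positivity) (by positivity), ← Real.rpow_natCast,
        ← Real.rpow_mul (by positivity)]
      norm_num
      rw [Real.rpow_neg_one]
      left
      field_simp
    have e6 : P ^ (3 / 2 : ℝ) * P ^ (-(1 / 2) : ℝ) = P := by
      rw [← Real.rpow_add hP0]
      norm_num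
    rw [e5, Real.mul_rpow (by positivity) (by positivity), ← hs]
    have e7 : 2 * (s * P ^ (3 / 2 : ℝ)) * ((16 * s / δ)⁻¹ * P ^ (-(1 / 2) : ℝ)) =
        2 * s * (16 * s / δ)⁻¹ * (P ^ (3 / 2 : ℝ) * P ^ (-(1 / 2) : ℝ)) := by ring
    rw [e7, e6]
    field_simp
    norm_num
  rw [e4] at hexc
  have hm1 : Measurable fun η => X β h η m - A ρ β h m := (measurable_X β h m).sub_const _
  have h1 := F18.pos18 (μ := law d ρ) hm1 (intX15 hd hρ β h m) (mean15 hd hρ β h m)
    (F := F) (T := T) (e := δ * P / 8) rfl hT0.le hF0.le hexc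
  have e3 : {η : Env d | F / 8 < X β h η m - A ρ β h m} =
      {η | A ρ β h m + F / 8 < X β h η m} := by
    ext η
    simp only [Set.mem_ofPred_eq]
    constructor <;> intro h3 <;> linarith
  rw [e3] at h1
  set p := (law d ρ).real {η | A ρ β h m + F / 8 < X β h η m} with hp
  have h2 : δ * P / 4 ≤ T * p := by linarith
  have h3 : T * (δ ^ 3 / (1024 * s ^ 2)) = δ * P / 4 := by
    rw [hTd]
    field_simp
    norm_num
  have h4 : T * (δ ^ 3 / (1024 * s ^ 2)) ≤ T * p := by rw [h3]; exact h2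
  exact le_of_mul_le_mul_left h4 hT0

end Pool.Agent.W_7d29a1_SQ
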