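import Pool.Agent.W_7d29a1_SQ.DefsSQ
import Pool.Agent.W_7d29a1_Q29.Npb39

/-!
Theorem SQ, leaf NPT: the truncated Newman-Piza bound.
-/

namespace Pool.Agent.W_7d29a1_SQ

open MeasureTheory ProbabilityTheory Filter Topology Pool.Agent.W_MP_7d29a1_pr
  Pool.Agent.W_7d29a1_h46 Pool.Agent.W_7d29a1_h46u Pool.Agent.W_7d29a1_D2.B35
  Pool.Agent.W_7d29a1_Q29 Pool.Agent.W_7d29a1_R34 Pool.Agent.W_7d29a1_SP Pool.Agent.W_7d29a1_SD

variable {ρ : Measure ℝ} [IsProbabilityMeasure ρ]

/-- The truncation to `[-K, K]`. -/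
noncomputable def clp39 (K x : ℝ) : ℝ := max (-K) (min K x)

lemma clp_mono39 (K : ℝ) : Monotone (clp39 K) := fun x y hxy => by
  unfold clp39
  exact max_le_max le_rfl (min_le_min le_rfl hxy)

lemma clp_abs39 {K : ℝ} (hK : 0 ≤ K) (x : ℝ) : |clp39 K x| ≤ K := by
  unfold clp39
  rw [abs_le]
  exact ⟨le_max_left _ _, max_le (by linarith) (min_le_left _ _)⟩

lemma clp_eq39 {K x : ℝ} (hx : |x| ≤ K) : clp39 K x = x := by
  unfold clp39
  rw [abs_le] at hx
  rw [min_eq_right hx.2, max_eq_right hx.1]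

lemma clp_meas39 (K : ℝ) : Measurable (clp39 K) := (clp_mono39 K).measurable

/-- The upper part of the variance is seen on a bounded interval. -/
lemma up_bd39 (hρ : EM ρ) (hnc : ∀ c : ℝ, ρ {c} ≠ 1) : ∃ B : ℝ, (∫ s, s ∂ρ) ≤ B ∧
    0 < ∫ r, (if r ≤ B then (max (r - ∫ s, s ∂ρ) 0) ^ 2 else 0) ∂ρ := by
  set m : ℝ := ∫ s, s ∂ρ with hm
  have h0 : Tendsto (fun k : ℕ => ∫ r, (if r ≤ m + k then (max (r - m) 0) ^ 2 else 0) ∂ρ) atTop
      (𝓝 (∫ r, (max (r - m) 0) ^ 2 ∂ρ)) := by
    refine tendsto_integral_of_dominated_convergence (fun r => (max (r - m) 0) ^ 2) ?_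
      (s39_int_max hρ m) ?_ ?_
    · intro k
      refine Measurable.aestronglyMeasurable ?_
      exact Measurable.ite measurableSet_Iic (by fun_prop) measurable_const
    · intro k
      refine Eventually.of_forall fun r => ?_
      split_ifs
      · rw [Real.norm_eq_abs, abs_of_nonneg (sq_nonneg _)]
      · rw [norm_zero]
        exact sq_nonneg _
    · refine Eventually.of_forall fun r => ?_
      obtain ⟨N, hN⟩ := exists_nat_ge (r - m)
      refine tendsto_const_nhds.congr' ?_
      filter_upwards [eventually_ge_atTop N] with k hk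
      rw [if_pos]
      have : (N : ℝ) ≤ k := by exact_mod_cast hk
      linarith
  have h1 := s39_up_pos hρ hnc
  have h2 := (h0.eventually (lt_mem_nhds h1)).exists
  obtain ⟨k, hk⟩ := h2
  exact ⟨m + k, by linarith [(Nat.cast_nonneg k : (0 : ℝ) ≤ k)], hk⟩

/-- The scalar form of the truncated one site inequality. -/
theorem scalT39 (hρ : EM ρ) (hnc : ∀ c : ℝ, ρ {c} ≠ 1) {β : ℝ} (hβ : 0 < β) (H : ℝ) :
    ∃ c M₀ : ℝ, 0 < c ∧ 1 ≤ M₀ ∧ ∀ a b : ℝ, 0 ≤ a → 0 ≤ b → 0 < a + b → ∀ b₀ M : ℝ, M₀ ≤ M →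
      c * ∫ r, (if |Real.log (a + b * Real.exp (β * r)) - b₀| ≤ M ∧ |r| ≤ H then
          b * Real.exp (β * r) / (a + b * Real.exp (β * r)) else 0) ∂ρ ≤
        ∫ r, (r - ∫ s, s ∂ρ) *
          clp39 (4 * M) (Real.log (a + b * Real.exp (β * r)) - b₀) ∂ρ := by
  obtain ⟨B, hmB, hVB⟩ := up_bd39 hρ hnc
  set m : ℝ := ∫ s, s ∂ρ with hm
  set V : ℝ := ∫ r, (if r ≤ B then (max (r - m) 0) ^ 2 else 0) ∂ρ with hV
  refine ⟨β * V * Real.exp (-(β * (|H| + |m|))), max 1 (β * (|m| + |B| + |H|)), by positivity,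
    le_max_left _ _, fun a b ha hb hab b₀ M hM => ?_⟩
  have hM1 : 1 ≤ M := (le_max_left _ _).trans hM
  have hM2 : β * (|m| + |B| + |H|) ≤ M := (le_max_right _ _).trans hM
  set x : ℝ → ℝ := fun r => Real.log (a + b * Real.exp (β * r)) with hx
  set Q : ℝ → ℝ := fun r => b * Real.exp (β * r) / (a + b * Real.exp (β * r)) with hQ
  have hpos : ∀ r : ℝ, 0 < a + b * Real.exp (β * r) := by
    intro r
    have h1 := Real.exp_pos (β * r)
    rcases eq_or_lt_of_le hb with h | h
    · rw [← h]
      linarith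
    · have := mul_pos h h1
      linarith
  have hQ0 : ∀ r, 0 ≤ Q r := fun r => div_nonneg (mul_nonneg hb (Real.exp_pos _).le) (hpos r).le
  have hQ1 : ∀ r, Q r ≤ 1 := fun r => by
    simp only [hQ]
    rw [div_le_one (hpos r)]
    linarith
  -- the increments
  have hfac : ∀ r r' : ℝ, a + b * Real.exp (β * r) =
      (a + b * Real.exp (β * r')) * (1 - Q r' + Q r' * Real.exp (β * (r - r'))) ∧
      b * Real.exp (β * r) = (a + b * Real.exp (β * r')) * (Q r' * Real.exp (β * (r - r'))) := by
    intro r r'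
    have e1 : (a + b * Real.exp (β * r')) * Q r' = b * Real.exp (β * r') := by
      simp only [hQ]
      rw [mul_div_cancel₀]
      exact (hpos r').ne'
    have e2 : Real.exp (β * r) = Real.exp (β * r') * Real.exp (β * (r - r')) := by
      rw [← Real.exp_add]
      congr 1
      ring
    have e3 : (a + b * Real.exp (β * r')) * (1 - Q r' + Q r' * Real.exp (β * (r - r'))) =
        (a + b * Real.exp (β * r')) - (a + b * Real.exp (β * r')) * Q r' +
          (a + b * Real.exp (β * r')) * Q r' * Real.exp (β * (r - r')) := by ring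
    refine ⟨?_, ?_⟩
    · rw [e3, e1, e2]
      ring
    · rw [← mul_assoc, e1, e2]
      ring
  have hinc : ∀ r r' : ℝ, x r = x r' + Real.log (1 - Q r' + Q r' * Real.exp (β * (r - r'))) := by
    intro r r'
    simp only [hx]
    rw [(hfac r r').1, Real.log_mul (hpos r').ne' (s39_pos (hQ0 r') (hQ1 r') _).ne']
  have hlip : ∀ r r' : ℝ, |x r - x r'| ≤ β * |r - r'| := by
    intro r r'
    rw [hinc r r', add_sub_cancel_left]
    have h1 := s39_abs (hQ0 r') (hQ1 r') (β * (r - r'))
    rwa [abs_mul, abs_of_pos hβ] at h1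
  have hmono : Monotone x := by
    intro r r' hrr
    simp only [hx]
    refine Real.log_le_log (hpos r) ?_
    have h1 : Real.exp (β * r) ≤ Real.exp (β * r') :=
      Real.exp_le_exp.2 (mul_le_mul_of_nonneg_left hrr hβ.le)
    have h2 := mul_le_mul_of_nonneg_left h1 hb
    linarith
  have hxm : Measurable x := hmono.measurable
  have hFm : Measurable fun r => clp39 (4 * M) (x r - b₀) :=
    (clp_meas39 _).comp (hxm.sub_const _)
  -- the right side is centred
  set F : ℝ → ℝ := fun r => clp39 (4 * M) (x r - b₀) with hF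
  have hFb : ∀ r, |F r| ≤ 4 * M := fun r => clp_abs39 (by linarith) _
  have hi1 : Integrable (fun r => (r - m) * F r) ρ := by
    refine ((s39_int_id hρ m).norm.mul_const (4 * M)).mono'
      ((measurable_id.sub_const m).mul hFm).aestronglyMeasurable (Eventually.of_forall fun r => ?_)
    rw [norm_mul]
    exact mul_le_mul_of_nonneg_left (hFb r) (norm_nonneg _)
  have hi2 : Integrable (fun r => (r - m) * (F r - F m)) ρ := by
    have h1 := hi1.sub ((s39_int_id hρ m).mul_const (F m))
    refine h1.congr (Eventually.of_forall fun r => ?_)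
    show (r - m) * F r - (r - m) * F m = (r - m) * (F r - F m)
    ring
  have hR : ∫ r, (r - m) * F r ∂ρ = ∫ r, (r - m) * (F r - F m) ∂ρ := by
    have e1 : ∀ r : ℝ, (r - m) * (F r - F m) = (r - m) * F r - (r - m) * F m := by
      intro r
      ring
    simp only [e1]
    rw [integral_sub hi1 ((s39_int_id hρ m).mul_const _), integral_mul_const, hm,
      s39_mean hρ, zero_mul, sub_zero]
  have hFmono : Monotone F := fun r r' hrr => clp_mono39 _ (sub_le_sub_right (hmono hrr) _)
  have hnn : ∀ r, 0 ≤ (r - m) * (F r - F m) := by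
    intro r
    rcases le_total m r with h1 | h1
    · exact mul_nonneg (by linarith) (by linarith [hFmono h1])
    · exact mul_nonneg_of_nonpos_of_nonpos (by linarith) (by linarith [hFmono h1])
  have hgoal : β * V * Real.exp (-(β * (|H| + |m|))) *
      ∫ r, (if |x r - b₀| ≤ M ∧ |r| ≤ H then Q r else 0) ∂ρ ≤ ∫ r, (r - m) * F r ∂ρ := by
    rw [hR]
    by_cases hex : ∃ r, |x r - b₀| ≤ M ∧ |r| ≤ H
    swap
    · have h1 : ∀ r, (if |x r - b₀| ≤ M ∧ |r| ≤ H then Q r else 0) = 0 := fun r =>
        if_neg fun h2 => hex ⟨r, h2⟩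
      simp only [h1]
      rw [integral_zero, mul_zero]
      exact integral_nonneg hnn
    obtain ⟨r₁, hr₁, hr₁H⟩ := hex
    have hH0 : 0 ≤ H := (abs_nonneg _).trans hr₁H
    -- the left side
    have hL : ∫ r, (if |x r - b₀| ≤ M ∧ |r| ≤ H then Q r else 0) ∂ρ ≤
        Q m * Real.exp (β * (|H| + |m|)) := by
      have h1 : ∀ r, (if |x r - b₀| ≤ M ∧ |r| ≤ H then Q r else 0) ≤
          Q m * Real.exp (β * (|H| + |m|)) := by
        intro r
        split_ifs with h2
        · have e1 : Q r = Q m * Real.exp (β * (r - m)) /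
              (1 - Q m + Q m * Real.exp (β * (r - m))) := by
            have e6 : Q r = b * Real.exp (β * r) / (a + b * Real.exp (β * r)) := rfl
            rw [e6, (hfac r m).1, (hfac r m).2, mul_div_mul_left _ _ (hpos m).ne']
          rw [e1]
          refine (s39_ratio (hQ0 m) (hQ1 m) _).trans ?_
          refine mul_le_mul_of_nonneg_left (Real.exp_le_exp.2 ?_) (hQ0 m)
          rw [abs_mul, abs_of_pos hβ]
          refine mul_le_mul_of_nonneg_left ?_ hβ.le
          have h3 := abs_sub r m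
          have h4 : |r| ≤ |H| := h2.2.trans (le_abs_self H)
          linarith
        · exact mul_nonneg (hQ0 m) (Real.exp_pos _).le
      have h2 : Integrable (fun r => (if |x r - b₀| ≤ M ∧ |r| ≤ H then Q r else 0)) ρ := by
        refine Integrable.mono' (integrable_const (1 : ℝ)) ?_ (Eventually.of_forall fun r => ?_)
        · refine Measurable.aestronglyMeasurable ?_
          refine Measurable.ite ?_ ?_ measurable_const
          · exact (measurableSet_le ((hxm.sub_const b₀).abs) measurable_const).inter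
              (measurableSet_le measurable_id.abs measurable_const)
          · simp only [hQ]
            fun_prop
        · split_ifs
          · rw [Real.norm_eq_abs, abs_of_nonneg (hQ0 r)]
            exact hQ1 r
          · simp
      have h3 := integral_mono h2 (integrable_const _) h1
      simpa using h3
    -- the right side
    have hcl : ∀ r, |r| ≤ |m| + |B| → F r = x r - b₀ := by
      intro r hr
      refine clp_eq39 ?_
      have h1 := hlip r r₁
      have h2 : |r - r₁| ≤ |m| + |B| + |H| := by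
        have h3 := abs_sub r r₁
        have h4 : |r₁| ≤ |H| := hr₁H.trans (le_abs_self H)
        linarith
      have h3 : |x r - b₀| ≤ |x r - x r₁| + |x r₁ - b₀| := by
        have := abs_sub_le (x r) (x r₁) b₀
        exact this
      have h4 : β * |r - r₁| ≤ M := (mul_le_mul_of_nonneg_left h2 hβ.le).trans hM2
      linarith
    have hRlow : Q m * β * V ≤ ∫ r, (r - m) * (F r - F m) ∂ρ := by
      rw [hV, ← integral_const_mul]
      refine integral_mono_of_nonneg (Eventually.of_forall fun r => ?_) hi2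
        (Eventually.of_forall fun r => ?_)
      · show 0 ≤ Q m * β * (if r ≤ B then (max (r - m) 0) ^ 2 else 0)
        refine mul_nonneg (mul_nonneg (hQ0 m) hβ.le) ?_
        split_ifs
        · exact sq_nonneg _
        · exact le_rfl
      · show Q m * β * (if r ≤ B then (max (r - m) 0) ^ 2 else 0) ≤ (r - m) * (F r - F m)
        by_cases h1 : r ≤ B
        swap
        · rw [if_neg h1, mul_zero]
          exact hnn r
        rw [if_pos h1]
        by_cases h2 : m ≤ r
        swap
        · rw [max_eq_right (by linarith)]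
          have := hnn r
          simpa using this
        have h3 : |r| ≤ |m| + |B| := by
          rw [abs_le]
          constructor
          · have := neg_abs_le m
            linarith [abs_nonneg B]
          · have := le_abs_self B
            linarith [abs_nonneg m]
        have h4 : |m| ≤ |m| + |B| := by linarith [abs_nonneg B]
        rw [hcl r h3, hcl m h4, sub_sub_sub_cancel_right, hinc r m, add_sub_cancel_left]
        exact s39_key (hQ0 m) (hQ1 m) hβ (r - m)
    refine le_trans ?_ hRlow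
    have hE : Real.exp (-(β * (|H| + |m|))) * Real.exp (β * (|H| + |m|)) = 1 := by
      rw [← Real.exp_add]
      simp
    calc β * V * Real.exp (-(β * (|H| + |m|))) *
          ∫ r, (if |x r - b₀| ≤ M ∧ |r| ≤ H then Q r else 0) ∂ρ
        ≤ β * V * Real.exp (-(β * (|H| + |m|))) * (Q m * Real.exp (β * (|H| + |m|))) :=
          mul_le_mul_of_nonneg_left hL (by positivity)
      _ = Q m * β * V * (Real.exp (-(β * (|H| + |m|))) * Real.exp (β * (|H| + |m|))) := by ring
      _ = Q m * β * V := by rw [hE, mul_one]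
  exact hgoal

variable {d : ℕ}

open Classical in
lemma spl_upd39 {p t : ℕ} (hpt : p < t) (y : Site d) (α η : Env d) (r : ℝ) :
    spl (Pa d p) α (Function.update η (t, y) r) =
      Function.update (spl (Pa d p) α η) (t, y) r := by
  funext w
  by_cases hw : w = (t, y)
  · subst hw
    rw [Function.update_self, spl_not_mem, Function.update_self]
    intro h1
    have h2 : t ≤ p := h1
    omega
  · rw [Function.update_of_ne hw]
    by_cases h1 : w ∈ Pa d p
    · rw [spl_mem _ _ h1, spl_mem _ _ h1]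
    · rw [spl_not_mem _ _ h1, spl_not_mem _ _ h1, Function.update_of_ne hw]

lemma meas_Qtr39 (β : ℝ) (h : Vec d) (n p t : ℕ) (y : Site d) (b M H : ℝ) (α : Env d) :
    Measurable (Qtr β h n p t y b M H α) := by
  unfold Qtr
  have h1 : Measurable fun η : Env d => spl (Pa d p) α η := measurable_spl_right (Pa d p) α
  refine Measurable.ite ?_ ((measurable_Qt39 β h n t y).comp h1) measurable_const
  have h2 : Measurable fun η : Env d => |spl (Pa d p) α η (t, y)| :=
    ((measurable_pi_apply (t, y)).comp h1).abs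
  exact (measurableSet_le (((measurable_X β h n).comp h1).sub_const b).abs
    measurable_const).inter (measurableSet_le h2 measurable_const)

lemma Qtr_nonneg39 (β : ℝ) (h : Vec d) (n p t : ℕ) (y : Site d) (b M H : ℝ) (α η : Env d) :
    0 ≤ Qtr β h n p t y b M H α η := by
  unfold Qtr
  split_ifs
  · exact Qt_nonneg39 _ _ _ _ _ _
  · exact le_rfl

lemma Qtr_le_one39 (β : ℝ) (h : Vec d) {n t : ℕ} (htn : t ≤ n) (p : ℕ) (y : Site d)
    (b M H : ℝ) (α η : Env d) : Qtr β h n p t y b M H α η ≤ 1 := by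
  unfold Qtr
  split_ifs
  · exact Qt_le_one39 β h htn _ _
  · norm_num

/-- **Leaf NPT**: the truncated Newman-Piza bound. -/
theorem npt39 (hd : 0 < d) (hρ : EM ρ) (hnc : ∀ c : ℝ, ρ {c} ≠ 1) {β : ℝ} (hβ : 0 < β) :
    NptP d ρ β := by
  classical
  intro H
  obtain ⟨c, M₀, hc, hM₀, hmain⟩ := scalT39 hρ hnc hβ H
  set V : ℝ := ∫ t, (t - ∫ s, s ∂ρ) ^ 2 ∂ρ with hV
  have hV0 : 0 ≤ V := integral_nonneg fun _ => sq_nonneg _
  refine ⟨max 1 (V * 16 / c ^ 2), M₀, le_max_left _ _, hM₀, fun h n p α b M hM => ?_⟩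
  have hM0 : 0 ≤ M := by linarith
  set F : Env d → ℝ := fun η => clp39 (4 * M) (X β h (spl (Pa d p) α η) n - b) with hF
  have hspl : Measurable fun η : Env d => spl (Pa d p) α η := measurable_spl_right (Pa d p) α
  have hFm : Measurable F := (clp_meas39 _).comp (((measurable_X β h n).comp hspl).sub_const b)
  have hFb : ∀ η, |F η| ≤ 4 * M := fun η => clp_abs39 (by linarith) _
  have hF2b : ∀ η, F η ^ 2 ≤ 16 * M ^ 2 := fun η => by
    have h1 := pow_le_pow_left₀ (abs_nonneg _) (hFb η) 2
    rw [sq_abs] at h1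
    linarith
  have hF2 : Integrable (fun η => F η ^ 2) (law d ρ) :=
    Integrable.mono' (integrable_const (16 * M ^ 2)) (hFm.pow_const 2).aestronglyMeasurable
      (Eventually.of_forall fun η => by
        rw [Real.norm_eq_abs, abs_of_nonneg (sq_nonneg _)]
        exact hF2b η)
  set I : Finset (ℕ × Site d) := Finset.Ioc p n ×ˢ boxF d n with hI
  have hI1 : ∀ q ∈ I, p < q.1 ∧ q.1 ≤ n := fun q hq =>
    Finset.mem_Ioc.1 (Finset.mem_product.1 hq).1
  set Q : ℕ × Site d → Env d → ℝ := fun q => Qtr β h n p q.1 q.2 b M H α with hQ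
  have hQm : ∀ q, Measurable (Q q) := fun q => meas_Qtr39 β h n p q.1 q.2 b M H α
  have hQ0 : ∀ q η, 0 ≤ Q q η := fun q η => Qtr_nonneg39 β h n p q.1 q.2 b M H α η
  have hQ1 : ∀ q ∈ I, ∀ η, Q q η ≤ 1 := fun q hq η =>
    Qtr_le_one39 β h (hI1 q hq).2 p q.2 b M H α η
  have hdep : ∀ (q q' : ℕ × Site d), q ∉ (Pa d q'.1)ᶜ →
      DependsOn (cE ρ (Pa d q'.1)ᶜ (Q q')) {q}ᶜ := by
    intro q q' hqq η η' hηη
    refine cE_dep (Pa d q'.1)ᶜ _ fun r hr => hηη r ?_
    intro h1
    rw [Set.mem_singleton_iff] at h1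
    exact hqq (h1 ▸ hr)
  have hdual := dual85 hρ I F hFm hF2 (fun q => cE ρ (Pa d q.1)ᶜ (Q q)) Q
    (fun q _ => measurable_cE (hQm q) _) (fun q _ => hQm q)
    (fun q hq η => ⟨cE_nonneg (hQ0 q) _ _, cE_le (hQm q) (hQ0 q) (hQ1 q hq) _ _⟩)
    (fun q hq η => ⟨hQ0 q η, hQ1 q hq η⟩)
    (fun q _ => hdep q q fun h1 => h1 (show q.1 ≤ q.1 from le_rfl))
    (fun q _ q' _ _ => by
      rcases le_total q.1 q'.1 with h2 | h2
      · exact Or.inl (hdep q q' fun h3 => h3 (show q.1 ≤ q'.1 from h2))
      · exact Or.inr (hdep q' q fun h3 => h3 (show q'.1 ≤ q.1 from h2)))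
    (fun q hq => by
      rw [int_cE_sq (Pa d q.1)ᶜ (hQm q) (b := 1) (fun η => by
        rw [abs_of_nonneg (hQ0 q η)]
        exact hQ1 q hq η)]
      refine integral_congr_ae (Eventually.of_forall fun η => ?_)
      show cE ρ (Pa d q.1)ᶜ (Q q) η * Q q η = _
      ring)
    hc.le (fun q hq η => by
      obtain ⟨hq1, hq2⟩ := hI1 q hq
      obtain ⟨t, y⟩ := q
      obtain ⟨a₁, b₁, ha, hb, hab, hsh⟩ :=
        s39_shape hd β h n t y (spl (Pa d p) α η) (by omega) hq2
      have h1 := hmain a₁ b₁ ha hb hab b M hM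
      have e0 : ∀ r : ℝ, X β h (spl (Pa d p) α (Function.update η (t, y) r)) n =
          Real.log (a₁ + b₁ * Real.exp (β * r)) := by
        intro r
        rw [spl_upd39 hq1]
        unfold X
        rw [(hsh r).1]
      have e1 : ∀ r : ℝ, Q (t, y) (Function.update η (t, y) r) =
          if |Real.log (a₁ + b₁ * Real.exp (β * r)) - b| ≤ M ∧ |r| ≤ H then
            b₁ * Real.exp (β * r) / (a₁ + b₁ * Real.exp (β * r)) else 0 := by
        intro r
        have e2 : spl (Pa d p) α (Function.update η (t, y) r) (t, y) = r := by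
          rw [spl_upd39 hq1, Function.update_self]
        have e3 : Qt β h n t y (spl (Pa d p) α (Function.update η (t, y) r)) =
            b₁ * Real.exp (β * r) / (a₁ + b₁ * Real.exp (β * r)) := by
          rw [spl_upd39 hq1]
          exact (hsh r).2
        simp only [hQ]
        unfold Qtr
        rw [e0 r, e2, e3]
      have e4 : ∀ r : ℝ, F (Function.update η (t, y) r) =
          clp39 (4 * M) (Real.log (a₁ + b₁ * Real.exp (β * r)) - b) := by
        intro r
        simp only [hF]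
        rw [e0 r]
      simp only [e1, e4]
      exact h1) 0
  have hI2 : ∫ η, (F η - 0) ^ 2 ∂(law d ρ) ≤ 16 * M ^ 2 := by
    simp only [sub_zero]
    have h1 := integral_mono hF2 (integrable_const (16 * M ^ 2)) hF2b
    simpa using h1
  have hsum : ∑ t ∈ Finset.Ioc p n, ∫ η, ∑ y ∈ boxF d n,
      (cE ρ (Pa d t)ᶜ (Qtr β h n p t y b M H α) η) ^ 2 ∂(law d ρ) =
      ∑ q ∈ I, ∫ η, (cE ρ (Pa d q.1)ᶜ (Q q) η) ^ 2 ∂(law d ρ) := by
    rw [hI, Finset.sum_product]
    refine Finset.sum_congr rfl fun t ht => ?_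
    rw [integral_finsetSum]
    intro y _
    refine Integrable.mono' (integrable_const (1 : ℝ))
      ((measurable_cE (meas_Qtr39 β h n p t y b M H α) _).pow_const 2).aestronglyMeasurable
      (Eventually.of_forall fun η => ?_)
    have h0 := cE_nonneg (ρ := ρ) (fun η => Qtr_nonneg39 β h n p t y b M H α η) (Pa d t)ᶜ η
    have h1 := cE_le (ρ := ρ) (meas_Qtr39 β h n p t y b M H α)
      (fun η => Qtr_nonneg39 β h n p t y b M H α η)
      (fun η => Qtr_le_one39 β h (Finset.mem_Ioc.1 ht).2 p y b M H α η) (Pa d t)ᶜ η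
    rw [Real.norm_eq_abs, abs_of_nonneg (sq_nonneg _)]
    exact pow_le_one₀ h0 h1
  rw [hsum]
  have hc2 : 0 < c ^ 2 := by positivity
  have h5 : c ^ 2 * ∑ q ∈ I, ∫ η, (cE ρ (Pa d q.1)ᶜ (Q q) η) ^ 2 ∂(law d ρ) ≤
      V * (16 * M ^ 2) := hdual.trans (mul_le_mul_of_nonneg_left hI2 hV0)
  calc ∑ q ∈ I, ∫ η, (cE ρ (Pa d q.1)ᶜ (Q q) η) ^ 2 ∂(law d ρ)
      ≤ V * 16 / c ^ 2 * M ^ 2 := by
        rw [div_mul_eq_mul_div, le_div_iff₀ hc2]
        linarith
    _ ≤ max 1 (V * 16 / c ^ 2) * M ^ 2 :=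
        mul_le_mul_of_nonneg_right (le_max_right _ _) (sq_nonneg _)

end Pool.Agent.W_7d29a1_SQ
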