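import Pool.Agent.W_7d29a1_SQ.DefsSQ
import Pool.Agent.W_7d29a1_Q29.Npb39

/-!
Leaf NPT: the truncated Newman-Piza bound.
-/

namespace Pool.Agent.W_7d29a1_SQ

open MeasureTheory ProbabilityTheory Filter Topology Pool.Agent.W_MP_7d29a1_pr
  Pool.Agent.W_7d29a1_h46 Pool.Agent.W_7d29a1_h46u Pool.Agent.W_7d29a1_D2.B35
  Pool.Agent.W_7d29a1_Q29

/-- The clipped value. -/
noncomputable def clip64 (K x : ℝ) : ℝ := max (-K) (min K x)

lemma clip64_mono (K : ℝ) : Monotone (clip64 K) := fun _ _ h =>
  max_le_max le_rfl (min_le_min le_rfl h)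

lemma clip64_abs {K : ℝ} (hK : 0 ≤ K) (x : ℝ) : |clip64 K x| ≤ K := by
  unfold clip64
  rw [abs_le]
  exact ⟨le_max_left _ _, max_le (by linarith) (min_le_left _ _)⟩

lemma clip64_eq {K x : ℝ} (h : |x| ≤ K) : clip64 K x = x := by
  unfold clip64
  rw [abs_le] at h
  rw [min_eq_right h.2, max_eq_right h.1]

lemma measurable_clip64 (K : ℝ) : Measurable (clip64 K) := by
  unfold clip64; fun_prop

variable {ρ : Measure ℝ} [IsProbabilityMeasure ρ]

/-- A bounded part of the upper variance is positive. -/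
lemma up_trunc64 (hρ : EM ρ) (hnc : ∀ c : ℝ, ρ {c} ≠ 1) : ∃ k : ℕ,
    0 < ∫ r, (if r ≤ (∫ s, s ∂ρ) + k then (max (r - ∫ s, s ∂ρ) 0) ^ 2 else 0) ∂ρ := by
  set m : ℝ := ∫ s, s ∂ρ with hm
  have h1 : Tendsto (fun k : ℕ => ∫ r, (if r ≤ m + k then (max (r - m) 0) ^ 2 else 0) ∂ρ) atTop
      (𝓝 (∫ r, (max (r - m) 0) ^ 2 ∂ρ)) := by
    refine tendsto_integral_of_dominated_convergence (fun r => (max (r - m) 0) ^ 2) ?_
      (s39_int_max hρ m) ?_ ?_
    · intro k
      refine Measurable.aestronglyMeasurable ?_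
      exact Measurable.ite measurableSet_Iic (by fun_prop) measurable_const
    · intro k
      refine Eventually.of_forall fun r => ?_
      split_ifs
      · rw [Real.norm_eq_abs, abs_of_nonneg (sq_nonneg _)]
      · rw [norm_zero]; exact sq_nonneg _
    · refine Eventually.of_forall fun r => ?_
      refine tendsto_const_nhds.congr' ?_
      obtain ⟨k, hk⟩ := exists_nat_ge (r - m)
      filter_upwards [eventually_ge_atTop k] with j hj
      have : (k : ℝ) ≤ j := by exact_mod_cast hj
      rw [if_pos (by linarith)]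
  obtain ⟨k, hk⟩ := (h1.eventually (lt_mem_nhds (s39_up_pos hρ hnc))).exists
  exact ⟨k, hk⟩

/-- The scalar form of the truncated one site inequality. -/
theorem scalar64 (hρ : EM ρ) (hnc : ∀ c : ℝ, ρ {c} ≠ 1) {β : ℝ} (hβ : 0 < β) (H : ℝ) :
    ∃ c > 0, ∃ M₀ : ℝ, 1 ≤ M₀ ∧ ∀ a b B M : ℝ, 0 ≤ a → 0 ≤ b → 0 < a + b → M₀ ≤ M →
      c * ∫ r, (if |Real.log (a + b * Real.exp (β * r)) - B| ≤ M ∧ |r| ≤ H then
        b * Real.exp (β * r) / (a + b * Real.exp (β * r)) else 0) ∂ρ ≤
        ∫ r, (r - ∫ s, s ∂ρ) * clip64 (4 * M) (Real.log (a + b * Real.exp (β * r)) - B) ∂ρ := by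
  obtain ⟨k, hk⟩ := up_trunc64 hρ hnc
  set m : ℝ := ∫ s, s ∂ρ with hm
  set V : ℝ := ∫ r, (if r ≤ m + k then (max (r - m) 0) ^ 2 else 0) ∂ρ with hV
  set E : ℝ := ∫ r, Real.exp (β * |r - m|) ∂ρ with hE
  have hE1 : 1 ≤ E := by
    have h1 := integral_mono (integrable_const (1 : ℝ)) (s39_int_exp_abs hρ β m)
      (fun r => Real.one_le_exp (mul_nonneg hβ.le (abs_nonneg (r - m))))
    simpa using h1
  have hk0 : (0 : ℝ) ≤ k := Nat.cast_nonneg k
  refine ⟨β * V / E, by positivity, max 1 (β * (|m| + k + |H|)), le_max_left _ _,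
    fun a b B M ha hb hab hM => ?_⟩
  have hM1 : 1 ≤ M := (le_max_left _ _).trans hM
  have hM2 : β * (|m| + k + |H|) ≤ M := (le_max_right _ _).trans hM
  set G : ℝ := a + b * Real.exp (β * m) with hG
  have hem := Real.exp_pos (β * m)
  have hG0 : 0 < G := by
    rcases eq_or_lt_of_le hb with h | h
    · rw [hG, ← h]
      linarith
    · have := mul_pos h hem
      rw [hG]
      linarith
  set q : ℝ := b * Real.exp (β * m) / G with hq
  have hq0 : 0 ≤ q := by positivity
  have hq1 : q ≤ 1 := by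
    rw [hq, div_le_one hG0, hG]
    linarith
  have hfac : ∀ r : ℝ, a + b * Real.exp (β * r) = G * (1 - q + q * Real.exp (β * (r - m))) := by
    intro r
    have e1 : Real.exp (β * r) = Real.exp (β * m) * Real.exp (β * (r - m)) := by
      rw [← Real.exp_add]
      congr 1
      ring
    have e2 : G * q = b * Real.exp (β * m) := by
      rw [hq]
      field_simp
    have e3 : G * (1 - q + q * Real.exp (β * (r - m))) =
        G - G * q + G * q * Real.exp (β * (r - m)) := by ring
    rw [e3, e2, e1, hG]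
    ring
  have hxr : ∀ r : ℝ, Real.log (a + b * Real.exp (β * r)) = Real.log G +
      Real.log (1 - q + q * Real.exp (β * (r - m))) := fun r => by
    rw [hfac r, Real.log_mul hG0.ne' (s39_pos hq0 hq1 _).ne']
  have hxpos : ∀ r : ℝ, 0 < a + b * Real.exp (β * r) := fun r => by
    rw [hfac r]; exact mul_pos hG0 (s39_pos hq0 hq1 _)
  -- the left side
  have hratio : ∀ r : ℝ, b * Real.exp (β * r) / (a + b * Real.exp (β * r)) ≤
      q * Real.exp (β * |r - m|) := by
    intro r
    have e1 : b * Real.exp (β * r) = G * (q * Real.exp (β * (r - m))) := by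
      have e2 : G * q = b * Real.exp (β * m) := by
        rw [hq]
        field_simp
      have e4 : Real.exp (β * r) = Real.exp (β * m) * Real.exp (β * (r - m)) := by
        rw [← Real.exp_add]
        congr 1
        ring
      rw [e4, ← mul_assoc, ← e2]
      ring
    rw [hfac r, e1, mul_div_mul_left _ _ hG0.ne']
    have h2 := s39_ratio hq0 hq1 (β * (r - m))
    rwa [abs_mul, abs_of_pos hβ] at h2
  have hq00 : ∀ r : ℝ, 0 ≤ b * Real.exp (β * r) / (a + b * Real.exp (β * r)) := by
    intro r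
    exact div_nonneg (mul_nonneg hb (Real.exp_pos _).le) (hxpos r).le
  -- monotone
  have hmono : ∀ r r' : ℝ, r ≤ r' →
      Real.log (a + b * Real.exp (β * r)) ≤ Real.log (a + b * Real.exp (β * r')) := by
    intro r r' h
    refine Real.log_le_log (hxpos r) ?_
    have := mul_le_mul_of_nonneg_left
      (Real.exp_le_exp.mpr (mul_le_mul_of_nonneg_left h hβ.le)) hb
    linarith
  set f : ℝ → ℝ := fun r => clip64 (4 * M) (Real.log (a + b * Real.exp (β * r)) - B) with hf
  have hfm : Measurable f := (measurable_clip64 _).comp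
    ((Real.measurable_log.comp (by fun_prop)).sub_const _)
  have hfmono : ∀ r r' : ℝ, r ≤ r' → f r ≤ f r' := fun r r' h =>
    clip64_mono _ (sub_le_sub_right (hmono r r' h) _)
  have hfb : ∀ r, |f r| ≤ 4 * M := fun r => clip64_abs (by linarith) _
  have hint : ∀ c : ℝ, Integrable (fun r => (r - m) * (f r - c)) ρ := by
    intro c
    refine ((s39_int_id hρ m).norm.mul_const (4 * M + |c|)).mono'
      ((by fun_prop : Measurable fun r : ℝ => r - m).mul (hfm.sub_const c)).aestronglyMeasurable
      (Eventually.of_forall fun r => ?_)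
    rw [norm_mul]
    refine mul_le_mul_of_nonneg_left ?_ (norm_nonneg _)
    rw [Real.norm_eq_abs]
    exact (abs_sub _ _).trans (add_le_add (hfb r) le_rfl)
  have hR : ∫ r, (r - m) * f r ∂ρ = ∫ r, (r - m) * (f r - f m) ∂ρ := by
    have h2 : ∀ r, (r - m) * f r = (r - m) * (f r - f m) + (r - m) * f m := fun r => by ring
    simp only [h2]
    rw [integral_add (hint (f m)) ((s39_int_id hρ m).mul_const _), integral_mul_const, hm,
      s39_mean hρ]
    ring
  have hnn : ∀ r, 0 ≤ (r - m) * (f r - f m) := by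
    intro r
    rcases le_total m r with h | h
    · exact mul_nonneg (by linarith) (by linarith [hfmono m r h])
    · exact mul_nonneg_of_nonpos_of_nonpos (by linarith) (by linarith [hfmono r m h])
  show β * V / E * _ ≤ ∫ r, (r - m) * f r ∂ρ
  rw [hR]
  have hE0 : 0 < E := by linarith
  by_cases hex : ∃ r₀ : ℝ, |Real.log (a + b * Real.exp (β * r₀)) - B| ≤ M ∧ |r₀| ≤ H
  · obtain ⟨r₀, hr1, hr2⟩ := hex
    have hL : ∫ r, (if |Real.log (a + b * Real.exp (β * r)) - B| ≤ M ∧ |r| ≤ H then
        b * Real.exp (β * r) / (a + b * Real.exp (β * r)) else 0) ∂ρ ≤ q * E := by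
      rw [hE, ← integral_const_mul]
      refine integral_mono_of_nonneg (Eventually.of_forall fun r => ?_)
        ((s39_int_exp_abs hρ β m).const_mul q) (Eventually.of_forall fun r => ?_)
      · by_cases h1 : |Real.log (a + b * Real.exp (β * r)) - B| ≤ M ∧ |r| ≤ H
        · simp only [if_pos h1]
          exact hq00 r
        · simp only [if_neg h1]
          exact le_rfl
      · by_cases h1 : |Real.log (a + b * Real.exp (β * r)) - B| ≤ M ∧ |r| ≤ H
        · simp only [if_pos h1]
          exact hratio r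
        · simp only [if_neg h1]
          exact mul_nonneg hq0 (Real.exp_pos _).le
    -- the clip is exact near `m`
    have hex2 : ∀ r, m ≤ r → r ≤ m + k → |Real.log (a + b * Real.exp (β * r)) - B| ≤ 4 * M := by
      intro r h1 h2
      have h3 : |Real.log (a + b * Real.exp (β * r)) - Real.log G| ≤ β * k := by
        rw [hxr r, add_sub_cancel_left]
        refine (s39_abs hq0 hq1 _).trans ?_
        rw [abs_mul, abs_of_pos hβ]
        refine mul_le_mul_of_nonneg_left ?_ hβ.le
        rw [abs_of_nonneg (by linarith)]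
        linarith
      have h4 : |Real.log (a + b * Real.exp (β * r₀)) - Real.log G| ≤ β * (|m| + |H|) := by
        rw [hxr r₀, add_sub_cancel_left]
        refine (s39_abs hq0 hq1 _).trans ?_
        rw [abs_mul, abs_of_pos hβ]
        refine mul_le_mul_of_nonneg_left ?_ hβ.le
        have h5 := abs_sub r₀ m
        have h6 := le_abs_self H
        linarith
      have h5 : Real.log (a + b * Real.exp (β * r)) - B =
          (Real.log (a + b * Real.exp (β * r)) - Real.log G) -
          (Real.log (a + b * Real.exp (β * r₀)) - Real.log G) +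
          (Real.log (a + b * Real.exp (β * r₀)) - B) := by ring
      rw [h5]
      refine (abs_add_le _ _).trans ?_
      refine (add_le_add (abs_sub _ _) le_rfl).trans ?_
      have h6 : β * (|m| + k + |H|) = β * k + β * (|m| + |H|) := by ring
      linarith
    have hlow : q * β * V ≤ ∫ r, (r - m) * (f r - f m) ∂ρ := by
      rw [hV, ← integral_const_mul]
      refine integral_mono_of_nonneg (Eventually.of_forall fun r => ?_) (hint (f m))
        (Eventually.of_forall fun r => ?_)
      · refine mul_nonneg (mul_nonneg hq0 hβ.le) ?_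
        by_cases h1 : r ≤ m + k
        · simp only [if_pos h1]
          exact sq_nonneg _
        · simp only [if_neg h1]
          exact le_rfl
      · by_cases h1 : r ≤ m + k
        · simp only [if_pos h1]
          rcases le_total m r with h2 | h2
          · have h3 : f r - f m = Real.log (1 - q + q * Real.exp (β * (r - m))) := by
              rw [hf]
              show clip64 (4 * M) _ - clip64 (4 * M) _ = _
              rw [clip64_eq (hex2 r h2 h1), clip64_eq (hex2 m le_rfl (by linarith)), hxr r, hxr m]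
              simp
            rw [h3]
            exact s39_key hq0 hq1 hβ (r - m)
          · rw [max_eq_right (by linarith)]
            simpa using hnn r
        · simp only [if_neg h1]
          simpa using hnn r
    refine le_trans ?_ hlow
    refine (mul_le_mul_of_nonneg_left hL (by positivity : (0 : ℝ) ≤ β * V / E)).trans
      (le_of_eq ?_)
    field_simp
  · have h0 : ∀ r : ℝ, (if |Real.log (a + b * Real.exp (β * r)) - B| ≤ M ∧ |r| ≤ H then
        b * Real.exp (β * r) / (a + b * Real.exp (β * r)) else 0) = 0 := by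
      intro r
      rw [if_neg]
      exact fun h => hex ⟨r, h⟩
    simp only [h0, integral_zero, mul_zero]
    exact integral_nonneg hnn

variable {d : ℕ}

/-- Resampling a site of a row `> p` commutes with the splice. -/
lemma spl_update64 (p : ℕ) (α η : Env d) {w : ℕ × Site d} (hw : p < w.1) (r : ℝ) [DecidableEq (ℕ × Site d)] :
    spl (Pa d p) α (Function.update η w r) = Function.update (spl (Pa d p) α η) w r := by
  classical
  funext z
  by_cases hz : z = w
  · subst hz
    rw [Function.update_self, spl_not_mem _ _ (show z ∉ Pa d p from fun h => by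
      have : z.1 ≤ p := h
      omega), Function.update_self]
  · rw [Function.update_of_ne hz]
    by_cases hp : z ∈ Pa d p
    · rw [spl_mem _ _ hp, spl_mem _ _ hp]
    · rw [spl_not_mem _ _ hp, spl_not_mem _ _ hp, Function.update_of_ne hz]

omit [IsProbabilityMeasure ρ] in
lemma Qtr_nonneg64 (β : ℝ) (h : Vec d) (n p t : ℕ) (y : Site d) (b M H : ℝ) (α η : Env d) :
    0 ≤ Qtr β h n p t y b M H α η := by
  unfold Qtr
  split_ifs
  · exact Qt_nonneg39 _ _ _ _ _ _
  · exact le_rfl

lemma Qtr_le_one64 (β : ℝ) (h : Vec d) {n t : ℕ} (htn : t ≤ n) (p : ℕ) (y : Site d) (b M H : ℝ)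
    (α η : Env d) : Qtr β h n p t y b M H α η ≤ 1 := by
  unfold Qtr
  split_ifs
  · exact Qt_le_one39 _ _ htn _ _
  · exact zero_le_one

lemma measurable_Qtr64 (β : ℝ) (h : Vec d) (n p t : ℕ) (y : Site d) (b M H : ℝ) (α : Env d) :
    Measurable (Qtr β h n p t y b M H α) := by
  unfold Qtr
  have hs := measurable_spl_right (Pa d p) α
  refine Measurable.ite ?_ ((measurable_Qt39 β h n t y).comp hs) measurable_const
  have h1 : Measurable fun η : Env d => |X β h (spl (Pa d p) α η) n - b| :=
    (((measurable_X β h n).comp hs).sub_const b).abs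
  have h2 : Measurable fun η : Env d => |spl (Pa d p) α η (t, y)| :=
    ((measurable_pi_apply (t, y)).comp hs).abs
  exact (measurableSet_le h1 measurable_const).inter (measurableSet_le h2 measurable_const)

/-- Leaf NPT. -/
theorem npt64 (hd : 0 < d) (hρ : EM ρ) (hnc : ∀ c : ℝ, ρ {c} ≠ 1) {β : ℝ} (hβ : 0 < β) :
    NptP d ρ β := by
  classical
  intro H
  obtain ⟨c, hc, M₀, hM₀, hsc⟩ := scalar64 hρ hnc hβ H
  set V : ℝ := ∫ t, (t - ∫ s, s ∂ρ) ^ 2 ∂ρ with hV
  have hV0 : 0 ≤ V := integral_nonneg fun _ => sq_nonneg _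
  refine ⟨max 1 (16 * V / c ^ 2), M₀, le_max_left _ _, hM₀, fun h n p α b M hM => ?_⟩
  have hM1 : 1 ≤ M := hM₀.trans hM
  have hs := measurable_spl_right (Pa d p) α
  set F : Env d → ℝ := fun η => clip64 (4 * M) (X β h (spl (Pa d p) α η) n - b) with hF
  have hFm : Measurable F := (measurable_clip64 _).comp
    (((measurable_X β h n).comp hs).sub_const b)
  have hFb : ∀ η, |F η| ≤ 4 * M := fun η => clip64_abs (by linarith) _
  have hFsq : ∀ η, F η ^ 2 ≤ (4 * M) ^ 2 := fun η => by
    rw [← sq_abs (F η)]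
    exact pow_le_pow_left₀ (abs_nonneg _) (hFb η) 2
  have hF2 : Integrable (fun η => F η ^ 2) (law d ρ) := by
    refine Integrable.mono' (integrable_const ((4 * M) ^ 2))
      (hFm.pow_const 2).aestronglyMeasurable (Eventually.of_forall fun η => ?_)
    rw [Real.norm_eq_abs, abs_of_nonneg (sq_nonneg _)]
    exact hFsq η
  set I : Finset (ℕ × Site d) := Finset.Ioc p n ×ˢ boxF d n with hI
  have hIm : ∀ w ∈ I, p < w.1 ∧ w.1 ≤ n := fun w hw =>
    Finset.mem_Ioc.1 (Finset.mem_product.1 hw).1
  set Q : ℕ × Site d → Env d → ℝ := fun w => Qtr β h n p w.1 w.2 b M H α with hQ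
  have hQm : ∀ w, Measurable (Q w) := fun w => measurable_Qtr64 β h n p w.1 w.2 b M H α
  have hQ0 : ∀ w η, 0 ≤ Q w η := fun w η => Qtr_nonneg64 β h n p w.1 w.2 b M H α η
  have hQ1 : ∀ w ∈ I, ∀ η, Q w η ≤ 1 := fun w hw η =>
    Qtr_le_one64 β h (hIm w hw).2 p w.2 b M H α η
  have hdep : ∀ (w z : ℕ × Site d), w ∉ (Pa d z.1)ᶜ →
      DependsOn (cE ρ (Pa d z.1)ᶜ (Q z)) {w}ᶜ := by
    intro w z hwz η η' hηη
    refine cE_dep ((Pa d z.1)ᶜ) _ fun r hr => hηη r ?_
    intro h1
    rw [Set.mem_singleton_iff] at h1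
    exact hwz (h1 ▸ hr)
  have hmain := dual85 hρ I F hFm hF2 (fun w => cE ρ (Pa d w.1)ᶜ (Q w)) Q
    (fun w _ => measurable_cE (hQm w) _) (fun w _ => hQm w)
    (fun w hw η => ⟨cE_nonneg (fun η => hQ0 w η) _ _,
      cE_le (hQm w) (fun η => hQ0 w η) (fun η => hQ1 w hw η) _ _⟩)
    (fun w hw η => ⟨hQ0 w η, hQ1 w hw η⟩)
    (fun w _ => hdep w w fun h1 => h1 (show w.1 ≤ w.1 from le_rfl))
    (fun w _ z _ _ => by
      rcases le_total w.1 z.1 with h2 | h2
      · exact Or.inl (hdep w z fun h3 => h3 (show w.1 ≤ z.1 from h2))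
      · exact Or.inr (hdep z w fun h3 => h3 (show z.1 ≤ w.1 from h2)))
    (fun w hw => by
      rw [int_cE_sq ((Pa d w.1)ᶜ) (hQm w) (b := 1) (fun η => by
        rw [abs_of_nonneg (hQ0 w η)]; exact hQ1 w hw η)]
      refine integral_congr_ae (Eventually.of_forall fun η => ?_)
      show cE ρ (Pa d w.1)ᶜ (Q w) η * Q w η = _
      ring)
    hc.le (fun w hw η => by
      obtain ⟨hw1, hw2⟩ := hIm w hw
      obtain ⟨A, B, hA, hB, hAB, hsh⟩ := s39_shape hd β h n w.1 w.2 (spl (Pa d p) α η)
        (by omega) hw2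
      have h1 := hsc A B b M hA hB hAB hM
      have hu : ∀ r : ℝ, spl (Pa d p) α (Function.update η w r) =
          Function.update (spl (Pa d p) α η) w r := fun r => spl_update64 p α η hw1 r
      have hx : ∀ r : ℝ, X β h (Function.update (spl (Pa d p) α η) w r) n =
          Real.log (A + B * Real.exp (β * r)) := by
        intro r
        unfold X
        rw [← (hsh r).1]
      have hq : ∀ r : ℝ, Qt β h n w.1 w.2 (Function.update (spl (Pa d p) α η) w r) =
          B * Real.exp (β * r) / (A + B * Real.exp (β * r)) := fun r => (hsh r).2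
      have e1 : ∀ r : ℝ, Q w (Function.update η w r) =
          (if |Real.log (A + B * Real.exp (β * r)) - b| ≤ M ∧ |r| ≤ H then
            B * Real.exp (β * r) / (A + B * Real.exp (β * r)) else 0) := by
        intro r
        rw [hQ]
        show Qtr β h n p w.1 w.2 b M H α (Function.update η w r) = _
        unfold Qtr
        have h3 : Function.update (spl (Pa d p) α η) w r (w.1, w.2) = r := by
          rw [Prod.mk.eta]
          exact Function.update_self _ _ _
        rw [hu r, hx r, hq r, h3]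
      have e2 : ∀ r : ℝ, F (Function.update η w r) =
          clip64 (4 * M) (Real.log (A + B * Real.exp (β * r)) - b) := by
        intro r
        rw [hF]
        show clip64 (4 * M) (X β h (spl (Pa d p) α (Function.update η w r)) n - b) = _
        rw [hu r, hx r]
      simp only [e1, e2]
      exact h1) 0
  have hc2 : 0 < c ^ 2 := by positivity
  have hint2 : ∫ η, (F η - 0) ^ 2 ∂(law d ρ) ≤ 16 * M ^ 2 := by
    have h2 : ∫ η, (F η - 0) ^ 2 ∂(law d ρ) ≤ ∫ _η, (4 * M) ^ 2 ∂(law d ρ) := by
      refine integral_mono_of_nonneg (Eventually.of_forall fun η => sq_nonneg _)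
        (integrable_const _) (Eventually.of_forall fun η => ?_)
      show (F η - 0) ^ 2 ≤ _
      rw [sub_zero]
      exact hFsq η
    refine h2.trans (le_of_eq ?_)
    rw [integral_const]
    simp
    ring
  have hsum : ∑ w ∈ I, ∫ η, (cE ρ (Pa d w.1)ᶜ (Q w) η) ^ 2 ∂(law d ρ) ≤
      16 * V / c ^ 2 * M ^ 2 := by
    rw [div_mul_eq_mul_div, le_div_iff₀ hc2]
    calc (∑ w ∈ I, ∫ η, (cE ρ (Pa d w.1)ᶜ (Q w) η) ^ 2 ∂(law d ρ)) * c ^ 2
        = c ^ 2 * ∑ w ∈ I, ∫ η, (cE ρ (Pa d w.1)ᶜ (Q w) η) ^ 2 ∂(law d ρ) := by ring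
      _ ≤ V * ∫ η, (F η - 0) ^ 2 ∂(law d ρ) := hmain
      _ ≤ V * (16 * M ^ 2) := mul_le_mul_of_nonneg_left hint2 hV0
      _ = 16 * V * M ^ 2 := by ring
  rw [hI, Finset.sum_product] at hsum
  refine le_trans (le_of_eq ?_) (hsum.trans
    (mul_le_mul_of_nonneg_right (le_max_right 1 _) (sq_nonneg M)))
  refine Finset.sum_congr rfl fun t ht => ?_
  rw [integral_finsetSum]
  intro y _
  have ht2 := (Finset.mem_Ioc.1 ht).2
  refine Integrable.mono' (integrable_const (1 : ℝ))
    ((measurable_cE (measurable_Qtr64 β h n p t y b M H α) _).pow_const 2).aestronglyMeasurable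
    (Eventually.of_forall fun η => ?_)
  have h0 := cE_nonneg (ρ := ρ) (fun η => Qtr_nonneg64 β h n p t y b M H α η) (Pa d t)ᶜ η
  have h1 := cE_le (ρ := ρ) (measurable_Qtr64 β h n p t y b M H α)
    (fun η => Qtr_nonneg64 β h n p t y b M H α η)
    (fun η => Qtr_le_one64 β h ht2 p y b M H α η) (Pa d t)ᶜ η
  rw [Real.norm_eq_abs, abs_of_nonneg (sq_nonneg _)]
  nlinarith

end Pool.Agent.W_7d29a1_SQ
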