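import Pool.Agent.W_7d29a1_SQ.Top32
import Pool.Agent.W_7d29a1_SQ.SscF35

/-!
Leaf REC (second text): the upper bound at a right record.
-/

set_option autoImplicit false

namespace Pool.Agent.W_7d29a1_SQ

open MeasureTheory ProbabilityTheory Filter Topology Pool.Agent.W_MP_7d29a1_pr
  Pool.Agent.W_7d29a1_h46 Pool.Agent.W_7d29a1_h46u Pool.Agent.W_7d29a1_D2.B35
  Pool.Agent.W_7d29a1_Q29 Pool.Agent.W_7d29a1_R34 Pool.Agent.W_7d29a1_SP Pool.Agent.W_7d29a1_SD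

lemma sqrt_add26 {a b : ℝ} (ha : 0 ≤ a) (hb : 0 ≤ b) :
    Real.sqrt (a + b) ≤ Real.sqrt a + Real.sqrt b := by
  rw [Real.sqrt_le_iff]
  refine ⟨add_nonneg (Real.sqrt_nonneg _) (Real.sqrt_nonneg _), ?_⟩
  have h1 := Real.sq_sqrt ha
  have h2 := Real.sq_sqrt hb
  have h3 := mul_nonneg (Real.sqrt_nonneg a) (Real.sqrt_nonneg b)
  nlinarith

/-- The bound at the time `2000 m` in terms of the bound at the time `m`. -/
lemma kap_le26 {Q c : ℝ} (hQ : 0 ≤ Q) (hc : 0 ≤ c) (hc1 : c ≤ 1) {m : ℕ} (hm : 1 ≤ m) :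
    kap Q c (2000 * m) ≤ Real.exp (Real.sqrt (Real.log 2000)) * kap Q c m := by
  unfold kap
  have hm0 : (0 : ℝ) < m := by exact_mod_cast hm
  have h1 : Real.log ((2000 * m : ℕ) : ℝ) = Real.log 2000 + Real.log m := by
    push_cast
    exact Real.log_mul (by norm_num) hm0.ne'
  have hl : 0 ≤ Real.log 2000 := Real.log_nonneg (by norm_num)
  have hlm : 0 ≤ Real.log m := Real.log_natCast_nonneg m
  have h2 := sqrt_add26 hl hlm
  have h3 : c * Real.sqrt (Real.log ((2000 * m : ℕ) : ℝ)) ≤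
      Real.sqrt (Real.log 2000) + c * Real.sqrt (Real.log m) := by
    rw [h1]
    have h4 : c * Real.sqrt (Real.log 2000 + Real.log m) ≤
        c * (Real.sqrt (Real.log 2000) + Real.sqrt (Real.log m)) :=
      mul_le_mul_of_nonneg_left h2 hc
    have h5 : c * Real.sqrt (Real.log 2000) ≤ 1 * Real.sqrt (Real.log 2000) :=
      mul_le_mul_of_nonneg_right hc1 (Real.sqrt_nonneg _)
    linarith
  have h6 : Real.exp (c * Real.sqrt (Real.log ((2000 * m : ℕ) : ℝ))) ≤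
      Real.exp (Real.sqrt (Real.log 2000)) * Real.exp (c * Real.sqrt (Real.log m)) := by
    rw [← Real.exp_add]
    exact Real.exp_le_exp.2 h3
  calc Q * Real.exp (c * Real.sqrt (Real.log ((2000 * m : ℕ) : ℝ)))
      ≤ Q * (Real.exp (Real.sqrt (Real.log 2000)) * Real.exp (c * Real.sqrt (Real.log m))) :=
        mul_le_mul_of_nonneg_left h6 hQ
    _ = Real.exp (Real.sqrt (Real.log 2000)) * (Q * Real.exp (c * Real.sqrt (Real.log m))) := by
        ring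

lemma le_kap26 {Q c : ℝ} (hQ : 0 ≤ Q) (hc : 0 ≤ c) (n : ℕ) : Q ≤ kap Q c n := by
  unfold kap
  have h1 : 1 ≤ Real.exp (c * Real.sqrt (Real.log n)) :=
    Real.one_le_exp (mul_nonneg hc (Real.sqrt_nonneg _))
  nlinarith

lemma RS_mono26 {d : ℕ} {ρ : Measure ℝ} [IsProbabilityMeasure ρ] {β : ℝ} {h : Vec d} {n p : ℕ}
    {M M' δ δ' : ℝ} (hM : M ≤ M') (hδ : δ ≤ δ') (hR : RS ρ β h n p M δ) :
    RS ρ β h n p M' δ' := by
  unfold RS at hR ⊢
  exact (measureReal_mono fun w hw => lt_of_le_of_lt hM hw).trans (hR.trans hδ)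

/-- Markov's bound of an upper deviation. -/
lemma markov26 {d : ℕ} {ρ : Measure ℝ} [IsProbabilityMeasure ρ] (hd : 0 < d) (hρ : EM ρ)
    (β : ℝ) (h : Vec d) (m : ℕ) {x : ℝ} (hx : 0 ≤ x) :
    x * (law d ρ).real {η | A ρ β h m + x < X β h η m} ≤ Fn ρ β h m := by
  have hi : Integrable (fun η => |X β h η m - A ρ β h m|) (law d ρ) :=
    (((concU hd hρ β h m).1).sub (integrable_const _)).abs
  have h1 := mul_meas_ge_le_integral_of_nonneg
    (Eventually.of_forall fun η => abs_nonneg (X β h η m - A ρ β h m)) hi x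
  have h2 : (law d ρ).real {η | A ρ β h m + x < X β h η m} ≤
      (law d ρ).real {η | x ≤ |X β h η m - A ρ β h m|} := by
    refine measureReal_mono fun η hη => ?_
    have h3 : A ρ β h m + x < X β h η m := hη
    have h4 : x ≤ X β h η m - A ρ β h m := by linarith
    exact h4.trans (le_abs_self _)
  exact (mul_le_mul_of_nonneg_left h2 hx).trans h1

/-- The choice of the scale: the probability beats the influence of the last rows. -/
lemma prob26 {cA q₀ CA CS Gc kx k1 Q j' : ℝ} (hcA : 0 < cA) (hq₀ : 0 < q₀) (hCA : 1 ≤ CA)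
    (hGc : 1 ≤ Gc) (hk1 : 1 ≤ k1) (hkx : 0 < kx) (hkG : kx ≤ Gc * k1)
    (hQk : Q ≤ k1) (hCS : 0 ≤ CS) (hj : 12 * CA + 1 ≤ j')
    (hQ1 : 10 * CS * Gc ^ (12 * CA) / (cA * q₀ ^ CA) ≤ Q) :
    CS * (10 / k1 ^ j') ≤ cA * (q₀ / kx ^ 12) ^ CA := by
  have hk0 : 0 < k1 := by linarith
  have hG0 : 0 < Gc := by linarith
  have hden : 0 < cA * q₀ ^ CA := by positivity
  have e1 : 10 * CS * Gc ^ (12 * CA) ≤ Q * (cA * q₀ ^ CA) := by
    rwa [div_le_iff₀ hden] at hQ1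
  have e2 : (q₀ / kx ^ 12) ^ CA = q₀ ^ CA / kx ^ (12 * CA) := by
    rw [Real.div_rpow hq₀.le (by positivity), Real.rpow_mul hkx.le]
    congr 2
    exact_mod_cast (Real.rpow_natCast kx 12).symm
  have e3 : kx ^ (12 * CA) ≤ Gc ^ (12 * CA) * k1 ^ (12 * CA) := by
    rw [← Real.mul_rpow hG0.le hk0.le]
    exact Real.rpow_le_rpow hkx.le hkG (by linarith)
  have e4 : k1 ^ (12 * CA) * Q ≤ k1 ^ j' := by
    have e5 : k1 ^ (12 * CA + 1) ≤ k1 ^ j' := Real.rpow_le_rpow_of_exponent_le hk1 hj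
    rw [Real.rpow_add hk0, Real.rpow_one] at e5
    have e6 : k1 ^ (12 * CA) * Q ≤ k1 ^ (12 * CA) * k1 :=
      mul_le_mul_of_nonneg_left hQk (by positivity)
    linarith
  have p1 : 0 < k1 ^ j' := by positivity
  have p2 : 0 < kx ^ (12 * CA) := by positivity
  have p3 : 0 < k1 ^ (12 * CA) := by positivity
  have p4 : 0 < Gc ^ (12 * CA) := by positivity
  rw [e2, mul_div_assoc', mul_div_assoc', div_le_div_iff₀ p1 p2]
  calc CS * 10 * kx ^ (12 * CA) ≤ CS * 10 * (Gc ^ (12 * CA) * k1 ^ (12 * CA)) :=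
        mul_le_mul_of_nonneg_left e3 (by positivity)
    _ = (10 * CS * Gc ^ (12 * CA)) * k1 ^ (12 * CA) := by ring
    _ ≤ (Q * (cA * q₀ ^ CA)) * k1 ^ (12 * CA) := mul_le_mul_of_nonneg_right e1 p3.le
    _ = (cA * q₀ ^ CA) * (k1 ^ (12 * CA) * Q) := by ring
    _ ≤ cA * q₀ ^ CA * k1 ^ j' := mul_le_mul_of_nonneg_left e4 hden.le

/-- The running maximum at `K n`. -/
lemma rrec26 {f : ℕ → ℝ} (hf : ∀ n, 0 ≤ f n) {n K : ℕ} (hK : 1 ≤ K) (hn : RRec f n) :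
    f (K * n) ≤ K * f n := by
  have hn1 := hn.1
  have hn0 : (0 : ℝ) < n := by exact_mod_cast hn1
  have hK1 : (1 : ℝ) ≤ K := by exact_mod_cast hK
  have h1 := hn.2 (K * n) (Nat.le_mul_of_pos_left n (by omega))
  have h2 : ((K * n : ℕ) : ℝ) / n = K := by
    push_cast
    field_simp
  rw [h2] at h1
  have h3 : (K : ℝ) ^ (2 / 3 : ℝ) ≤ K := by
    calc (K : ℝ) ^ (2 / 3 : ℝ) ≤ (K : ℝ) ^ (1 : ℝ) :=
          Real.rpow_le_rpow_of_exponent_le hK1 (by norm_num)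
      _ = K := Real.rpow_one _
  calc f (K * n) ≤ f n * (K : ℝ) ^ (2 / 3 : ℝ) := h1
    _ ≤ f n * K := mul_le_mul_of_nonneg_left h3 (hf n)
    _ = K * f n := by ring

/-- **LEAF REC** (second text). -/
theorem rec26 {ρ : Measure ℝ} [IsProbabilityMeasure ρ] (hρ : EM ρ) {β : ℝ} (hB : BalP 2 ρ β)
    (hA : AmpP 2 ρ β) (hS : SscF 2 ρ β) : RecQ ρ β := by
  intro c₀ κ c K Q₀ hc₀ hκ hκ1 hc hc1 hK hQ₀ hLm
  obtain ⟨cB, hcB, hB'⟩ := hB c₀ (c / 2) hc₀ (by linarith) K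
  obtain ⟨CS, δ₀, hCS, hδ₀, hS'⟩ := hS c₀ hc₀
  obtain ⟨t, ht⟩ : ∃ t : ℝ, t = max 1 (2 * (CS * K + 1) / c) := ⟨_, rfl⟩
  have ht1 : 1 ≤ t := by
    rw [ht]
    exact le_max_left _ _
  have ht2 : CS * K + 1 ≤ c * t / 2 := by
    have h1 : 2 * (CS * K + 1) / c ≤ t := by
      rw [ht]
      exact le_max_right _ _
    rw [div_le_iff₀ hc] at h1
    linarith
  obtain ⟨CA, cA, hCA, hcA, hA'⟩ := hA t ht1
  obtain ⟨Gc, hGc⟩ : ∃ x : ℝ, x = Real.exp (Real.sqrt (Real.log 2000)) := ⟨_, rfl⟩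
  have hGc1 : 1 ≤ Gc := by
    rw [hGc]
    exact Real.one_le_exp (Real.sqrt_nonneg _)
  obtain ⟨q₀, hq₀d⟩ : ∃ x : ℝ, x = min cB c := ⟨_, rfl⟩
  have hq₀ : 0 < q₀ := by
    rw [hq₀d]
    exact lt_min hcB hc
  have hq₀B : q₀ ≤ cB := by
    rw [hq₀d]
    exact min_le_left _ _
  have hq₀c : q₀ ≤ c := by
    rw [hq₀d]
    exact min_le_right _ _
  obtain ⟨j, hj⟩ : ∃ j : ℕ, j = ⌈12 * CA + 1⌉₊ := ⟨_, rfl⟩
  have hj1 : 12 * CA + 1 ≤ (j : ℝ) := by
    rw [hj]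
    exact Nat.le_ceil _
  have hj0 : 1 ≤ j := by
    have h1 : (1 : ℝ) ≤ j := by linarith
    exact_mod_cast h1
  obtain ⟨B₁, hB₁⟩ : ∃ x : ℝ, x = 10 * CS * Gc ^ (12 * CA) / (cA * q₀ ^ CA) := ⟨_, rfl⟩
  refine ⟨2 * CS, max Q₀ (max (10 / δ₀) B₁), 2 * K, 2 * j + 3, by linarith, le_max_left _ _,
    by omega, fun h v Q c' hQ hc' hc'1 hloc hD => ?_⟩
  have hQQ₀ : Q₀ ≤ Q := (le_max_left _ _).trans hQ
  have hQ1 : 1 ≤ Q := hQ₀.trans hQQ₀
  have hQ0 : 0 < Q := by linarith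
  have hQδ : 10 / δ₀ ≤ Q := ((le_max_left _ _).trans (le_max_right _ _)).trans hQ
  have hQB : B₁ ≤ Q := ((le_max_right _ _).trans (le_max_right _ _)).trans hQ
  obtain ⟨Cs, hCs⟩ := hLm h v Q c' hQQ₀ hc' hc'1 hloc hD
  obtain ⟨L₀, hL₀⟩ := Filter.eventually_atTop.1 (hD.rs j)
  have hkm := kap_mono32 (Q := Q) (c := c') hQ0.le hc'.le
  have hk1 := one_le_kap32 (Q := Q) (c := c') hQ1 hc'.le
  have hP1 := one_le_Ps32 (ρ := ρ) (β := β) h
  refine ⟨max Cs (Ps ρ β h L₀ * kap Q c' (2000 * L₀) ^ 12 / c ^ 2 + 1), fun n hR hn => ?_⟩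
  obtain ⟨m, hm1, hmK, hlm⟩ := hCs n hR ((le_max_left _ _).trans hn)
  have hbal := hB' h hloc n hR m hm1 hmK
  have hΨ1 := hP1 n
  have hΨ0 : 0 < Ps ρ β h n := by linarith
  -- the length `m` is large
  have hmL : L₀ ≤ m := by
    by_contra hcon
    rw [not_le] at hcon
    have hx : 0 ≤ c * Ps ρ β h n := by positivity
    have h1 := markov26 (ρ := ρ) (d := 2) (by norm_num) hρ β h m hx
    have h2 : Fn ρ β h m ≤ Ps ρ β h L₀ := by
      have := Fn_le_Ps32 (ρ := ρ) (β := β) h hcon.le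
      linarith
    have h3 : c * Ps ρ β h n * (c / kap Q c' (2000 * m) ^ 12) ≤ Ps ρ β h L₀ :=
      (mul_le_mul_of_nonneg_left hlm hx).trans (h1.trans h2)
    have hkp : 0 < kap Q c' (2000 * m) ^ 12 := by
      have := hk1 (2000 * m)
      positivity
    have h4 : c * Ps ρ β h n * (c / kap Q c' (2000 * m) ^ 12) =
        c ^ 2 * Ps ρ β h n / kap Q c' (2000 * m) ^ 12 := by
      ring
    rw [h4, div_le_iff₀ hkp] at h3
    have h5 : kap Q c' (2000 * m) ^ 12 ≤ kap Q c' (2000 * L₀) ^ 12 :=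
      pow_le_pow_left₀ (zero_le_one.trans (hk1 _)) (hkm (Nat.mul_le_mul_left _ hcon.le)) 12
    have h6 : c ^ 2 * Ps ρ β h n ≤ Ps ρ β h L₀ * kap Q c' (2000 * L₀) ^ 12 :=
      h3.trans (mul_le_mul_of_nonneg_left h5 (zero_le_one.trans (hP1 L₀)))
    have h7 : Ps ρ β h n ≤ Ps ρ β h L₀ * kap Q c' (2000 * L₀) ^ 12 / c ^ 2 := by
      rw [le_div_iff₀ (by positivity)]
      linarith
    have h8 := (le_max_right Cs _).trans hn
    linarith
  -- amplification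
  have hkx1 : 1 ≤ kap Q c' (2000 * m) := hk1 _
  have hkx0 : 0 < kap Q c' (2000 * m) := by linarith
  have hkp : 1 ≤ kap Q c' (2000 * m) ^ 12 := one_le_pow₀ hkx1
  have hq0 : 0 < q₀ / kap Q c' (2000 * m) ^ 12 := by positivity
  have hqB : q₀ / kap Q c' (2000 * m) ^ 12 ≤ cB := by
    refine le_trans ?_ hq₀B
    rw [div_le_iff₀ (by positivity)]
    nlinarith
  have hqc : q₀ / kap Q c' (2000 * m) ^ 12 ≤ c / kap Q c' (2000 * m) ^ 12 :=
    div_le_div_of_nonneg_right hq₀c (by positivity)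
  have hamp := hA' h m (A ρ β h m + c / 2 * Ps ρ β h n) (A ρ β h m + c * Ps ρ β h n)
    (q₀ / kap Q c' (2000 * m) ^ 12) hq0 (by nlinarith) (hqB.trans hbal) (hqc.trans hlm)
  obtain ⟨x, hx⟩ : ∃ x : ℝ, x = c * Ps ρ β h n + t * (c / 2 * Ps ρ β h n) := ⟨_, rfl⟩
  have e1 : A ρ β h m + c * Ps ρ β h n +
      t * (A ρ β h m + c * Ps ρ β h n - (A ρ β h m + c / 2 * Ps ρ β h n)) =
      A ρ β h m + x := by
    rw [hx]
    ring
  rw [e1] at hamp
  have hamp2 : cA * (q₀ / kap Q c' (2000 * m) ^ 12) ^ CA ≤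
      (law 2 ρ).real {η | A ρ β h m + x ≤ X β h η m} :=
    hamp.trans (measureReal_mono fun η hη => by
      have h1 : A ρ β h m + x < X β h η m := hη
      exact h1.le)
  -- the scale
  have hkm1 : 1 ≤ kap Q c' m := hk1 m
  have hkm0 : 0 < kap Q c' m := by linarith
  have hp := prob26 (cA := cA) (q₀ := q₀) (CA := CA) (CS := CS) (Gc := Gc)
    (kx := kap Q c' (2000 * m)) (k1 := kap Q c' m) (Q := Q) (j' := (j : ℝ)) hcA hq₀ hCA hGc1
    hkm1 hkx0 (by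
      rw [hGc]
      exact kap_le26 hQ0.le hc'.le hc'1 hm1) (le_kap26 hQ0.le hc'.le m) (by linarith) hj1
    (by rwa [← hB₁])
  rw [Real.rpow_natCast] at hp
  have hδ0 : 0 < 10 / kap Q c' m ^ j := by positivity
  have hδδ : 10 / kap Q c' m ^ j ≤ δ₀ := by
    have h1 : Q ≤ kap Q c' m ^ j :=
      (le_kap26 hQ0.le hc'.le m).trans (le_self_pow₀ hkm1 (by omega))
    rw [div_le_iff₀ hδ₀] at hQδ
    rw [div_le_iff₀ (by positivity)]
    calc (10 : ℝ) ≤ Q * δ₀ := hQδ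
      _ ≤ kap Q c' m ^ j * δ₀ := mul_le_mul_of_nonneg_right h1 hδ₀.le
      _ = δ₀ * kap Q c' m ^ j := by ring
  have hM1 : 1 ≤ kap Q c' (2 * m) ^ (2 * j + 3) := one_le_pow₀ (hk1 _)
  have hfin := hS' h hloc κ m x (kap Q c' (2 * m) ^ (2 * j + 3)) (10 / kap Q c' m ^ j)
    (K * Ps ρ β h n) hκ hκ1 hm1 (by linarith) hδ0 hδδ
    (fun L hL1 hL2 => by
      refine RS_mono26 ?_ ?_ (hL₀ L (hmL.trans hL1))
      · exact pow_le_pow_left₀ (zero_le_one.trans (hk1 _)) (hkm hL2) _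
      · exact div_le_div_of_nonneg_left (by norm_num) (by positivity)
          (pow_le_pow_left₀ hkm0.le (hkm hL1) _))
    (fun k hk => by
      have h1 : Ps ρ β h (K * n) ≤ K * Ps ρ β h n :=
        rrec26 (fun n => zero_le_one.trans (hP1 n)) hK hR
      have h2 := En_le_Ps32 (ρ := ρ) (β := β) h (hk.trans hmK)
      have h3 := Fn_le_Ps32 (ρ := ρ) (β := β) h (hk.trans hmK)
      exact ⟨by linarith, by linarith⟩)
    (hp.trans hamp2)
  -- the conclusion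
  have h9 : (CS * K + 1) * Ps ρ β h n ≤ c * t / 2 * Ps ρ β h n :=
    mul_le_mul_of_nonneg_right ht2 hΨ0.le
  have h10 : 0 ≤ c * Ps ρ β h n := by positivity
  have h11 : Ps ρ β h n ≤ CS * (kap Q c' (2 * m) ^ (2 * j + 3) + 1) := by
    have h12 : x = c * Ps ρ β h n + c * t / 2 * Ps ρ β h n := by
      rw [hx]
      ring
    nlinarith
  have h13 : kap Q c' (2 * m) ^ (2 * j + 3) ≤ kap Q c' (2 * K * n) ^ (2 * j + 3) := by
    refine pow_le_pow_left₀ (zero_le_one.trans (hk1 _)) (hkm ?_) _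
    rw [mul_assoc]
    exact Nat.mul_le_mul_left _ hmK
  calc Ps ρ β h n ≤ CS * (kap Q c' (2 * m) ^ (2 * j + 3) + 1) := h11
    _ ≤ CS * (kap Q c' (2 * K * n) ^ (2 * j + 3) + kap Q c' (2 * K * n) ^ (2 * j + 3)) :=
        mul_le_mul_of_nonneg_left (by linarith) (by linarith)
    _ = 2 * CS * kap Q c' (2 * K * n) ^ (2 * j + 3) := by ring

end Pool.Agent.W_7d29a1_SQ
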