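import Pool.Agent.W_7d29a1_SQ.SelQ67

/-!
The selection of the partners for a general gauge (helper67): at almost every velocity, for every
tilt whose tubes satisfy `R * Tb (R) ≤ G k n` for every `k`, the rows after `κ L` move the free
energy little.
-/

set_option autoImplicit false

namespace Pool.Agent.W_7d29a1_SQ

open MeasureTheory ProbabilityTheory Filter Topology Pool.Agent.W_MP_7d29a1_pr
  Pool.Agent.W_7d29a1_h46 Pool.Agent.W_7d29a1_h46u Pool.Agent.W_7d29a1_D2.B35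
  Pool.Agent.W_7d29a1_Q29 Pool.Agent.W_7d29a1_R34 Pool.Agent.W_7d29a1_SP Pool.Agent.W_7d29a1_SD

/-- The velocities with a tilt which is a slope and with the bound `G` from the time `N`. -/
def EG67 (d : ℕ) (ρ : Measure ℝ) (β : ℝ) (G : ℕ → ℝ) (N : ℕ) : Set (Vec d) :=
  {v | ∃ h : Vec d, (∀ u : Vec d, lam ρ β h + inner ℝ v u ≤ lam ρ β (h + u)) ∧
    ∀ n : ℕ, N ≤ n → ∀ R : ℝ, 1 ≤ R → R * Tb ρ β h v R n ≤ G n}

variable {d : ℕ} {ρ : Measure ℝ} [IsProbabilityMeasure ρ] {β : ℝ}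

/-- The selection for a general gauge. -/
theorem pairG67 (hd : 0 < d) (hρ : EM ρ) (G : ℕ → ℕ → ℝ) (hG1 : ∀ k, ∀ᶠ n in atTop, 1 ≤ G k n)
    (hG0 : ∃ k, Tendsto (fun n : ℕ => G k n / Real.sqrt n) atTop (𝓝 0)) :
    ∀ᵐ v : Vec d, ∀ h : Vec d,
      (∀ k : ℕ, ∀ᶠ n : ℕ in atTop, ∀ R : ℝ, 1 ≤ R → R * Tb ρ β h v R n ≤ G k n) →
      (∀ u : Vec d, lam ρ β h + inner ℝ v u ≤ lam ρ β (h + u)) ∧
      ∃ C : ℝ, 0 < C ∧ ∀ (k : ℕ) (κ : ℝ) (ε : ℕ → ℝ), 0 < κ → κ ≤ 1 →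
        (∀ᶠ n in atTop, 0 < ε n ∧ ε n ≤ 1) →
        Tendsto (fun n : ℕ => G k n / ε n / Real.sqrt n) atTop (𝓝 0) →
        ∀ᶠ L : ℕ in atTop,
          RS ρ β h L ⌊κ * L⌋₊ (C * (G k L / ε L / κ) ^ 2) (10 * ε L) := by
  classical
  have hann : ∀ᵐ v : Vec d, ∀ k N : ℕ, v ∈ EG67 d ρ β (G k) N →
      Sel70.Ann (EG67 d ρ β (G k) N) v :=
    ae_all_iff.2 fun k => ae_all_iff.2 fun N => Sel70.ae_ann hd (EG67 d ρ β (G k) N)
  filter_upwards [hann, Sel70.ae_lip (lam_convex hd hρ β)] with v hv1 hv2 h hneg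
  have hsl : ∀ u : Vec d, lam ρ β h + inner ℝ v u ≤ lam ρ β (h + u) := by
    obtain ⟨k₀, hk₀⟩ := hG0
    refine slopeQ67 hd hρ h v (fun n => 4 * G k₀ n) ?_ ?_
    · have h1 := hk₀.const_mul 4
      rw [mul_zero] at h1
      refine h1.congr fun n => ?_
      rw [mul_div_assoc]
    · filter_upwards [hneg k₀, hG1 k₀] with n hn h1
      have h2 := hn (4 * G k₀ n) (by linarith)
      have h3 : 0 < G k₀ n := by linarith
      have h4 : G k₀ n * Tb ρ β h v (4 * G k₀ n) n ≤ G k₀ n * (1 / 4) := by linarith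
      exact le_of_mul_le_mul_left h4 h3
  obtain ⟨C, δ, hC, hδ, hLip⟩ := hv2 h hsl
  refine ⟨hsl, 288 * C + 6, by positivity, fun k κ ε hκ hκ1 hε hlim => ?_⟩
  obtain ⟨N, hN⟩ := eventually_atTop.1 (hneg k)
  have hvE : v ∈ EG67 d ρ β (G k) N := ⟨h, hsl, hN⟩
  obtain ⟨r₀, hr₀, hA⟩ := hv1 k N hvE
  have hm0 : 0 < min r₀ δ := lt_min hr₀ hδ
  have ev1 : ∀ᶠ L : ℕ in atTop, 16 / κ * (G k L / ε L / Real.sqrt L) ≤ min r₀ δ := by
    have t := hlim.const_mul (16 / κ)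
    rw [mul_zero] at t
    exact t.eventually (ge_mem_nhds hm0)
  filter_upwards [ev1, hε, hG1 k, eventually_ge_atTop N, eventually_ge_atTop ⌈2 / κ⌉₊,
    eventually_ge_atTop 1] with L h1 hεL hGL h3 h4 h5
  have hL0 : (0 : ℝ) < L := by exact_mod_cast h5
  have hs0 : 0 < Real.sqrt L := Real.sqrt_pos.2 hL0
  have hκL : 2 ≤ κ * L := by
    have h6 : 2 / κ ≤ L := (Nat.le_ceil _).trans (by exact_mod_cast h4)
    rw [div_le_iff₀ hκ] at h6
    linarith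
  have hG0' : 0 < G k L := by linarith
  obtain ⟨R, hR⟩ : ∃ R : ℝ, R = G k L / ε L := ⟨_, rfl⟩
  rw [← hR] at h1 ⊢
  have hR1 : 1 ≤ R := by
    rw [hR, le_div_iff₀ hεL.1]
    linarith [hεL.2]
  have hRε : R * ε L = G k L := by
    rw [hR]
    exact div_mul_cancel₀ _ hεL.1.ne'
  have htub : ∀ h' v' : Vec d, R * Tb ρ β h' v' R L ≤ G k L → Tb ρ β h' v' R L ≤ ε L := by
    intro h' v' h6
    rw [← hRε] at h6
    exact le_of_mul_le_mul_left h6 (by linarith)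
  have hT1 : Tb ρ β h v R L ≤ ε L := htub h v (hN L h3 R hR1)
  obtain ⟨b, hb⟩ : ∃ b : ℝ, b = 8 * (R + 1) / κ := ⟨_, rfl⟩
  have hb0 : 0 < b := by
    rw [hb]
    positivity
  have hb1 : b ≤ 16 / κ * R := by
    rw [hb, div_mul_eq_mul_div]
    exact div_le_div_of_nonneg_right (by linarith) hκ.le
  have hrad : b / Real.sqrt L ≤ min r₀ δ := by
    refine le_trans (div_le_div_of_nonneg_right hb1 hs0.le) ?_
    rw [mul_div_assoc]
    exact h1
  obtain ⟨y, hy, hy1, hy2⟩ := hA (b / Real.sqrt L) (by positivity)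
    (hrad.trans (min_le_left _ _))
  obtain ⟨h', hsl', hbd'⟩ := hy
  have hlip := hLip h' y hsl' (hy2.trans (hrad.trans (min_le_right _ _)))
  have hT2 : Tb ρ β h' y R L ≤ ε L := htub h' y (hbd' L h3 R hR1)
  have hy3 : ‖y - v‖ * Real.sqrt L ≤ b := by
    rwa [le_div_iff₀ hs0] at hy2
  have hRS := pairS6 (ρ := ρ) hd β h h' v y L ⌊κ * L⌋₊ R b (C * b) (ε L) (by linarith)
    hb0.le (by positivity) hy3 ?_ ?_ hT1 hT2
  · refine RS_mono_left67 ?_ hRS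
    obtain ⟨q, hq⟩ : ∃ q : ℝ, q = R / κ := ⟨_, rfl⟩
    have hq1 : R ≤ q := by
      rw [hq, le_div_iff₀ hκ]
      nlinarith
    have hbq : b ≤ 16 * q := by
      rw [hq]
      refine hb1.trans (le_of_eq ?_)
      ring
    have hq0 : 0 < q := by linarith
    have e1 : b * b ≤ (16 * q) * (16 * q) := mul_le_mul hbq hbq hb0.le (by positivity)
    have e2 : b * R ≤ (16 * q) * q := mul_le_mul hbq hq1 (by linarith) (by positivity)
    have e3 : (1 : ℝ) ≤ q * q := by nlinarith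
    have e4 := mul_le_mul_of_nonneg_left e1 hC.le
    have e5 := mul_le_mul_of_nonneg_left e2 hC.le
    rw [← hq]
    nlinarith
  · calc ‖h' - h‖ * Real.sqrt L ≤ C * ‖y - v‖ * Real.sqrt L :=
          mul_le_mul_of_nonneg_right hlip hs0.le
      _ = C * (‖y - v‖ * Real.sqrt L) := by ring
      _ ≤ C * b := mul_le_mul_of_nonneg_left hy3 hC.le
  · have q1 : κ * L / 2 ≤ (⌊κ * L⌋₊ : ℝ) := by
      have := Nat.lt_floor_add_one (κ * L)
      linarith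
    have q2 : κ * L / 2 * (b / Real.sqrt L / 2) ≤ (⌊κ * L⌋₊ : ℝ) * ‖y - v‖ :=
      mul_le_mul q1 hy1 (by positivity) (Nat.cast_nonneg _)
    refine lt_of_lt_of_le ?_ q2
    have q3 : κ * L / 2 * (b / Real.sqrt L / 2) = 2 * (R + 1) * Real.sqrt L := by
      have q4 : κ * L / 2 * (b / Real.sqrt L / 2) = 2 * (R + 1) * (L / Real.sqrt L) := by
        rw [hb]
        field_simp
        ring
      rw [q4, Real.div_sqrt]
    rw [q3]
    exact mul_lt_mul_of_pos_right (by linarith) hs0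

/-- The selection for powers. -/
theorem pairP67 (hd : 0 < d) (hρ : EM ρ) :
    ∀ᵐ v : Vec d, ∀ h : Vec d,
      (∀ c : ℝ, 0 < c → ∀ᶠ n : ℕ in atTop, ∀ R : ℝ, 1 ≤ R →
        R * Tb ρ β h v R n ≤ (n : ℝ) ^ c) →
      (∀ u : Vec d, lam ρ β h + inner ℝ v u ≤ lam ρ β (h + u)) ∧
      ∀ c a κ : ℝ, 0 < c → 0 ≤ a → a + c < 1 / 2 → 0 < κ → κ ≤ 1 → ∀ᶠ L : ℕ in atTop,
        RS ρ β h L ⌊κ * L⌋₊ ((L : ℝ) ^ (2 * a + 2 * c)) (10 * (L : ℝ) ^ (-a)) := by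
  have hlim0 : ∀ x : ℝ, x < 0 → Tendsto (fun n : ℕ => (n : ℝ) ^ x) atTop (𝓝 0) := by
    intro x hx
    have h1 := (tendsto_rpow_neg_atTop (y := -x) (by linarith)).comp
      (tendsto_natCast_atTop_atTop (R := ℝ))
    rw [neg_neg] at h1
    exact h1
  have hsq : ∀ n : ℕ, Real.sqrt n = (n : ℝ) ^ (1 / 2 : ℝ) := fun n => Real.sqrt_eq_rpow _
  filter_upwards [pairG67 (ρ := ρ) (β := β) hd hρ
    (fun k n => (n : ℝ) ^ (1 / ((k : ℝ) + 1))) (fun k => by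
      filter_upwards [eventually_ge_atTop 1] with n hn
      exact Real.one_le_rpow (by exact_mod_cast hn) (by positivity))
    ⟨3, by
      refine (hlim0 (-(1 / 4)) (by norm_num)).congr' ?_
      filter_upwards [eventually_ge_atTop 1] with n hn
      have hn0 : (0 : ℝ) < n := by exact_mod_cast hn
      rw [hsq, ← Real.rpow_sub hn0]
      norm_num⟩] with v hv h hneg
  obtain ⟨h1, C, hC, H⟩ := hv h fun k => hneg _ (by positivity)
  refine ⟨h1, fun c a κ hc ha hac hκ hκ1 => ?_⟩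
  obtain ⟨k, hk⟩ := exists_nat_one_div_lt (show (0 : ℝ) < c by exact hc)
  have hkk : 0 < c - 1 / ((k : ℝ) + 1) := by linarith
  have hcon := H k κ (fun n => (n : ℝ) ^ (-a)) hκ hκ1 (by
    filter_upwards [eventually_ge_atTop 1] with n hn
    have hn1 : (1 : ℝ) ≤ n := by exact_mod_cast hn
    exact ⟨Real.rpow_pos_of_pos (by linarith) _,
      Real.rpow_le_one_of_one_le_of_nonpos hn1 (by linarith)⟩) (by
    refine (hlim0 (1 / ((k : ℝ) + 1) + a - 1 / 2) (by linarith)).congr' ?_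
    filter_upwards [eventually_ge_atTop 1] with n hn
    have hn0 : (0 : ℝ) < n := by exact_mod_cast hn
    rw [hsq, ← Real.rpow_sub hn0, ← Real.rpow_sub hn0]
    congr 1
    ring)
  have hD : ∀ᶠ L : ℕ in atTop, C / κ ^ 2 ≤ (L : ℝ) ^ (2 * (c - 1 / ((k : ℝ) + 1))) :=
    ((tendsto_rpow_atTop (by linarith)).comp
      (tendsto_natCast_atTop_atTop (R := ℝ))).eventually_ge_atTop _
  filter_upwards [hcon, hD, eventually_ge_atTop 1] with L h2 h3 h4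
  have hL0 : (0 : ℝ) < L := by exact_mod_cast h4
  refine RS_mono_left67 ?_ h2
  have e1 : (L : ℝ) ^ (1 / ((k : ℝ) + 1)) / (L : ℝ) ^ (-a) =
      (L : ℝ) ^ (1 / ((k : ℝ) + 1) + a) := by
    rw [← Real.rpow_sub hL0]
    congr 1
    ring
  rw [e1, div_pow, ← Real.rpow_natCast ((L : ℝ) ^ (1 / ((k : ℝ) + 1) + a)) 2,
    ← Real.rpow_mul hL0.le, ← mul_div_assoc, mul_comm C, mul_div_assoc]
  have e2 : (L : ℝ) ^ (2 * a + 2 * c) = (L : ℝ) ^ ((1 / ((k : ℝ) + 1) + a) * ((2 : ℕ) : ℝ)) *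
      (L : ℝ) ^ (2 * (c - 1 / ((k : ℝ) + 1))) := by
    rw [← Real.rpow_add hL0]
    congr 1
    push_cast
    ring
  rw [e2]
  exact mul_le_mul_of_nonneg_left h3 (Real.rpow_pos_of_pos hL0 _).le

end Pool.Agent.W_7d29a1_SQ
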