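import Pool.Agent.W_7d29a1_SQ.DefsSQ
import Pool.Agent.W_7d29a1_SP.Seq69

/-!
THEOREM SQ (helper32), leaf SEQ (helper69): subadditive sequences.
-/

open Finset

namespace Pool.Agent.W_7d29a1_SQ

namespace SeqQ69

open Pool.Agent.W_7d29a1_SP.Seq69

variable {E : ℕ → ℝ}

/-- fourth root -/
noncomputable def q (m : ℕ) : ℝ := (m : ℝ) ^ (1 / 4 : ℝ)

theorem q_nonneg (m : ℕ) : 0 ≤ q m := Real.rpow_nonneg (Nat.cast_nonneg m) _

theorem q_pos {m : ℕ} (h : 1 ≤ m) : 0 < q m :=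
  Real.rpow_pos_of_pos (by exact_mod_cast (by omega : 0 < m)) _

theorem q_four (m : ℕ) : q m ^ 4 = m := by
  unfold q
  rw [← Real.rpow_natCast, ← Real.rpow_mul (Nat.cast_nonneg m)]
  norm_num

theorem q_three (m : ℕ) : q m ^ 3 = (m : ℝ) ^ (3 / 4 : ℝ) := by
  unfold q
  rw [← Real.rpow_natCast, ← Real.rpow_mul (Nat.cast_nonneg m)]
  norm_num

theorem q_mono {m n : ℕ} (h : m ≤ n) : q m ≤ q n := by
  unfold q
  exact Real.rpow_le_rpow (Nat.cast_nonneg m) (by exact_mod_cast h) (by norm_num)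

theorem em_bound' {C : ℝ} (hE : ∀ n : ℕ, E n ≤ C * (n : ℝ) ^ (7 / 10 : ℝ)) (hC : 0 ≤ C)
    (m : ℕ) (hm : 1 ≤ m) : em E m ≤ C * (m : ℝ) ^ (7 / 10 : ℝ) := by
  have hmp : (0 : ℝ) < m := by exact_mod_cast (by omega : 0 < m)
  unfold Pool.Agent.W_7d29a1_SP.Seq69.em
  rw [div_le_iff₀ hmp]
  unfold S
  calc ∑ t ∈ Icc 1 m, E t ≤ ∑ t ∈ Icc 1 m, (C * (m : ℝ) ^ (7 / 10 : ℝ)) := by
        refine Finset.sum_le_sum fun t ht => ?_
        refine (hE t).trans (mul_le_mul_of_nonneg_left ?_ hC)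
        refine Real.rpow_le_rpow (Nat.cast_nonneg t) ?_ (by norm_num)
        exact_mod_cast (Finset.mem_Icc.mp ht).2
    _ = (C * (m : ℝ) ^ (7 / 10 : ℝ)) * m := by
        rw [Finset.sum_const, Nat.card_Icc, nsmul_eq_mul]
        simp
        ring

/-- choice of the scale: `n₀`, `N` of the page -/
theorem scale' (h0 : E 0 = 0) (hn : ∀ n, 0 ≤ E n)
    (hs : ∀ a b, E (a + b) ≤ E a + E b) {C : ℝ}
    (hE : ∀ n : ℕ, E n ≤ C * (n : ℝ) ^ (7 / 10 : ℝ))
    {n m₀ : ℕ} (hm : m₀ ≤ n) (hpos : 0 < E m₀) :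
    ∃ n₀ N : ℕ, 1 ≤ n₀ ∧ n₀ ≤ n ∧ n₀ ≤ N ∧ 0 < em E n₀ ∧
      (∀ m, 1 ≤ m → m ≤ n → em E m ≤ em E n₀) ∧
      (∀ m, n₀ ≤ m → em E m * q N ^ 3 ≤ em E N * q m ^ 3) := by
  have hm1 : 1 ≤ m₀ := by
    rcases Nat.eq_zero_or_pos m₀ with h | h
    · rw [h, h0] at hpos
      exact absurd hpos (lt_irrefl _)
    · exact h
  have hm₀p : (0 : ℝ) < m₀ := by exact_mod_cast (by omega : 0 < m₀)
  have hC : 0 < C := by
    have h1 := lt_of_lt_of_le hpos (hE m₀)
    by_contra hcon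
    push Not at hcon
    have h2 : 0 < (m₀ : ℝ) ^ (7 / 10 : ℝ) := Real.rpow_pos_of_pos hm₀p _
    nlinarith
  obtain ⟨n₀, hn₀, hmax⟩ := Finset.exists_max_image (Icc 1 n) (em E) ⟨m₀, by
    rw [Finset.mem_Icc]; exact ⟨hm1, hm⟩⟩
  rw [Finset.mem_Icc] at hn₀
  have hem0 : 0 < em E n₀ := by
    have h1 := hmax m₀ (by rw [Finset.mem_Icc]; exact ⟨hm1, hm⟩)
    have h2 := le_two_em h0 hn hs m₀ hm1
    linarith
  have hq0 := q_pos hn₀.1
  set f : ℕ → ℝ := fun m => em E m / q m ^ 3 with hf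
  have hf0 : 0 < f n₀ := by
    simp only [hf]
    positivity
  -- for large `m`, `f m < f n₀`
  obtain ⟨M, hM⟩ : ∃ M : ℕ, ∀ m, M ≤ m → f m < f n₀ := by
    have ht : Filter.Tendsto (fun n : ℕ => C * ((n : ℝ) ^ (-(1 / 20 : ℝ)))) Filter.atTop
        (nhds 0) := by
      have h1 := (tendsto_rpow_neg_atTop (by norm_num : (0 : ℝ) < 1 / 20)).comp
        (tendsto_natCast_atTop_atTop (R := ℝ))
      have h2 := h1.const_mul C
      simpa using h2
    have hev := ht.eventually (gt_mem_nhds hf0)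
    rw [Filter.eventually_atTop] at hev
    obtain ⟨n₁, hn₁⟩ := hev
    refine ⟨max 1 n₁, fun m hMm => ?_⟩
    have hm1' : 1 ≤ m := le_trans (le_max_left _ _) hMm
    have h1 := hn₁ m (le_trans (le_max_right _ _) hMm)
    have hmp : (0 : ℝ) < m := by exact_mod_cast (by omega : 0 < m)
    have h2 := em_bound' hE hC.le m hm1'
    refine lt_of_le_of_lt ?_ h1
    simp only [hf]
    rw [q_three, div_le_iff₀ (Real.rpow_pos_of_pos hmp _), mul_assoc, ← Real.rpow_add hmp]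
    norm_num
    norm_num at h2
    exact h2
  obtain ⟨N, hN, hNmax⟩ := Finset.exists_max_image (Icc n₀ (max n₀ M)) f ⟨n₀, by
    rw [Finset.mem_Icc]; exact ⟨le_refl _, le_max_left _ _⟩⟩
  rw [Finset.mem_Icc] at hN
  have hqN := q_pos (le_trans hn₀.1 hN.1)
  refine ⟨n₀, N, hn₀.1, hn₀.2, hN.1, hem0, fun m h1 h2 => hmax m (by
    rw [Finset.mem_Icc]; exact ⟨h1, h2⟩), fun m hm' => ?_⟩
  have hqm := q_pos (le_trans hn₀.1 hm')
  have hle : f m ≤ f N := by
    rcases le_or_gt m (max n₀ M) with h | h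
    · exact hNmax m (by rw [Finset.mem_Icc]; exact ⟨hm', h⟩)
    · have h1 : f m < f n₀ := hM m (le_of_lt (lt_of_le_of_lt (le_max_right _ _) h))
      have h2 : f n₀ ≤ f N := hNmax n₀ (by
        rw [Finset.mem_Icc]; exact ⟨le_refl _, le_max_left _ _⟩)
      linarith
  simp only [hf] at hle
  rw [div_le_div_iff₀ (by positivity) (by positivity)] at hle
  exact hle

/-- the arithmetic sum -/
theorem sum_kernel' {N : ℕ} (hN : 1000 ≤ N) :
    ∑ a ∈ Icc 1 N, (2 / 3 * (((a : ℝ) + N) / N) + 9 / 25) * ((a : ℝ) + N) ≤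
      (21 / 10) * (N : ℝ) ^ 2 := by
  have hNp : (0 : ℝ) < N := by exact_mod_cast (by omega : 0 < N)
  have hN' : (1000 : ℝ) ≤ N := by exact_mod_cast hN
  have h1 : ∀ a : ℕ, (2 / 3 * (((a : ℝ) + N) / N) + 9 / 25) * ((a : ℝ) + N) =
      (2 / 3) * ((a : ℝ) ^ 2 / N) + (4 / 3 + 9 / 25) * a + (2 / 3 + 9 / 25) * N := by
    intro a
    field_simp
    ring
  rw [Finset.sum_congr rfl fun a _ => h1 a, Finset.sum_add_distrib,
    Finset.sum_add_distrib, ← Finset.mul_sum, ← Finset.sum_div, ← Finset.mul_sum, sum_id, sum_sq,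
    Finset.sum_const, Nat.card_Icc, nsmul_eq_mul]
  have h2 : (N : ℝ) * (N + 1) * (2 * N + 1) / 6 / N = (N + 1) * (2 * N + 1) / 6 := by
    field_simp
  rw [h2]
  have h3 : ((N + 1 - 1 : ℕ) : ℝ) = N := by simp
  rw [h3]
  nlinarith

theorem sum_shift (E : ℕ → ℝ) (a N : ℕ) :
    ∑ b ∈ Icc 1 N, E (a + b) = S E (a + N) - S E a := by
  unfold S
  induction N with
  | zero => simp
  | succ k ih =>
    rw [Finset.sum_Icc_succ_top (by omega), ih, ← add_assoc, Finset.sum_Icc_succ_top (by omega)]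
    ring

theorem sum_Ioc_lin (M k : ℕ) (c : ℝ) :
    ∑ s ∈ Ioc M (M + k), (2 * (s : ℝ) - c) = k * (2 * M + k + 1 - c) := by
  induction k with
  | zero => simp
  | succ k ih =>
    rw [← add_assoc, Finset.sum_Ioc_succ_top (by omega), ih]
    push_cast
    ring

/-- the partial sums are not small -/
theorem sum_S_ge (hn : ∀ n, 0 ≤ E n) {N : ℕ} (hN : 1 ≤ N)
    (h2 : ∀ t ≤ N, E t ≤ 2 * em E N) :
    (N : ℝ) ^ 2 / 4 * em E N ≤ ∑ s ∈ Icc 1 N, S E s := by
  have hNp : (0 : ℝ) < N := by exact_mod_cast (by omega : 0 < N)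
  set e := em E N with he
  have he0 : 0 ≤ e := em_nonneg hn N
  have hSN : S E N = e * N := S_eq N hN
  have hlow : ∀ s, s ≤ N → (2 * (s : ℝ) - N) * e ≤ S E s := by
    intro s hs
    have h3 : S E N - S E s = ∑ b ∈ Icc 1 (N - s), E (s + b) := by
      rw [sum_shift, show s + (N - s) = N by omega]
    have h4 : ∑ b ∈ Icc 1 (N - s), E (s + b) ≤ ∑ b ∈ Icc 1 (N - s), (2 * e) := by
      refine Finset.sum_le_sum fun b hb => ?_
      rw [Finset.mem_Icc] at hb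
      exact h2 _ (by omega)
    rw [Finset.sum_const, Nat.card_Icc, Nat.add_sub_cancel, nsmul_eq_mul, Nat.cast_sub hs] at h4
    nlinarith
  obtain ⟨M, k, hMk, hM1, hM2⟩ : ∃ M k : ℕ, M + k = N ∧ 2 * M ≤ N ∧ N ≤ 2 * M + 1 :=
    ⟨N / 2, N - N / 2, by omega, by omega, by omega⟩
  have hsub : Ioc M (M + k) ⊆ Icc 1 N := by
    intro x hx
    rw [Finset.mem_Ioc] at hx
    rw [Finset.mem_Icc]
    omega
  have h5 : ∑ s ∈ Ioc M (M + k), S E s ≤ ∑ s ∈ Icc 1 N, S E s :=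
    Finset.sum_le_sum_of_subset_of_nonneg hsub fun i _ _ => S_nonneg hn i
  have h6 : ∑ s ∈ Ioc M (M + k), (2 * (s : ℝ) - N) * e ≤ ∑ s ∈ Ioc M (M + k), S E s := by
    refine Finset.sum_le_sum fun s hs => ?_
    rw [Finset.mem_Ioc] at hs
    exact hlow s (by omega)
  rw [← Finset.sum_mul, sum_Ioc_lin] at h6
  have h7 : (N : ℝ) = M + k := by exact_mod_cast hMk.symm
  have h8 : (2 : ℝ) * M ≤ N := by exact_mod_cast hM1
  have h9 : (N : ℝ) ≤ 2 * M + 1 := by exact_mod_cast hM2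
  have h10 : (N : ℝ) ^ 2 / 4 ≤ (k : ℝ) * (2 * M + k + 1 - N) := by
    have h11 : (k : ℝ) = N - M := by linarith
    rw [h11]
    nlinarith
  have h12 := mul_le_mul_of_nonneg_right h10 he0
  linarith

/-- the double sum of `E (a+b)` -/
theorem double_le' (hn : ∀ n, 0 ≤ E n) {N : ℕ} (hN : 1000 ≤ N)
    (hb : ∀ m, N ≤ m → em E m * q N ^ 3 ≤ em E N * q m ^ 3)
    (h2 : ∀ t ≤ N, E t ≤ 2 * em E N) :
    ∑ a ∈ Icc 1 N, ∑ b ∈ Icc 1 N, E (a + b) ≤ (37 / 20) * (N : ℝ) ^ 2 * em E N := by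
  have hNp : (0 : ℝ) < N := by exact_mod_cast (by omega : 0 < N)
  have he := em_nonneg hn N
  have hqN : 0 < q N := q_pos (by omega)
  have h1 : ∑ a ∈ Icc 1 N, ∑ b ∈ Icc 1 N, E (a + b) =
      ∑ a ∈ Icc 1 N, S E (a + N) - ∑ a ∈ Icc 1 N, S E a := by
    rw [← Finset.sum_sub_distrib]
    exact Finset.sum_congr rfl fun a _ => sum_shift E a N
  have h3 : ∑ a ∈ Icc 1 N, S E (a + N) ≤
      ∑ a ∈ Icc 1 N, ((2 / 3 * (((a : ℝ) + N) / N) + 9 / 25) * ((a : ℝ) + N)) * em E N := by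
    refine Finset.sum_le_sum fun a _ => ?_
    have h4 : S E (a + N) = em E (a + N) * ((a + N : ℕ) : ℝ) := S_eq _ (by omega)
    have h5 := hb (a + N) (by omega)
    set z : ℝ := q (a + N) / q N with hz
    have hz0 : 0 ≤ z := div_nonneg (q_nonneg _) hqN.le
    have hz4 : z ^ 4 = ((a : ℝ) + N) / N := by
      rw [hz, div_pow, q_four, q_four]
      push_cast
      rfl
    have h6 : em E (a + N) ≤ em E N * z ^ 3 := by
      rw [hz, div_pow, ← mul_div_assoc, le_div_iff₀ (by positivity)]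
      exact h5
    have h7 : z ^ 3 ≤ 2 / 3 * z ^ 4 + 9 / 25 := by
      nlinarith [sq_nonneg (z ^ 2 - 9 / 8 * z), sq_nonneg (z - 9 / 8), sq_nonneg (z ^ 2 - 81 / 64),
        mul_nonneg hz0 (sq_nonneg (z - 9 / 8))]
    rw [hz4] at h7
    rw [h4]
    push_cast
    have h8 : em E (a + N) ≤ em E N * (2 / 3 * (((a : ℝ) + N) / N) + 9 / 25) :=
      h6.trans (mul_le_mul_of_nonneg_left h7 he)
    have h9 : (0 : ℝ) ≤ (a : ℝ) + N := by positivity
    have h10 := mul_le_mul_of_nonneg_right h8 h9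
    linarith
  rw [← Finset.sum_mul] at h3
  have h4 := mul_le_mul_of_nonneg_right (sum_kernel' hN) he
  have h5 := sum_S_ge hn (by omega : 1 ≤ N) h2
  rw [h1]
  nlinarith

/-- the pairs -/
theorem pairs' (hn : ∀ n, 0 ≤ E n) {N : ℕ} (hN : 1000 ≤ N)
    (hpos : 0 < em E N)
    (hb : ∀ m, N ≤ m → em E m * q N ^ 3 ≤ em E N * q m ^ 3)
    (h2 : ∀ t ≤ N, E t ≤ 2 * em E N) :
    (N : ℝ) ^ 2 / 32 ≤ ((((Icc 1 N) ×ˢ (Icc 1 N)).filter
      (fun p : ℕ × ℕ => em E N / 40 ≤ E p.1 + E p.2 - E (p.1 + p.2))).card : ℝ) := by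
  have hNp : (0 : ℝ) < N := by exact_mod_cast (by omega : 0 < N)
  have h3' := double_le' hn hN hb h2
  set e := em E N with he
  set Q := (Icc 1 N) ×ˢ (Icc 1 N) with hQ
  set g : ℕ × ℕ → ℝ := fun p => E p.1 + E p.2 - E (p.1 + p.2) with hg
  have hQc : (Q.card : ℝ) = (N : ℝ) ^ 2 := by
    rw [hQ, Finset.card_product, Nat.card_Icc, Nat.add_sub_cancel]
    push_cast
    ring
  have hlow : (3 / 20) * (N : ℝ) ^ 2 * e ≤ ∑ p ∈ Q, g p := by
    have h4 : ∑ p ∈ Q, g p = ∑ a ∈ Icc 1 N, ∑ b ∈ Icc 1 N, (E a + E b - E (a + b)) := by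
      rw [hQ, Finset.sum_product]
    have h5 : ∑ a ∈ Icc 1 N, ∑ b ∈ Icc 1 N, (E a + E b - E (a + b)) =
        2 * N * S E N - ∑ a ∈ Icc 1 N, ∑ b ∈ Icc 1 N, E (a + b) := by
      simp only [Finset.sum_sub_distrib, Finset.sum_add_distrib, Finset.sum_const, Nat.card_Icc,
        nsmul_eq_mul, ← Finset.mul_sum]
      unfold S
      have : ((N + 1 - 1 : ℕ) : ℝ) = N := by simp
      rw [this]
      ring
    have h6 : S E N = e * N := S_eq N (by omega)
    rw [h4, h5, h6]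
    nlinarith
  have hup : ∑ p ∈ Q, g p ≤ (Q.filter (fun p => e / 40 ≤ g p)).card * (4 * e) +
      (N : ℝ) ^ 2 * (e / 40) := by
    have h3 : ∀ p ∈ Q, g p ≤ (if e / 40 ≤ g p then 4 * e else 0) + e / 40 := by
      intro p hp
      rw [hQ, Finset.mem_product, Finset.mem_Icc, Finset.mem_Icc] at hp
      split_ifs with h
      · have h4 := h2 p.1 hp.1.2
        have h5 := h2 p.2 hp.2.2
        have h6 := hn (p.1 + p.2)
        simp only [hg]
        linarith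
      · push Not at h
        linarith
    refine (Finset.sum_le_sum h3).trans ?_
    rw [Finset.sum_add_distrib, Finset.sum_const, nsmul_eq_mul, hQc, ← Finset.sum_filter,
      Finset.sum_const, nsmul_eq_mul]
  have h8 : ((N : ℝ) ^ 2 / 32) * (4 * e) ≤
      ((Q.filter (fun p => e / 40 ≤ g p)).card : ℝ) * (4 * e) := by
    linarith
  exact le_of_mul_le_mul_right h8 (by positivity)

/-- pigeonhole -/
theorem pigeon' (hn : ∀ n, 0 ≤ E n) {N : ℕ} (hN : 1000 ≤ N)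
    (hpos : 0 < em E N)
    (hb : ∀ m, N ≤ m → em E m * q N ^ 3 ≤ em E N * q m ^ 3)
    (h2 : ∀ t ≤ N, E t ≤ 2 * em E N) :
    ∃ (L : ℕ) (S : Finset ℕ), L ≤ 2 * N ∧ (N : ℝ) / 100 ≤ S.card ∧ ∀ t ∈ S,
      t ≤ L ∧ (N : ℝ) / 1000 ≤ t ∧ t ≤ N ∧ (N : ℝ) / 1000 ≤ (L - t : ℕ) ∧ L - t ≤ N ∧
      em E N / 40 ≤ E t + E (L - t) - E L := by
  classical
  have hNp : (0 : ℝ) < N := by exact_mod_cast (by omega : 0 < N)
  have hpairs := pairs' hn hN hpos hb h2
  set e := em E N with he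
  set Q := (Icc 1 N) ×ˢ (Icc 1 N) with hQ
  set P := Q.filter (fun p : ℕ × ℕ => e / 40 ≤ E p.1 + E p.2 - E (p.1 + p.2)) with hP
  set P' := P.filter (fun p : ℕ × ℕ => (N : ℝ) / 1000 ≤ (p.1 : ℝ) ∧ (N : ℝ) / 1000 ≤ (p.2 : ℝ))
    with hP'
  set F := (Icc 1 N).filter (fun a : ℕ => (a : ℝ) < (N : ℝ) / 1000) with hF
  have hsub : P ⊆ P' ∪ (F ×ˢ (Icc 1 N) ∪ (Icc 1 N) ×ˢ F) := by
    intro p hp
    have hp2 := hp
    rw [hP, Finset.mem_filter, hQ, Finset.mem_product] at hp2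
    rw [Finset.mem_union, Finset.mem_union, Finset.mem_product, Finset.mem_product]
    by_cases h3 : (N : ℝ) / 1000 ≤ (p.1 : ℝ)
    · by_cases h4 : (N : ℝ) / 1000 ≤ (p.2 : ℝ)
      · left
        rw [hP', Finset.mem_filter]
        exact ⟨hp, h3, h4⟩
      · right; right
        push Not at h4
        exact ⟨hp2.1.1, by rw [hF, Finset.mem_filter]; exact ⟨hp2.1.2, h4⟩⟩
    · right; left
      push Not at h3
      exact ⟨by rw [hF, Finset.mem_filter]; exact ⟨hp2.1.1, h3⟩, hp2.1.2⟩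
  have hcard : (P.card : ℝ) ≤ P'.card + ((F.card : ℝ) * N + N * F.card) := by
    have h3 := (Finset.card_le_card hsub).trans (Finset.card_union_le _ _)
    have h4 := Finset.card_union_le (F ×ˢ (Icc 1 N)) ((Icc 1 N) ×ˢ F)
    rw [Finset.card_product, Finset.card_product, Nat.card_Icc, Nat.add_sub_cancel] at h4
    have h5 : P.card ≤ P'.card + (F.card * N + N * F.card) := by omega
    exact_mod_cast h5
  have hFc : (F.card : ℝ) ≤ (N : ℝ) / 1000 := few
  have hP'c : (1 / 50) * (N : ℝ) ^ 2 ≤ (P'.card : ℝ) := by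
    have h3 : (F.card : ℝ) * N ≤ (N : ℝ) / 1000 * N := mul_le_mul_of_nonneg_right hFc hNp.le
    nlinarith
  -- pigeonhole over `L = a + b`
  have hmaps : ∀ p ∈ P', p.1 + p.2 ∈ Icc 1 (2 * N) := by
    intro p hp
    rw [hP', Finset.mem_filter, hP, Finset.mem_filter, hQ, Finset.mem_product,
      Finset.mem_Icc, Finset.mem_Icc] at hp
    rw [Finset.mem_Icc]
    omega
  have hne : (Icc 1 (2 * N)).Nonempty := ⟨1, by rw [Finset.mem_Icc]; omega⟩
  obtain ⟨L, hL, hLc⟩ := Finset.exists_le_card_fiber_of_nsmul_le_card_of_maps_to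
    (M := ℝ) (b := (N : ℝ) / 100) hmaps hne (by
      rw [Nat.card_Icc, Nat.add_sub_cancel, nsmul_eq_mul]
      push_cast
      nlinarith)
  rw [Finset.mem_Icc] at hL
  refine ⟨L, (P'.filter (fun p : ℕ × ℕ => p.1 + p.2 = L)).image Prod.fst, hL.2, ?_, ?_⟩
  · rw [Finset.card_image_of_injOn]
    · exact hLc
    · intro p hp q' hq' hpq
      rw [Finset.mem_coe, Finset.mem_filter] at hp hq'
      have h3 := hp.2
      have h4 := hq'.2
      ext
      · exact hpq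
      · have h5 : p.1 = q'.1 := hpq
        omega
  · intro t ht
    rw [Finset.mem_image] at ht
    obtain ⟨p, hp, rfl⟩ := ht
    rw [Finset.mem_filter, hP', Finset.mem_filter, hP, Finset.mem_filter, hQ,
      Finset.mem_product, Finset.mem_Icc, Finset.mem_Icc] at hp
    obtain ⟨⟨⟨⟨h3, h4⟩, h5⟩, h6, h7⟩, h8⟩ := hp
    have h9 : L - p.1 = p.2 := by omega
    refine ⟨by omega, h6, h3.2, ?_, by omega, ?_⟩
    · rw [h9]; exact h7
    · rw [h9, ← h8]; exact h5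

end SeqQ69

open SeqQ69 Pool.Agent.W_7d29a1_SP.Seq69

/-- LEAF SEQ of THEOREM SQ. -/
theorem seqQ69 : SeqQ := by
  refine ⟨1000, fun E C h0 hn hs hC n k hk hpos => ?_⟩
  obtain ⟨n₀, N, h1, h2, h3, h4, h5, h6⟩ := scale' h0 hn hs hC hk hpos
  have hNp : (0 : ℝ) < N := by exact_mod_cast (by omega : 0 < N)
  have hN1 : 1 ≤ N := by omega
  have he0 := em_nonneg hn N
  have hqN := q_pos hN1
  -- `em n₀ ≤ em N`
  have h7 := h6 n₀ (le_refl _)
  have h8 : em E n₀ ≤ em E N := by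
    have h9 : q n₀ ^ 3 ≤ q N ^ 3 := pow_le_pow_left₀ (q_nonneg _) (q_mono h3) 3
    have h10 : em E n₀ * q N ^ 3 ≤ em E N * q N ^ 3 :=
      h7.trans (mul_le_mul_of_nonneg_left h9 he0)
    exact le_of_mul_le_mul_right h10 (by positivity)
  have hep : 0 < em E N := lt_of_lt_of_le h4 h8
  -- `em m ≤ em N` for `1 ≤ m ≤ N`
  have h9 : ∀ m, 1 ≤ m → m ≤ N → em E m ≤ em E N := by
    intro m hm1 hmN
    rcases le_or_gt m n₀ with h | h
    · exact (h5 m hm1 (h.trans h2)).trans h8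
    · have h10 := h6 m h.le
      have h11 : q m ^ 3 ≤ q N ^ 3 := pow_le_pow_left₀ (q_nonneg _) (q_mono hmN) 3
      have h12 : em E m * q N ^ 3 ≤ em E N * q N ^ 3 :=
        h10.trans (mul_le_mul_of_nonneg_left h11 he0)
      exact le_of_mul_le_mul_right h12 (by positivity)
  have h10 : ∀ t ≤ N, E t ≤ 2 * em E N := by
    intro t ht
    rcases Nat.eq_zero_or_pos t with h | h
    · rw [h, h0]; positivity
    · have := le_two_em h0 hn hs t h
      have := h9 t h ht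
      linarith
  have h11 : E k ≤ 2 * em E n₀ := by
    rcases Nat.eq_zero_or_pos k with h | h
    · rw [h, h0]; positivity
    · have := le_two_em h0 hn hs k h
      have := h5 k h hk
      linarith
  refine ⟨N, em E N, hN1, hep, h10, ?_, by linarith, ?_, ?_⟩
  · by_contra hcon
    push Not at hcon
    have h12 : S E N < em E N * N := by
      unfold S
      calc ∑ t ∈ Icc 1 N, E t < ∑ t ∈ Icc 1 N, em E N := by
            refine Finset.sum_lt_sum_of_nonempty ⟨1, by rw [Finset.mem_Icc]; omega⟩ fun t ht => ?_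
            exact hcon t (Finset.mem_Icc.mp ht).2
        _ = em E N * N := by
            rw [Finset.sum_const, Nat.card_Icc, nsmul_eq_mul]
            simp
            ring
    rw [S_eq N hN1] at h12
    exact lt_irrefl _ h12
  · rw [← q_three, ← q_three]
    have h12 : q n₀ ^ 3 ≤ q n ^ 3 := pow_le_pow_left₀ (q_nonneg _) (q_mono h2) 3
    have h13 := mul_le_mul_of_nonneg_left h12 he0
    have h14 : q N ^ 3 * E k ≤ q N ^ 3 * (2 * em E n₀) :=
      mul_le_mul_of_nonneg_left h11 (by positivity)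
    nlinarith
  · intro hN
    exact pigeon' hn hN hep (fun m hm' => h6 m (h3.trans hm')) h10

end Pool.Agent.W_7d29a1_SQ
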