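import Pool.Agent.W_7d29a1_SQ.DefsSQ
import Pool.Agent.W_7d29a1_SW.SaW35
import Pool.Agent.W_7d29a1_SD.Rs6

/-!
Theorem SQ, leaf SSC: counting at the same scale (helper35).
-/

set_option autoImplicit false

namespace Pool.Agent.W_7d29a1_SQ

open MeasureTheory ProbabilityTheory Filter Topology Pool.Agent.W_MP_7d29a1_pr
  Pool.Agent.W_7d29a1_h46 Pool.Agent.W_7d29a1_h46u Pool.Agent.W_7d29a1_D2.B35
  Pool.Agent.W_7d29a1_Q29 Pool.Agent.W_7d29a1_R34 Pool.Agent.W_7d29a1_SP Pool.Agent.W_7d29a1_SD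

/-- `ElcP` at the random level: the free energy is at most its conditional mean plus `3 M`. -/
def ElcS (d : ℕ) (ρ : Measure ℝ) (β : ℝ) : Prop := ∀ (h : Vec d) (n p : ℕ) (M θ : ℝ), 0 < M →
  RS ρ β h n p M θ →
    (law d ρ).real {η | cE ρ (Pa d p) (fun ζ => X β h ζ n) η + 3 * M < X β h η n} ≤ 12 * θ

namespace Ssc35

open Pool.Agent.W_7d29a1_SP.C79 Pool.Agent.W_7d29a1_P89 Pool.Agent.W_7d29a1_SW.SaW35

variable {d : ℕ} {ρ : Measure ℝ}

/-- The mean of the positive part of the Jensen gap. -/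
lemma gapn [IsProbabilityMeasure ρ] (hd : 0 < d) (hρ : EM ρ) (β : ℝ) (h : Vec d) (t m : ℕ)
    {Φ : ℝ} (hΦ : A ρ β h (t + m) - A ρ β h t - A ρ β h m ≤ 2 * Φ) :
    Integrable (fun η => max 0 (cE ρ (Pa d t) (fun ζ => X β h ζ (t + m)) η - X β h η t -
      A ρ β h m)) (law d ρ) ∧
      ∫ η, max 0 (cE ρ (Pa d t) (fun ζ => X β h ζ (t + m)) η - X β h η t - A ρ β h m)
        ∂(law d ρ) ≤ 2 * Φ := by
  obtain ⟨G, hG⟩ : ∃ G : Env d → ℝ, G = cE ρ (Pa d t) (fun ζ => X β h ζ (t + m)) := ⟨_, rfl⟩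
  rw [← hG]
  have hX : ∀ k, Integrable (fun η => X β h η k) (law d ρ) := fun k => (concU hd hρ β h k).1
  have hXm : ∀ k, Measurable fun η : Env d => X β h η k := fun k => measurable_X β h k
  have hGm : Measurable G := by
    rw [hG]
    exact measurable_cE (hXm (t + m)) _
  have hGi : Integrable G (law d ρ) := by
    rw [hG]
    exact (NT66.int_abs_cE (hX (t + m)) _).1
  have hGI : ∫ η, G η ∂(law d ρ) = A ρ β h (t + m) := by
    rw [hG]
    exact int_cE (ρ := ρ) _ (hX (t + m))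
  have hGd : DependsOn G (Pa d t) := by
    rw [hG]
    exact cE_dep _ _
  obtain ⟨B, hB⟩ : ∃ B : Set (Env d), B = {η | G η < X β h η t + A ρ β h m} := ⟨_, rfl⟩
  have hBm : MeasurableSet B := by
    rw [hB]
    exact measurableSet_lt hGm ((hXm t).add_const _)
  have hBd : DependsOn (fun η => η ∈ B) (Pa d t) := by
    intro η η' hη
    have h1 : G η = G η' := hGd hη
    have h2 : Z β h η t = Z β h η' t := S98.Z_dep β h t hη
    rw [hB]
    show (G η < X β h η t + A ρ β h m) = (G η' < X β h η' t + A ρ β h m)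
    unfold X
    rw [h1, h2]
  have hjen := jen79 (ρ := ρ) hd hρ β h t m hBm hBd
  have hGB : ∫ η, one B η * X β h η (t + m) ∂(law d ρ) = ∫ η, one B η * G η ∂(law d ρ) := by
    have h1 := int_mul_cE (ρ := ρ) (Pa d t) (F := fun η => X β h η (t + m)) (H := one B)
      (by
        refine (mul_int hBm (hX (t + m))).congr (Eventually.of_forall fun η => ?_)
        simp only
        ring) (one_dep hBd)
    rw [← hG] at h1
    have e1 : ∀ η, one B η * X β h η (t + m) = X β h η (t + m) * one B η := fun η => mul_comm _ _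
    have e2 : ∀ η, one B η * G η = G η * one B η := fun η => mul_comm _ _
    simp only [e1, e2]
    exact h1
  have hneg : ∫ η, one B η * (X β h η t + A ρ β h m - G η) ∂(law d ρ) ≤ 0 := by
    have e1 : ∀ η, one B η * (X β h η t + A ρ β h m - G η) =
        (one B η * X β h η t + A ρ β h m * one B η) - one B η * G η := fun η => by ring
    simp only [e1]
    have i1 : Integrable (fun η => one B η * X β h η t + A ρ β h m * one B η) (law d ρ) :=
      (mul_int hBm (hX t)).add ((one_int hBm).const_mul _)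
    rw [integral_sub i1 (mul_int hBm hGi),
      integral_add (mul_int hBm (hX t)) ((one_int hBm).const_mul _), integral_const_mul,
      one_I hBm, ← hGB]
    linarith
  have hU : Integrable (fun η => G η - X β h η t - A ρ β h m) (law d ρ) :=
    (hGi.sub (hX t)).sub (integrable_const _)
  have hUI : ∫ η, (G η - X β h η t - A ρ β h m) ∂(law d ρ) ≤ 2 * Φ := by
    have i1 : Integrable (fun η => G η - X β h η t) (law d ρ) := hGi.sub (hX t)
    rw [integral_sub i1 (integrable_const _), integral_sub hGi (hX t), hGI]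
    simp only [integral_const, probReal_univ, smul_eq_mul, one_mul]
    exact hΦ
  have hpt : ∀ η, max 0 (G η - X β h η t - A ρ β h m) ≤ (G η - X β h η t - A ρ β h m) +
      one B η * (X β h η t + A ρ β h m - G η) := by
    intro η
    by_cases hb : η ∈ B
    · rw [one_of hb, one_mul]
      rw [hB] at hb
      have hb' : G η < X β h η t + A ρ β h m := hb
      refine max_le ?_ ?_ <;> linarith
    · rw [one_not hb, zero_mul, add_zero]
      rw [hB] at hb
      have hb' : X β h η t + A ρ β h m ≤ G η := not_lt.1 hb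
      refine max_le ?_ ?_ <;> linarith
  have hmi : Integrable (fun η => max 0 (G η - X β h η t - A ρ β h m)) (law d ρ) := by
    refine (hU.abs).mono' (measurable_const.max
      ((hGm.sub (hXm _)).sub_const _)).aestronglyMeasurable (Eventually.of_forall fun η => ?_)
    rw [Real.norm_eq_abs, abs_of_nonneg (le_max_left _ _)]
    exact max_le (abs_nonneg _) (le_abs_self _)
  have hlast : Integrable (fun η => one B η * (X β h η t + A ρ β h m - G η)) (law d ρ) :=
    mul_int hBm (((hX t).add (integrable_const _)).sub hGi)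
  have hfin := integral_mono hmi (hU.add hlast) hpt
  have e5 := integral_add hU hlast
  simp only [Pi.add_apply] at hfin
  rw [e5] at hfin
  exact ⟨hmi, by linarith⟩

end Ssc35

open Ssc35 Pool.Agent.W_7d29a1_SP.C79 Pool.Agent.W_7d29a1_P89 Pool.Agent.W_7d29a1_SW.SaW35 in
/-- Leaf SSC. -/
theorem ssc35 {d : ℕ} {ρ : Measure ℝ} [IsProbabilityMeasure ρ] (hd : 0 < d) (hρ : EM ρ) {β : ℝ}
    (hE : ElcS d ρ β) : SscP d ρ β := by
  classical
  intro c₀ hc
  have hc1 : 0 ≤ |Real.log c₀| := abs_nonneg _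
  have hc2 : 0 < 8 / c₀ ^ 2 := by positivity
  refine ⟨9 + |Real.log c₀| + 8 / c₀ ^ 2, c₀ ^ 2 / 96, by linarith, by positivity,
    fun h hloc κ m x M δ Φ hκ0 hκ hm hM hδ0 hδ hRS hΦ hqx => ?_⟩
  have hX : ∀ k, Integrable (fun η => X β h η k) (law d ρ) := fun k => (concU hd hρ β h k).1
  have hXm : ∀ k, Measurable fun η : Env d => X β h η k := fun k => measurable_X β h k
  have hΦ0 : 0 ≤ Φ := by
    refine le_trans ?_ (hΦ 0 (Nat.zero_le _))
    unfold Pool.Agent.W_7d29a1_SP.En
    have := A_le_lam hd hρ β h 0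
    linarith
  have hm1 : (1 : ℝ) ≤ m := by exact_mod_cast hm
  have hm0 : (0 : ℝ) < m := by linarith
  -- a localised time
  obtain ⟨t, htm, htp, hta⟩ : ∃ t : ℕ, t < m ∧ ⌊κ * ((t + m : ℕ) : ℝ)⌋₊ ≤ t ∧
      c₀ ≤ (law d ρ).real (AS β h c₀ t) := by
    obtain ⟨F, hF⟩ : ∃ F : Finset ℕ, F = (Finset.range m).filter fun t =>
      c₀ ≤ (law d ρ).real {η | ∃ y ∈ boxF d t, c₀ * Z β h η t ≤ PP β h η t y} := ⟨_, rfl⟩
    have h1 : c₀ * m ≤ F.card := by
      rw [hF]
      exact hloc m
    have h2 : F.Nonempty := by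
      rw [← Finset.card_pos]
      have : (0 : ℝ) < F.card := lt_of_lt_of_le (by positivity) h1
      exact_mod_cast this
    obtain ⟨t, ht⟩ : ∃ t, t = F.max' h2 := ⟨_, rfl⟩
    have htF : t ∈ F := ht ▸ Finset.max'_mem F h2
    have h3 : F ⊆ Finset.range (t + 1) := by
      intro s hs
      have := Finset.le_max' F s hs
      rw [← ht] at this
      exact Finset.mem_range.2 (by omega)
    have h4 : (F.card : ℝ) ≤ t + 1 := by
      have := Finset.card_le_card h3
      rw [Finset.card_range] at this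
      exact_mod_cast this
    rw [hF] at htF
    obtain ⟨h5, h6⟩ := Finset.mem_filter.1 htF
    have h7 : t < m := Finset.mem_range.1 h5
    refine ⟨t, h7, ?_, h6⟩
    have h8 : κ * ((t + m : ℕ) : ℝ) < t + 1 := by
      push_cast
      have h9 : (t : ℝ) < m := by exact_mod_cast h7
      have h10 : κ * ((t : ℝ) + m) ≤ c₀ / 4 * (2 * m) :=
        mul_le_mul hκ (by linarith) (by positivity) (by positivity)
      have h11 : (0 : ℝ) ≤ t := Nat.cast_nonneg t
      nlinarith
    have h9 : ⌊κ * ((t + m : ℕ) : ℝ)⌋₊ < t + 1 := by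
      rw [Nat.floor_lt (by positivity)]
      push_cast at h8 ⊢
      exact h8
    omega
  -- the resampling of the rows `> t`
  have hRt : RS ρ β h (t + m) t (2 * M) (2 * δ) := by
    have h1 := coupS6 (d := d) (ρ := ρ) β (Env d × Env d) ((law d ρ).prod (law d ρ))
      (fun w => w.1) (fun w => spl (Pa d t) w.1 w.2) measurePreserving_fst (mp_spl (Pa d t))
      ⌊κ * ((t + m : ℕ) : ℝ)⌋₊ (fun w q hq => (spl_mem w.1 w.2
        (show q ∈ Pa d t from hq.trans htp)).symm) h (t + m) M δ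
      (hRS (t + m) (by omega) (by omega))
    exact h1
  have hE1 : A ρ β h (t + m) - A ρ β h t - A ρ β h m ≤ 2 * Φ := by
    have e1 := hΦ t (by omega)
    have e2 := hΦ m le_rfl
    have e3 := A_le_lam hd hρ β h (t + m)
    unfold Pool.Agent.W_7d29a1_SP.En at e1 e2
    push_cast at e3
    linarith
  obtain ⟨hUi, hUI⟩ := gapn hd hρ β h t m hE1
  obtain ⟨q, hq⟩ : ∃ q : ℝ, q = (law d ρ).real {η | A ρ β h m + x ≤ X β h η m} := ⟨_, rfl⟩
  rw [← hq] at hqx
  have hCpos : 0 < 9 + |Real.log c₀| + 8 / c₀ ^ 2 := by linarith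
  have hq0 : 0 < q := lt_of_lt_of_le (by positivity) hqx
  have hcount := count (ρ := ρ) hd β h hc t m (A ρ β h m + x) (2 * M) hta
  rw [← hq] at hcount
  have hD : ((law d ρ).prod (law d ρ)).real {w | 2 * M < |X β h w.1 (t + m) -
        X β h (spl (Pa d t) w.1 w.2) (t + m)|} ≤ 2 * δ := hRt
  obtain ⟨P, hP⟩ : ∃ P : ℝ, P = (law d ρ).real {η | A ρ β h m + x + Real.log c₀ - 2 * M ≤
    X β h η (t + m) - X β h η t} := ⟨_, rfl⟩
  rw [← hP] at hcount
  have hP1 : c₀ ^ 2 / 2 ≤ P := by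
    have h1 : 2 * δ / c₀ ≤ c₀ * q / 2 := by
      have h2 : 8 / c₀ ^ 2 * δ ≤ q := by
        refine le_trans ?_ hqx
        exact mul_le_mul_of_nonneg_right (by linarith) hδ0.le
      have h3 : 8 * δ ≤ q * c₀ ^ 2 := by
        have h4 : 8 / c₀ ^ 2 * δ = 8 * δ / c₀ ^ 2 := by ring
        rw [h4, div_le_iff₀ (by positivity)] at h2
        exact h2
      rw [div_le_iff₀ hc]
      nlinarith
    have h5 := (div_le_div_iff_of_pos_right hc).2 hD
    have h3 : q * c₀ ≤ q * (P / c₀) + c₀ * q / 2 := by linarith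
    have h4 : q * (c₀ / 2) ≤ q * (P / c₀) := by linarith
    have h5 := le_of_mul_le_mul_left h4 hq0
    rw [le_div_iff₀ hc] at h5
    linarith
  have hEl := hE h (t + m) t (2 * M) (2 * δ) (by linarith) hRt
  -- Markov
  obtain ⟨z, hz⟩ : ∃ z : ℝ, z = x + Real.log c₀ - 8 * M := ⟨_, rfl⟩
  have hzb : z ≤ 8 / c₀ ^ 2 * Φ := by
    have hR : 0 ≤ 8 / c₀ ^ 2 * Φ := by positivity
    rcases le_or_gt z 0 with hz0 | hz0
    · linarith
    · have h1 := mul_meas_ge_le_integral_of_nonneg (μ := law d ρ)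
        (f := fun η => max 0 (cE ρ (Pa d t) (fun ζ => X β h ζ (t + m)) η - X β h η t -
          A ρ β h m)) (Eventually.of_forall fun η => le_max_left _ _) hUi z
      have h2 : {η | A ρ β h m + x + Real.log c₀ - 2 * M ≤ X β h η (t + m) - X β h η t} ⊆
          {η | z ≤ max 0 (cE ρ (Pa d t) (fun ζ => X β h ζ (t + m)) η - X β h η t -
            A ρ β h m)} ∪
          {η | cE ρ (Pa d t) (fun ζ => X β h ζ (t + m)) η + 3 * (2 * M) <
            X β h η (t + m)} := by
        intro η hη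
        have h3 : A ρ β h m + x + Real.log c₀ - 2 * M ≤ X β h η (t + m) - X β h η t := hη
        rcases lt_or_ge (cE ρ (Pa d t) (fun ζ => X β h ζ (t + m)) η + 3 * (2 * M))
          (X β h η (t + m)) with h4 | h4
        · exact Or.inr h4
        · left
          show z ≤ max 0 (cE ρ (Pa d t) (fun ζ => X β h ζ (t + m)) η - X β h η t - A ρ β h m)
          refine le_trans ?_ (le_max_right _ _)
          rw [hz]
          linarith
      have h3 := (measureReal_mono (μ := law d ρ) h2).trans (measureReal_union_le _ _)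
      rw [← hP] at h3
      have h4 : c₀ ^ 2 / 4 ≤ (law d ρ).real {η | z ≤ max 0 (cE ρ (Pa d t)
          (fun ζ => X β h ζ (t + m)) η - X β h η t - A ρ β h m)} := by
        linarith
      have h5 : z * (c₀ ^ 2 / 4) ≤ 2 * Φ :=
        (mul_le_mul_of_nonneg_left h4 hz0.le).trans (h1.trans hUI)
      have h6 : 4 / c₀ ^ 2 * (z * (c₀ ^ 2 / 4)) = z := by
        field_simp
      have h7 : 4 / c₀ ^ 2 * (2 * Φ) = 8 / c₀ ^ 2 * Φ := by ring
      rw [← h6, ← h7]
      exact mul_le_mul_of_nonneg_left h5 (by positivity)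
  have h5 : -|Real.log c₀| ≤ Real.log c₀ := neg_abs_le _
  have h6 : x = z - Real.log c₀ + 8 * M := by
    rw [hz]
    ring
  have n1 : 0 ≤ |Real.log c₀| * Φ := mul_nonneg hc1 hΦ0
  have n2 : 0 ≤ |Real.log c₀| * M := mul_nonneg hc1 hM.le
  have n3 : 0 ≤ 8 / c₀ ^ 2 * M := mul_nonneg hc2.le hM.le
  have e9 : (9 + |Real.log c₀| + 8 / c₀ ^ 2) * (Φ + M + 1) =
      (8 / c₀ ^ 2 * Φ + |Real.log c₀| + 8 * M) +
      (9 * Φ + M + 9 + |Real.log c₀| * Φ + |Real.log c₀| * M + 8 / c₀ ^ 2 * M +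
        8 / c₀ ^ 2) := by ring
  rw [e9]
  linarith

end Pool.Agent.W_7d29a1_SQ
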