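import Pool.Agent.W_7d29a1_SQ.DefsSQ
import Pool.Agent.W_7d29a1_SD.TrSD80
import Pool.Agent.W_7d29a1_S90.TopP17

/-!
THEOREM SQ for an arbitrary probability space, first moments.
-/

namespace Pool.Agent.W_7d29a1_SQ

open MeasureTheory ProbabilityTheory Filter Topology Pool.Agent.W_MP_7d29a1_pr
  Pool.Agent.W_7d29a1_h46 Pool.Agent.W_7d29a1_h46u Pool.Agent.W_7d29a1_D2.B35
  Pool.Agent.W_7d29a1_Q29 Pool.Agent.W_7d29a1_SD Pool.Agent.W_7d29a1_S90

variable {Ω : Type*} [MeasurableSpace Ω] {μ : Measure Ω} [IsProbabilityMeasure μ] {d : ℕ}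
  {ρ : Measure ℝ} [IsProbabilityMeasure ρ] {ω : ℕ × Site d → Ω → ℝ} {β : ℝ}

/-- Markov's inequality for the polymer measure. -/
lemma pe_markov32 (hd : 0 < d) (β : ℝ) (h v : Vec d) (η : Env d) {n : ℕ} {r : ℝ} :
    r * PolT β h η {s : Fin n → Step d | ∃ i ≤ n, r < ‖emb (pos s i) - (i : ℝ) • v‖} ≤
      pe β h η (fun s : Fin n → Step d =>
        ‖fun i : Fin (n + 1) => emb (pos s i) - ((i : ℕ) : ℝ) • v‖) := by
  classical
  have hZ : Z β h η n = ZT β h η (Set.univ : Set (Fin n → Step d)) := rfl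
  unfold pe PolT
  rw [hZ, ← mul_div_assoc]
  refine div_le_div_of_nonneg_right ?_ (ZT_univ_pos (n := n) hd β h η).le
  unfold ZT
  rw [Finset.mul_sum]
  refine Finset.sum_le_sum fun s _ => ?_
  have h3 : 0 < wgt β h η s := Real.exp_pos _
  by_cases hs : s ∈ {s : Fin n → Step d | ∃ i ≤ n, r < ‖emb (pos s i) - (i : ℝ) • v‖}
  · rw [if_pos hs]
    obtain ⟨i, hi, hlt⟩ := hs
    have h1 := norm_le_pi_norm (fun i : Fin (n + 1) => emb (pos s i) - ((i : ℕ) : ℝ) • v)
      (⟨i, Nat.lt_succ_of_le hi⟩ : Fin (n + 1))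
    have h2 : r ≤ ‖fun i : Fin (n + 1) => emb (pos s i) - ((i : ℕ) : ℝ) • v‖ :=
      hlt.le.trans h1
    rw [mul_comm]
    exact mul_le_mul_of_nonneg_left h2 h3.le
  · rw [if_neg hs, mul_zero]
    exact mul_nonneg h3.le (norm_nonneg _)

lemma integrable_pe32 (hd : 0 < d) (β : ℝ) (h : Vec d) {n : ℕ} (f : (Fin n → Step d) → ℝ) :
    Integrable (fun η => pe β h η f) (law d ρ) := by
  classical
  have hm : Measurable fun η : Env d => pe β h η f := by
    unfold pe Z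
    exact (Finset.measurable_sum _ fun s _ => (measurable_wgt β h s).mul_const _).div
      (measurable_ZT β h _)
  refine Integrable.mono' (integrable_const (∑ s, |f s|)) hm.aestronglyMeasurable
    (ae_of_all _ fun η => ?_)
  have hpos : 0 < Z β h η n := ZT_univ_pos (n := n) hd β h η
  have hZ : Z β h η n = ∑ s : Fin n → Step d, wgt β h η s := by
    unfold Z ZT
    simp
  unfold pe
  rw [Real.norm_eq_abs, abs_div, abs_of_pos hpos, div_le_iff₀ hpos]
  refine (Finset.abs_sum_le_sum_abs _ _).trans ?_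
  rw [hZ, Finset.sum_mul_sum]
  refine Finset.sum_le_sum fun s _ => ?_
  have h3 : 0 < wgt β h η s := Real.exp_pos _
  rw [abs_mul, abs_of_pos h3, mul_comm]
  refine Finset.single_le_sum (f := fun s' => |f s| * wgt β h η s')
    (fun s' _ => mul_nonneg (abs_nonneg _) (Real.exp_pos _).le) (Finset.mem_univ s)

/-- **THEOREM SQ** for an arbitrary i.i.d. environment, first moment of the maximal distance. -/
theorem trSQ32 (hω : IID μ ρ ω) (hd : d = 2)
    (hM : ∀ᵐ v : Vec d, ∀ h : Vec d, VSD ρ β h → ∃ c : ℝ, 0 < c ∧ ∃ᶠ n : ℕ in atTop,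
      ∃ R : ℝ, 1 ≤ R ∧ Real.exp (c * Real.sqrt (Real.log n)) < R * Tb ρ β h v R n) :
    ∀ᵐ v : Vec d, ∀ h : Vec d, VSD ρ β h → ∃ c : ℝ, 0 < c ∧ ∃ᶠ n : ℕ in atTop,
      Real.sqrt n * Real.exp (c * Real.sqrt (Real.log n)) ≤
        ∫ x, ∑ s : Fin n → Step d, PolT β h (fun p => ω p x) {s} *
          ‖fun i : Fin (n + 1) => emb (pos s i) - ((i : ℕ) : ℝ) • v‖ ∂μ := by
  have hd0 : 0 < d := by omega
  filter_upwards [hM] with v hv h hV
  obtain ⟨c, hc, hF⟩ := hv h hV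
  refine ⟨c, hc, hF.mono fun n hn => ?_⟩
  obtain ⟨R, hR, hlt⟩ := hn
  rw [tr17 hd0 hω h]
  have h1 : Real.sqrt n * (R * Tb ρ β h v R n) ≤
      ∫ η, pe β h η (fun s : Fin n → Step d =>
        ‖fun i : Fin (n + 1) => emb (pos s i) - ((i : ℕ) : ℝ) • v‖) ∂(law d ρ) := by
    unfold Tb
    rw [← mul_assoc, ← integral_const_mul]
    refine integral_mono_of_nonneg (ae_of_all _ fun η => ?_) (integrable_pe32 hd0 β h _)
      (ae_of_all _ fun η => ?_)
    · exact mul_nonneg (mul_nonneg (Real.sqrt_nonneg _) (by linarith))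
        (sub_nonneg.2 (PolT_le_one β h η _))
    · simp only
      rw [← TrSD80.pol_out80 hd0 β h v (R * Real.sqrt n) n η, mul_comm (Real.sqrt n) R]
      exact pe_markov32 hd0 β h v η
  exact (mul_le_mul_of_nonneg_left hlt.le (Real.sqrt_nonneg _)).trans h1

end Pool.Agent.W_7d29a1_SQ
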